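import Pool.Agent.MP_67227b_nt.Pp.PpDefs
import Pool.Agent.MP_67227b_nt.Mo.PrimeSq
import Pool.Agent.BrunHooley.Mertens

set_option autoImplicit false

open Filter Topology Set MeasureTheory Complex
open scoped Real ArithmeticFunction ContDiff

namespace Pool.Agent.MP_67227b_nt.Pp

open Pool.Agent.Lib.ZetaCount_helper33 Pool.Agent.MP_67227b_nt Pool.Agent.MP_67227b_nt.Mo
open Pool.Agent.MP_67227b_nt.Sg
open Pool.Agent.MP_67227b_nt.Mo.MomentBAux (DP)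

private lemma N1_abs_M {x : ℝ} (hx : 1 ≤ x) :
    |Pool.Agent.BrunHooley.MertensAux.M ⌊x⌋₊ - Real.log x| ≤ 6 := by
  have hn : ⌊x⌋₊ ≠ 0 := by
    have := (Nat.one_le_floor_iff x).mpr hx
    omega
  have hn1 : (1 : ℝ) ≤ (⌊x⌋₊ : ℝ) := by exact_mod_cast Nat.one_le_iff_ne_zero.mpr hn
  have h1 := Pool.Agent.BrunHooley.MertensAux.M_ge _ hn
  have h2 := Pool.Agent.BrunHooley.MertensAux.M_le _ hn
  have hle : (⌊x⌋₊ : ℝ) ≤ x := Nat.floor_le (by linarith)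
  have hlt : x < (⌊x⌋₊ : ℝ) + 1 := Nat.lt_floor_add_one x
  have h3 : Real.log (⌊x⌋₊ : ℝ) ≤ Real.log x := Real.log_le_log (by linarith) hle
  have h4 : Real.log x ≤ Real.log 2 + Real.log (⌊x⌋₊ : ℝ) := by
    rw [← Real.log_mul (by norm_num) (by linarith)]
    exact Real.log_le_log (by linarith) (by linarith)
  have hlog2 := Real.log_two_lt_d9
  have hlog4 : Real.log 4 = 2 * Real.log 2 := by
    rw [show (4 : ℝ) = 2 ^ 2 by norm_num, Real.log_pow]; norm_num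
  rw [abs_le]
  constructor <;> linarith

private lemma N1_split {a b : ℕ} (hab : a ≤ b) :
    ∑ n ∈ Finset.Ioc a b, Λ n / n =
      Pool.Agent.BrunHooley.MertensAux.M b - Pool.Agent.BrunHooley.MertensAux.M a := by
  have h1 : Pool.Agent.BrunHooley.MertensAux.M b =
      Pool.Agent.BrunHooley.MertensAux.M a + ∑ d ∈ Finset.Ioc a b, Λ d / d := by
    rw [Pool.Agent.BrunHooley.MertensAux.M, Pool.Agent.BrunHooley.MertensAux.M,
      ← Finset.sum_union]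
    · congr 1
      ext z; simp only [Finset.mem_Ioc, Finset.mem_union]; omega
    · rw [Finset.disjoint_left]; intro z; simp only [Finset.mem_Ioc]; omega
  rw [h1]; ring

/-- MODULE N1a. Mertens: from `∑_{n ≤ x} Λ(n)/n = log x + O(1)` (Mo/PrimeSq or BrunHooley/Mertens). -/
theorem sum_vonMangoldt_div : ∃ C : ℝ, 0 < C ∧ ∀ x y : ℝ, 1 ≤ x → x ≤ y →
    |(∑ n ∈ Finset.Ioc ⌊x⌋₊ ⌊y⌋₊, Λ n / n) - (Real.log y - Real.log x)| ≤ C := by
  refine ⟨12, by norm_num, fun x y hx hxy => ?_⟩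
  rw [N1_split (Nat.floor_mono hxy)]
  have h1 := N1_abs_M hx
  have h2 := N1_abs_M (hx.trans hxy)
  rw [abs_le] at h1 h2 ⊢
  constructor <;> linarith [h1.1, h1.2, h2.1, h2.2]

/-- MODULE N1b. The same for primes: the prime powers contribute `O(1)` (`exists_nonprime`,
Mo/PrimeSq). -/
theorem sum_prime_div : ∃ C : ℝ, 0 < C ∧ ∀ x y : ℝ, 1 ≤ x → x ≤ y →
    |(∑ p ∈ (Finset.Ioc ⌊x⌋₊ ⌊y⌋₊).filter Nat.Prime, Real.log p / p) -
      (Real.log y - Real.log x)| ≤ C := by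
  obtain ⟨C, hC, h⟩ := sum_vonMangoldt_div
  obtain ⟨D, hD, hd⟩ := PrimeSqAux.exists_nonprime
  refine ⟨C + D, by linarith, fun x y hx hxy => ?_⟩
  have h1 := h x y hx hxy
  have h2 : ∑ n ∈ Finset.Ioc ⌊x⌋₊ ⌊y⌋₊, Λ n / n =
      (∑ p ∈ (Finset.Ioc ⌊x⌋₊ ⌊y⌋₊).filter Nat.Prime, Real.log p / p) +
        ∑ d ∈ Finset.Ioc ⌊x⌋₊ ⌊y⌋₊, (if d.Prime then 0 else Λ d) / (d : ℝ) := by
    rw [Finset.sum_filter, ← Finset.sum_add_distrib]
    refine Finset.sum_congr rfl fun d _ => ?_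
    split_ifs with hp
    · rw [ArithmeticFunction.vonMangoldt_apply_prime hp]; ring
    · ring
  have hnn : ∀ d : ℕ, 0 ≤ (if d.Prime then 0 else Λ d) / (d : ℝ) := by
    intro d
    split_ifs
    · simp
    · positivity
  have h3 : 0 ≤ ∑ d ∈ Finset.Ioc ⌊x⌋₊ ⌊y⌋₊, (if d.Prime then 0 else Λ d) / (d : ℝ) :=
    Finset.sum_nonneg fun d _ => hnn d
  have h4 : ∑ d ∈ Finset.Ioc ⌊x⌋₊ ⌊y⌋₊, (if d.Prime then 0 else Λ d) / (d : ℝ) ≤ D := by
    refine le_trans (Finset.sum_le_sum_of_subset_of_nonneg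
      (Finset.Ioc_subset_Ioc_left (Nat.zero_le _)) fun d _ _ => hnn d) (hd _)
  rw [abs_le] at h1 ⊢
  constructor <;> linarith [h1.1, h1.2]

end Pool.Agent.MP_67227b_nt.Pp
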