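import Pool.Agent.MP_67227b_nt.Pp.PpF

set_option autoImplicit false

open Filter Topology Set MeasureTheory Complex
open scoped Real ArithmeticFunction ContDiff

namespace Pool.Agent.MP_67227b_nt.Pp

open Pool.Agent.Lib.ZetaCount_helper33 Pool.Agent.MP_67227b_nt Pool.Agent.MP_67227b_nt.Mo
open Pool.Agent.MP_67227b_nt.Sg
open Pool.Agent.MP_67227b_nt.Mo.MomentBAux (DP)

/-- The integral of `z e^{zx}` over the part of `[0, κ]` to the right of `a`. -/
theorem N3C_int {κ a : ℝ} (ha : 0 ≤ a) (haκ : a ≤ κ) (z : ℂ) :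
    z * ∫ x in (0 : ℝ)..κ, Complex.exp (z * x) * (if a ≤ x then (1 : ℂ) else 0) =
      Complex.exp (z * κ) - Complex.exp (z * a) := by
  have hc : Continuous (fun x : ℝ => Complex.exp (z * x)) := by fun_prop
  have hcz : Continuous (fun x : ℝ => z * Complex.exp (z * x)) := by fun_prop
  have h1 : ∫ x in (0 : ℝ)..κ, Complex.exp (z * x) * (if a ≤ x then (1 : ℂ) else 0) =
      ∫ x in a..κ, Complex.exp (z * x) := by
    rw [intervalIntegral.integral_of_le (ha.trans haκ), intervalIntegral.integral_of_le haκ]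
    have e1 : (fun x : ℝ => Complex.exp (z * x) * (if a ≤ x then (1 : ℂ) else 0)) =
        (Ici a).indicator (fun x : ℝ => Complex.exp (z * x)) := by
      funext x
      by_cases hx : a ≤ x
      · rw [if_pos hx, mul_one, Set.indicator_of_mem (by exact hx)]
      · rw [if_neg hx, mul_zero, Set.indicator_of_notMem (by exact hx)]
    rw [e1, MeasureTheory.integral_indicator measurableSet_Ici,
      Measure.restrict_restrict measurableSet_Ici]
    apply setIntegral_congr_set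
    have h2 : (Ici a ∩ Ioc 0 κ : Set ℝ) =ᵐ[volume] (Ioi a ∩ Ioc 0 κ : Set ℝ) :=
      (Ioi_ae_eq_Ici (μ := volume) (a := a)).symm.inter (ae_eq_refl _)
    have h5 : (Ioi a ∩ Ioc 0 κ : Set ℝ) = Ioc a κ := by
      ext x
      simp only [mem_inter_iff, mem_Ioi, mem_Ioc]
      constructor
      · rintro ⟨h3, -, h4⟩
        exact ⟨h3, h4⟩
      · rintro ⟨h3, h4⟩
        exact ⟨h3, lt_of_le_of_lt ha h3, h4⟩
    rw [h5] at h2
    exact h2
  rw [h1, ← intervalIntegral.integral_const_mul]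
  have hd : ∀ x ∈ Set.uIcc a κ, HasDerivAt (fun x : ℝ => Complex.exp (z * x))
      (z * Complex.exp (z * x)) x := by
    intro x _
    have h2 : HasDerivAt (fun x : ℝ => z * (x : ℂ)) z x := by
      simpa using (Complex.ofRealCLM.hasDerivAt (x := x)).const_mul z
    have h3 := h2.cexp
    simpa [mul_comm] using h3
  exact intervalIntegral.integral_eq_sub_of_hasDerivAt hd (hcz.intervalIntegrable _ _)

theorem N3C_step {κ a : ℝ} (z : ℂ) : IntervalIntegrable
    (fun x : ℝ => Complex.exp (z * x) * (if a ≤ x then (1 : ℂ) else 0)) volume 0 κ := by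
  have hc : Continuous (fun x : ℝ => Complex.exp (z * x)) := by fun_prop
  have e1 : (fun x : ℝ => Complex.exp (z * x) * (if a ≤ x then (1 : ℂ) else 0)) =
      (Ici a).indicator (fun x : ℝ => Complex.exp (z * x)) := by
    funext x
    by_cases hx : a ≤ x
    · rw [if_pos hx, mul_one, Set.indicator_of_mem (by exact hx)]
    · rw [if_neg hx, mul_zero, Set.indicator_of_notMem (by exact hx)]
  rw [e1, intervalIntegrable_iff]
  exact (intervalIntegrable_iff.1 (hc.intervalIntegrable 0 κ)).indicator measurableSet_Ici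

open Classical in
/-- MODULE N3c. Abel summation:
`∑_{n ∈ R, n ≤ T^κ} (1/n) e^{z x_n} = e^{zκ} F(κ) - z ∫_0^κ e^{zx} F(x) dx`. -/
theorem FF_abel {T δ κ : ℝ} (hT : 1 < T) (hκ : 0 ≤ κ) (z : ℂ) :
    (∑ n ∈ Finset.Icc 1 ⌊T ^ κ⌋₊, if Squarefree n ∧ Rgh (δ * Real.log T) n then
        (1 / (n : ℂ)) * Complex.exp (z * ((Real.log n / Real.log T : ℝ) : ℂ)) else 0) =
      Complex.exp (z * κ) * (FF T δ κ : ℂ) -
        z * ∫ x in (0 : ℝ)..κ, Complex.exp (z * x) * (FF T δ x : ℂ) := by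
  have hT0 : 0 < T := by linarith
  have hL : 0 < Real.log T := Real.log_pos hT
  set R : ℕ → Prop := fun n => Squarefree n ∧ Rgh (δ * Real.log T) n with hR
  set N : Finset ℕ := (Finset.Icc 1 ⌊T ^ κ⌋₊).filter R with hN
  have hfl : ∀ x : ℝ, ∀ n : ℕ, 1 ≤ n → (n ≤ ⌊T ^ x⌋₊ ↔ Real.log n / Real.log T ≤ x) := by
    intro x n hn
    have hn0 : (0 : ℝ) < n := by exact_mod_cast hn
    rw [Nat.le_floor_iff (Real.rpow_pos_of_pos hT0 x).le, div_le_iff₀ hL,
      ← Real.log_rpow hT0, Real.log_le_log_iff hn0 (Real.rpow_pos_of_pos hT0 x)]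
  have hFx : ∀ x ∈ Set.Icc (0 : ℝ) κ, (FF T δ x : ℂ) =
      ∑ n ∈ N, (1 / (n : ℂ)) * (if Real.log n / Real.log T ≤ x then (1 : ℂ) else 0) := by
    intro x hx
    have h1 : (Finset.Icc 1 ⌊T ^ x⌋₊).filter R =
        N.filter (fun n : ℕ => Real.log n / Real.log T ≤ x) := by
      ext n
      simp only [hN, Finset.mem_filter, Finset.mem_Icc]
      constructor
      · rintro ⟨⟨h1, h2⟩, h3⟩
        have h4 := (hfl x n h1).1 h2
        exact ⟨⟨⟨h1, (hfl κ n h1).2 (h4.trans hx.2)⟩, h3⟩, h4⟩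
      · rintro ⟨⟨⟨h1, -⟩, h3⟩, h4⟩
        exact ⟨⟨h1, (hfl x n h1).2 h4⟩, h3⟩
    have h2 : FF T δ x = ∑ n ∈ (Finset.Icc 1 ⌊T ^ x⌋₊).filter R, (1 : ℝ) / n := by
      unfold FF
      congr!
    rw [h2, h1, Finset.sum_filter]
    push_cast
    refine Finset.sum_congr rfl fun n _ => ?_
    by_cases h : Real.log n / Real.log T ≤ x
    · simp [h]
    · simp [h]
  have hmemN : ∀ n ∈ N, 0 ≤ Real.log n / Real.log T ∧ Real.log n / Real.log T ≤ κ := by
    intro n hn
    obtain ⟨h1, -⟩ := Finset.mem_filter.1 hn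
    obtain ⟨h2, h3⟩ := Finset.mem_Icc.1 h1
    exact ⟨div_nonneg (Real.log_natCast_nonneg n) hL.le, (hfl κ n h2).1 h3⟩
  have hint : ∫ x in (0 : ℝ)..κ, Complex.exp (z * x) * (FF T δ x : ℂ) =
      ∑ n ∈ N, (1 / (n : ℂ)) * ∫ x in (0 : ℝ)..κ, Complex.exp (z * x) *
        (if Real.log n / Real.log T ≤ x then (1 : ℂ) else 0) := by
    have h1 : ∫ x in (0 : ℝ)..κ, Complex.exp (z * x) * (FF T δ x : ℂ) =
        ∫ x in (0 : ℝ)..κ, ∑ n ∈ N, (1 / (n : ℂ)) * (Complex.exp (z * x) *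
          (if Real.log n / Real.log T ≤ x then (1 : ℂ) else 0)) := by
      apply intervalIntegral.integral_congr
      intro x hx
      rw [Set.uIcc_of_le hκ] at hx
      simp only
      rw [hFx x hx, Finset.mul_sum]
      refine Finset.sum_congr rfl fun n _ => ?_
      ring
    rw [h1, intervalIntegral.integral_finsetSum]
    · refine Finset.sum_congr rfl fun n _ => ?_
      rw [intervalIntegral.integral_const_mul]
    · intro n _
      exact (N3C_step z).const_mul _
  have hFκ : (FF T δ κ : ℂ) = ∑ n ∈ N, (1 / (n : ℂ)) := by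
    rw [hFx κ (Set.right_mem_Icc.2 hκ)]
    refine Finset.sum_congr rfl fun n hn => ?_
    rw [if_pos (hmemN n hn).2, mul_one]
  rw [hint, hFκ, ← Finset.sum_filter, Finset.mul_sum, Finset.mul_sum, ← Finset.sum_sub_distrib]
  refine Finset.sum_congr rfl fun n hn => ?_
  have h2 := N3C_int (hmemN n hn).1 (hmemN n hn).2 z
  have h3 : z * ((1 / (n : ℂ)) * ∫ x in (0 : ℝ)..κ, Complex.exp (z * x) *
      (if Real.log n / Real.log T ≤ x then (1 : ℂ) else 0)) = (1 / (n : ℂ)) *
      (Complex.exp (z * κ) - Complex.exp (z * ((Real.log n / Real.log T : ℝ) : ℂ))) := by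
    rw [← h2]; ring
  rw [h3]
  ring

end Pool.Agent.MP_67227b_nt.Pp
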