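import Pool.Agent.MP_67227b_nt.Pp.PpF

set_option autoImplicit false

open Filter Topology Set MeasureTheory Complex
open scoped Real ArithmeticFunction ContDiff

namespace Pool.Agent.MP_67227b_nt.Pp

open Pool.Agent.Lib.ZetaCount_helper33 Pool.Agent.MP_67227b_nt Pool.Agent.MP_67227b_nt.Mo
open Pool.Agent.MP_67227b_nt.Sg
open Pool.Agent.MP_67227b_nt.Mo.MomentBAux (DP)

open Classical in
/-- the rough squarefree numbers up to `T^y` -/
private noncomputable def RR (T δ y : ℝ) : Finset ℕ :=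
  (Finset.Icc 1 ⌊T ^ y⌋₊).filter (fun n => Squarefree n ∧ Rgh (δ * Real.log T) n)

private theorem FF_eq (T δ y : ℝ) : FF T δ y = ∑ n ∈ RR T δ y, (1 : ℝ) / n := by
  unfold FF RR
  congr

private theorem mem_RR {T δ y : ℝ} {n : ℕ} :
    n ∈ RR T δ y ↔ (1 ≤ n ∧ n ≤ ⌊T ^ y⌋₊) ∧ Squarefree n ∧ Rgh (δ * Real.log T) n := by
  unfold RR
  simp only [Finset.mem_filter, Finset.mem_Icc]

private theorem le_floor_iff_log {T x : ℝ} (hT : 1 < T) {n : ℕ} (hn : 1 ≤ n) :
    n ≤ ⌊T ^ x⌋₊ ↔ Real.log n / Real.log T ≤ x := by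
  have hL : 0 < Real.log T := Real.log_pos hT
  have hn0 : (0 : ℝ) < n := by exact_mod_cast hn
  rw [Nat.le_floor_iff (Real.rpow_nonneg (by linarith) x), div_le_iff₀ hL,
    ← Real.log_rpow (by linarith : 0 < T)]
  exact (Real.log_le_log_iff hn0 (Real.rpow_pos_of_pos (by linarith) x)).symm

private theorem int_step (a c y : ℝ) (hc : 0 ≤ c) (hcy : c ≤ y) :
    (∫ x in (0 : ℝ)..y, if c ≤ x then a else 0) = a * (y - c) := by
  have h1 : (∫ x in (0 : ℝ)..y, if c ≤ x then a else 0) =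
      ∫ x in (0 : ℝ)..y, Set.indicator (Ioi c) (fun _ => a) x := by
    apply intervalIntegral.integral_congr_ae
    have : ∀ᵐ x : ℝ, x ≠ c := by
      rw [ae_iff]
      have : {x : ℝ | ¬ x ≠ c} = {c} := by ext; simp
      rw [this]
      exact Real.volume_singleton
    filter_upwards [this] with x hx _
    by_cases h : c < x
    · rw [if_pos h.le, Set.indicator_of_mem (show x ∈ Ioi c from h)]
    · have h' : ¬ c ≤ x := fun h2 => h (lt_of_le_of_ne h2 (Ne.symm hx))
      rw [if_neg h', Set.indicator_of_notMem (show x ∉ Ioi c from h)]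
  rw [h1, intervalIntegral.integral_of_le (hc.trans hcy), setIntegral_indicator measurableSet_Ioi,
    setIntegral_const, Ioc_inter_Ioi, max_eq_right hc, Real.volume_real_Ioc_of_le hcy, smul_eq_mul]
  ring

private theorem FF_step {T δ y x : ℝ} (hT : 1 < T) (hxy : x ≤ y) :
    FF T δ x = ∑ n ∈ RR T δ y, if Real.log n / Real.log T ≤ x then (1 : ℝ) / n else 0 := by
  rw [FF_eq, ← Finset.sum_filter]
  congr 1
  ext n
  rw [Finset.mem_filter, mem_RR, mem_RR]
  constructor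
  · rintro ⟨⟨h1, h2⟩, h3⟩
    have h4 := (le_floor_iff_log hT h1).mp h2
    exact ⟨⟨⟨h1, (le_floor_iff_log hT h1).mpr (h4.trans hxy)⟩, h3⟩, h4⟩
  · rintro ⟨⟨⟨h1, _⟩, h3⟩, h4⟩
    exact ⟨⟨h1, (le_floor_iff_log hT h1).mpr h4⟩, h3⟩

private theorem FF_int {T δ y : ℝ} (hT : 1 < T) (hy : 0 ≤ y) :
    (∫ x in (0 : ℝ)..y, FF T δ x) = ∑ n ∈ RR T δ y, (1 : ℝ) / n * (y - Real.log n / Real.log T) := by
  have hL : 0 < Real.log T := Real.log_pos hT
  have h1 : (∫ x in (0 : ℝ)..y, FF T δ x) = ∫ x in (0 : ℝ)..y,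
      ∑ n ∈ RR T δ y, if Real.log n / Real.log T ≤ x then (1 : ℝ) / n else 0 := by
    apply intervalIntegral.integral_congr
    intro x hx
    rw [uIcc_of_le hy] at hx
    exact FF_step hT hx.2
  rw [h1, intervalIntegral.integral_finsetSum]
  · apply Finset.sum_congr rfl
    intro n hn
    have hn' := mem_RR.mp hn
    apply int_step
    · exact div_nonneg (Real.log_natCast_nonneg n) hL.le
    · exact (le_floor_iff_log hT hn'.1.1).mp hn'.1.2
  · intro n _
    have hm : Monotone (fun x : ℝ => if Real.log n / Real.log T ≤ x then (1 : ℝ) / n else 0) := by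
      intro a b hab
      simp only
      by_cases h : Real.log n / Real.log T ≤ a
      · rw [if_pos h, if_pos (h.trans hab)]
      · rw [if_neg h]
        split_ifs
        · positivity
        · exact le_rfl
    exact hm.intervalIntegrable

open Classical in
/-- the primes that can be multiplied to `m` -/
private noncomputable def QQ (T δ y : ℝ) (m : ℕ) : Finset ℕ :=
  (Finset.Icc 1 ⌊T ^ y⌋₊).filter
    (fun p => p.Prime ∧ δ * Real.log T ≤ Real.log p ∧ ¬ p ∣ m ∧ m * p ≤ ⌊T ^ y⌋₊)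

private theorem mem_QQ {T δ y : ℝ} {m p : ℕ} : p ∈ QQ T δ y m ↔
    (1 ≤ p ∧ p ≤ ⌊T ^ y⌋₊) ∧ p.Prime ∧ δ * Real.log T ≤ Real.log p ∧ ¬ p ∣ m ∧ m * p ≤ ⌊T ^ y⌋₊ := by
  unfold QQ
  rw [Finset.mem_filter, Finset.mem_Icc]

private theorem log_sqf {n : ℕ} (hn : Squarefree n) : Real.log n = ∑ p ∈ n.primeFactors, Real.log p := by
  conv_lhs => rw [← Nat.prod_primeFactors_of_squarefree hn]
  rw [Nat.cast_prod, Real.log_prod]
  intro p hp
  exact_mod_cast (Nat.prime_of_mem_primeFactors hp).ne_zero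

private theorem log_identity {T δ y : ℝ} :
    ∑ n ∈ RR T δ y, (1 : ℝ) / n * Real.log n =
      ∑ m ∈ RR T δ y, (1 : ℝ) / m * ∑ p ∈ QQ T δ y m, Real.log p / p := by
  have h1 : ∑ n ∈ RR T δ y, (1 : ℝ) / n * Real.log n =
      ∑ n ∈ RR T δ y, ∑ p ∈ n.primeFactors, (1 : ℝ) / n * Real.log p := by
    apply Finset.sum_congr rfl
    intro n hn
    rw [← Finset.mul_sum, ← log_sqf (mem_RR.mp hn).2.1]
  have h2 : ∑ m ∈ RR T δ y, (1 : ℝ) / m * ∑ p ∈ QQ T δ y m, Real.log p / p =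
      ∑ m ∈ RR T δ y, ∑ p ∈ QQ T δ y m, (1 : ℝ) / m * (Real.log p / p) := by
    apply Finset.sum_congr rfl
    intro n _
    rw [Finset.mul_sum]
  rw [h1, h2, Finset.sum_sigma', Finset.sum_sigma']
  refine Finset.sum_bij' (fun a _ => (⟨a.1 / a.2, a.2⟩ : (_ : ℕ) × ℕ))
    (fun a _ => (⟨a.1 * a.2, a.2⟩ : (_ : ℕ) × ℕ)) ?_ ?_ ?_ ?_ ?_
  · rintro ⟨n, p⟩ h
    simp only [Finset.mem_sigma] at h ⊢
    obtain ⟨hn, hp⟩ := h
    obtain ⟨⟨hn1, hn2⟩, hsq, hR⟩ := mem_RR.mp hn
    have hpp : p.Prime := Nat.prime_of_mem_primeFactors hp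
    have hpn : p ∣ n := Nat.dvd_of_mem_primeFactors hp
    obtain ⟨m, rfl⟩ := hpn
    have hm0 : m ≠ 0 := by rintro rfl; simp at hn1
    have e : p * m / p = m := Nat.mul_div_cancel_left m hpp.pos
    rw [e]
    have hle : m ≤ p * m := Nat.le_mul_of_pos_left m hpp.pos
    have hple : p ≤ p * m := Nat.le_mul_of_pos_right p (Nat.pos_of_ne_zero hm0)
    refine ⟨mem_RR.mpr ⟨⟨Nat.pos_of_ne_zero hm0, hle.trans hn2⟩,
      hsq.squarefree_of_dvd (dvd_mul_left _ _), hm0, fun q hq hqm => hR.2 q hq (hqm.mul_left p)⟩, ?_⟩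
    refine mem_QQ.mpr ⟨⟨hpp.one_lt.le, hple.trans hn2⟩, hpp, hR.2 p hpp (dvd_mul_right _ _), ?_, ?_⟩
    · intro hpm
      have : p * p ∣ p * m := Nat.mul_dvd_mul_left p hpm
      have := hsq p this
      exact hpp.one_lt.ne' (Nat.isUnit_iff.mp this)
    · rw [mul_comm]; exact hn2
  · rintro ⟨m, p⟩ h
    simp only [Finset.mem_sigma] at h ⊢
    obtain ⟨hm, hp⟩ := h
    obtain ⟨⟨hm1, hm2⟩, hsq, hR⟩ := mem_RR.mp hm
    obtain ⟨⟨hp1, hp2⟩, hpp, hlp, hnd, hmp⟩ := mem_QQ.mp hp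
    have hcop : Nat.Coprime m p := ((Nat.Prime.coprime_iff_not_dvd hpp).mpr hnd).symm
    have hne : m * p ≠ 0 := Nat.mul_ne_zero (by omega) hpp.ne_zero
    refine ⟨mem_RR.mpr ⟨⟨Nat.pos_of_ne_zero hne, hmp⟩,
      (Nat.squarefree_mul hcop).mpr ⟨hsq, hpp.squarefree⟩, hne, ?_⟩, ?_⟩
    · intro q hq hqd
      rcases (Nat.Prime.dvd_mul hq).mp hqd with h | h
      · exact hR.2 q hq h
      · rw [(Nat.prime_dvd_prime_iff_eq hq hpp).mp h]; exact hlp
    · exact Nat.mem_primeFactors.mpr ⟨hpp, dvd_mul_left _ _, hne⟩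
  · rintro ⟨n, p⟩ h
    simp only [Finset.mem_sigma] at h
    have hpn : p ∣ n := Nat.dvd_of_mem_primeFactors h.2
    simp only [Nat.div_mul_cancel hpn]
  · rintro ⟨m, p⟩ h
    simp only [Finset.mem_sigma] at h
    have hpp := (mem_QQ.mp h.2).2.1
    simp only [Nat.mul_div_cancel m hpp.pos]
  · rintro ⟨n, p⟩ h
    simp only [Finset.mem_sigma] at h
    have hpp : p.Prime := Nat.prime_of_mem_primeFactors h.2
    have hpn : p ∣ n := Nat.dvd_of_mem_primeFactors h.2
    obtain ⟨m, rfl⟩ := hpn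
    have hm0 : m ≠ 0 := by
      rintro rfl
      have := (mem_RR.mp h.1).1.1
      simp at this
    have e : p * m / p = m := Nat.mul_div_cancel_left m hpp.pos
    simp only [e]
    have hpR : (p : ℝ) ≠ 0 := by exact_mod_cast hpp.ne_zero
    have hmR : (m : ℝ) ≠ 0 := by exact_mod_cast hm0
    push_cast
    field_simp

private theorem log_div_le_one {n : ℕ} : Real.log n / n ≤ 1 := by
  rcases Nat.eq_zero_or_pos n with h | h
  · subst h; simp
  · have hn : (0 : ℝ) < n := by exact_mod_cast h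
    rw [div_le_one hn]
    linarith [Real.log_le_sub_one_of_pos hn]

private theorem inner_bound {T δ y C : ℝ} (hδ : 0 < δ) (hT : 1 < T) (hy1 : y ≤ 1)
    (hC : ∀ x y : ℝ, 1 ≤ x → x ≤ y →
    |(∑ p ∈ (Finset.Ioc ⌊x⌋₊ ⌊y⌋₊).filter Nat.Prime, Real.log p / p) -
      (Real.log y - Real.log x)| ≤ C) (hC0 : 0 < C) (hTδ : Real.log T ≤ T ^ δ)
    {m : ℕ} (hm : m ∈ RR T δ y) :
    |(∑ p ∈ QQ T δ y m, Real.log p / p) -
      Real.log T * max (y - Real.log m / Real.log T - δ) 0| ≤ C + 1 := by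
  have hT0 : 0 < T := by linarith
  have hL : 0 < Real.log T := Real.log_pos hT
  obtain ⟨⟨hm1, hm2⟩, hsq, hR⟩ := mem_RR.mp hm
  have hmR : (0 : ℝ) < m := by exact_mod_cast hm1
  have hTy : 0 < T ^ y := Real.rpow_pos_of_pos hT0 y
  have hTd : 0 < T ^ δ := Real.rpow_pos_of_pos hT0 δ
  have hTd1 : 1 ≤ T ^ δ := Real.one_le_rpow hT.le hδ.le
  set w : ℝ := T ^ y / m with hw
  have hmp : ∀ p : ℕ, m * p ≤ ⌊T ^ y⌋₊ ↔ (p : ℝ) ≤ w := by
    intro p
    rw [Nat.le_floor_iff hTy.le, hw, le_div_iff₀ hmR]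
    push_cast
    rw [mul_comm]
  have hlogw : Real.log w = Real.log T * (y - Real.log m / Real.log T) := by
    rw [hw, Real.log_div hTy.ne' hmR.ne', Real.log_rpow hT0]
    field_simp
  have hw0 : 0 < w := by positivity
  have hpδ : ∀ p : ℕ, 1 ≤ p → (δ * Real.log T ≤ Real.log p ↔ T ^ δ ≤ p) := by
    intro p hp
    have hp0 : (0 : ℝ) < p := by exact_mod_cast hp
    rw [← Real.log_rpow hT0]
    exact Real.log_le_log_iff hTd hp0
  by_cases hcase : w < T ^ δ
  · have hempty : QQ T δ y m = ∅ := by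
      rw [Finset.eq_empty_iff_forall_notMem]
      intro p hp
      obtain ⟨⟨hp1, hp2⟩, hpp, hlp, hnd, hmp'⟩ := mem_QQ.mp hp
      have h1 := (hmp p).mp hmp'
      have h2 := (hpδ p hp1).mp hlp
      linarith
    have hmax : max (y - Real.log m / Real.log T - δ) 0 = 0 := by
      apply max_eq_right
      have h3 : Real.log w < Real.log (T ^ δ) := Real.log_lt_log hw0 hcase
      rw [hlogw, Real.log_rpow hT0] at h3
      have h4 : Real.log T * (y - Real.log m / Real.log T) < Real.log T * δ := by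
        rw [mul_comm (Real.log T) δ]; exact h3
      have h5 := lt_of_mul_lt_mul_left h4 hL.le
      linarith
    rw [hempty, hmax]
    simp
    linarith
  · have hcase' : T ^ δ ≤ w := not_lt.mp hcase
    set U := (Finset.Ioc ⌊T ^ δ⌋₊ ⌊w⌋₊).filter Nat.Prime with hU
    have hmax : Real.log T * max (y - Real.log m / Real.log T - δ) 0 =
        Real.log w - Real.log (T ^ δ) := by
      have h3 : Real.log (T ^ δ) ≤ Real.log w := Real.log_le_log hTd hcase'
      rw [hlogw, Real.log_rpow hT0] at h3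
      have h4 : Real.log T * δ ≤ Real.log T * (y - Real.log m / Real.log T) := by
        rw [mul_comm (Real.log T) δ]; exact h3
      have h5 := le_of_mul_le_mul_left h4 hL
      rw [max_eq_left (by linarith), hlogw, Real.log_rpow hT0]
      ring
    have hUC := abs_le.mp (hC (T ^ δ) w hTd1 hcase')
    rw [hmax, abs_le]
    have hnn : ∀ p : ℕ, 0 ≤ Real.log p / (p : ℝ) := fun p =>
      div_nonneg (Real.log_natCast_nonneg p) (Nat.cast_nonneg p)
    have memU : ∀ p : ℕ, p ∈ U ↔ (T ^ δ < p ∧ (p : ℝ) ≤ w) ∧ p.Prime := by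
      intro p
      rw [hU, Finset.mem_filter, Finset.mem_Ioc, Nat.floor_lt hTd.le, Nat.le_floor_iff hw0.le]
    -- upper bound
    have hupper : ∑ p ∈ QQ T δ y m, Real.log p / p ≤ (∑ p ∈ U, Real.log p / p) + 1 := by
      have hnot : ⌊T ^ δ⌋₊ ∉ U := by
        rw [hU]
        simp
      have hsub : QQ T δ y m ⊆ insert ⌊T ^ δ⌋₊ U := by
        intro p hp
        obtain ⟨⟨hp1, hp2⟩, hpp, hlp, hnd, hmp'⟩ := mem_QQ.mp hp
        have h1 := (hmp p).mp hmp'
        have h2 := (hpδ p hp1).mp hlp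
        rw [Finset.mem_insert]
        rcases eq_or_lt_of_le h2 with h | h
        · left
          rw [h, Nat.floor_natCast]
        · right
          exact (memU p).mpr ⟨⟨h, h1⟩, hpp⟩
      calc ∑ p ∈ QQ T δ y m, Real.log p / p ≤ ∑ p ∈ insert ⌊T ^ δ⌋₊ U, Real.log p / p :=
            Finset.sum_le_sum_of_subset_of_nonneg hsub (fun p _ _ => hnn p)
        _ = Real.log (⌊T ^ δ⌋₊ : ℕ) / (⌊T ^ δ⌋₊ : ℕ) + ∑ p ∈ U, Real.log p / p :=
            Finset.sum_insert hnot
        _ ≤ 1 + ∑ p ∈ U, Real.log p / p := by gcongr; exact log_div_le_one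
        _ = _ := add_comm _ _
    -- lower bound
    have hlower : (∑ p ∈ U, Real.log p / p) - 1 ≤ ∑ p ∈ QQ T δ y m, Real.log p / p := by
      have hsplit := Finset.sum_filter_add_sum_filter_not U (fun p => p ∣ m) (fun p : ℕ => Real.log p / (p : ℝ))
      have h1 : ∑ p ∈ U.filter (fun p => ¬ p ∣ m), Real.log p / (p : ℝ) ≤
          ∑ p ∈ QQ T δ y m, Real.log p / p := by
        apply Finset.sum_le_sum_of_subset_of_nonneg _ (fun p _ _ => hnn p)
        intro p hp
        obtain ⟨hpU, hnd⟩ := Finset.mem_filter.mp hp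
        obtain ⟨⟨h2, h3⟩, hpp⟩ := (memU p).mp hpU
        have h4 := (hmp p).mpr h3
        have h5 : p ≤ m * p := Nat.le_mul_of_pos_left p hm1
        exact mem_QQ.mpr ⟨⟨hpp.one_lt.le, h5.trans h4⟩, hpp, (hpδ p hpp.one_lt.le).mpr h2.le, hnd, h4⟩
      have h2 : ∑ p ∈ U.filter (fun p => p ∣ m), Real.log p / (p : ℝ) ≤ 1 := by
        calc ∑ p ∈ U.filter (fun p => p ∣ m), Real.log p / (p : ℝ)
            ≤ ∑ p ∈ U.filter (fun p => p ∣ m), Real.log p / T ^ δ := by
              apply Finset.sum_le_sum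
              intro p hp
              obtain ⟨hpU, _⟩ := Finset.mem_filter.mp hp
              obtain ⟨⟨h2, h3⟩, hpp⟩ := (memU p).mp hpU
              exact div_le_div_of_nonneg_left (Real.log_natCast_nonneg p) hTd h2.le
          _ ≤ ∑ p ∈ m.primeFactors, Real.log p / T ^ δ := by
              apply Finset.sum_le_sum_of_subset_of_nonneg
              · intro p hp
                obtain ⟨hpU, hpm⟩ := Finset.mem_filter.mp hp
                exact Nat.mem_primeFactors.mpr ⟨((memU p).mp hpU).2, hpm, by omega⟩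
              · intro p _ _
                exact div_nonneg (Real.log_natCast_nonneg p) hTd.le
          _ = Real.log m / T ^ δ := by rw [← Finset.sum_div, ← log_sqf hsq]
          _ ≤ Real.log T / T ^ δ := by
              have h3 : Real.log m / Real.log T ≤ y := (le_floor_iff_log hT hm1).mp hm2
              rw [div_le_iff₀ hL] at h3
              have h4 : Real.log m ≤ Real.log T := by nlinarith
              exact div_le_div_of_nonneg_right h4 hTd.le
          _ ≤ 1 := by rw [div_le_one hTd]; exact hTδ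
      linarith
    constructor
    · linarith [hUC.1]
    · linarith [hUC.2]

/-- MODULE N3. The Buchstab inequality. Write `L = log T`, `x_n = log n/L`, `R` for the squarefree
rough numbers. `∑_{n ∈ R, n ≤ T^y} x_n/n = y F(y) - ∫_0^y F` (Abel). Also
`∑ (log n)/n = ∑_{m ∈ R} (1/m) ∑_{p ≤ T^y/m, log p ≥ δL, p ∤ m} log p/p`
`= ∑_{m ∈ R, m ≤ T^y} (1/m) ((y - x_m - δ)_+ L + O(1))` by `sum_prime_div` (the condition `p ∤ m`
costs `≤ (1/δ) L T^{-δ}`), and `∑_m (1/m) (y - x_m - δ)_+ = ∫_0^{y-δ} F` (0 for `y ≤ δ`), which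
differs from `∫_0^y F` by at most `δ F(y)`. So `|y F(y) - 2 ∫_0^y F| ≤ δ F(y) + (C/L) F(y)`. -/
theorem FF_ineq {δ : ℝ} (hδ : 0 < δ) (hδ1 : δ < 1) : ∀ᶠ T : ℝ in atTop, ∀ y : ℝ, 0 ≤ y → y ≤ 1 →
    |y * FF T δ y - 2 * ∫ x in (0 : ℝ)..y, FF T δ x| ≤ 2 * δ * FF T δ y := by
  obtain ⟨C, hC0, hC⟩ := sum_prime_div
  have hlog : ∀ᶠ T : ℝ in atTop, (C + 1) / δ ≤ Real.log T :=
    Real.tendsto_log_atTop.eventually_ge_atTop _
  have hlogle : ∀ᶠ T : ℝ in atTop, Real.log T ≤ T ^ δ := by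
    have := (isLittleO_log_rpow_atTop hδ).bound (one_pos)
    filter_upwards [this, eventually_gt_atTop (1 : ℝ)] with T h1 h2
    rw [Real.norm_of_nonneg (Real.log_nonneg h2.le), one_mul,
      Real.norm_of_nonneg (Real.rpow_nonneg (by linarith) δ)] at h1
    exact h1
  filter_upwards [hlog, hlogle, eventually_gt_atTop (1 : ℝ)] with T hT1 hT2 hT y hy hy1
  have hL : 0 < Real.log T := Real.log_pos hT
  have hFI := FF_int (δ := δ) hT hy
  have hF := FF_eq T δ y
  have hid := log_identity (T := T) (δ := δ) (y := y)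
  -- y F - ∫ F = ∑ x_n / n
  have h1 : y * FF T δ y - (∫ x in (0 : ℝ)..y, FF T δ x) =
      (∑ n ∈ RR T δ y, (1 : ℝ) / n * Real.log n) / Real.log T := by
    rw [hFI, hF, Finset.mul_sum, ← Finset.sum_sub_distrib, Finset.sum_div]
    apply Finset.sum_congr rfl
    intro n _
    ring
  have h2 : y * FF T δ y - 2 * (∫ x in (0 : ℝ)..y, FF T δ x) =
      ∑ m ∈ RR T δ y, (1 : ℝ) / m * ((∑ p ∈ QQ T δ y m, Real.log p / p) / Real.log T -
        (y - Real.log m / Real.log T)) := by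
    have : y * FF T δ y - 2 * (∫ x in (0 : ℝ)..y, FF T δ x) =
        (y * FF T δ y - (∫ x in (0 : ℝ)..y, FF T δ x)) - (∫ x in (0 : ℝ)..y, FF T δ x) := by ring
    rw [this, h1, hid, hFI, Finset.sum_div, ← Finset.sum_sub_distrib]
    apply Finset.sum_congr rfl
    intro m _
    ring
  rw [h2, hF, Finset.mul_sum]
  refine (Finset.abs_sum_le_sum_abs _ _).trans (Finset.sum_le_sum ?_)
  intro m hm
  have hm' := mem_RR.mp hm
  have hmR : (0 : ℝ) < m := by exact_mod_cast hm'.1.1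
  rw [abs_mul, abs_of_pos (by positivity : (0 : ℝ) < 1 / m), mul_comm (2 * δ)]
  apply mul_le_mul_of_nonneg_left _ (by positivity)
  have hb := inner_bound hδ hT hy1 hC hC0 hT2 hm
  set S := ∑ p ∈ QQ T δ y m, Real.log p / (p : ℝ)
  set xm := Real.log m / Real.log T with hxm
  have hxy : xm ≤ y := (le_floor_iff_log hT hm'.1.1).mp hm'.1.2
  have hmaxb : |max (y - xm - δ) 0 - (y - xm)| ≤ δ := by
    rcases le_total (y - xm - δ) 0 with h | h
    · rw [max_eq_right h, abs_le]; constructor <;> linarith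
    · rw [max_eq_left h, abs_le]; constructor <;> linarith
  have hdiv : |S / Real.log T - max (y - xm - δ) 0| ≤ δ := by
    have e : S / Real.log T - max (y - xm - δ) 0 =
        (S - Real.log T * max (y - xm - δ) 0) / Real.log T := by
      field_simp
    rw [e, abs_div, abs_of_pos hL, div_le_iff₀ hL]
    refine hb.trans ?_
    rw [div_le_iff₀ hδ] at hT1
    linarith
  calc |S / Real.log T - (y - xm)| = |(S / Real.log T - max (y - xm - δ) 0) +
        (max (y - xm - δ) 0 - (y - xm))| := by congr 1; ring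
    _ ≤ |S / Real.log T - max (y - xm - δ) 0| + |max (y - xm - δ) 0 - (y - xm)| := abs_add_le _ _
    _ ≤ 2 * δ := by linarith

end Pool.Agent.MP_67227b_nt.Pp
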