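import Pool.Agent.MP_67227b_nt.Pp.PpPh

set_option autoImplicit false

open Filter Topology Set MeasureTheory Complex
open scoped Real ArithmeticFunction ContDiff

namespace Pool.Agent.MP_67227b_nt.Pp

open Pool.Agent.Lib.ZetaCount_helper33 Pool.Agent.MP_67227b_nt Pool.Agent.MP_67227b_nt.Mo
open Pool.Agent.MP_67227b_nt.Sg
open Pool.Agent.MP_67227b_nt.Mo.MomentBAux (DP)

private theorem A3_mem {T : ℝ} {k n : ℕ} {p : Fin k → ℕ} (hp : p ∈ PT' T k n) :
    (∀ j, (p j).Prime) ∧ ∏ j, p j = n := by
  classical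
  unfold PT' at hp
  obtain ⟨h1, h2⟩ := Finset.mem_filter.1 hp
  exact ⟨fun j => (Finset.mem_filter.1 (Fintype.mem_piFinset.1 h1 j)).2, h2⟩

private theorem A3_Omega {k : ℕ} (p : Fin k → ℕ) (hp : ∀ j, (p j).Prime) (S : Finset (Fin k)) :
    ArithmeticFunction.cardFactors (∏ j ∈ S, p j) = S.card := by
  classical
  induction S using Finset.induction_on with
  | empty => simp
  | insert a S ha ih =>
    rw [Finset.prod_insert ha, ArithmeticFunction.cardFactors_mul (hp a).ne_zero
      (Finset.prod_pos (fun j _ => (hp j).pos)).ne', ih,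
      ArithmeticFunction.cardFactors_apply_prime (hp a), Finset.card_insert_of_notMem ha]
    ring

private theorem A3_OmegaSq {n : ℕ} (hn : Squarefree n) :
    ArithmeticFunction.cardFactors n = n.primeFactors.card := by
  rw [← (ArithmeticFunction.cardDistinctFactors_eq_cardFactors_iff_squarefree hn.ne_zero).2 hn,
    ArithmeticFunction.cardDistinctFactors_apply, ← List.card_toFinset]
  rfl

private theorem A3_len {T : ℝ} {k n : ℕ} (hn : Squarefree n) {p : Fin k → ℕ}
    (hp : p ∈ PT' T k n) : k = n.primeFactors.card := by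
  obtain ⟨hpp, hpn⟩ := A3_mem hp
  have h1 := A3_Omega p hpp Finset.univ
  rw [hpn, A3_OmegaSq hn, Finset.card_univ, Fintype.card_fin] at h1
  exact h1.symm

private theorem A3_card {T : ℝ} {n : ℕ} (hn : Squarefree n)
    (hT : ∀ p : ℕ, p.Prime → p ∣ n → p ≤ ⌊T⌋₊) :
    (PT' T n.primeFactors.card n).card = n.primeFactors.card.factorial := by
  classical
  have h1 : Fintype.card (Fin n.primeFactors.card ≃ {x // x ∈ n.primeFactors}) =
      n.primeFactors.card.factorial := by
    rw [Fintype.card_equiv n.primeFactors.equivFin.symm, Fintype.card_fin]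
  rw [← h1, ← Finset.card_univ]
  symm
  apply Finset.card_bij (fun e _ => fun j => ((e j : {x // x ∈ n.primeFactors}) : ℕ))
  · intro e _
    unfold PT'
    rw [Finset.mem_filter, Fintype.mem_piFinset]
    refine ⟨fun j => ?_, ?_⟩
    · have h2 := (e j).2
      have h3 := Nat.prime_of_mem_primeFactors h2
      rw [Finset.mem_filter, Finset.mem_Icc]
      exact ⟨⟨h3.one_lt.le, hT _ h3 (Nat.dvd_of_mem_primeFactors h2)⟩, h3⟩
    · rw [Equiv.prod_comp e (fun x : {x // x ∈ n.primeFactors} => (x : ℕ)),
        Finset.prod_coe_sort n.primeFactors (fun x => x), Nat.prod_primeFactors_of_squarefree hn]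
  · intro e _ e' _ h
    apply Equiv.ext
    intro j
    exact Subtype.ext (congrFun h j)
  · intro p hp
    obtain ⟨hpp, hpn⟩ := A3_mem hp
    have hmem : ∀ j, p j ∈ n.primeFactors := fun j =>
      Nat.mem_primeFactors.2 ⟨hpp j, by
        rw [← hpn]; exact Finset.dvd_prod_of_mem p (Finset.mem_univ j), hn.ne_zero⟩
    have hsurj : Function.Surjective (fun j => (⟨p j, hmem j⟩ : {x // x ∈ n.primeFactors})) := by
      rintro ⟨q, hq⟩
      have hq1 := Nat.prime_of_mem_primeFactors hq
      have hq2 := Nat.dvd_of_mem_primeFactors hq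
      rw [← hpn] at hq2
      obtain ⟨j, _, hj⟩ := (Prime.dvd_finsetProd_iff hq1.prime _).1 hq2
      exact ⟨j, Subtype.ext ((Nat.prime_dvd_prime_iff_eq hq1 (hpp j)).1 hj).symm⟩
    have hbij := (Fintype.bijective_iff_surjective_and_card _).2 ⟨hsurj, by simp⟩
    exact ⟨Equiv.ofBijective _ hbij, Finset.mem_univ _, rfl⟩

/-- MODULE A3. The coefficients at the good numbers. Let `n` be the product of `k` distinct primes;
`k (i0+1) η ≤ log n/log T ≤ κ` gives `k ≤ K`. The tuples of primes with product `n` have length `k`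
and are the `k!` enumerations of the prime factors. If `∏_j ph η (J j) (x_j) ≠ 0`, where
`x_j = log (p j)/log T`, then `J j η < x_j` so `∑ (J j + 2) η ≤ log n/log T + 2kη ≤ κ`: `J ∈ Tup`; so
the sum over `J` is `∏_j ∑_i ph η i (x_j) = 1` by `sum_ph` (`x_j/η - i0 ≥ 1`, `x_j ≤ κ ≤ i1 η`). -/
theorem ap_good {T η κ : ℝ} (hT : 1 < T) (hη : 0 < η) (hκ : κ ≤ 1) {i0 i1 K n : ℕ}
    (hi1 : κ ≤ i1 * η) (hK : κ < ((K : ℝ) + 1) * (((i0 : ℝ) + 1) * η)) (hn : Squarefree n)
    (hlog : Real.log n ≤ (κ - 2 * K * η) * Real.log T)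
    (hp : ∀ p : ℕ, p.Prime → p ∣ n → ((i0 : ℝ) + 1) * η * Real.log T ≤ Real.log p) :
    ap T η κ i0 i1 K n = (ArithmeticFunction.moebius n : ℤ) := by
  classical
  have hlT : 0 < Real.log T := Real.log_pos hT
  have hn0 : 0 < n := Nat.pos_of_ne_zero hn.ne_zero
  have hn0' : (0 : ℝ) < n := by exact_mod_cast hn0
  have hKη : 0 ≤ 2 * (K : ℝ) * η := by positivity
  -- number of prime factors
  have hlogn : Real.log n = ∑ q ∈ n.primeFactors, Real.log q := by
    conv_lhs => rw [← Nat.prod_primeFactors_of_squarefree hn]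
    rw [Nat.cast_prod, Real.log_prod]
    intro q hq
    exact_mod_cast (Nat.prime_of_mem_primeFactors hq).ne_zero
  have hm : n.primeFactors.card ≤ K := by
    have h1 : (n.primeFactors.card : ℝ) * (((i0 : ℝ) + 1) * η * Real.log T) ≤ Real.log n := by
      rw [hlogn, ← nsmul_eq_mul]
      apply Finset.card_nsmul_le_sum
      intro q hq
      exact hp q (Nat.prime_of_mem_primeFactors hq) (Nat.dvd_of_mem_primeFactors hq)
    have h2 : (n.primeFactors.card : ℝ) * (((i0 : ℝ) + 1) * η) ≤ κ := by
      have h3 : ((n.primeFactors.card : ℝ) * (((i0 : ℝ) + 1) * η)) * Real.log T ≤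
          κ * Real.log T := by
        calc ((n.primeFactors.card : ℝ) * (((i0 : ℝ) + 1) * η)) * Real.log T
            = (n.primeFactors.card : ℝ) * (((i0 : ℝ) + 1) * η * Real.log T) := by ring
          _ ≤ Real.log n := h1
          _ ≤ (κ - 2 * K * η) * Real.log T := hlog
          _ ≤ κ * Real.log T := mul_le_mul_of_nonneg_right (by linarith) hlT.le
      exact le_of_mul_le_mul_right h3 hlT
    have h4 : (n.primeFactors.card : ℝ) < (K : ℝ) + 1 := by
      have h5 : 0 < ((i0 : ℝ) + 1) * η := by positivity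
      exact lt_of_mul_lt_mul_right (h2.trans_lt hK) h5.le
    have h5 : n.primeFactors.card < K + 1 := by exact_mod_cast h4
    omega
  -- prime factors are at most T
  have hle : ∀ p : ℕ, p.Prime → p ∣ n → p ≤ ⌊T⌋₊ := by
    intro p hpp hpn
    apply Nat.le_floor
    have h1 : Real.log p ≤ Real.log n := by
      apply Real.log_le_log (by exact_mod_cast hpp.pos)
      exact_mod_cast Nat.le_of_dvd hn0 hpn
    have h2 : Real.log n ≤ 1 * Real.log T :=
      hlog.trans (mul_le_mul_of_nonneg_right (by linarith) hlT.le)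
    rw [one_mul] at h2
    exact (Real.log_le_log_iff (by exact_mod_cast hpp.pos) (by linarith)).1 (h1.trans h2)
  -- the sum over J
  have hJ : ∀ p ∈ PT' T n.primeFactors.card n, ∑ J ∈ Tup η κ i0 i1 n.primeFactors.card,
      ∏ j, ph η (J j) (Real.log (p j) / Real.log T) = 1 := by
    intro p hpm
    obtain ⟨hpp, hpn⟩ := A3_mem hpm
    have hdvd : ∀ j, p j ∣ n := fun j => by
      rw [← hpn]; exact Finset.dvd_prod_of_mem p (Finset.mem_univ j)
    have hsum : ∑ j, Real.log (p j) / Real.log T = Real.log n / Real.log T := by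
      rw [← Finset.sum_div, ← Real.log_prod, ← Nat.cast_prod, hpn]
      intro j _
      exact_mod_cast (hpp j).ne_zero
    have hnT : Real.log n / Real.log T ≤ κ - 2 * K * η := by
      rw [div_le_iff₀ hlT]
      exact hlog
    have hext : ∑ J ∈ Tup η κ i0 i1 n.primeFactors.card,
        ∏ j, ph η (J j) (Real.log (p j) / Real.log T) =
        ∑ J ∈ Fintype.piFinset (fun _ : Fin n.primeFactors.card => Finset.Ico i0 i1),
          ∏ j, ph η (J j) (Real.log (p j) / Real.log T) := by
      unfold Tup
      rw [Finset.sum_filter_of_ne]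
      intro J _ hne
      have h1 : ∀ j, (J j : ℝ) * η ≤ Real.log (p j) / Real.log T := by
        intro j
        by_contra h3
        push Not at h3
        exact Finset.prod_ne_zero_iff.1 hne j (Finset.mem_univ j) (ph_zero_left hη h3.le)
      calc ∑ j, ((J j : ℝ) + 2) * η = ∑ j, (J j : ℝ) * η + ∑ _j : Fin n.primeFactors.card,
            2 * η := by
            rw [← Finset.sum_add_distrib]
            exact Finset.sum_congr rfl (fun j _ => by ring)
        _ ≤ ∑ j, Real.log (p j) / Real.log T + ∑ _j : Fin n.primeFactors.card, 2 * η := by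
            gcongr with j _
            exact h1 j
        _ = Real.log n / Real.log T + (n.primeFactors.card : ℝ) * (2 * η) := by
            rw [hsum, Finset.sum_const, Finset.card_univ, Fintype.card_fin, nsmul_eq_mul]
        _ ≤ (κ - 2 * K * η) + (K : ℝ) * (2 * η) := by
            gcongr
        _ = κ := by ring
    have hprod : ∑ J ∈ Fintype.piFinset (fun _ : Fin n.primeFactors.card => Finset.Ico i0 i1),
          ∏ j, ph η (J j) (Real.log (p j) / Real.log T) =
        ∏ j, ∑ i ∈ Finset.Ico i0 i1, ph η i (Real.log (p j) / Real.log T) := by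
      rw [Finset.prod_univ_sum]
    rw [hext, hprod]
    apply Finset.prod_eq_one
    intro j _
    have hxj : ((i0 : ℝ) + 1) * η ≤ Real.log (p j) / Real.log T := by
      rw [le_div_iff₀ hlT]
      exact hp _ (hpp j) (hdvd j)
    have hxj2 : Real.log (p j) / Real.log T ≤ κ := by
      have h1 : Real.log (p j) ≤ Real.log n := by
        apply Real.log_le_log (by exact_mod_cast (hpp j).pos)
        exact_mod_cast Nat.le_of_dvd hn0 (hdvd j)
      have h2 : Real.log (p j) / Real.log T ≤ Real.log n / Real.log T :=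
        div_le_div_of_nonneg_right h1 hlT.le
      linarith
    have hi01 : i0 ≤ i1 := by
      have h1 : ((i0 : ℝ) + 1) * η ≤ (i1 : ℝ) * η := hxj.trans (hxj2.trans hi1)
      have h2 : (i0 : ℝ) + 1 ≤ i1 := le_of_mul_le_mul_right h1 hη
      have h3 : i0 + 1 ≤ i1 := by exact_mod_cast h2
      omega
    rw [sum_ph η hi01, Real.smoothTransition.one_of_one_le, Real.smoothTransition.zero_of_nonpos,
      sub_zero]
    · rw [sub_nonpos, div_le_iff₀ hη]
      exact hxj2.trans hi1
    · rw [le_sub_iff_add_le, le_div_iff₀ hη]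
      linarith
  unfold ap
  rw [Finset.sum_eq_single n.primeFactors.card]
  · rw [Finset.sum_comm, Finset.sum_congr rfl hJ, Finset.sum_const, A3_card hn hle, nsmul_eq_mul,
      mul_one, div_mul_cancel₀ _ (by positivity),
      ArithmeticFunction.moebius_apply_of_squarefree hn, A3_OmegaSq hn]
    push_cast
    rfl
  · intro k _ hk
    have hempty : PT' T k n = ∅ := by
      by_contra hne
      obtain ⟨p, hpm⟩ := Finset.nonempty_iff_ne_empty.2 hne
      exact hk (A3_len hn hpm)
    rw [hempty]
    simp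
  · intro h
    exact absurd (Finset.mem_range.2 (by omega)) h

end Pool.Agent.MP_67227b_nt.Pp
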