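import Pool.Agent.MP_67227b_nt.Pp.PpDefs

set_option autoImplicit false

open Filter Topology Set MeasureTheory Complex
open scoped Real ArithmeticFunction ContDiff

namespace Pool.Agent.MP_67227b_nt.Pp

open Pool.Agent.Lib.ZetaCount_helper33 Pool.Agent.MP_67227b_nt Pool.Agent.MP_67227b_nt.Mo
open Pool.Agent.MP_67227b_nt.Sg
open Pool.Agent.MP_67227b_nt.Mo.MomentBAux (DP)

private theorem sum_moebius (n : ℕ) :
    (∑ d ∈ n.divisors, (ArithmeticFunction.moebius d : ℤ)) = if n = 1 then 1 else 0 := by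
  rw [← ArithmeticFunction.coe_mul_zeta_apply, ArithmeticFunction.moebius_mul_coe_zeta,
    ArithmeticFunction.one_apply]

/-- MODULE N5a. If all divisors `d` of `m ≤ N` have `a d = μ(d)`, then
`ca m = ∑_{uv = m} μ(u) v^{-iα} ∑_{d ∣ v} μ(d) = μ(m)` (only `v = 1` contributes). -/
theorem ca_good {a : ℕ → ℝ} {N m : ℕ} (α : ℝ) (hm : 1 ≤ m) (hmN : m ≤ N)
    (h : ∀ d : ℕ, d ∣ m → a d = (ArithmeticFunction.moebius d : ℤ)) :
    ca a α N m = ((ArithmeticFunction.moebius m : ℤ) : ℂ) := by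
  unfold ca
  have h1 : ∀ p ∈ m.divisorsAntidiagonal,
      ((ArithmeticFunction.moebius p.1 : ℤ) : ℂ) *
        ((p.2 : ℂ) ^ (-((α : ℂ) * I)) * ∑ d ∈ p.2.divisors, if d ≤ N then (a d : ℂ) else 0) =
      if p = (m, 1) then ((ArithmeticFunction.moebius m : ℤ) : ℂ) else 0 := by
    intro p hp
    have hpm := (Nat.mem_divisorsAntidiagonal.mp hp).1
    have h2 : (∑ d ∈ p.2.divisors, if d ≤ N then (a d : ℂ) else 0) =
        ((∑ d ∈ p.2.divisors, (ArithmeticFunction.moebius d : ℤ) : ℤ) : ℂ) := by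
      push_cast
      apply Finset.sum_congr rfl
      intro d hd
      have hd1 : d ∣ p.2 := (Nat.mem_divisors.mp hd).1
      have hd2 : d ∣ m := hd1.trans (by rw [← hpm]; exact dvd_mul_left _ _)
      have hd3 : d ≤ N := (Nat.le_of_dvd (by omega) hd2).trans hmN
      rw [if_pos hd3, h d hd2]
      push_cast
      rfl
    rw [h2, sum_moebius]
    by_cases hp2 : p.2 = 1
    · have hp1 : p.1 = m := by rw [hp2, mul_one] at hpm; exact hpm
      have hpe : p = (m, 1) := Prod.ext hp1 hp2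
      rw [if_pos hpe, hp2, if_pos rfl, hp1]
      simp
    · have hpe : p ≠ (m, 1) := by
        intro h; apply hp2; rw [h]
      rw [if_neg hpe, if_neg hp2]
      simp
  rw [Finset.sum_congr rfl h1, Finset.sum_ite_eq', if_pos]
  rw [Nat.mem_divisorsAntidiagonal]
  exact ⟨by simp, by omega⟩

private theorem tau_le {m K : ℕ} (hm : m ≠ 0) (hK : m.primeFactorsList.length ≤ K) :
    m.divisors.card ≤ 2 ^ K := by
  rw [Nat.card_divisors hm]
  have h1 : ∏ x ∈ m.primeFactors, (m.factorization x + 1) ≤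
      ∏ x ∈ m.primeFactors, 2 ^ (m.factorization x) := by
    apply Finset.prod_le_prod'
    intro i _
    exact Nat.lt_two_pow_self
  refine h1.trans ?_
  rw [Finset.prod_pow_eq_pow_sum]
  have h2 : ∑ i ∈ m.primeFactors, m.factorization i = m.primeFactorsList.length := by
    rw [← ArithmeticFunction.cardFactors_apply, ArithmeticFunction.cardFactors_eq_sum_factorization]
    rfl
  rw [h2]
  exact Nat.pow_le_pow_right (by norm_num) hK

/-- MODULE N5b. Crude bound for numbers with few prime factors: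
`‖ca m‖ ≤ A τ(m)² ≤ A 4^Ω(m)`. -/
theorem ca_crude {a : ℕ → ℝ} {A : ℝ} (ha : ∀ n, |a n| ≤ A) (α : ℝ) (N : ℕ) {m K : ℕ}
    (hm : m ≠ 0) (hK : m.primeFactorsList.length ≤ K) : ‖ca a α N m‖ ≤ A * 4 ^ K := by
  have hA : 0 ≤ A := (abs_nonneg _).trans (ha 0)
  have hτ := tau_le hm hK
  have hτR : (m.divisors.card : ℝ) ≤ 2 ^ K := by exact_mod_cast hτ
  unfold ca
  have h1 : ∀ p ∈ m.divisorsAntidiagonal,
      ‖((ArithmeticFunction.moebius p.1 : ℤ) : ℂ) *
        ((p.2 : ℂ) ^ (-((α : ℂ) * I)) * ∑ d ∈ p.2.divisors, if d ≤ N then (a d : ℂ) else 0)‖ ≤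
      2 ^ K * A := by
    intro p hp
    have hpm := (Nat.mem_divisorsAntidiagonal.mp hp).1
    have hp2 : 0 < p.2 := by
      rcases Nat.eq_zero_or_pos p.2 with h | h
      · rw [h, mul_zero] at hpm; exact absurd hpm.symm hm
      · exact h
    have e1 : ‖((ArithmeticFunction.moebius p.1 : ℤ) : ℂ)‖ ≤ 1 := by
      rw [Complex.norm_intCast]
      exact_mod_cast ArithmeticFunction.abs_moebius_le_one
    have e2 : ‖(p.2 : ℂ) ^ (-((α : ℂ) * I))‖ = 1 := by
      rw [Complex.norm_natCast_cpow_of_pos hp2]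
      simp
    have e3 : ‖∑ d ∈ p.2.divisors, if d ≤ N then (a d : ℂ) else 0‖ ≤ 2 ^ K * A := by
      calc ‖∑ d ∈ p.2.divisors, if d ≤ N then (a d : ℂ) else 0‖
          ≤ ∑ d ∈ p.2.divisors, A := by
            apply norm_sum_le_of_le
            intro d _
            split_ifs
            · rw [Complex.norm_real]; exact ha d
            · simpa using hA
        _ = (p.2.divisors.card : ℝ) * A := by rw [Finset.sum_const, nsmul_eq_mul]
        _ ≤ (m.divisors.card : ℝ) * A := by
            have : p.2.divisors.card ≤ m.divisors.card :=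
              Finset.card_le_card (Nat.divisors_subset_of_dvd hm (by rw [← hpm]; exact dvd_mul_left _ _))
            have h' : (p.2.divisors.card : ℝ) ≤ m.divisors.card := by exact_mod_cast this
            gcongr
        _ ≤ 2 ^ K * A := by gcongr
    rw [norm_mul, norm_mul, e2, one_mul]
    calc _ ≤ 1 * (2 ^ K * A) := by gcongr
      _ = 2 ^ K * A := one_mul _
  calc _ ≤ ∑ p ∈ m.divisorsAntidiagonal, (2 ^ K * A : ℝ) := norm_sum_le_of_le _ h1
    _ = (m.divisors.card : ℝ) * (2 ^ K * A) := by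
        rw [Finset.sum_const, nsmul_eq_mul]
        congr 2
        rw [← Nat.map_div_right_divisors, Finset.card_map]
    _ ≤ 2 ^ K * (2 ^ K * A) := by gcongr
    _ = A * 4 ^ K := by
        have : (4 : ℝ) ^ K = 2 ^ K * 2 ^ K := by rw [← mul_pow]; norm_num
        rw [this]; ring

end Pool.Agent.MP_67227b_nt.Pp
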