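import Pool.Agent.MP_67227b_nt.Pp.PpRgh

set_option autoImplicit false

open Filter Topology Set MeasureTheory Complex
open scoped Real ArithmeticFunction ContDiff

namespace Pool.Agent.MP_67227b_nt.Pp

open Pool.Agent.Lib.ZetaCount_helper33 Pool.Agent.MP_67227b_nt Pool.Agent.MP_67227b_nt.Mo
open Pool.Agent.MP_67227b_nt.Sg
open Pool.Agent.MP_67227b_nt.Mo.MomentBAux (DP)

/-- An injection bound for sums of nonnegative numbers. -/
theorem N2D_inj {α β : Type*} [DecidableEq β] (s : Finset α) (t : Finset β) (f : α → ℝ)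
    (g : β → ℝ) (e : α → β) (he : ∀ a ∈ s, e a ∈ t) (hinj : Set.InjOn e (s : Set α))
    (hg : ∀ b ∈ t, 0 ≤ g b) (h : ∀ a ∈ s, f a ≤ g (e a)) : ∑ a ∈ s, f a ≤ ∑ b ∈ t, g b := by
  calc ∑ a ∈ s, f a ≤ ∑ a ∈ s, g (e a) := Finset.sum_le_sum h
    _ = ∑ b ∈ s.image e, g b := (Finset.sum_image hinj).symm
    _ ≤ ∑ b ∈ t, g b := Finset.sum_le_sum_of_subset_of_nonneg (Finset.image_subset_iff.2 he)
        (fun b hb _ => hg b hb)

/-- Divisors of rough numbers are rough. -/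
theorem N2D_rgh_dvd {z : ℝ} {m n : ℕ} (h : Rgh z n) (hmn : m ∣ n) : Rgh z m :=
  ⟨fun h0 => h.1 (by rw [h0] at hmn; exact Nat.eq_zero_of_zero_dvd hmn),
    fun p hp hpm => h.2 p hp (hpm.trans hmn)⟩

/-- The von Mangoldt function is at most `n`. -/
theorem N2D_le (n : ℕ) : Λ n / n ≤ (1 : ℝ) := by
  apply div_le_one_of_le₀ _ (Nat.cast_nonneg _)
  exact le_trans ArithmeticFunction.vonMangoldt_le_log (Real.log_le_self (Nat.cast_nonneg _))

theorem N2D_nonneg (n : ℕ) : (0 : ℝ) ≤ Λ n / n :=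
  div_nonneg ArithmeticFunction.vonMangoldt_nonneg (Nat.cast_nonneg n)

/-- The sum of `Λ(q)/q` over a window `[B/A, B]` of ratio `A`. -/
theorem N2D_window : ∃ C : ℝ, 0 < C ∧ ∀ h B : ℝ, 0 ≤ h → 1 ≤ B → ∀ Q : Finset ℕ,
    (∀ q ∈ Q, 1 ≤ q ∧ (q : ℝ) ≤ B ∧ Real.log B - h ≤ Real.log q) →
      ∑ q ∈ Q, Λ q / q ≤ h + C := by
  classical
  obtain ⟨C1, hC1, hmert⟩ := sum_vonMangoldt_div
  refine ⟨C1 + 1, by positivity, fun h B hh hB Q hQ => ?_⟩
  set A : ℝ := max 1 (Real.exp (Real.log B - h)) with hA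
  have hA1 : 1 ≤ A := le_max_left _ _
  have hB0 : 0 < B := by linarith
  have hAB : A ≤ B := by
    rw [hA]
    apply max_le hB
    calc Real.exp (Real.log B - h) ≤ Real.exp (Real.log B) := Real.exp_le_exp.2 (by linarith)
      _ = B := Real.exp_log hB0
  have hlogA : Real.log B - h ≤ Real.log A := by
    rw [← Real.log_exp (Real.log B - h)]
    exact Real.log_le_log (Real.exp_pos _) (le_max_right _ _)
  have hsub : Q ⊆ insert ⌊A⌋₊ (Finset.Ioc ⌊A⌋₊ ⌊B⌋₊) := by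
    intro q hq
    obtain ⟨h1, h2, h3⟩ := hQ q hq
    have hq0 : (0 : ℝ) < q := by exact_mod_cast h1
    have h4 : A ≤ q := by
      rw [hA]
      apply max_le (by exact_mod_cast h1)
      rw [← Real.exp_log hq0]
      exact Real.exp_le_exp.2 h3
    have h5 : ⌊A⌋₊ ≤ q := Nat.floor_le_of_le h4
    have h6 : q ≤ ⌊B⌋₊ := Nat.le_floor h2
    rw [Finset.mem_insert, Finset.mem_Ioc]
    rcases h5.eq_or_lt with h7 | h7
    · exact Or.inl h7.symm
    · exact Or.inr ⟨h7, h6⟩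
  calc ∑ q ∈ Q, Λ q / q ≤ ∑ q ∈ insert ⌊A⌋₊ (Finset.Ioc ⌊A⌋₊ ⌊B⌋₊), Λ q / q :=
        Finset.sum_le_sum_of_subset_of_nonneg hsub (fun n _ _ => N2D_nonneg n)
    _ = Λ ⌊A⌋₊ / (⌊A⌋₊ : ℕ) + ∑ q ∈ Finset.Ioc ⌊A⌋₊ ⌊B⌋₊, Λ q / q := by
        rw [Finset.sum_insert (by simp)]
    _ ≤ 1 + (h + C1) := by
        have h8 := N2D_le ⌊A⌋₊
        have h9 := (abs_le.1 (hmert A B hA1 hAB)).2
        linarith
    _ = h + (C1 + 1) := by ring

/-- MODULE N2d. Rough numbers in `[T^{κ-η}, T^κ]`: `log n ≥ (κ/2) log T` and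
`log n = ∑_{q ∣ n} Λ(q)`, so the sum is at most
`(2/(κ log T)) ∑_{m rough ≤ T} (1/m) ∑_{T^{κ-η}/m ≤ q ≤ T^κ/m} Λ(q)/q ≤ (2/(κ log T)) C (η log T + C')`
(`n = q m`, `m` rough). -/
theorem rough_tail {δ κ : ℝ} (hδ : 0 < δ) (hκ : 0 < κ) (hκ1 : κ ≤ 1) : ∃ C : ℝ, 0 < C ∧
    ∀ η : ℝ, 0 < η → η ≤ κ / 2 → ∀ᶠ T : ℝ in atTop, ∀ S : Finset ℕ,
      (∀ n ∈ S, (n : ℝ) ≤ T ^ κ ∧ (κ - η) * Real.log T ≤ Real.log n ∧
        Rgh (δ * Real.log T) n) → ∑ n ∈ S, (1 : ℝ) / n ≤ C * η := by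
  classical
  obtain ⟨C0, hC0, hmass⟩ := rough_mass hδ
  obtain ⟨C1, hC1, hwin⟩ := N2D_window
  refine ⟨4 * C0 / κ, by positivity, fun η hη hηκ => ?_⟩
  filter_upwards [hmass, Real.tendsto_log_atTop.eventually_ge_atTop (C1 / η),
    eventually_gt_atTop (1 : ℝ)] with T hm hlog hT1 S hS
  set L := Real.log T with hLd
  have hL : 0 < L := Real.log_pos hT1
  have hT0 : 0 < T := by linarith
  have hTκ : T ^ κ ≤ T := by
    calc T ^ κ ≤ T ^ (1 : ℝ) := Real.rpow_le_rpow_of_exponent_le hT1.le hκ1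
      _ = T := Real.rpow_one T
  have hTκ0 : 0 < T ^ κ := Real.rpow_pos_of_pos hT0 κ
  set M : Finset ℕ := S.biUnion Nat.divisors with hMd
  have hMem : ∀ m ∈ M, ∃ n ∈ S, m ∣ n := by
    intro m hm'
    obtain ⟨n, hn, hmn⟩ := Finset.mem_biUnion.1 hm'
    exact ⟨n, hn, Nat.dvd_of_mem_divisors hmn⟩
  have hMm : ∑ m ∈ M, (1 : ℝ) / m ≤ C0 := by
    apply hm M
    intro m hmM
    obtain ⟨n, hn, hd⟩ := hMem m hmM
    obtain ⟨h1, -, h3⟩ := hS n hn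
    refine ⟨?_, N2D_rgh_dvd h3 hd⟩
    exact le_trans (Nat.cast_le.2 (Nat.le_of_dvd (Nat.pos_of_ne_zero h3.1) hd)) (h1.trans hTκ)
  -- the windows
  set Q : ℕ → Finset ℕ := fun m => (S.filter (fun n => m ∣ n)).image (fun n => n / m) with hQd
  have hQ : ∀ m ∈ M, ∑ q ∈ Q m, Λ q / q ≤ η * L + C1 := by
    intro m hmM
    obtain ⟨n0, hn0, hd0⟩ := hMem m hmM
    have hm0 : m ≠ 0 := (N2D_rgh_dvd (hS n0 hn0).2.2 hd0).1
    have hmp : (0 : ℝ) < m := by exact_mod_cast Nat.pos_of_ne_zero hm0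
    have hn0p : 0 < n0 := Nat.pos_of_ne_zero (hS n0 hn0).2.2.1
    have hmle : (m : ℝ) ≤ T ^ κ :=
      le_trans (Nat.cast_le.2 (Nat.le_of_dvd hn0p hd0)) (hS n0 hn0).1
    apply hwin (η * L) (T ^ κ / m) (by positivity) ((one_le_div hmp).2 hmle) (Q m)
    intro q hq
    obtain ⟨n, hn, rfl⟩ := Finset.mem_image.1 hq
    obtain ⟨hnS, hdn⟩ := Finset.mem_filter.1 hn
    obtain ⟨h1, h2, h3⟩ := hS n hnS
    have hnp : 0 < n := Nat.pos_of_ne_zero h3.1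
    have hnp' : (0 : ℝ) < n := by exact_mod_cast hnp
    have hc : ((n / m : ℕ) : ℝ) = (n : ℝ) / m := Nat.cast_div hdn hmp.ne'
    refine ⟨Nat.div_pos (Nat.le_of_dvd hnp hdn) (Nat.pos_of_ne_zero hm0), ?_, ?_⟩
    · rw [hc]; gcongr
    · rw [hc, Real.log_div hTκ0.ne' hmp.ne', Real.log_div hnp'.ne' hmp.ne',
        Real.log_rpow hT0]
      have : (κ - η) * L = κ * L - η * L := by ring
      linarith
  -- first inequality
  have hfirst : ∑ n ∈ S, (1 : ℝ) / n ≤ 2 / (κ * L) * ∑ n ∈ S, Real.log n / n := by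
    rw [Finset.mul_sum]
    refine Finset.sum_le_sum fun n hn => ?_
    obtain ⟨h1, h2, h3⟩ := hS n hn
    have hnp' : (0 : ℝ) < n := by exact_mod_cast Nat.pos_of_ne_zero h3.1
    have h4 : κ * L / 2 ≤ Real.log n := by
      refine le_trans ?_ h2
      have : κ / 2 ≤ κ - η := by linarith
      nlinarith [mul_le_mul_of_nonneg_right this hL.le]
    rw [div_mul_div_comm, div_le_div_iff₀ hnp' (by positivity)]
    nlinarith [mul_le_mul_of_nonneg_right h4 hnp'.le]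
  have hsecond : ∑ n ∈ S, Real.log n / n ≤ ∑ m ∈ M, (1 : ℝ) / m * ∑ q ∈ Q m, Λ q / q := by
    have e1 : ∑ n ∈ S, Real.log n / n =
        ∑ a ∈ S.sigma (fun n => n.divisors), Λ a.2 / (a.1 : ℝ) := by
      rw [Finset.sum_sigma]
      refine Finset.sum_congr rfl fun n _ => ?_
      rw [← ArithmeticFunction.vonMangoldt_sum, Finset.sum_div]
    have e2 : ∑ m ∈ M, (1 : ℝ) / m * ∑ q ∈ Q m, Λ q / q =
        ∑ b ∈ M.sigma (fun m => Q m), (1 : ℝ) / b.1 * (Λ b.2 / b.2) := by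
      rw [Finset.sum_sigma]
      refine Finset.sum_congr rfl fun m _ => ?_
      rw [Finset.mul_sum]
    rw [e1, e2]
    apply N2D_inj _ _ _ _ (fun a : (_ : ℕ) × ℕ => (⟨a.1 / a.2, a.2⟩ : (_ : ℕ) × ℕ))
    · intro a ha
      obtain ⟨h1, h2⟩ := Finset.mem_sigma.1 ha
      have hd : a.2 ∣ a.1 := Nat.dvd_of_mem_divisors h2
      have hn0 : a.1 ≠ 0 := (hS a.1 h1).2.2.1
      have hd' : a.1 / a.2 ∣ a.1 := Nat.div_dvd_of_dvd hd
      refine Finset.mem_sigma.2 ⟨?_, ?_⟩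
      · exact Finset.mem_biUnion.2 ⟨a.1, h1, Nat.mem_divisors.2 ⟨hd', hn0⟩⟩
      · refine Finset.mem_image.2 ⟨a.1, Finset.mem_filter.2 ⟨h1, hd'⟩, ?_⟩
        exact Nat.div_div_self hd hn0
    · rintro ⟨n, q⟩ ha ⟨n', q'⟩ ha' h
      obtain ⟨h1, h2⟩ := Finset.mem_sigma.1 ha
      obtain ⟨h1', h2'⟩ := Finset.mem_sigma.1 ha'
      have hd : q ∣ n := Nat.dvd_of_mem_divisors h2
      have hd' : q' ∣ n' := Nat.dvd_of_mem_divisors h2'
      simp only [Sigma.mk.injEq, heq_eq_eq] at h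
      obtain ⟨hq1, hq2⟩ := h
      subst hq2
      have : n = n' := by
        rw [← Nat.div_mul_cancel hd, ← Nat.div_mul_cancel hd', hq1]
      rw [this]
    · intro b _
      exact mul_nonneg (by positivity) (N2D_nonneg _)
    · rintro ⟨n, q⟩ ha
      obtain ⟨h1, h2⟩ := Finset.mem_sigma.1 ha
      have hd : q ∣ n := Nat.dvd_of_mem_divisors h2
      have hn0 : n ≠ 0 := (hS n h1).2.2.1
      have hq0 : q ≠ 0 := fun h => hn0 (Nat.eq_zero_of_zero_dvd (h ▸ hd))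
      have hq0' : (q : ℝ) ≠ 0 := by exact_mod_cast hq0
      have hn0' : (n : ℝ) ≠ 0 := by exact_mod_cast hn0
      have hc : ((n / q : ℕ) : ℝ) = (n : ℝ) / q := Nat.cast_div hd hq0'
      simp only
      rw [hc]
      apply le_of_eq
      field_simp
  have hthird : ∑ m ∈ M, (1 : ℝ) / m * ∑ q ∈ Q m, Λ q / q ≤ C0 * (η * L + C1) := by
    calc ∑ m ∈ M, (1 : ℝ) / m * ∑ q ∈ Q m, Λ q / q
        ≤ ∑ m ∈ M, (1 : ℝ) / m * (η * L + C1) :=
          Finset.sum_le_sum fun m hm' => mul_le_mul_of_nonneg_left (hQ m hm') (by positivity)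
      _ = (∑ m ∈ M, (1 : ℝ) / m) * (η * L + C1) := by rw [Finset.sum_mul]
      _ ≤ C0 * (η * L + C1) := mul_le_mul_of_nonneg_right hMm (by positivity)
  have hC : C1 ≤ η * L := by
    have := (div_le_iff₀ hη).1 hlog
    linarith
  calc ∑ n ∈ S, (1 : ℝ) / n ≤ 2 / (κ * L) * ∑ n ∈ S, Real.log n / n := hfirst
    _ ≤ 2 / (κ * L) * (C0 * (η * L + C1)) :=
        mul_le_mul_of_nonneg_left (hsecond.trans hthird) (by positivity)
    _ ≤ 2 / (κ * L) * (C0 * (2 * (η * L))) := by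
        apply mul_le_mul_of_nonneg_left _ (by positivity)
        apply mul_le_mul_of_nonneg_left _ hC0.le
        linarith
    _ = 4 * C0 / κ * η := by
        field_simp
        ring

end Pool.Agent.MP_67227b_nt.Pp
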