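import Pool.Agent.MP_67227b_nt.Pp.PpRgh

set_option autoImplicit false

open Filter Topology Set MeasureTheory Complex
open scoped Real ArithmeticFunction ContDiff

namespace Pool.Agent.MP_67227b_nt.Pp

open Pool.Agent.Lib.ZetaCount_helper33 Pool.Agent.MP_67227b_nt Pool.Agent.MP_67227b_nt.Mo
open Pool.Agent.MP_67227b_nt.Sg
open Pool.Agent.MP_67227b_nt.Mo.MomentBAux (DP)

/-- An injection bound for sums of nonnegative numbers. -/
theorem N2C_inj {α β : Type*} [DecidableEq β] (s : Finset α) (t : Finset β) (f : α → ℝ)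
    (g : β → ℝ) (e : α → β) (he : ∀ a ∈ s, e a ∈ t) (hinj : Set.InjOn e (s : Set α))
    (hg : ∀ b ∈ t, 0 ≤ g b) (h : ∀ a ∈ s, f a ≤ g (e a)) : ∑ a ∈ s, f a ≤ ∑ b ∈ t, g b := by
  calc ∑ a ∈ s, f a ≤ ∑ a ∈ s, g (e a) := Finset.sum_le_sum h
    _ = ∑ b ∈ s.image e, g b := (Finset.sum_image hinj).symm
    _ ≤ ∑ b ∈ t, g b := Finset.sum_le_sum_of_subset_of_nonneg (Finset.image_subset_iff.2 he)
        (fun b hb _ => hg b hb)

/-- Divisors of rough numbers are rough. -/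
theorem N2C_rgh_dvd {z : ℝ} {m n : ℕ} (h : Rgh z n) (hmn : m ∣ n) : Rgh z m :=
  ⟨fun h0 => h.1 (by rw [h0] at hmn; exact Nat.eq_zero_of_zero_dvd hmn),
    fun p hp hpm => h.2 p hp (hpm.trans hmn)⟩

/-- The primes in a window. -/
theorem N2C_primes {δ : ℝ} (hδ : 0 < δ) : ∃ C : ℝ, 0 < C ∧ ∀ x η L : ℝ, δ ≤ x → 0 < η → 0 < L →
    ∀ P : Finset ℕ, (∀ p ∈ P, p.Prime ∧ x * L ≤ Real.log p ∧ Real.log p ≤ (x + η) * L) →
      ∑ p ∈ P, (1 : ℝ) / p ≤ 1 / (δ * L) * (η * L + C) := by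
  classical
  obtain ⟨C1, hC1, hmert⟩ := sum_prime_div
  refine ⟨C1 + 1, by positivity, fun x η L hx hη hL P hP => ?_⟩
  have hx0 : 0 < x := lt_of_lt_of_le hδ hx
  have hδL : 0 < δ * L := mul_pos hδ hL
  have h1 : ∑ p ∈ P, (1 : ℝ) / p ≤ 1 / (δ * L) * ∑ p ∈ P, Real.log p / p := by
    rw [Finset.mul_sum]
    refine Finset.sum_le_sum fun p hp => ?_
    obtain ⟨hpp, hlo, -⟩ := hP p hp
    have hp0 : (0 : ℝ) < p := by exact_mod_cast hpp.pos
    have h2 : δ * L ≤ Real.log p := le_trans (mul_le_mul_of_nonneg_right hx hL.le) hlo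
    rw [div_mul_div_comm, one_mul, div_le_div_iff₀ hp0 (by positivity)]
    nlinarith [mul_le_mul_of_nonneg_right h2 hp0.le]
  set A : ℝ := Real.exp (x * L) with hA
  set B : ℝ := Real.exp ((x + η) * L) with hB
  have hA1 : 1 ≤ A := by
    rw [hA]; exact Real.one_le_exp (by positivity)
  have hAB : A ≤ B := by
    rw [hA, hB]; apply Real.exp_le_exp.2; nlinarith
  have hsub : P ⊆ insert ⌊A⌋₊ ((Finset.Ioc ⌊A⌋₊ ⌊B⌋₊).filter Nat.Prime) := by
    intro p hp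
    obtain ⟨hpp, hlo, hhi⟩ := hP p hp
    have hp0 : (0 : ℝ) < p := by exact_mod_cast hpp.pos
    have h3 : A ≤ p := by
      rw [hA, ← Real.exp_log hp0]; exact Real.exp_le_exp.2 hlo
    have h4 : (p : ℝ) ≤ B := by
      rw [hB, ← Real.exp_log hp0]; exact Real.exp_le_exp.2 hhi
    have h5 : ⌊A⌋₊ ≤ p := Nat.floor_le_of_le h3
    have h6 : p ≤ ⌊B⌋₊ := Nat.le_floor h4
    rw [Finset.mem_insert, Finset.mem_filter, Finset.mem_Ioc]
    rcases h5.eq_or_lt with h | h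
    · exact Or.inl h.symm
    · exact Or.inr ⟨⟨h, h6⟩, hpp⟩
  have hnn : ∀ n : ℕ, 0 ≤ Real.log n / n := fun n =>
    div_nonneg (Real.log_natCast_nonneg n) (Nat.cast_nonneg n)
  have h7 : ∑ p ∈ P, Real.log p / p ≤ η * L + (C1 + 1) := by
    calc ∑ p ∈ P, Real.log p / p
        ≤ ∑ p ∈ insert ⌊A⌋₊ ((Finset.Ioc ⌊A⌋₊ ⌊B⌋₊).filter Nat.Prime), Real.log p / p :=
          Finset.sum_le_sum_of_subset_of_nonneg hsub (fun n _ _ => hnn n)
      _ ≤ Real.log (⌊A⌋₊ : ℕ) / (⌊A⌋₊ : ℕ) +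
            ∑ p ∈ (Finset.Ioc ⌊A⌋₊ ⌊B⌋₊).filter Nat.Prime, Real.log p / p := by
          rw [Finset.sum_insert (by simp)]
      _ ≤ 1 + (η * L + C1) := by
          have h8 : Real.log (⌊A⌋₊ : ℕ) / (⌊A⌋₊ : ℕ) ≤ 1 := by
            apply div_le_one_of_le₀ _ (Nat.cast_nonneg _)
            exact Real.log_le_self (Nat.cast_nonneg _)
          have h9 := (abs_le.1 (hmert A B hA1 hAB)).2
          have h10 : Real.log B - Real.log A = η * L := by
            rw [hA, hB, Real.log_exp, Real.log_exp]; ring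
          linarith
      _ = η * L + (C1 + 1) := by ring
  refine le_trans h1 (mul_le_mul_of_nonneg_left h7 (by positivity))

/-- MODULE N2c. Rough numbers with a prime factor in a window: `n = p m`, so the sum is at most
`C ∑_{T^x ≤ p ≤ T^{x+η}} 1/p ≤ C (1/(δ log T)) (η log T + C')`. -/
theorem rough_window {δ : ℝ} (hδ : 0 < δ) : ∃ C : ℝ, 0 < C ∧ ∀ x η : ℝ, δ ≤ x → 0 < η →
    ∀ᶠ T : ℝ in atTop, ∀ S : Finset ℕ, (∀ n ∈ S, (n : ℝ) ≤ T ∧ Rgh (δ * Real.log T) n ∧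
      ∃ p : ℕ, p.Prime ∧ p ∣ n ∧ x * Real.log T ≤ Real.log p ∧
        Real.log p ≤ (x + η) * Real.log T) → ∑ n ∈ S, (1 : ℝ) / n ≤ C * η := by
  classical
  obtain ⟨C0, hC0, hmass⟩ := rough_mass hδ
  obtain ⟨C1, hC1, hpr⟩ := N2C_primes hδ
  refine ⟨2 * C0 / δ, by positivity, fun x η hx hη => ?_⟩
  filter_upwards [hmass, Real.tendsto_log_atTop.eventually_ge_atTop (C1 / η),
    eventually_gt_atTop (1 : ℝ)] with T hm hlog hT1 S hS
  set L := Real.log T with hLd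
  have hL : 0 < L := Real.log_pos hT1
  choose! p hp using (fun n hn => (hS n hn).2.2)
  set P : Finset ℕ := S.image p with hPd
  set M : Finset ℕ := S.image (fun n => n / p n) with hMd
  have hMm : ∑ m ∈ M, (1 : ℝ) / m ≤ C0 := by
    apply hm M
    intro m hmM
    obtain ⟨n, hn, rfl⟩ := Finset.mem_image.1 hmM
    have hd : n / p n ∣ n := Nat.div_dvd_of_dvd (hp n hn).2.1
    refine ⟨?_, N2C_rgh_dvd (hS n hn).2.1 hd⟩
    exact le_trans (Nat.cast_le.2 (Nat.le_of_dvd (Nat.pos_of_ne_zero (hS n hn).2.1.1) hd))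
      (hS n hn).1
  have hPp : ∑ q ∈ P, (1 : ℝ) / q ≤ 1 / (δ * L) * (η * L + C1) := by
    apply hpr x η L hx hη hL
    intro q hq
    obtain ⟨n, hn, rfl⟩ := Finset.mem_image.1 hq
    exact ⟨(hp n hn).1, (hp n hn).2.2.1, (hp n hn).2.2.2⟩
  have hkey : ∑ n ∈ S, (1 : ℝ) / n ≤ ∑ b ∈ P ×ˢ M, (1 / (b.1 : ℝ)) * (1 / (b.2 : ℝ)) := by
    apply N2C_inj S (P ×ˢ M) _ _ (fun n => (p n, n / p n))
    · intro n hn
      exact Finset.mem_product.2 ⟨Finset.mem_image_of_mem _ hn, Finset.mem_image_of_mem _ hn⟩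
    · intro n hn n' hn' h
      simp only [Prod.mk.injEq] at h
      rw [← Nat.mul_div_cancel' (hp n hn).2.1, ← Nat.mul_div_cancel' (hp n' hn').2.1, h.2, h.1]
    · intro b _
      positivity
    · intro n hn
      have h1 : ((n / p n : ℕ) : ℝ) = (n : ℝ) / p n :=
        Nat.cast_div (hp n hn).2.1 (by exact_mod_cast (hp n hn).1.ne_zero)
      have hp0 : (p n : ℝ) ≠ 0 := by exact_mod_cast (hp n hn).1.ne_zero
      have hn0 : (n : ℝ) ≠ 0 := by exact_mod_cast (hS n hn).2.1.1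
      simp only
      rw [h1]
      apply le_of_eq
      field_simp
  have hprod : ∑ b ∈ P ×ˢ M, (1 / (b.1 : ℝ)) * (1 / (b.2 : ℝ)) =
      (∑ q ∈ P, (1 : ℝ) / q) * ∑ m ∈ M, (1 : ℝ) / m := by
    rw [Finset.sum_mul_sum, Finset.sum_product]
  rw [hprod] at hkey
  have hC : C1 ≤ η * L := by
    have := (div_le_iff₀ hη).1 hlog
    linarith
  have hbig : 1 / (δ * L) * (η * L + C1) ≤ 2 * η / δ := by
    rw [div_mul_eq_mul_div, one_mul, div_le_div_iff₀ (by positivity) hδ]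
    nlinarith [mul_pos hδ hL, mul_le_mul_of_nonneg_right hC hδ.le]
  have hM0 : 0 ≤ ∑ m ∈ M, (1 : ℝ) / m := Finset.sum_nonneg fun m _ => by positivity
  calc ∑ n ∈ S, (1 : ℝ) / n ≤ (∑ q ∈ P, (1 : ℝ) / q) * ∑ m ∈ M, (1 : ℝ) / m := hkey
    _ ≤ (2 * η / δ) * C0 := mul_le_mul (hPp.trans hbig) hMm hM0 (by positivity)
    _ = 2 * C0 / δ * η := by ring

end Pool.Agent.MP_67227b_nt.Pp
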