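import Pool.Agent.MP_67227b_nt.Pp.PpDefs

set_option autoImplicit false

open Filter Topology Set MeasureTheory Complex
open scoped Real ArithmeticFunction ContDiff

namespace Pool.Agent.MP_67227b_nt.Pp

open Pool.Agent.Lib.ZetaCount_helper33 Pool.Agent.MP_67227b_nt Pool.Agent.MP_67227b_nt.Mo
open Pool.Agent.MP_67227b_nt.Sg
open Pool.Agent.MP_67227b_nt.Mo.MomentBAux (DP)

private lemma R1_mu_norm (n : ℕ) : ‖((ArithmeticFunction.moebius n : ℤ) : ℂ)‖ ≤ 1 := by
  have h := ArithmeticFunction.abs_moebius_le_one (n := n)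
  rw [Complex.norm_intCast]
  exact_mod_cast h

/-- MODULE R1a. Copy of `Sg.cf_bound`. -/
theorem ca_bound {a : ℕ → ℝ} {A : ℝ} (hA : 0 ≤ A) (ha : ∀ n, |a n| ≤ A) (α : ℝ) (N j : ℕ) :
    ‖ca a α N j‖ ≤ A * (j : ℝ) ^ 2 := by
  unfold ca
  have hterm : ∀ p ∈ j.divisorsAntidiagonal,
      ‖((ArithmeticFunction.moebius p.1 : ℤ) : ℂ) * ((p.2 : ℂ) ^ (-((α : ℂ) * I)) *
        ∑ d ∈ p.2.divisors, if d ≤ N then (a d : ℂ) else 0)‖ ≤ A * (j : ℝ) := by
    rintro ⟨p1, p2⟩ hp
    rw [Nat.mem_divisorsAntidiagonal] at hp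
    obtain ⟨hp, hj0⟩ := hp
    simp only at hp ⊢
    have hp2 : 0 < p2 := by
      rcases Nat.eq_zero_or_pos p2 with h | h
      · rw [h, mul_zero] at hp
        exact absurd hp.symm hj0
      · exact h
    have hp2j : p2 ≤ j := Nat.le_of_dvd (Nat.pos_of_ne_zero hj0) (Dvd.intro_left _ hp)
    rw [norm_mul, norm_mul]
    have h1 := R1_mu_norm p1
    have h2 : ‖(p2 : ℂ) ^ (-((α : ℂ) * I))‖ = 1 := by
      rw [Complex.norm_natCast_cpow_of_pos hp2]
      simp
    have h3 : ‖∑ d ∈ p2.divisors, if d ≤ N then (a d : ℂ) else 0‖ ≤ A * (j : ℝ) := by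
      calc ‖∑ d ∈ p2.divisors, if d ≤ N then (a d : ℂ) else 0‖ ≤
          ∑ d ∈ p2.divisors, ‖if d ≤ N then (a d : ℂ) else 0‖ := norm_sum_le _ _
        _ ≤ ∑ d ∈ p2.divisors, A := by
            refine Finset.sum_le_sum fun d _ => ?_
            split_ifs
            · rw [Complex.norm_real]; exact ha d
            · simpa using hA
        _ = A * (p2.divisors.card : ℝ) := by
            rw [Finset.sum_const, nsmul_eq_mul, mul_comm]
        _ ≤ A * (j : ℝ) := by
            apply mul_le_mul_of_nonneg_left _ hA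
            exact_mod_cast (Nat.card_divisors_le_self p2).trans hp2j
    rw [h2, one_mul]
    calc ‖((ArithmeticFunction.moebius p1 : ℤ) : ℂ)‖ *
          ‖∑ d ∈ p2.divisors, if d ≤ N then (a d : ℂ) else 0‖ ≤
        1 * (A * (j : ℝ)) := mul_le_mul h1 h3 (norm_nonneg _) zero_le_one
      _ = A * j := one_mul _
  calc _ ≤ ∑ p ∈ j.divisorsAntidiagonal, A * (j : ℝ) := norm_sum_le_of_le _ hterm
    _ = (j.divisors.card : ℝ) * (A * j) := by
        rw [Finset.sum_const, nsmul_eq_mul]
        congr 2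
        rw [← Nat.map_div_right_divisors, Finset.card_map]
    _ ≤ (j : ℝ) * (A * j) := by
        apply mul_le_mul_of_nonneg_right _ (by positivity)
        exact_mod_cast Nat.card_divisors_le_self j
    _ = A * (j : ℝ) ^ 2 := by ring

open LSeries in
/-- MODULE R1b. Copy of `Sg.cf_series` (see `Sg/SgS.lean`, SG8c) with general coefficients. -/
theorem ca_series (a : ℕ → ℝ) (α : ℝ) (N : ℕ) {s : ℂ} (hs : 3 < s.re) :
    HasSum (fun j : ℕ => if j = 0 then 0 else ca a α N j * (j : ℂ) ^ (-s))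
      (Hq α s * Aa a N (s + (α : ℂ) * I)) := by
  obtain ⟨z, hz⟩ : ∃ z : ℂ, z = s + (α : ℂ) * I := ⟨_, rfl⟩
  have hzre : 1 < z.re := by
    rw [hz]
    simp only [Complex.add_re, Complex.mul_re, Complex.ofReal_re, Complex.I_re, Complex.ofReal_im,
      Complex.I_im]
    linarith
  have hs1 : 1 < s.re := by linarith
  -- the truncated coefficient function
  obtain ⟨f, hf⟩ : ∃ f : ℕ → ℂ, f = fun d => if d ≤ N then (a d : ℂ) else 0 := ⟨_, rfl⟩
  have hfs : LSeriesHasSum f z (Aa a N z) := by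
    unfold LSeriesHasSum Aa
    have h1 : ∑ n ∈ Finset.Icc 1 N, (a n : ℂ) * (n : ℂ) ^ (-z) =
        ∑ n ∈ Finset.Icc 1 N, LSeries.term f z n := by
      refine Finset.sum_congr rfl fun n hn => ?_
      rw [Finset.mem_Icc] at hn
      rw [LSeries.term_of_ne_zero (by omega), hf]
      simp only
      rw [if_pos hn.2, Complex.cpow_neg]
      rfl
    rw [h1]
    apply hasSum_sum_of_ne_finset_zero
    intro n hn
    rw [Finset.mem_Icc] at hn
    rcases Nat.eq_zero_or_pos n with h0 | h0
    · rw [h0, LSeries.term_zero]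
    · rw [LSeries.term_of_ne_zero (by omega), hf]
      simp only
      rw [if_neg (by omega), zero_div]
  have h1s : LSeriesHasSum 1 z (riemannZeta z) := LSeriesHasSum_one hzre
  have hh := hfs.convolution h1s
  -- twist
  obtain ⟨g, hg⟩ : ∃ g : ℕ → ℂ, g = fun n : ℕ => (n : ℂ) ^ (-((α : ℂ) * I)) * (LSeries.convolution f 1) n := ⟨_, rfl⟩
  have hgs : LSeriesHasSum g s (Aa a N z * riemannZeta z) := by
    have hterm : LSeries.term g s = LSeries.term (LSeries.convolution f 1) z := by
      ext n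
      rcases Nat.eq_zero_or_pos n with h0 | h0
      · rw [h0, LSeries.term_zero, LSeries.term_zero]
      · have hn0 : n ≠ 0 := by omega
        have hnC : (n : ℂ) ≠ 0 := by exact_mod_cast hn0
        rw [LSeries.term_of_ne_zero hn0, LSeries.term_of_ne_zero hn0, hg, hz,
          Complex.cpow_add _ _ hnC]
        simp only
        rw [Complex.cpow_neg]
        have h3 : (n : ℂ) ^ ((α : ℂ) * I) ≠ 0 := fun h => hnC ((Complex.cpow_eq_zero_iff _ _).1 h).1
        have h4 : (n : ℂ) ^ s ≠ 0 := fun h => hnC ((Complex.cpow_eq_zero_iff _ _).1 h).1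
        field_simp
    unfold LSeriesHasSum
    rw [hterm]
    exact hh
  have hmu : LSeriesHasSum (fun n => ((ArithmeticFunction.moebius n : ℤ) : ℂ)) s
      (riemannZeta s)⁻¹ := by
    have h3 := (ArithmeticFunction.LSeriesSummable_moebius_iff.mpr hs1).LSeriesHasSum
    have h4 := ArithmeticFunction.LSeries_zeta_mul_Lseries_moebius hs1
    rw [ArithmeticFunction.LSeries_zeta_eq_riemannZeta hs1] at h4
    have h5 := eq_inv_of_mul_eq_one_right h4
    rw [← h5]
    exact h3
  have hfin := hmu.convolution hgs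
  have e1 : (riemannZeta s)⁻¹ * (Aa a N z * riemannZeta z) = Hq α s * Aa a N (s + (α : ℂ) * I) := by
    unfold Hq
    rw [← hz, div_eq_mul_inv]
    ring
  rw [← e1]
  unfold LSeriesHasSum at hfin
  have e2 : (fun j : ℕ => if j = 0 then 0 else ca a α N j * (j : ℂ) ^ (-s)) =
      LSeries.term (LSeries.convolution (fun n => ((ArithmeticFunction.moebius n : ℤ) : ℂ)) g) s := by
    ext j
    rcases Nat.eq_zero_or_pos j with h0 | h0
    · rw [h0, LSeries.term_zero, if_pos rfl]
    · have hj0 : j ≠ 0 := by omega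
      rw [LSeries.term_of_ne_zero hj0, if_neg hj0, Complex.cpow_neg, ← div_eq_mul_inv]
      congr 1
      rw [LSeries.convolution_def]
      unfold ca
      refine Finset.sum_congr rfl fun p hp => ?_
      congr 1
      rw [hg]
      simp only
      congr 1
      rw [LSeries.convolution_def, hf]
      simp only [Pi.one_apply, mul_one]
      rw [Nat.sum_divisorsAntidiagonal (fun d _ => if d ≤ N then (a d : ℂ) else 0)]
  rw [e2]
  exact hfin

end Pool.Agent.MP_67227b_nt.Pp
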