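import Pool.Agent.MP_67227b_nt.Pp.PpDefs

set_option autoImplicit false

open Filter Topology Set MeasureTheory Complex
open scoped Real ArithmeticFunction ContDiff

namespace Pool.Agent.MP_67227b_nt.Pp

open Pool.Agent.Lib.ZetaCount_helper33 Pool.Agent.MP_67227b_nt Pool.Agent.MP_67227b_nt.Mo
open Pool.Agent.MP_67227b_nt.Sg
open Pool.Agent.MP_67227b_nt.Mo.MomentBAux (DP)

private lemma R4_conj (a : ℕ → ℝ) (N : ℕ) (z : ℂ) :
    Aa a N ((starRingEnd ℂ) z) = (starRingEnd ℂ) (Aa a N z) := by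
  unfold Aa
  rw [map_sum]
  refine Finset.sum_congr rfl fun n hn => ?_
  rw [map_mul]
  congr 1
  · simp
  · have h1 : ((n : ℂ)).arg ≠ π := by
      rw [Complex.natCast_arg]
      exact Real.pi_pos.ne
    rw [← map_neg, Complex.cpow_conj _ _ h1]
    simp

/-- MODULE R4. The integrand on the left line: `1 + 2b - s - iα` is the conjugate of `s + iα` for
`Re s = 1/2 + b`, and the window is `exp (-((t - t₀)/Δ)²)`. (Copy of `Sg.Ph_left`, SG13.) -/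
theorem Pa_left (a : ℕ → ℝ) (α b t₀ Δ t : ℝ) (N : ℕ) :
    Pa a α b t₀ Δ N (pl (1 / 2 + b) t) = Hq α (pl (1 / 2 + b) t) *
      ((‖Aa a N (pl (1 / 2 + b) (t + α))‖ ^ 2 * Real.exp (-(((t - t₀) / Δ) ^ 2)) : ℝ) : ℂ) := by
  have e0 : pl (1 / 2 + b) (t + α) = pl (1 / 2 + b) t + (α : ℂ) * I := by
    simp only [pl]
    push_cast
    ring
  have e1 : 1 + 2 * (b : ℂ) - pl (1 / 2 + b) t - (α : ℂ) * I =
      (starRingEnd ℂ) (pl (1 / 2 + b) t + (α : ℂ) * I) := by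
    simp only [pl, map_add, map_mul, Complex.conj_ofReal, Complex.conj_I]
    push_cast
    ring
  have e2 : Aa a N (pl (1 / 2 + b) t + (α : ℂ) * I) *
      Aa a N (1 + 2 * (b : ℂ) - pl (1 / 2 + b) t - (α : ℂ) * I) =
      ((‖Aa a N (pl (1 / 2 + b) t + (α : ℂ) * I)‖ ^ 2 : ℝ) : ℂ) := by
    rw [e1, R4_conj, Complex.mul_conj, Complex.normSq_eq_norm_sq]
  have e3 : Wg Δ b t₀ (pl (1 / 2 + b) t) =
      ((Real.exp (-(((t - t₀) / Δ) ^ 2)) : ℝ) : ℂ) := by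
    have e4 : ((pl (1 / 2 + b) t - pl (1 / 2 + b) t₀) / (Δ : ℂ)) ^ 2 =
        ((-(((t - t₀) / Δ) ^ 2) : ℝ) : ℂ) := by
      simp only [pl]
      push_cast
      have : (1 / 2 + (b : ℂ) + (t : ℂ) * I - (1 / 2 + (b : ℂ) + (t₀ : ℂ) * I)) / (Δ : ℂ) =
          (((t : ℂ) - t₀) / Δ) * I := by ring
      rw [this, mul_pow, Complex.I_sq]
      ring
    unfold Wg
    rw [e4, Complex.ofReal_exp]
  unfold Pa
  rw [e3, mul_assoc (Hq α (pl (1 / 2 + b) t)), e2, e0]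
  push_cast
  ring

end Pool.Agent.MP_67227b_nt.Pp
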