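import Pool.Agent.MP_67227b_nt.Pp.PpDefs
import Pool.Agent.MP_67227b_nt.Sg.SgA

set_option autoImplicit false

open Filter Topology Set MeasureTheory Complex
open scoped Real ArithmeticFunction ContDiff

namespace Pool.Agent.MP_67227b_nt.Pp

open Pool.Agent.Lib.ZetaCount_helper33 Pool.Agent.MP_67227b_nt Pool.Agent.MP_67227b_nt.Mo
open Pool.Agent.MP_67227b_nt.Sg
open Pool.Agent.MP_67227b_nt.Mo.MomentBAux (DP)

private lemma Aa_diff (a : ℕ → ℝ) (N : ℕ) : Differentiable ℂ (Aa a N) := by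
  unfold Aa
  intro s
  apply DifferentiableAt.fun_sum
  intro n hn
  have hn1 : 1 ≤ n := (Finset.mem_Icc.mp hn).1
  have hn0 : (n : ℂ) ≠ 0 := by
    have : n ≠ 0 := by omega
    exact_mod_cast this
  apply DifferentiableAt.const_mul
  exact (differentiableAt_id.neg).const_cpow (Or.inl hn0)

private lemma Aa_norm_le {a : ℕ → ℝ} {A : ℝ} (ha : ∀ n, |a n| ≤ A) (N : ℕ) (hN : 1 ≤ N) {s : ℂ} {k : ℕ} (hs : -(k : ℝ) ≤ s.re) :
    ‖Aa a N s‖ ≤ A * (N : ℝ) ^ (k + 1) := by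
  have hN1 : (1 : ℝ) ≤ N := by exact_mod_cast hN
  unfold Aa
  have h1 : ∀ n ∈ Finset.Icc 1 N,
      ‖((a n : ℝ) : ℂ) * (n : ℂ) ^ (-s)‖ ≤ A * (N : ℝ) ^ k := by
    intro n hn
    rw [Finset.mem_Icc] at hn
    have hn1 : (1 : ℝ) ≤ n := by exact_mod_cast hn.1
    have hnN : (n : ℝ) ≤ N := by exact_mod_cast hn.2
    rw [norm_mul, Complex.norm_natCast_cpow_of_pos (by omega)]
    have h2 : ‖((a n : ℝ) : ℂ)‖ ≤ A := by
      rw [Complex.norm_real, Real.norm_eq_abs]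
      exact ha n
    have h3 : (n : ℝ) ^ (-s).re ≤ (N : ℝ) ^ k := by
      calc (n : ℝ) ^ (-s).re ≤ (n : ℝ) ^ (k : ℝ) :=
            Real.rpow_le_rpow_of_exponent_le hn1 (by rw [Complex.neg_re]; linarith)
        _ ≤ (N : ℝ) ^ (k : ℝ) := Real.rpow_le_rpow (by linarith) hnN (by positivity)
        _ = (N : ℝ) ^ k := Real.rpow_natCast _ _
    have h4 : 0 ≤ (n : ℝ) ^ (-s).re := Real.rpow_nonneg (by linarith) _
    have hA0 : 0 ≤ A := (abs_nonneg _).trans (ha 0)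
    exact mul_le_mul h2 h3 h4 hA0
  refine (norm_sum_le_of_le _ h1).trans (le_of_eq ?_)
  rw [Finset.sum_const, Nat.card_Icc, nsmul_eq_mul, Nat.add_sub_cancel, pow_succ']
  ring

private lemma Wg_norm {Δ b t₀ σ t : ℝ} (hΔ : 4 ≤ Δ) (hb : 0 < b)
    (h1 : 1 / 2 + b ≤ σ) (h2 : σ ≤ 4) {X : ℝ} (ht : (t - t₀) ^ 2 = X ^ 2) :
    ‖Wg Δ b t₀ (pl σ t)‖ ≤ 3 * Real.exp (-(X ^ 2 / Δ ^ 2)) := by
  have hΔ0 : (Δ : ℝ) ≠ 0 := by linarith
  have hΔpos : 0 < Δ := by linarith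
  rw [Wg, Complex.norm_exp]
  have h3 : ((pl σ t - pl (1 / 2 + b) t₀) / (Δ : ℂ)) =
      (((σ - (1 / 2 + b)) / Δ : ℝ) : ℂ) + (((t - t₀) / Δ : ℝ) : ℂ) * I := by
    simp only [pl]
    push_cast
    ring
  have h4 : (((pl σ t - pl (1 / 2 + b) t₀) / (Δ : ℂ)) ^ 2).re =
      (σ - (1 / 2 + b)) ^ 2 / Δ ^ 2 - X ^ 2 / Δ ^ 2 := by
    rw [h3, ← ht, sq, Complex.mul_re]
    simp only [Complex.add_re, Complex.ofReal_re, Complex.mul_re, Complex.I_re, mul_zero,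
      Complex.ofReal_im, Complex.I_im, mul_one, sub_self, add_zero, Complex.add_im,
      Complex.mul_im, zero_add]
    ring
  rw [h4, sub_eq_add_neg, Real.exp_add]
  apply mul_le_mul_of_nonneg_right _ (Real.exp_pos _).le
  have h5 : (σ - (1 / 2 + b)) ^ 2 / Δ ^ 2 ≤ 1 := by
    rw [div_le_one (by positivity)]
    nlinarith
  calc Real.exp ((σ - (1 / 2 + b)) ^ 2 / Δ ^ 2) ≤ Real.exp 1 := Real.exp_le_exp.mpr h5
    _ ≤ 3 := by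
      have := Real.exp_one_lt_d9
      linarith

private lemma Pa_norm {a : ℕ → ℝ} {A α b t₀ Δ X K σ t : ℝ} {N : ℕ} (ha : ∀ n, |a n| ≤ A) (hb : 0 < b) (hΔ : 4 ≤ Δ)
    (hN : 1 ≤ N) (h1 : 1 / 2 + b ≤ σ) (h2 : σ ≤ 4) (ht : (t - t₀) ^ 2 = X ^ 2)
    (hK : ‖Hq α (pl σ t)‖ ≤ K) :
    ‖Pa a α b t₀ Δ N (pl σ t)‖ ≤ 3 * (A ^ 2 * K) * (N : ℝ) ^ 12 * Real.exp (-(X ^ 2 / Δ ^ 2)) := by
  have hN1 : (1 : ℝ) ≤ N := by exact_mod_cast hN
  have hK0 : 0 ≤ K := (norm_nonneg _).trans hK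
  rw [Pa, norm_mul, norm_mul, norm_mul]
  have hA0 : 0 ≤ A := (abs_nonneg _).trans (ha 0)
  have a1 : ‖Aa a N (pl σ t + (α : ℂ) * I)‖ ≤ A * (N : ℝ) ^ (0 + 1) := by
    apply Aa_norm_le ha N hN
    simp [pl]
    linarith
  have a2 : ‖Aa a N (1 + 2 * (b : ℂ) - pl σ t - (α : ℂ) * I)‖ ≤ A * (N : ℝ) ^ (3 + 1) := by
    apply Aa_norm_le ha N hN
    simp [pl]
    linarith
  have a3 := Wg_norm (X := X) (t₀ := t₀) hΔ hb h1 h2 ht
  calc ‖Hq α (pl σ t)‖ * ‖Aa a N (pl σ t + (α : ℂ) * I)‖ *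
        ‖Aa a N (1 + 2 * (b : ℂ) - pl σ t - (α : ℂ) * I)‖ * ‖Wg Δ b t₀ (pl σ t)‖
      ≤ K * (A * (N : ℝ) ^ (0 + 1)) * (A * (N : ℝ) ^ (3 + 1)) * (3 * Real.exp (-(X ^ 2 / Δ ^ 2))) := by
        gcongr
    _ = 3 * (A ^ 2 * K) * (N : ℝ) ^ 5 * Real.exp (-(X ^ 2 / Δ ^ 2)) := by ring
    _ ≤ 3 * (A ^ 2 * K) * (N : ℝ) ^ 12 * Real.exp (-(X ^ 2 / Δ ^ 2)) := by
        gcongr
        norm_num

/-- MODULE R3. Moving the line: copy of `Sg.move_line` (SG14, `Sg/SgC.lean`). -/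
theorem move_line_a (hRH : RiemannHypothesis) {a : ℕ → ℝ} {A α b t₀ Δ X K : ℝ} {N : ℕ}
    (ha : ∀ n, |a n| ≤ A) (hα : 0 ≤ α) (hα1 : α ≤ 1)
    (hb : 0 < b) (hb1 : b ≤ 1) (hΔ : 4 ≤ Δ) (hX : 0 < X) (hXt : X < t₀) (hN : 1 ≤ N)
    (hK : ∀ σ t : ℝ, 1 / 2 + b ≤ σ → σ ≤ 4 → (t = t₀ - X ∨ t = t₀ + X) →
      ‖Hq α (pl σ t)‖ ≤ K) :
    ‖(∫ t in (t₀ - X)..(t₀ + X), Pa a α b t₀ Δ N (pl (1 / 2 + b) t)) -
        ∫ t in (t₀ - X)..(t₀ + X), Pa a α b t₀ Δ N (pl 4 t)‖ ≤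
      100 * A ^ 2 * K * (N : ℝ) ^ 12 * Real.exp (-(X ^ 2 / Δ ^ 2)) := by
  have hdiff : DifferentiableOn ℂ (Pa a α b t₀ Δ N)
      (uIcc (pl (1 / 2 + b) (t₀ - X)).re (pl 4 (t₀ + X)).re ×ℂ
        uIcc (pl (1 / 2 + b) (t₀ - X)).im (pl 4 (t₀ + X)).im) := by
    rw [pl_re, pl_re, pl_im, pl_im, uIcc_of_le (by linarith), uIcc_of_le (by linarith)]
    intro s hs
    rw [Complex.mem_reProdIm] at hs
    have hre : 1 / 2 < s.re := by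
      have := hs.1.1
      linarith
    have him : 0 < s.im := by
      have := hs.2.1
      linarith
    apply DifferentiableAt.differentiableWithinAt
    have d1 : DifferentiableAt ℂ (Hq α) s := differentiableAt_Hq hRH hα hre him
    have d2 : DifferentiableAt ℂ (fun s : ℂ => Aa a N (s + (α : ℂ) * I)) s :=
      (Aa_diff a N _).comp s (by fun_prop)
    have d3 : DifferentiableAt ℂ (fun s : ℂ => Aa a N (1 + 2 * (b : ℂ) - s - (α : ℂ) * I)) s :=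
      (Aa_diff a N _).comp s (by fun_prop)
    have d4 : DifferentiableAt ℂ (Wg Δ b t₀) s := by
      unfold Wg
      fun_prop
    exact ((d1.mul d2).mul d3).mul d4
  have hrect := Complex.integral_boundary_rect_eq_zero_of_differentiableOn _ _ _ hdiff
  rw [pl_re, pl_re, pl_im, pl_im] at hrect
  have hbot : ‖∫ x in (1 / 2 + b)..4, Pa a α b t₀ Δ N ((x : ℂ) + ((t₀ - X : ℝ) : ℂ) * I)‖ ≤
      (3 * (A ^ 2 * K) * (N : ℝ) ^ 12 * Real.exp (-(X ^ 2 / Δ ^ 2))) * |4 - (1 / 2 + b)| := by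
    apply intervalIntegral.norm_integral_le_of_norm_le_const
    intro x hx
    rw [Set.uIoc_of_le (by linarith)] at hx
    have := Pa_norm ha (α := α) (b := b) (t₀ := t₀) (Δ := Δ) (X := X) (K := K) (σ := x)
      (t := t₀ - X) (N := N) hb hΔ hN hx.1.le hx.2 (by ring)
      (hK x _ hx.1.le hx.2 (Or.inl rfl))
    exact this
  have htop : ‖∫ x in (1 / 2 + b)..4, Pa a α b t₀ Δ N ((x : ℂ) + ((t₀ + X : ℝ) : ℂ) * I)‖ ≤
      (3 * (A ^ 2 * K) * (N : ℝ) ^ 12 * Real.exp (-(X ^ 2 / Δ ^ 2))) * |4 - (1 / 2 + b)| := by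
    apply intervalIntegral.norm_integral_le_of_norm_le_const
    intro x hx
    rw [Set.uIoc_of_le (by linarith)] at hx
    have := Pa_norm ha (α := α) (b := b) (t₀ := t₀) (Δ := Δ) (X := X) (K := K) (σ := x)
      (t := t₀ + X) (N := N) hb hΔ hN hx.1.le hx.2 (by ring)
      (hK x _ hx.1.le hx.2 (Or.inr rfl))
    exact this
  set L := ∫ t in (t₀ - X)..(t₀ + X), Pa a α b t₀ Δ N (pl (1 / 2 + b) t) with hLdef
  set R := ∫ t in (t₀ - X)..(t₀ + X), Pa a α b t₀ Δ N (pl 4 t) with hRdef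
  set B := ∫ x in (1 / 2 + b)..4, Pa a α b t₀ Δ N ((x : ℂ) + ((t₀ - X : ℝ) : ℂ) * I) with hBdef
  set U := ∫ x in (1 / 2 + b)..4, Pa a α b t₀ Δ N ((x : ℂ) + ((t₀ + X : ℝ) : ℂ) * I) with hUdef
  have hrect2 : B - U + I * R - I * L = 0 := by
    have := hrect
    simp only [smul_eq_mul] at this
    exact this
  have hLR : I * (L - R) = B - U := by
    linear_combination -hrect2
  have hn : ‖L - R‖ = ‖B - U‖ := by
    rw [← hLR, norm_mul, Complex.norm_I, one_mul]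
  rw [hn]
  refine (norm_sub_le _ _).trans ?_
  have hK0 : 0 ≤ K := (norm_nonneg _).trans (hK 4 (t₀ - X) (by linarith) le_rfl (Or.inl rfl))
  have hM : 0 ≤ (A ^ 2 * K) * (N : ℝ) ^ 12 * Real.exp (-(X ^ 2 / Δ ^ 2)) := by positivity
  have habs : |4 - (1 / 2 + b)| ≤ 4 := by
    rw [abs_of_nonneg (by linarith)]
    linarith
  have h6 : (3 * (A ^ 2 * K) * (N : ℝ) ^ 12 * Real.exp (-(X ^ 2 / Δ ^ 2))) * |4 - (1 / 2 + b)| ≤
      12 * ((A ^ 2 * K) * (N : ℝ) ^ 12 * Real.exp (-(X ^ 2 / Δ ^ 2))) := by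
    calc (3 * (A ^ 2 * K) * (N : ℝ) ^ 12 * Real.exp (-(X ^ 2 / Δ ^ 2))) * |4 - (1 / 2 + b)|
        ≤ (3 * (A ^ 2 * K) * (N : ℝ) ^ 12 * Real.exp (-(X ^ 2 / Δ ^ 2))) * 4 :=
          mul_le_mul_of_nonneg_left habs (by nlinarith)
      _ = _ := by ring
  have h7 : 100 * A ^ 2 * K * (N : ℝ) ^ 12 * Real.exp (-(X ^ 2 / Δ ^ 2)) =
      100 * ((A ^ 2 * K) * (N : ℝ) ^ 12 * Real.exp (-(X ^ 2 / Δ ^ 2))) := by ring
  rw [h7]
  nlinarith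

end Pool.Agent.MP_67227b_nt.Pp
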