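import Pool.Agent.MP_67227b_nt.Pp.PpDefs

set_option autoImplicit false

open Filter Topology Set MeasureTheory Complex
open scoped Real ArithmeticFunction ContDiff

namespace Pool.Agent.MP_67227b_nt.Pp

open Pool.Agent.Lib.ZetaCount_helper33 Pool.Agent.MP_67227b_nt Pool.Agent.MP_67227b_nt.Mo
open Pool.Agent.MP_67227b_nt.Sg
open Pool.Agent.MP_67227b_nt.Mo.MomentBAux (DP)

/-! MODULE A1. The bumps and the mollifier. `Real.smoothTransition` is `0` on `(-∞, 0]`, `1` on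
`[1, ∞)`, monotone, with values in `[0, 1]`. -/

theorem ph_nonneg {η : ℝ} (hη : 0 < η) (i : ℕ) (x : ℝ) : 0 ≤ ph η i x := by
  unfold ph
  have := Real.smoothTransition.monotone (show x / η - ((i : ℝ) + 1) ≤ x / η - i by linarith)
  linarith

theorem ph_le_one (η : ℝ) (i : ℕ) (x : ℝ) : ph η i x ≤ 1 := by
  unfold ph
  linarith [Real.smoothTransition.le_one (x / η - i),
    Real.smoothTransition.nonneg (x / η - ((i : ℝ) + 1))]

theorem ph_zero_left {η : ℝ} (hη : 0 < η) {i : ℕ} {x : ℝ} (h : x ≤ i * η) : ph η i x = 0 := by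
  unfold ph
  have h1 : x / η ≤ i := by rwa [div_le_iff₀ hη]
  rw [Real.smoothTransition.zero_of_nonpos (by linarith),
    Real.smoothTransition.zero_of_nonpos (by linarith), sub_zero]

theorem ph_zero_right {η : ℝ} (hη : 0 < η) {i : ℕ} {x : ℝ} (h : ((i : ℝ) + 2) * η ≤ x) :
    ph η i x = 0 := by
  unfold ph
  have h1 : (i : ℝ) + 2 ≤ x / η := by rwa [le_div_iff₀ hη]
  rw [Real.smoothTransition.one_of_one_le (by linarith),
    Real.smoothTransition.one_of_one_le (by linarith), sub_self]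

/-- Telescoping. -/
theorem sum_ph (η : ℝ) {i0 i1 : ℕ} (h : i0 ≤ i1) (x : ℝ) : ∑ i ∈ Finset.Ico i0 i1, ph η i x =
    Real.smoothTransition (x / η - i0) - Real.smoothTransition (x / η - i1) := by
  induction i1, h using Nat.le_induction with
  | base => simp
  | succ n hn ih =>
    rw [Finset.sum_Ico_succ_top hn, ih, ph]
    push_cast
    ring

theorem sum_ph_le (η : ℝ) (i0 i1 : ℕ) (x : ℝ) : ∑ i ∈ Finset.Ico i0 i1, ph η i x ≤ 1 := by
  rcases le_or_gt i0 i1 with h | h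
  · rw [sum_ph η h]
    linarith [Real.smoothTransition.le_one (x / η - i0),
      Real.smoothTransition.nonneg (x / η - i1)]
  · rw [Finset.Ico_eq_empty (by omega)]
    simp

private theorem A1_cpow {k : ℕ} (p : Fin k → ℕ) (s : ℂ) (S : Finset (Fin k)) :
    ∏ j ∈ S, ((p j : ℕ) : ℂ) ^ (-s) = ((∏ j ∈ S, p j : ℕ) : ℂ) ^ (-s) := by
  classical
  induction S using Finset.induction_on with
  | empty => simp
  | insert a S ha ih =>
    rw [Finset.prod_insert ha, Finset.prod_insert ha, ih, Nat.cast_mul,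
      Complex.natCast_mul_natCast_cpow]

private theorem A1_mem {T η κ : ℝ} (hT : 1 < T) (hη : 0 < η) {i0 i1 k : ℕ}
    {J : Fin k → ℕ} (hJ : J ∈ Tup η κ i0 i1 k) {p : Fin k → ℕ}
    (hp : ∀ j, (p j).Prime)
    (hne : ∏ j, ph η (J j) (Real.log (p j) / Real.log T) ≠ 0) :
    ∏ j, p j ∈ Finset.Icc 1 ⌊T ^ κ⌋₊ := by
  classical
  have hlT : 0 < Real.log T := Real.log_pos hT
  have h1 : ∀ j, Real.log (p j) ≤ ((J j : ℝ) + 2) * η * Real.log T := by
    intro j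
    have h2 : ph η (J j) (Real.log (p j) / Real.log T) ≠ 0 :=
      Finset.prod_ne_zero_iff.1 hne j (Finset.mem_univ j)
    by_contra h3
    push Not at h3
    exact h2 (ph_zero_right hη (by rw [le_div_iff₀ hlT]; exact h3.le))
  have hJ2 : ∑ j, ((J j : ℝ) + 2) * η ≤ κ := by
    unfold Tup at hJ
    exact (Finset.mem_filter.1 hJ).2
  have hpos : ∀ j, (0 : ℝ) < p j := fun j => by exact_mod_cast (hp j).pos
  have h4 : Real.log ((∏ j, p j : ℕ) : ℝ) ≤ κ * Real.log T := by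
    rw [Nat.cast_prod, Real.log_prod (fun j _ => (hpos j).ne')]
    calc ∑ j, Real.log (p j) ≤ ∑ j, ((J j : ℝ) + 2) * η * Real.log T :=
          Finset.sum_le_sum (fun j _ => h1 j)
      _ = (∑ j, ((J j : ℝ) + 2) * η) * Real.log T := by rw [Finset.sum_mul]
      _ ≤ κ * Real.log T := mul_le_mul_of_nonneg_right hJ2 hlT.le
  have h5 : 0 < ∏ j, p j := Finset.prod_pos (fun j _ => (hp j).pos)
  rw [Finset.mem_Icc]
  refine ⟨h5, Nat.le_floor ?_⟩
  have h6 : (0 : ℝ) < ((∏ j, p j : ℕ) : ℝ) := by exact_mod_cast h5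
  rw [← Real.log_le_log_iff h6 (by positivity), Real.log_rpow (by linarith)]
  exact h4

private theorem A1_prod {T η κ : ℝ} (hT : 1 < T) (hη : 0 < η) {i0 i1 k : ℕ}
    {J : Fin k → ℕ} (hJ : J ∈ Tup η κ i0 i1 k) (s : ℂ) :
    ∏ j, Qi T η (J j) s = ∑ n ∈ Finset.Icc 1 ⌊T ^ κ⌋₊,
      ((∑ p ∈ PT' T k n, ∏ j, ph η (J j) (Real.log (p j) / Real.log T) : ℝ) : ℂ) *
        (n : ℂ) ^ (-s) := by
  classical
  unfold Qi
  rw [Finset.prod_univ_sum]
  have hterm : ∀ p ∈ Fintype.piFinset (fun _ : Fin k => (Finset.Icc 1 ⌊T⌋₊).filter Nat.Prime),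
      ∏ j, (((ph η (J j) (Real.log (p j) / Real.log T) : ℝ) : ℂ) * ((p j : ℕ) : ℂ) ^ (-s)) =
      ∑ n ∈ Finset.Icc 1 ⌊T ^ κ⌋₊, if ∏ j, p j = n then
        ((∏ j, ph η (J j) (Real.log (p j) / Real.log T) : ℝ) : ℂ) * (n : ℂ) ^ (-s) else 0 := by
    intro p hp
    have hpp : ∀ j, (p j).Prime := fun j =>
      (Finset.mem_filter.1 (Fintype.mem_piFinset.1 hp j)).2
    rw [Finset.sum_ite_eq]
    by_cases hz : ∏ j, ph η (J j) (Real.log (p j) / Real.log T) = 0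
    · rw [Finset.prod_mul_distrib, ← Complex.ofReal_prod, hz]
      simp
    · rw [if_pos (A1_mem hT hη hJ hpp hz), Finset.prod_mul_distrib, A1_cpow,
        ← Complex.ofReal_prod]
  rw [Finset.sum_congr rfl hterm, Finset.sum_comm]
  refine Finset.sum_congr rfl (fun n _ => ?_)
  rw [← Finset.sum_filter, ← Finset.sum_mul, Complex.ofReal_sum]
  unfold PT'
  rfl

/-- Expand the products. A term of the tuple `p` of primes with indices `J` is nonzero only if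
`log (p j)/log T < (J j + 2) η` for all `j`, so the product of the `p j` is at most `T^κ`; group the
tuples by their product `n`. -/
theorem Ap_eq {T η κ : ℝ} (hT : 1 < T) (hη : 0 < η) (hκ : 0 ≤ κ) (i0 i1 K : ℕ) (s : ℂ) :
    Ap T η κ i0 i1 K s = Aa (ap T η κ i0 i1 K) ⌊T ^ κ⌋₊ s := by
  unfold Ap Aa ap
  have h1 : ∀ k ∈ Finset.range (K + 1), ((-1) ^ k / (k.factorial : ℂ)) *
      ∑ J ∈ Tup η κ i0 i1 k, ∏ j, Qi T η (J j) s =
      ∑ n ∈ Finset.Icc 1 ⌊T ^ κ⌋₊, ((((-1) ^ k / (k.factorial : ℝ)) *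
        ∑ J ∈ Tup η κ i0 i1 k, ∑ p ∈ PT' T k n, ∏ j, ph η (J j) (Real.log (p j) / Real.log T) :
          ℝ) : ℂ) * (n : ℂ) ^ (-s) := by
    intro k _
    rw [Finset.sum_congr rfl (fun J hJ => A1_prod hT hη hJ s), Finset.sum_comm, Finset.mul_sum]
    refine Finset.sum_congr rfl (fun n _ => ?_)
    rw [← Finset.sum_mul, Complex.ofReal_mul, Complex.ofReal_sum, ← mul_assoc]
    push_cast
    rfl
  rw [Finset.sum_congr rfl h1, Finset.sum_comm]
  refine Finset.sum_congr rfl (fun n _ => ?_)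
  rw [← Finset.sum_mul, Complex.ofReal_sum]

/-- `‖Ap‖ ≤ ∑_k (1/k!) ∑_J ∏ ‖Qi‖ ≤ ∑_k (1/k!) (∑_i ‖Qi‖)^k ≤ exp (∑_i ‖Qi‖)`; an index `i` in a
tuple `J ∈ Tup` has `(i + 2) η ≤ κ` since all terms of the sum are nonnegative. -/
theorem norm_Ap_le {T η κ : ℝ} (hη : 0 < η) (i0 i1 K : ℕ) (s : ℂ) :
    ‖Ap T η κ i0 i1 K s‖ ≤ Real.exp (∑ i ∈ (Finset.Ico i0 i1).filter
      (fun i : ℕ => ((i : ℝ) + 2) * η ≤ κ), ‖Qi T η i s‖) := by
  classical
  set S := (Finset.Ico i0 i1).filter (fun i : ℕ => ((i : ℝ) + 2) * η ≤ κ) with hS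
  have hsub : ∀ k : ℕ, Tup η κ i0 i1 k ⊆ Fintype.piFinset (fun _ : Fin k => S) := by
    intro k J hJ
    unfold Tup at hJ
    obtain ⟨hJ1, hJ2⟩ := Finset.mem_filter.1 hJ
    rw [Fintype.mem_piFinset]
    intro j
    rw [hS, Finset.mem_filter]
    refine ⟨Fintype.mem_piFinset.1 hJ1 j, le_trans ?_ hJ2⟩
    exact Finset.single_le_sum (f := fun j => ((J j : ℝ) + 2) * η)
      (fun i _ => by positivity) (Finset.mem_univ j)
  have h1 : ∀ k : ℕ, ‖∑ J ∈ Tup η κ i0 i1 k, ∏ j, Qi T η (J j) s‖ ≤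
      (∑ i ∈ S, ‖Qi T η i s‖) ^ k := by
    intro k
    calc ‖∑ J ∈ Tup η κ i0 i1 k, ∏ j, Qi T η (J j) s‖
        ≤ ∑ J ∈ Tup η κ i0 i1 k, ‖∏ j, Qi T η (J j) s‖ := norm_sum_le _ _
      _ = ∑ J ∈ Tup η κ i0 i1 k, ∏ j, ‖Qi T η (J j) s‖ := by simp only [norm_prod]
      _ ≤ ∑ J ∈ Fintype.piFinset (fun _ : Fin k => S), ∏ j, ‖Qi T η (J j) s‖ :=
          Finset.sum_le_sum_of_subset_of_nonneg (hsub k)
            (fun J _ _ => Finset.prod_nonneg (fun j _ => norm_nonneg _))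
      _ = ∏ _j : Fin k, ∑ i ∈ S, ‖Qi T η i s‖ := by rw [Finset.prod_univ_sum]
      _ = (∑ i ∈ S, ‖Qi T η i s‖) ^ k := by
          rw [Finset.prod_const, Finset.card_univ, Fintype.card_fin]
  unfold Ap
  calc ‖∑ k ∈ Finset.range (K + 1), ((-1) ^ k / (k.factorial : ℂ)) *
        ∑ J ∈ Tup η κ i0 i1 k, ∏ j, Qi T η (J j) s‖
      ≤ ∑ k ∈ Finset.range (K + 1), ‖((-1) ^ k / (k.factorial : ℂ)) *
        ∑ J ∈ Tup η κ i0 i1 k, ∏ j, Qi T η (J j) s‖ := norm_sum_le _ _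
    _ ≤ ∑ k ∈ Finset.range (K + 1), (∑ i ∈ S, ‖Qi T η i s‖) ^ k / (k.factorial : ℝ) := by
        refine Finset.sum_le_sum (fun k _ => ?_)
        rw [norm_mul, norm_div, norm_pow, norm_neg, norm_one, one_pow, Complex.norm_natCast,
          one_div, inv_mul_eq_div]
        exact div_le_div_of_nonneg_right (h1 k) (by positivity)
    _ ≤ Real.exp (∑ i ∈ S, ‖Qi T η i s‖) :=
        Real.sum_le_exp_of_nonneg (Finset.sum_nonneg (fun i _ => norm_nonneg _)) _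

end Pool.Agent.MP_67227b_nt.Pp
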