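import Pool.Agent.MP_67227b_nt.Pp.PpLevel

set_option autoImplicit false

open Filter Topology Set MeasureTheory Complex
open scoped Real ArithmeticFunction ContDiff

namespace Pool.Agent.MP_67227b_nt.Pp

open Pool.Agent.Lib.ZetaCount_helper33 Pool.Agent.MP_67227b_nt Pool.Agent.MP_67227b_nt.Mo
open Pool.Agent.MP_67227b_nt.Sg
open Pool.Agent.MP_67227b_nt.Mo.MomentBAux (DP)

/-- the density bound -/
noncomputable def E2_g (κ₀ k : ℝ) : ℝ := (κ₀ / (2 * k)) ^ ⌊k / (4 * κ₀)⌋₊

theorem E2_log {κ₀ k M : ℝ} (hκ : 1 ≤ κ₀) (hk : 8 * κ₀ ≤ k) (hM : 0 ≤ M)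
    (h : M ≤ k / (8 * κ₀) * Real.log (2 * k / κ₀)) : Real.exp M * E2_g κ₀ k ≤ 1 := by
  have hκ0 : 0 < κ₀ := by linarith
  have hk0 : 0 < k := by linarith
  set q := ⌊k / (4 * κ₀)⌋₊ with hq
  have hq1 : k / (8 * κ₀) ≤ q := by
    have h1 : k / (4 * κ₀) < q + 1 := Nat.lt_floor_add_one _
    have h2 : k / (4 * κ₀) = 2 * (k / (8 * κ₀)) := by field_simp; ring
    have h3 : 1 ≤ k / (8 * κ₀) := by
      rw [le_div_iff₀ (by positivity)]
      linarith
    linarith
  have hlog : 0 ≤ Real.log (2 * k / κ₀) := by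
    apply Real.log_nonneg
    rw [le_div_iff₀ hκ0]
    linarith
  have h4 : E2_g κ₀ k = Real.exp (-(q * Real.log (2 * k / κ₀))) := by
    unfold E2_g
    rw [← hq]
    have h5 : κ₀ / (2 * k) = Real.exp (-Real.log (2 * k / κ₀)) := by
      rw [Real.exp_neg, Real.exp_log (by positivity)]
      rw [inv_div]
    rw [h5, ← Real.exp_nat_mul]
    congr 1
    ring
  rw [h4, ← Real.exp_add]
  rw [← Real.exp_zero]
  apply Real.exp_le_exp.2
  have h6 : k / (8 * κ₀) * Real.log (2 * k / κ₀) ≤ q * Real.log (2 * k / κ₀) := by gcongr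
  linarith

theorem E2_meas {g : ℝ → ℝ} {a b : ℝ} (hg : ContinuousOn g (Icc a b)) (c : ℝ) :
    MeasurableSet {t ∈ Icc a b | c < g t} := by
  obtain ⟨u, hu1, hu2⟩ := (continuousOn_iff'.1 hg) (Ioi c) isOpen_Ioi
  have : {t ∈ Icc a b | c < g t} = u ∩ Icc a b := by
    rw [← hu2]
    ext t
    constructor
    · rintro ⟨h1, h2⟩
      exact ⟨h2, h1⟩
    · rintro ⟨h1, h2⟩
      exact ⟨h2, h1⟩
  rw [this]
  exact hu1.measurableSet.inter measurableSet_Icc

/-- pointwise bound -/
theorem E2_pt {x C lam M : ℝ} {k₂ k₁ : ℕ} (hC : 0 < C) (hlam : 0 < lam) (hk : k₂ ≤ k₁)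
    (hx : lam * x ≤ M) :
    Real.exp (lam * x) ≤ Real.exp (lam * (3 * C * k₂)) +
      (∑ j ∈ Finset.Ico k₂ k₁, if 3 * C * (j : ℝ) < x then
        Real.exp (lam * (3 * C * (j + 1))) else 0) +
      (if 3 * C * (k₁ : ℝ) < x then Real.exp M else 0) := by
  have hs0 : 0 ≤ ∑ j ∈ Finset.Ico k₂ k₁, (if 3 * C * (j : ℝ) < x then
        Real.exp (lam * (3 * C * (j + 1))) else 0) := by
    apply Finset.sum_nonneg
    intro j _
    split_ifs
    · positivity
    · exact le_rfl
  have hl0 : 0 ≤ (if 3 * C * (k₁ : ℝ) < x then Real.exp M else 0) := by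
    split_ifs
    · positivity
    · exact le_rfl
  by_cases h1 : 3 * C * (k₁ : ℝ) < x
  · rw [if_pos h1]
    have h2 : Real.exp (lam * x) ≤ Real.exp M := Real.exp_le_exp.2 hx
    have h3 : 0 < Real.exp (lam * (3 * C * k₂)) := Real.exp_pos _
    linarith
  · by_cases h4 : 3 * C * (k₂ : ℝ) < x
    · -- find the level
      have h5 : ∃ j ∈ Finset.Ico k₂ k₁, 3 * C * (j : ℝ) < x ∧ x ≤ 3 * C * (j + 1) := by
        clear hs0 hl0 hx
        induction k₁, hk using Nat.le_induction with
        | base => exact absurd h4 h1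
        | succ n hn ih =>
          by_cases h6 : 3 * C * (n : ℝ) < x
          · refine ⟨n, ?_, h6, ?_⟩
            · rw [Finset.mem_Ico]; omega
            · have := not_lt.1 h1
              push_cast at this
              linarith
          · obtain ⟨j, hj1, hj2⟩ := ih h6
            refine ⟨j, ?_, hj2⟩
            rw [Finset.mem_Ico] at hj1 ⊢
            omega
      obtain ⟨j, hj1, hj2, hj3⟩ := h5
      have h7 : Real.exp (lam * x) ≤ ∑ j ∈ Finset.Ico k₂ k₁, (if 3 * C * (j : ℝ) < x then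
          Real.exp (lam * (3 * C * (j + 1))) else 0) := by
        refine le_trans ?_ (Finset.single_le_sum (f := fun j : ℕ => if 3 * C * (j : ℝ) < x then
          Real.exp (lam * (3 * C * ((j : ℝ) + 1))) else 0) (fun i _ => ?_) hj1)
        · simp only [if_pos hj2]
          apply Real.exp_le_exp.2
          exact mul_le_mul_of_nonneg_left hj3 hlam.le
        · split_ifs
          · positivity
          · exact le_rfl
      have h8 : 0 < Real.exp (lam * (3 * C * k₂)) := Real.exp_pos _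
      linarith
    · have h9 : Real.exp (lam * x) ≤ Real.exp (lam * (3 * C * k₂)) :=
        Real.exp_le_exp.2 (mul_le_mul_of_nonneg_left (not_lt.1 h4) hlam.le)
      linarith

/-- MODULE E2. Exponential integrability. Let `L = log T`, `g(k) = (κ₀/(2k))^{⌊k/(4κ₀)⌋}`,
`C₂` the constant in `hb`. Choose `k₂` with `e^{3C lam (k+1)} g(k) ≤ 2^{-k}` for all integers
`k ≥ k₂` (possible as `g(k)^{1/k} → 0`), and `A` with `e^{lam C₂ L} g(k₁) ≤ 1`, where `k₁` is the
integer part of `A L/log L`: `log g(k₁) ≤ -(k₁/(4κ₀) - 1) log (2k₁/κ₀) ≤ -(A/(8κ₀)) L`.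
Cut the interval along the sets `3Ck < f ≤ 3C(k+1)`, `k₂ ≤ k < k₁`, and `3Ck₁ < f`. -/
theorem exp_int {f : ℝ → ℝ → ℝ} (hf : LD f)
    (hc : ∀ᶠ T : ℝ in atTop, ContinuousOn (f T) (Icc (T / 2) (3 * T)))
    (hb : ∃ C : ℝ, ∀ᶠ T : ℝ in atTop, ∀ t ∈ Icc (T / 2) (3 * T), f T t ≤ C * Real.log T)
    {lam : ℝ} (hlam : 0 < lam) : ∃ K : ℝ, 0 < K ∧ ∀ᶠ T : ℝ in atTop,
      ∫ t in (T / 2)..(3 * T), Real.exp (lam * f T t) ≤ K * T := by
  obtain ⟨C, κ₀, hC, hκ, hlev⟩ := level_meas hf
  obtain ⟨C₂', hb'⟩ := hb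
  set C₂ : ℝ := |C₂'| + 1 with hC₂
  have hC₂0 : 0 < C₂ := by positivity
  have hκ0 : 0 < κ₀ := by linarith
  set A : ℝ := 32 * κ₀ * (lam * C₂) with hA
  have hA0 : 0 < A := by positivity
  -- the lower level
  set B0 : ℝ := 8 * κ₀ * (6 * C * lam + 1) with hB0
  obtain ⟨k₂, hk₂⟩ := exists_nat_ge (max (8 * κ₀) (κ₀ * Real.exp B0))
  have hk₂a : 8 * κ₀ ≤ k₂ := (le_max_left _ _).trans hk₂
  have hk₂b : κ₀ * Real.exp B0 ≤ k₂ := (le_max_right _ _).trans hk₂
  have hg : ∀ j : ℕ, k₂ ≤ j → Real.exp (lam * (3 * C * ((j : ℝ) + 1))) * E2_g κ₀ j ≤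
      (1 / 2) ^ j := by
    intro j hj
    have hj' : (k₂ : ℝ) ≤ j := by exact_mod_cast hj
    have hj8 : 8 * κ₀ ≤ j := hk₂a.trans hj'
    have hj0 : (0 : ℝ) < j := by linarith
    have hj1 : (1 : ℝ) ≤ j := by linarith
    have h1 : Real.exp (lam * (3 * C * ((j : ℝ) + 1)) + j * Real.log 2) * E2_g κ₀ j ≤ 1 := by
      apply E2_log hκ hj8
      · have := Real.log_nonneg (one_le_two (α := ℝ))
        positivity
      · have h2 : B0 ≤ Real.log (2 * j / κ₀) := by
          rw [Real.le_log_iff_exp_le (by positivity), le_div_iff₀ hκ0]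
          linarith
        have h3 : (j : ℝ) / (8 * κ₀) * B0 = j * (6 * C * lam + 1) := by
          rw [hB0]
          field_simp
        have h4 : (j : ℝ) / (8 * κ₀) * B0 ≤ j / (8 * κ₀) * Real.log (2 * j / κ₀) := by gcongr
        have h5 : Real.log 2 ≤ 1 := by
          have := Real.log_two_lt_d9
          linarith
        have h6 : lam * (3 * C * ((j : ℝ) + 1)) ≤ lam * (3 * C * (j + j)) := by gcongr
        have h7 : (j : ℝ) * Real.log 2 ≤ j * 1 := by gcongr
        rw [h3] at h4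
        linarith
    have h8 : Real.exp ((j : ℝ) * Real.log 2) = 2 ^ j := by
      rw [Real.exp_nat_mul, Real.exp_log two_pos]
    rw [Real.exp_add, h8] at h1
    rw [one_div, inv_pow, ← one_div, le_div_iff₀ (by positivity)]
    calc Real.exp (lam * (3 * C * ((j : ℝ) + 1))) * E2_g κ₀ j * 2 ^ j =
        Real.exp (lam * (3 * C * ((j : ℝ) + 1))) * 2 ^ j * E2_g κ₀ j := by ring
      _ ≤ 1 := h1
  refine ⟨3 * Real.exp (lam * (3 * C * k₂)) + 24, by positivity, ?_⟩
  have hll := (Real.tendsto_log_atTop.comp Real.tendsto_log_atTop).eventually_ge_atTop 1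
  -- growth conditions
  have ht1 : Tendsto (fun L : ℝ => L / Real.log L) atTop atTop := by
    have h0 : Tendsto (fun L : ℝ => Real.log L / L) atTop (𝓝 0) := by
      simpa using Real.tendsto_pow_log_div_mul_add_atTop 1 0 1 one_ne_zero
    have h1 : Tendsto (fun L : ℝ => Real.log L / L) atTop (𝓝[>] 0) := by
      refine tendsto_nhdsWithin_iff.2 ⟨h0, ?_⟩
      filter_upwards [eventually_gt_atTop (1 : ℝ)] with L hL
      exact div_pos (Real.log_pos hL) (by linarith)
    have h2 := h1.inv_tendsto_nhdsGT_zero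
    refine h2.congr fun L => ?_
    rw [Pi.inv_apply, inv_div]
  have hgr1 : ∀ᶠ T : ℝ in atTop, (k₂ : ℝ) + 2 ≤ A * (Real.log T / Real.log (Real.log T)) := by
    have h1 := (ht1.comp Real.tendsto_log_atTop).const_mul_atTop hA0
    exact h1.eventually_ge_atTop _
  have hgr2 : ∀ᶠ T : ℝ in atTop, κ₀ * Real.sqrt (Real.log T) ≤
      A * (Real.log T / Real.log (Real.log T)) := by
    have h1 : ∀ᶠ L : ℝ in atTop, κ₀ * Real.sqrt L ≤ A * (L / Real.log L) := by
      have h2 := (isLittleO_log_rpow_atTop (r := 1 / 2) (by norm_num)).bound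
        (c := A / κ₀) (by positivity)
      filter_upwards [h2, eventually_gt_atTop (Real.exp 1)] with L hL1 hL2
      have hL0 : 0 < L := lt_trans (Real.exp_pos 1) hL2
      have hlL : 1 < Real.log L := by
        rw [Real.lt_log_iff_exp_lt hL0]
        exact hL2
      rw [Real.norm_of_nonneg (by linarith), Real.norm_of_nonneg (by positivity),
        ← Real.sqrt_eq_rpow] at hL1
      rw [mul_div_assoc', le_div_iff₀ (by linarith)]
      have hs := Real.mul_self_sqrt hL0.le
      have hs0 : 0 < Real.sqrt L := Real.sqrt_pos.2 hL0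
      calc κ₀ * Real.sqrt L * Real.log L ≤ κ₀ * Real.sqrt L * (A / κ₀ * Real.sqrt L) := by gcongr
        _ = A * (Real.sqrt L * Real.sqrt L) := by field_simp
        _ = A * L := by rw [hs]
    exact Real.tendsto_log_atTop.eventually h1
  filter_upwards [hc, hb', hlev A hA0, hll, hgr1, hgr2, eventually_gt_atTop (Real.exp 1)] with
    T hcT hbT hlT hllT hg1 hg2 hT
  have hT0 : 0 < T := lt_trans (Real.exp_pos 1) hT
  have hL1 : 1 < Real.log T := by
    rw [Real.lt_log_iff_exp_lt hT0]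
    exact hT
  set L := Real.log T with hLdef
  have hll1 : 1 ≤ Real.log L := hllT
  have hL0 : 0 < L := by linarith
  set X : ℝ := A * (L / Real.log L) with hX
  set k₁ : ℕ := ⌊X⌋₊ with hk₁
  have hX0 : 0 < X := by
    have : (0 : ℝ) ≤ k₂ := Nat.cast_nonneg _
    linarith
  have hk₁X : (k₁ : ℝ) ≤ X := Nat.floor_le hX0.le
  have hk₁' : X < k₁ + 1 := Nat.lt_floor_add_one _
  have hk₂' : 1 ≤ (k₂ : ℝ) := by linarith
  have hk₁X2 : X / 2 ≤ k₁ := by linarith
  have hk21 : k₂ ≤ k₁ := by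
    have : (k₂ : ℝ) < k₁ + 1 := by linarith
    have : k₂ < k₁ + 1 := by exact_mod_cast this
    omega
  have hk21' : (k₂ : ℝ) ≤ k₁ := by exact_mod_cast hk21
  -- measure of the levels
  have hm : ∀ j : ℕ, k₂ ≤ j → j ≤ k₁ →
      volume.real {t ∈ Icc (T / 2) (3 * T) | 3 * C * (j : ℝ) < f T t} ≤ 8 * T * E2_g κ₀ j := by
    intro j hj1 hj2
    have hj1' : (k₂ : ℝ) ≤ j := by exact_mod_cast hj1
    have hj2' : (j : ℝ) ≤ k₁ := by exact_mod_cast hj2
    apply hlT j (hk₂a.trans hj1')
    rw [mul_div_assoc]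
    exact hj2'.trans hk₁X
  have htop : Real.exp (lam * (C₂ * L)) * E2_g κ₀ k₁ ≤ 1 := by
    apply E2_log hκ (hk₂a.trans hk21') (by positivity)
    have h1 : Real.log L / 2 ≤ Real.log (2 * k₁ / κ₀) := by
      have h2 : Real.log L / 2 = Real.log (Real.sqrt L) := by rw [Real.log_sqrt hL0.le]
      rw [h2]
      apply Real.log_le_log (Real.sqrt_pos.2 hL0)
      rw [le_div_iff₀ hκ0]
      linarith
    have h3 : A * L / (16 * κ₀ * Real.log L) ≤ k₁ / (8 * κ₀) := by
      rw [div_le_div_iff₀ (by positivity) (by positivity)]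
      have h4 : X * Real.log L = A * L := by
        rw [hX]
        field_simp
      have h5 : X / 2 * Real.log L ≤ k₁ * Real.log L := by gcongr
      have h6 : A * L ≤ 2 * (k₁ * Real.log L) := by linarith
      have h7 : A * L * (8 * κ₀) ≤ 2 * (k₁ * Real.log L) * (8 * κ₀) := by gcongr
      linarith
    calc lam * (C₂ * L) = A * L / (16 * κ₀ * Real.log L) * (Real.log L / 2) := by
          rw [hA]
          field_simp
          ring
      _ ≤ k₁ / (8 * κ₀) * Real.log (2 * k₁ / κ₀) := by gcongr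
  have hfle : ∀ t ∈ Icc (T / 2) (3 * T), lam * f T t ≤ lam * (C₂ * L) := by
    intro t ht
    have h1 := hbT t ht
    have h2 : C₂' * L ≤ C₂ * L := by
      gcongr
      rw [hC₂]
      have := le_abs_self C₂'
      linarith
    gcongr
    linarith
  have hTT : T / 2 ≤ 3 * T := by linarith
  -- the majorant
  set E : ℕ → Set ℝ := fun j => {t ∈ Icc (T / 2) (3 * T) | 3 * C * (j : ℝ) < f T t} with hE
  have hEm : ∀ j, MeasurableSet (E j) := fun j => E2_meas hcT _
  let G : ℝ → ℝ := fun t => Real.exp (lam * (3 * C * k₂)) +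
      (∑ j ∈ Finset.Ico k₂ k₁, (E j).indicator
        (fun _ => Real.exp (lam * (3 * C * (j + 1)))) t) +
      (E k₁).indicator (fun _ => Real.exp (lam * (C₂ * L))) t
  have hle : ∀ t ∈ Icc (T / 2) (3 * T), Real.exp (lam * f T t) ≤ G t := by
    intro t ht
    have h1 := E2_pt (x := f T t) (M := lam * (C₂ * L)) hC hlam hk21 (hfle t ht)
    refine h1.trans (le_of_eq ?_)
    have h2 : ∀ (j : ℕ) (c : ℝ), (if 3 * C * (j : ℝ) < f T t then c else 0) =
        (E j).indicator (fun _ => c) t := by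
      intro j c
      by_cases h3 : 3 * C * (j : ℝ) < f T t
      · rw [if_pos h3, indicator_of_mem (show t ∈ E j from ⟨ht, h3⟩)]
      · rw [if_neg h3, indicator_of_notMem (fun h4 : t ∈ E j => h3 h4.2)]
    simp only [G]
    rw [h2 k₁]
    congr 2
    exact Finset.sum_congr rfl fun j _ => h2 j _
  have hindint : ∀ (j : ℕ) (c : ℝ), IntegrableOn ((E j).indicator fun _ => c)
      (Ioc (T / 2) (3 * T)) := by
    intro j c
    apply Integrable.indicator _ (hEm j)
    exact integrableOn_const (by simp) (by simp)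
  have hindle : ∀ (j : ℕ) (c : ℝ), k₂ ≤ j → j ≤ k₁ → 0 ≤ c →
      ∫ t in Ioc (T / 2) (3 * T), (E j).indicator (fun _ => c) t ≤ c * (8 * T * E2_g κ₀ j) := by
    intro j c hj1 hj2 hc0
    rw [integral_indicator_const c (hEm j), smul_eq_mul, mul_comm]
    refine mul_le_mul_of_nonneg_left ?_ hc0
    rw [measureReal_restrict_apply (hEm j)]
    refine le_trans (measureReal_mono inter_subset_left ?_) (hm j hj1 hj2)
    refine ne_of_lt (lt_of_le_of_lt (measure_mono (t := Icc (T / 2) (3 * T)) ?_)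
      isCompact_Icc.measure_lt_top)
    exact fun t ht => ht.1
  have hGint : IntegrableOn G (Ioc (T / 2) (3 * T)) := by
    apply Integrable.add
    · apply Integrable.add
      · exact integrableOn_const (by simp) (by simp)
      · exact integrable_finsetSum _ fun j _ => hindint j _
    · exact hindint k₁ _
  have hexpint : IntegrableOn (fun t => Real.exp (lam * f T t)) (Ioc (T / 2) (3 * T)) := by
    have h1 : ContinuousOn (fun t => Real.exp (lam * f T t)) (Icc (T / 2) (3 * T)) :=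
      Real.continuous_exp.comp_continuousOn (continuousOn_const.mul hcT)
    exact (h1.integrableOn_compact isCompact_Icc).mono_set Ioc_subset_Icc_self
  rw [intervalIntegral.integral_of_le hTT]
  have hmono : ∫ t in Ioc (T / 2) (3 * T), Real.exp (lam * f T t) ≤
      ∫ t in Ioc (T / 2) (3 * T), G t := by
    apply setIntegral_mono_on hexpint hGint measurableSet_Ioc
    intro t ht
    exact hle t (Ioc_subset_Icc_self ht)
  refine hmono.trans ?_
  have hsplit : ∫ t in Ioc (T / 2) (3 * T), G t =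
      (∫ t in Ioc (T / 2) (3 * T), Real.exp (lam * (3 * C * k₂))) +
      (∑ j ∈ Finset.Ico k₂ k₁, ∫ t in Ioc (T / 2) (3 * T), (E j).indicator
        (fun _ => Real.exp (lam * (3 * C * (j + 1)))) t) +
      ∫ t in Ioc (T / 2) (3 * T), (E k₁).indicator (fun _ => Real.exp (lam * (C₂ * L))) t := by
    simp only [G]
    rw [integral_add, integral_add, integral_finsetSum]
    · exact fun j _ => hindint j _
    · exact integrableOn_const (by simp) (by simp)
    · exact integrable_finsetSum _ fun j _ => hindint j _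
    · apply Integrable.add
      · exact integrableOn_const (by simp) (by simp)
      · exact integrable_finsetSum _ fun j _ => hindint j _
    · exact hindint k₁ _
  rw [hsplit]
  have hI1 : ∫ t in Ioc (T / 2) (3 * T), Real.exp (lam * (3 * C * k₂)) ≤
      3 * Real.exp (lam * (3 * C * k₂)) * T := by
    rw [setIntegral_const, smul_eq_mul, Real.volume_real_Ioc_of_le hTT]
    have := Real.exp_pos (lam * (3 * C * k₂))
    nlinarith
  have hI2 : ∑ j ∈ Finset.Ico k₂ k₁, ∫ t in Ioc (T / 2) (3 * T), (E j).indicator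
        (fun _ => Real.exp (lam * (3 * C * ((j : ℝ) + 1)))) t ≤ 16 * T := by
    have h1 : ∀ j ∈ Finset.Ico k₂ k₁, ∫ t in Ioc (T / 2) (3 * T), (E j).indicator
        (fun _ => Real.exp (lam * (3 * C * ((j : ℝ) + 1)))) t ≤ 8 * T * (1 / 2) ^ j := by
      intro j hj
      rw [Finset.mem_Ico] at hj
      refine (hindle j _ hj.1 hj.2.le (Real.exp_pos _).le).trans ?_
      have h2 := hg j hj.1
      have h3 : 0 ≤ 8 * T := by positivity
      calc Real.exp (lam * (3 * C * ((j : ℝ) + 1))) * (8 * T * E2_g κ₀ j)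
          = 8 * T * (Real.exp (lam * (3 * C * ((j : ℝ) + 1))) * E2_g κ₀ j) := by ring
        _ ≤ 8 * T * (1 / 2) ^ j := mul_le_mul_of_nonneg_left h2 h3
    refine (Finset.sum_le_sum h1).trans ?_
    rw [← Finset.mul_sum]
    have h4 : ∑ j ∈ Finset.Ico k₂ k₁, ((1 : ℝ) / 2) ^ j ≤ 2 := by
      refine le_trans (Finset.sum_le_sum_of_subset_of_nonneg
        (t := Finset.range k₁) ?_ (fun _ _ _ => by positivity)) ?_
      · intro j hj
        rw [Finset.mem_Ico] at hj
        exact Finset.mem_range.2 hj.2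
      · exact sum_geometric_two_le k₁
    nlinarith
  have hI3 : ∫ t in Ioc (T / 2) (3 * T), (E k₁).indicator
      (fun _ => Real.exp (lam * (C₂ * L))) t ≤ 8 * T := by
    refine (hindle k₁ _ hk21 le_rfl (Real.exp_pos _).le).trans ?_
    have h3 : 0 ≤ 8 * T := by positivity
    calc Real.exp (lam * (C₂ * L)) * (8 * T * E2_g κ₀ k₁)
        = 8 * T * (Real.exp (lam * (C₂ * L)) * E2_g κ₀ k₁) := by ring
      _ ≤ 8 * T * 1 := mul_le_mul_of_nonneg_left htop h3
      _ = 8 * T := by ring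
  linarith

end Pool.Agent.MP_67227b_nt.Pp
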