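import Pool.Agent.MP_67227b_nt.Pp.PpPhi

set_option autoImplicit false

open Filter Topology Set MeasureTheory Complex
open scoped Real ArithmeticFunction ContDiff

namespace Pool.Agent.MP_67227b_nt.Pp

open Pool.Agent.Lib.ZetaCount_helper33 Pool.Agent.MP_67227b_nt Pool.Agent.MP_67227b_nt.Mo
open Pool.Agent.MP_67227b_nt.Sg
open Pool.Agent.MP_67227b_nt.Mo.MomentBAux (DP)

/-- the contribution of one zero -/
private lemma B2_term {h : ℝ → ℂ} {C₃ : ℝ} (hC₃ : 0 < C₃) (h3 : ∀ w : ℂ, 0 < w.re →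
      ‖Kh h w‖ ≤ C₃ * Real.exp (-(w.re / 2)) / ‖w‖ ∧
      ‖Kh h w‖ ≤ C₃ * Real.exp (-(w.re / 2)) / ‖w‖ ^ 2)
    {A κ₀ k L β : ℝ} (hA : 0 < A) (hκ : 1 ≤ κ₀) (hk : 1 ≤ k) (hL : 0 < L) (hβ : 0 < β) (y : ℝ) :
    A / L * (κ₀ * L / k) *
        ‖Kh h (((β * κ₀ / k : ℝ) : ℂ) + ((κ₀ * L / k * y : ℝ) : ℂ) * I)‖ ≤
      A * C₃ * (1 / β + 1) * (1 / (1 + (L * y / k) ^ 2)) := by
  have hκ0 : 0 < κ₀ := by linarith
  have hk0 : 0 < k := by linarith
  set w : ℝ := β * κ₀ / k with hw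
  have hw0 : 0 < w := by positivity
  set om : ℂ := ((w : ℝ) : ℂ) + ((κ₀ * L / k * y : ℝ) : ℂ) * I with hom
  have hre : om.re = w := by simp [hom]
  have hN2 : ‖om‖ ^ 2 = w ^ 2 + (κ₀ * L / k * y) ^ 2 := by
    rw [← Complex.normSq_eq_norm_sq, Complex.normSq_apply]
    simp only [hom, add_re, ofReal_re, mul_re, I_re, mul_zero, ofReal_im, I_im, mul_one, sub_self,
      add_zero, add_im, mul_im, zero_add]
    ring
  have hNw : w ≤ ‖om‖ := by
    have := Complex.abs_re_le_norm om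
    rw [hre, abs_of_pos hw0] at this
    exact this
  have hN0 : 0 < ‖om‖ := lt_of_lt_of_le hw0 hNw
  obtain ⟨b1, b2⟩ := h3 om (by rw [hre]; exact hw0)
  have hexp : Real.exp (-(om.re / 2)) ≤ 1 := by
    rw [Real.exp_le_one_iff, hre]
    linarith
  set a : ℝ := ‖Kh h om‖ with ha
  have ha0 : 0 ≤ a := norm_nonneg _
  have b1' : a ≤ C₃ / w := by
    refine b1.trans ?_
    apply div_le_div₀ hC₃.le _ hw0 hNw
    nlinarith
  have b2' : a * ‖om‖ ^ 2 ≤ C₃ := by
    have h4 : a ≤ C₃ / ‖om‖ ^ 2 := by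
      refine b2.trans ?_
      apply div_le_div₀ hC₃.le _ (by positivity) le_rfl
      nlinarith
    rwa [le_div_iff₀ (by positivity)] at h4
  have hfac : A / L * (κ₀ * L / k) = A * κ₀ / k := by
    field_simp
  rw [hfac]
  have hpos : 0 < 1 + (L * y / k) ^ 2 := by positivity
  rw [mul_one_div, le_div_iff₀ hpos]
  have t1 : A * κ₀ / k * a ≤ A * C₃ / β := by
    calc A * κ₀ / k * a ≤ A * κ₀ / k * (C₃ / w) := mul_le_mul_of_nonneg_left b1' (by positivity)
      _ = A * C₃ / β := by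
          rw [hw]
          field_simp
  have t2 : A * κ₀ / k * a * (L * y / k) ^ 2 ≤ A * C₃ := by
    have h5 : a * (κ₀ * L / k * y) ^ 2 ≤ C₃ := by
      refine le_trans (mul_le_mul_of_nonneg_left ?_ ha0) b2'
      rw [hN2]
      nlinarith [sq_nonneg w]
    have h6 : A * κ₀ / k * a * (L * y / k) ^ 2 =
        A / (κ₀ * k) * (a * (κ₀ * L / k * y) ^ 2) := by
      field_simp
    rw [h6]
    have h7 : A / (κ₀ * k) ≤ A := by
      apply div_le_self hA.le
      nlinarith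
    calc A / (κ₀ * k) * (a * (κ₀ * L / k * y) ^ 2) ≤ A / (κ₀ * k) * C₃ :=
          mul_le_mul_of_nonneg_left h5 (by positivity)
      _ ≤ A * C₃ := mul_le_mul_of_nonneg_right h7 hC₃.le
  calc A * κ₀ / k * a * (1 + (L * y / k) ^ 2) =
        A * κ₀ / k * a + A * κ₀ / k * a * (L * y / k) ^ 2 := by ring
    _ ≤ A * C₃ / β + A * C₃ := add_le_add t1 t2
    _ = A * C₃ * (1 / β + 1) := by ring

private lemma B2_continuous_PS (h : ℝ → ℂ) (L' σ t : ℝ) :
    Continuous fun y : ℝ => PS h L' (pl σ (t + y)) := by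
  unfold PS
  apply continuous_finsetSum
  intro n hn
  have hn0 : (n : ℂ) ≠ 0 := by
    rw [Finset.mem_Ioc] at hn
    have : n ≠ 0 := by omega
    exact_mod_cast this
  apply Continuous.mul continuous_const
  have h1 : Continuous fun y : ℝ => -pl σ (t + y) := by
    unfold pl
    fun_prop
  exact h1.const_cpow (Or.inl hn0)

/-- MODULE B2. The size of `ζ(s + iα)/ζ(s)`. With `L = log T`, `b = β/L`, `α = 2πu/L`, `L' = κ₀L/k`:
`Hq = exp (I ∫_0^α (F - archF)(1/2 + b + i(t+y)) dy)` (`Sg.Hq_eq_exp`); by `phi_formula` with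
`w = βκ₀/k ≤ β`, `F - archF = L' ∑ mu K(ω) - PS + (archF(pt32) - archF(1/2+b+·)) + error`; the third
term is `O(1)` by `Sg.archF_near`, and `α O(1) ≤ 1`. For a zero put `x = L |t + y - γ|`;
`|ω| = (κ₀/k) √(β² + x²)` and `α L' = 2πuκ₀/k`, so by `Kh_bound`
`α L' |K(ω)| ≤ C min (2πu/β, 2πu k/(κ₀ x²)) ≤ C' / (1 + (x/k)²)` (cases `x ≤ k`, `x > k`), and
`Mk(t + y) ≤ C Mk(t)` by `Mk_shift`. Finally `log (1 + e^X) ≤ 1 + X` for `X ≥ 0`. -/
theorem log_Hq_le (hRH : RiemannHypothesis) {h : ℝ → ℂ} (hh : Cut h) {κ₀ u β : ℝ}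
    (hκ : 1 ≤ κ₀) (hu : 0 < u) (hβ : 0 < β) : ∃ C : ℝ, 0 < C ∧ ∀ᶠ T : ℝ in atTop, ∀ k : ℝ,
      2 * κ₀ ≤ k → k ≤ κ₀ * Real.log T → ∀ t ∈ Icc (T / 2) (3 * T),
        Real.log (1 + ‖Hq (2 * π * u / Real.log T) (pl (1 / 2 + β / Real.log T) t)‖) ≤
          C + C * Mk (Real.log T) k t + ‖∫ y in (0 : ℝ)..(2 * π * u / Real.log T),
            PS h (κ₀ * Real.log T / k) (pl (1 / 2 + β / Real.log T) (t + y))‖ := by
  obtain ⟨C₁, hC₁, h1⟩ := phi_formula hRH hh hβ
  obtain ⟨C₂, hC₂, h2⟩ := archF_near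
  obtain ⟨C₃, hC₃, h3⟩ := Kh_bound hh
  set A : ℝ := 2 * π * u with hAdef
  have hA : 0 < A := by positivity
  set C' : ℝ := A * C₃ * (1 / β + 1) with hC'
  have hC'0 : 0 < C' := by positivity
  refine ⟨1 + C' * (2 + 2 * A ^ 2) + A * (2 * C₁ + 2 * C₂), by positivity, ?_⟩
  filter_upwards [Real.tendsto_log_atTop.eventually_ge_atTop (max 1 β), eventually_ge_atTop 4]
    with T hTL hT4 k hk1 hk2 t ht
  have hT0 : 0 < T := by linarith
  set L : ℝ := Real.log T with hL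
  have hL1 : 1 ≤ L := (le_max_left _ _).trans hTL
  have hLβ : β ≤ L := (le_max_right _ _).trans hTL
  have hL0 : 0 < L := by linarith
  have hκ0 : 0 < κ₀ := by linarith
  have hk0 : 0 < k := by linarith
  have hk1' : 1 ≤ k := by linarith
  set α : ℝ := A / L with hα
  have hα0 : 0 < α := by positivity
  have hαA : α ≤ A := div_le_self hA.le hL1
  set L' : ℝ := κ₀ * L / k with hL'
  have hL'1 : 1 ≤ L' := by
    rw [hL', le_div_iff₀ hk0]
    linarith
  have hL'0 : 0 < L' := by linarith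
  have hL'2 : L' ≤ L / 2 := by
    rw [hL', div_le_iff₀ hk0]
    nlinarith
  set w : ℝ := β * κ₀ / k with hw
  have hw0 : 0 < w := by positivity
  have hwβ : w ≤ β := by
    rw [hw, div_le_iff₀ hk0]
    nlinarith
  have hwL : 1 / 2 + w / L' = 1 / 2 + β / L := by
    rw [hw, hL']
    field_simp
  set σ : ℝ := 1 / 2 + β / L with hσ
  have hσ1 : 1 / 2 < σ := by
    have : 0 < β / L := by positivity
    linarith
  have hσ2 : σ ≤ 2 := by
    have : β / L ≤ 1 := by rw [div_le_one hL0]; exact hLβ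
    linarith
  have ht2 : T / 2 ≤ t := ht.1
  have ht0 : 0 < t := by linarith
  -- the function to be integrated
  set f : ℝ → ℂ := fun y => logDeriv xi (pl σ (t + y)) - archF (pl σ (t + y)) with hf
  set P : ℝ → ℂ := fun y => PS h L' (pl σ (t + y)) with hP
  have hPc : Continuous P := B2_continuous_PS h L' σ t
  have hfc : ContinuousOn f (uIcc 0 α) := by
    have e1 : Continuous fun y : ℝ => logDeriv xi (pl σ (t + y)) :=
      (continuousOn_F hRH hσ1).comp (f := fun y : ℝ => t + y) (by fun_prop)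
    have e2 : ContinuousOn (fun y : ℝ => archF (pl σ (t + y))) (uIcc 0 α) := by
      refine (continuousOn_archF hσ1).comp (f := fun y : ℝ => t + y) (by fun_prop) ?_
      intro y hy
      rw [uIcc_of_le hα0.le] at hy
      simp only [mem_Ioi]
      linarith [hy.1]
    exact e1.continuousOn.sub e2
  have hfi : IntervalIntegrable f volume 0 α := hfc.intervalIntegrable
  have hPi : IntervalIntegrable P volume 0 α := hPc.intervalIntegrable _ _
  -- the pointwise bound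
  have hbd : ∀ y ∈ Set.uIoc (0 : ℝ) α, ‖f y + P y‖ ≤
      C' / α * ((2 + 2 * A ^ 2) * Mk L k t) + (2 * C₁ + 2 * C₂) := by
    intro y hy
    rw [uIoc_of_le hα0.le] at hy
    have hy0 : 0 ≤ y := hy.1.le
    have htT : T / 2 ≤ t + y := by linarith
    obtain ⟨hs, he⟩ := h1 L' hL'1 w hw0 hwβ (t + y)
    rw [hwL] at he
    -- the sum over the zeros
    have hS : ‖(L' : ℂ) * ∑' z : Zer, (mu z : ℂ) *
        Kh h ((w : ℂ) + ((L' * (t + y - ord z) : ℝ) : ℂ) * I)‖ ≤
        C' / α * ((2 + 2 * A ^ 2) * Mk L k t) := by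
      have hsum := (summable_Mk hRH hL0 hk0 (t + y)).hasSum.mul_left (C' / (α * L'))
      have hb : ∀ z : Zer, ‖(mu z : ℂ) *
          Kh h ((w : ℂ) + ((L' * (t + y - ord z) : ℝ) : ℂ) * I)‖ ≤
          C' / (α * L') * (mu z / (1 + (L * (t + y - ord z) / k) ^ 2)) := by
        intro z
        have e1 := B2_term hC₃ h3 hA hκ hk1' hL0 hβ (t + y - ord z)
        rw [norm_mul, norm_real, Real.norm_of_nonneg (mu_nonneg z)]
        have e2 : ‖Kh h ((w : ℂ) + ((L' * (t + y - ord z) : ℝ) : ℂ) * I)‖ ≤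
            C' / (α * L') * (1 / (1 + (L * (t + y - ord z) / k) ^ 2)) := by
          have e3 : 0 < α * L' := by positivity
          have e4 : C' / (α * L') * (1 / (1 + (L * (t + y - ord z) / k) ^ 2)) =
              (C' * (1 / (1 + (L * (t + y - ord z) / k) ^ 2))) / (α * L') := by ring
          rw [e4, le_div_iff₀ e3]
          calc ‖Kh h ((w : ℂ) + ((L' * (t + y - ord z) : ℝ) : ℂ) * I)‖ * (α * L') =
                α * L' * ‖Kh h ((w : ℂ) + ((L' * (t + y - ord z) : ℝ) : ℂ) * I)‖ := by ring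
            _ ≤ C' * (1 / (1 + (L * (t + y - ord z) / k) ^ 2)) := e1
        calc mu z * ‖Kh h ((w : ℂ) + ((L' * (t + y - ord z) : ℝ) : ℂ) * I)‖
            ≤ mu z * (C' / (α * L') * (1 / (1 + (L * (t + y - ord z) / k) ^ 2))) :=
              mul_le_mul_of_nonneg_left e2 (mu_nonneg z)
          _ = C' / (α * L') * (mu z / (1 + (L * (t + y - ord z) / k) ^ 2)) := by ring
      have hn := tsum_of_norm_bounded hsum hb
      have hshift := Mk_shift hRH hL0 hk1' hA.le (y := y) (t := t)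
        (by rw [abs_of_nonneg hy0]; exact hy.2)
      rw [norm_mul, norm_real, Real.norm_of_nonneg hL'0.le]
      calc L' * ‖∑' z : Zer, (mu z : ℂ) *
            Kh h ((w : ℂ) + ((L' * (t + y - ord z) : ℝ) : ℂ) * I)‖
          ≤ L' * (C' / (α * L') * Mk L k (t + y)) :=
            mul_le_mul_of_nonneg_left hn hL'0.le
        _ = C' / α * Mk L k (t + y) := by
            field_simp
        _ ≤ C' / α * ((2 + 2 * A ^ 2) * Mk L k t) :=
            mul_le_mul_of_nonneg_left hshift (by positivity)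
    -- the archimedean terms
    have hpt : pt32 (t + y) = pl (3 / 2) (t + y) := by
      unfold pt32 pl
      push_cast
      ring
    have a1 := h2 (3 / 2) (t + y) (by norm_num) (by norm_num) (by linarith)
    have a2 := h2 σ (t + y) hσ1 hσ2 (by linarith)
    have a3 : ‖archF (pt32 (t + y)) - archF (pl σ (t + y))‖ ≤ 2 * C₂ := by
      rw [hpt]
      have e : archF (pl (3 / 2) (t + y)) - archF (pl σ (t + y)) =
          (archF (pl (3 / 2) (t + y)) - ((Real.log (t + y) / 2 : ℝ) : ℂ)) -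
          (archF (pl σ (t + y)) - ((Real.log (t + y) / 2 : ℝ) : ℂ)) := by ring
      rw [e]
      refine (norm_sub_le _ _).trans ?_
      linarith
    -- the error term
    have a4 : C₁ * Real.exp L' / (1 + |t + y|) ≤ 2 * C₁ := by
      have e1 : Real.exp L' ≤ T := by
        calc Real.exp L' ≤ Real.exp L := Real.exp_le_exp.2 (by linarith)
          _ = T := Real.exp_log hT0
      rw [div_le_iff₀ (by positivity)]
      have e2 : T ≤ 2 * (1 + |t + y|) := by
        have := le_abs_self (t + y)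
        linarith
      calc C₁ * Real.exp L' ≤ C₁ * (2 * (1 + |t + y|)) :=
            mul_le_mul_of_nonneg_left (e1.trans e2) hC₁.le
        _ = 2 * C₁ * (1 + |t + y|) := by ring
    have e : f y + P y = (L' : ℂ) * ∑' z : Zer, (mu z : ℂ) *
        Kh h ((w : ℂ) + ((L' * (t + y - ord z) : ℝ) : ℂ) * I) +
        (archF (pt32 (t + y)) - archF (pl σ (t + y))) +
        (logDeriv xi (pl σ (t + y)) - archF (pt32 (t + y)) + PS h L' (pl σ (t + y)) -
          (L' : ℂ) * ∑' z : Zer, (mu z : ℂ) *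
            Kh h ((w : ℂ) + ((L' * (t + y - ord z) : ℝ) : ℂ) * I)) := by
      simp only [hf, hP]
      ring
    rw [e]
    refine (norm_add_le _ _).trans ((add_le_add (norm_add_le _ _) le_rfl).trans ?_)
    linarith [he.trans a4]
  -- the integral
  have hMk0 : 0 ≤ Mk L k t := Mk_nonneg L k t
  have hI1 : ‖∫ y in (0 : ℝ)..α, (f y + P y)‖ ≤
      (C' / α * ((2 + 2 * A ^ 2) * Mk L k t) + (2 * C₁ + 2 * C₂)) * |α - 0| :=
    intervalIntegral.norm_integral_le_of_norm_le_const hbd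
  rw [sub_zero, abs_of_pos hα0] at hI1
  have hI2 : ∫ y in (0 : ℝ)..α, f y =
      (∫ y in (0 : ℝ)..α, (f y + P y)) - ∫ y in (0 : ℝ)..α, P y := by
    rw [intervalIntegral.integral_add hfi hPi]
    ring
  have hI3 : ‖∫ y in (0 : ℝ)..α, f y‖ ≤ C' * (2 + 2 * A ^ 2) * Mk L k t +
      A * (2 * C₁ + 2 * C₂) + ‖∫ y in (0 : ℝ)..α, P y‖ := by
    rw [hI2]
    refine (norm_sub_le _ _).trans ?_
    have e1 : (C' / α * ((2 + 2 * A ^ 2) * Mk L k t) + (2 * C₁ + 2 * C₂)) * α =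
        C' * (2 + 2 * A ^ 2) * Mk L k t + α * (2 * C₁ + 2 * C₂) := by
      field_simp
    rw [e1] at hI1
    have e2 : α * (2 * C₁ + 2 * C₂) ≤ A * (2 * C₁ + 2 * C₂) :=
      mul_le_mul_of_nonneg_right hαA (by positivity)
    linarith
  -- the quotient
  have hHq : ‖Hq α (pl σ t)‖ ≤ Real.exp ‖∫ y in (0 : ℝ)..α, f y‖ := by
    rw [Hq_eq_exp hRH hα0.le hσ1 ht0, Complex.norm_exp]
    apply Real.exp_le_exp.2
    refine (Complex.re_le_norm _).trans ?_
    rw [norm_mul, norm_I, one_mul]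
  set X : ℝ := ‖∫ y in (0 : ℝ)..α, f y‖ with hX
  have hX0 : 0 ≤ X := norm_nonneg _
  have hlog : Real.log (1 + ‖Hq α (pl σ t)‖) ≤ 1 + X := by
    have e1 : 1 + ‖Hq α (pl σ t)‖ ≤ Real.exp (1 + X) := by
      have e2 : 1 ≤ Real.exp X := Real.one_le_exp hX0
      have e3 : (2 : ℝ) ≤ Real.exp 1 := by
        have := Real.add_one_le_exp (1 : ℝ)
        linarith
      rw [Real.exp_add]
      nlinarith
    calc Real.log (1 + ‖Hq α (pl σ t)‖) ≤ Real.log (Real.exp (1 + X)) :=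
          Real.log_le_log (by positivity) e1
      _ = 1 + X := Real.log_exp _
  have hfin : (1 : ℝ) + X ≤ (1 + C' * (2 + 2 * A ^ 2) + A * (2 * C₁ + 2 * C₂)) +
      (1 + C' * (2 + 2 * A ^ 2) + A * (2 * C₁ + 2 * C₂)) * Mk L k t +
        ‖∫ y in (0 : ℝ)..α, P y‖ := by
    have e1 : 0 ≤ (1 + A * (2 * C₁ + 2 * C₂)) * Mk L k t := mul_nonneg (by positivity) hMk0
    have e2 : 0 ≤ C' * (2 + 2 * A ^ 2) := by positivity
    nlinarith
  exact hlog.trans hfin

end Pool.Agent.MP_67227b_nt.Pp
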