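import Pool.Agent.MP_67227b_nt.Pp.PpMkPS
import Pool.Agent.MP_67227b_nt.Pp.PpLogG

set_option autoImplicit false

open Filter Topology Set MeasureTheory Complex
open scoped Real ArithmeticFunction ContDiff

namespace Pool.Agent.MP_67227b_nt.Pp

open Pool.Agent.Lib.ZetaCount_helper33 Pool.Agent.MP_67227b_nt Pool.Agent.MP_67227b_nt.Mo
open Pool.Agent.MP_67227b_nt.Sg
open Pool.Agent.MP_67227b_nt.Mo.MomentBAux (DP)

private lemma B4_floor {T κ₀ k : ℝ} (hT : 0 < T) :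
    Real.exp (κ₀ * Real.log T / k) = T ^ (κ₀ / k) := by
  rw [Real.rpow_def_of_pos hT]
  congr 1
  ring

private lemma B4_cpow {n : ℕ} (hn : 0 < n) (σ t : ℝ) :
    (n : ℂ) ^ (-pl σ t) = (n : ℂ) ^ (-(σ : ℂ)) * MeanBBAux.E (-(Real.log n)) t := by
  have hn0 : (n : ℂ) ≠ 0 := by
    exact_mod_cast hn.ne'
  have e : -pl σ t = -(σ : ℂ) + -((t : ℂ) * I) := by
    unfold pl
    ring
  rw [e, Complex.cpow_add _ _ hn0]
  congr 1
  unfold MeanBBAux.E
  rw [Complex.cpow_def_of_ne_zero hn0, ← Complex.natCast_log]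
  congr 1
  push_cast
  ring

/-- `n ^ (-σ)` is at most `1 / √n` for `σ ≥ 1/2` -/
private lemma B4_norm {n : ℕ} (hn : 0 < n) {σ : ℝ} (hσ : 1 / 2 ≤ σ) :
    ‖(n : ℂ) ^ (-(σ : ℂ))‖ ≤ 1 / Real.sqrt n := by
  have hn1 : (1 : ℝ) ≤ n := by exact_mod_cast hn
  rw [Complex.norm_natCast_cpow_of_pos hn]
  have e1 : (-(σ : ℂ)).re = -σ := by simp
  rw [e1, Real.sqrt_eq_rpow, one_div, ← Real.rpow_neg (by linarith)]
  apply Real.rpow_le_rpow_of_exponent_le hn1
  linarith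

private lemma B4_PS {h : ℝ → ℂ} {L' : ℝ} {N : ℕ} (hN : ⌊Real.exp L'⌋₊ = N) (σ t : ℝ) (c : ℂ) :
    c * PS h L' (pl σ t) = DP (Finset.Ioc 0 N)
      (fun n => c * (((Λ n : ℝ) : ℂ) * h (Real.log n / L') * (n : ℂ) ^ (-(σ : ℂ)))) t := by
  unfold PS DP
  rw [hN, Finset.mul_sum]
  refine Finset.sum_congr rfl fun n hn => ?_
  rw [Finset.mem_Ioc] at hn
  rw [B4_cpow hn.1]
  ring

private lemma B4_coef {h : ℝ → ℂ} {H : ℝ} (hH0 : 0 < H) (hH : ∀ v, ‖h v‖ ≤ H) {L' σ : ℝ}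
    (hσ : 1 / 2 ≤ σ) (c : ℂ) (n : ℕ) :
    ‖c * (((Λ n : ℝ) : ℂ) * h (Real.log n / L') * (n : ℂ) ^ (-(σ : ℂ)))‖ ≤
      ‖c‖ * H * (Λ n / Real.sqrt n) := by
  rcases Nat.eq_zero_or_pos n with rfl | hn
  · simp
  have hΛ : 0 ≤ Λ n := ArithmeticFunction.vonMangoldt_nonneg
  rw [norm_mul, norm_mul, norm_mul, norm_real, Real.norm_of_nonneg hΛ]
  calc ‖c‖ * (Λ n * ‖h (Real.log n / L')‖ * ‖(n : ℂ) ^ (-(σ : ℂ))‖)
      ≤ ‖c‖ * (Λ n * H * (1 / Real.sqrt n)) := by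
        refine mul_le_mul_of_nonneg_left ?_ (norm_nonneg _)
        exact mul_le_mul (mul_le_mul_of_nonneg_left (hH _) hΛ) (B4_norm hn hσ) (norm_nonneg _)
          (by positivity)
    _ = ‖c‖ * H * (Λ n / Real.sqrt n) := by ring

/-- MODULE B4a. `Mk L 1 ≤ Mk L k` (`Mk_mono`), `Mk_le_PS`; the short sum
`C (k/L) PS h (κ₀L/k) (1/2 + k/L + it)` is `DP (Ioc 0 ⌊T^{κ₀/k}⌋) a t` with
`a n = C (k/L) Λ(n) h(..) n^{-1/2-k/L}`; take `b = 0`. -/
theorem LD_Mk (hRH : RiemannHypothesis) : LD (fun T t => Mk (Real.log T) 1 t) := by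
  obtain ⟨h, hh⟩ := exists_cut
  obtain ⟨H, hH0, hH⟩ := MeanBBAux.bump_bdd hh.bump
  obtain ⟨κ₀, C, hκ, hC, hev⟩ := Mk_le_PS hRH hh
  refine ⟨C + C * H, κ₀, by positivity, hκ, ?_⟩
  filter_upwards [hev, Real.tendsto_log_atTop.eventually_ge_atTop 1, eventually_ge_atTop 4]
    with T hT hL1 hT4 k hk1 hk2
  have hT0 : 0 < T := by linarith
  set L : ℝ := Real.log T with hL
  have hL0 : 0 < L := by linarith
  have hκ0 : 0 < κ₀ := by linarith
  have hk0 : 0 < k := by linarith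
  have hk1' : 1 ≤ k := by linarith
  have hk3 : k ≤ κ₀ * L := by nlinarith
  have hN : ⌊Real.exp (κ₀ * L / k)⌋₊ = ⌊T ^ (κ₀ / k)⌋₊ := by rw [hL, B4_floor hT0]
  have hσ : (1 : ℝ) / 2 ≤ 1 / 2 + k / L := by
    have : 0 < k / L := by positivity
    linarith
  have hc : ‖((C * (k / L) : ℝ) : ℂ)‖ = C * (k / L) := by
    rw [norm_real, Real.norm_of_nonneg (by positivity)]
  refine ⟨fun n => ((C * (k / L) : ℝ) : ℂ) * (((Λ n : ℝ) : ℂ) * h (Real.log n / (κ₀ * L / k)) *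
    (n : ℂ) ^ (-((1 / 2 + k / L : ℝ) : ℂ))), fun _ => 0, ?_, ?_, ?_⟩
  · intro n
    refine (B4_coef hH0 hH hσ _ n).trans ?_
    rw [hc]
    have hΛ : 0 ≤ Λ n / Real.sqrt n :=
      div_nonneg ArithmeticFunction.vonMangoldt_nonneg (Real.sqrt_nonneg _)
    refine mul_le_mul_of_nonneg_right ?_ hΛ
    have e : C * (k / L) * H ≤ (C + C * H) * (k / L) := by
      have : 0 < C * (k / L) := by positivity
      nlinarith
    calc C * (k / L) * H ≤ (C + C * H) * (k / L) := e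
      _ = (C + C * H) * k / L := by ring
  · intro n
    rw [norm_zero]
    have hΛ : 0 ≤ Λ n / Real.sqrt n :=
      div_nonneg ArithmeticFunction.vonMangoldt_nonneg (Real.sqrt_nonneg _)
    positivity
  · intro t ht
    have h1 := hT k hk1 hk3 t ⟨by linarith [ht.1], by linarith [ht.2]⟩
    have h2 := Mk_mono hRH hL0 one_pos hk1' t
    have h3 : C * (k / L) * ‖PS h (κ₀ * L / k) (pl (1 / 2 + k / L) t)‖ =
        ‖DP (Finset.Ioc 0 ⌊T ^ (κ₀ / k)⌋₊) (fun n => ((C * (k / L) : ℝ) : ℂ) *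
          (((Λ n : ℝ) : ℂ) * h (Real.log n / (κ₀ * L / k)) *
          (n : ℂ) ^ (-((1 / 2 + k / L : ℝ) : ℂ)))) t‖ := by
      rw [← B4_PS hN, norm_mul, hc]
    have h4 : ‖DP (Finset.Ioc 0 ⌊T ^ (κ₀ / k)⌋₊) (fun _ => (0 : ℂ)) t‖ = 0 := by
      unfold DP
      simp
    rw [h4, add_zero, ← h3]
    have h5 : C * k ≤ (C + C * H) * k := by
      have : 0 < C * H * k := by positivity
      nlinarith
    linarith

/-- MODULE B4b. `log_Hq_le` and `Mk_le_PS`, with the `κ₀` of `Mk_le_PS`; the second polynomial has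
the coefficients `Λ(n) h(..) n^{-1/2-β/L} ∫_0^α n^{-iy} dy`, at most `C (1/L) Λ(n)/√n`. -/
theorem LD_Hq (hRH : RiemannHypothesis) {u β : ℝ} (hu : 0 < u) (hβ : 0 < β) :
    LD (fun T t => Real.log (1 +
      ‖Hq (2 * π * u / Real.log T) (pl (1 / 2 + β / Real.log T) t)‖)) := by
  obtain ⟨h, hh⟩ := exists_cut
  obtain ⟨H, hH0, hH⟩ := MeanBBAux.bump_bdd hh.bump
  obtain ⟨κ₀, C, hκ, hC, hev⟩ := Mk_le_PS hRH hh
  obtain ⟨C₂, hC₂, hev2⟩ := log_Hq_le hRH hh hκ hu hβ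
  set A : ℝ := 2 * π * u with hA
  have hA0 : 0 < A := by positivity
  refine ⟨C₂ + C₂ * C + C₂ * C * H + A * H, κ₀, by positivity, hκ, ?_⟩
  filter_upwards [hev, hev2, Real.tendsto_log_atTop.eventually_ge_atTop 1, eventually_ge_atTop 4]
    with T hT hT2 hL1 hT4 k hk1 hk2
  have hT0 : 0 < T := by linarith
  set L : ℝ := Real.log T with hL
  have hL0 : 0 < L := by linarith
  have hκ0 : 0 < κ₀ := by linarith
  have hk0 : 0 < k := by linarith
  have hk1' : 1 ≤ k := by linarith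
  have hk3 : k ≤ κ₀ * L := by nlinarith
  have hN : ⌊Real.exp (κ₀ * L / k)⌋₊ = ⌊T ^ (κ₀ / k)⌋₊ := by rw [hL, B4_floor hT0]
  have hσ : (1 : ℝ) / 2 ≤ 1 / 2 + k / L := by
    have : 0 < k / L := by positivity
    linarith
  have hσ2 : (1 : ℝ) / 2 ≤ 1 / 2 + β / L := by
    have : 0 < β / L := by positivity
    linarith
  set α : ℝ := A / L with hα
  have hα0 : 0 < α := by positivity
  have hc : ‖((C₂ * (C * (k / L)) : ℝ) : ℂ)‖ = C₂ * (C * (k / L)) := by
    rw [norm_real, Real.norm_of_nonneg (by positivity)]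
  refine ⟨fun n => ((C₂ * (C * (k / L)) : ℝ) : ℂ) * (((Λ n : ℝ) : ℂ) *
      h (Real.log n / (κ₀ * L / k)) * (n : ℂ) ^ (-((1 / 2 + k / L : ℝ) : ℂ))),
    fun n => (∫ y in (0 : ℝ)..α, MeanBBAux.E (-(Real.log n)) y) * (((Λ n : ℝ) : ℂ) *
      h (Real.log n / (κ₀ * L / k)) * (n : ℂ) ^ (-((1 / 2 + β / L : ℝ) : ℂ))), ?_, ?_, ?_⟩
  · intro n
    refine (B4_coef hH0 hH hσ _ n).trans ?_
    rw [hc]
    have hΛ : 0 ≤ Λ n / Real.sqrt n :=
      div_nonneg ArithmeticFunction.vonMangoldt_nonneg (Real.sqrt_nonneg _)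
    refine mul_le_mul_of_nonneg_right ?_ hΛ
    have e : C₂ * (C * (k / L)) * H ≤ (C₂ + C₂ * C + C₂ * C * H + A * H) * (k / L) := by
      have e1 : 0 < C₂ * (k / L) := by positivity
      have e2 : 0 < C₂ * C * (k / L) := by positivity
      have e3 : 0 < A * H * (k / L) := by positivity
      nlinarith
    calc C₂ * (C * (k / L)) * H ≤ (C₂ + C₂ * C + C₂ * C * H + A * H) * (k / L) := e
      _ = (C₂ + C₂ * C + C₂ * C * H + A * H) * k / L := by ring
  · intro n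
    refine (B4_coef hH0 hH hσ2 _ n).trans ?_
    have hΛ : 0 ≤ Λ n / Real.sqrt n :=
      div_nonneg ArithmeticFunction.vonMangoldt_nonneg (Real.sqrt_nonneg _)
    refine mul_le_mul_of_nonneg_right ?_ hΛ
    have hi : ‖∫ y in (0 : ℝ)..α, MeanBBAux.E (-(Real.log n)) y‖ ≤ 1 * |α - 0| :=
      intervalIntegral.norm_integral_le_of_norm_le_const
        (fun y _ => (MeanBBAux.E_norm _ _).le)
    rw [sub_zero, abs_of_pos hα0, one_mul] at hi
    have e1 : α * H ≤ A * H * (k / L) := by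
      rw [hα]
      have e2 : 0 ≤ A * H / L := by positivity
      calc A / L * H = A * H / L * 1 := by ring
        _ ≤ A * H / L * k := mul_le_mul_of_nonneg_left hk1' e2
        _ = A * H * (k / L) := by ring
    have e : A * H * (k / L) ≤ (C₂ + C₂ * C + C₂ * C * H + A * H) * (k / L) := by
      have e1 : 0 < C₂ * (k / L) := by positivity
      have e2 : 0 < C₂ * C * (k / L) := by positivity
      have e3 : 0 < C₂ * C * H * (k / L) := by positivity
      nlinarith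
    calc ‖∫ y in (0 : ℝ)..α, MeanBBAux.E (-(Real.log n)) y‖ * H ≤ α * H :=
          mul_le_mul_of_nonneg_right hi hH0.le
      _ ≤ (C₂ + C₂ * C + C₂ * C * H + A * H) * (k / L) := e1.trans e
      _ = (C₂ + C₂ * C + C₂ * C * H + A * H) * k / L := by ring
  · intro t ht
    have h1 := hT k hk1 hk3 t ⟨by linarith [ht.1], by linarith [ht.2]⟩
    have h2 := hT2 k hk1 hk3 t ht
    -- the first polynomial
    have h3 : C₂ * (C * (k / L) * ‖PS h (κ₀ * L / k) (pl (1 / 2 + k / L) t)‖) =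
        ‖DP (Finset.Ioc 0 ⌊T ^ (κ₀ / k)⌋₊) (fun n => ((C₂ * (C * (k / L)) : ℝ) : ℂ) *
          (((Λ n : ℝ) : ℂ) * h (Real.log n / (κ₀ * L / k)) *
          (n : ℂ) ^ (-((1 / 2 + k / L : ℝ) : ℂ)))) t‖ := by
      rw [← B4_PS hN, norm_mul, hc]
      ring
    -- the second polynomial
    have h4 : ∫ y in (0 : ℝ)..α, PS h (κ₀ * L / k) (pl (1 / 2 + β / L) (t + y)) =
        DP (Finset.Ioc 0 ⌊T ^ (κ₀ / k)⌋₊) (fun n =>
          (∫ y in (0 : ℝ)..α, MeanBBAux.E (-(Real.log n)) y) * (((Λ n : ℝ) : ℂ) *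
          h (Real.log n / (κ₀ * L / k)) * (n : ℂ) ^ (-((1 / 2 + β / L : ℝ) : ℂ)))) t := by
      have e1 : ∀ y : ℝ, PS h (κ₀ * L / k) (pl (1 / 2 + β / L) (t + y)) =
          ∑ n ∈ Finset.Ioc 0 ⌊T ^ (κ₀ / k)⌋₊, (((Λ n : ℝ) : ℂ) *
            h (Real.log n / (κ₀ * L / k)) * (n : ℂ) ^ (-((1 / 2 + β / L : ℝ) : ℂ)) *
            MeanBBAux.E (-(Real.log n)) t) * MeanBBAux.E (-(Real.log n)) y := by
        intro y
        have e2 := B4_PS (h := h) hN (1 / 2 + β / L) (t + y) 1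
        rw [one_mul] at e2
        rw [e2]
        unfold DP
        refine Finset.sum_congr rfl fun n _ => ?_
        have e3 : MeanBBAux.E (-(Real.log n)) (t + y) =
            MeanBBAux.E (-(Real.log n)) t * MeanBBAux.E (-(Real.log n)) y := by
          unfold MeanBBAux.E
          rw [← Complex.exp_add]
          congr 1
          push_cast
          ring
        rw [e3]
        ring
      rw [intervalIntegral.integral_congr (fun y _ => e1 y), intervalIntegral.integral_finset_sum]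
      · unfold DP
        refine Finset.sum_congr rfl fun n _ => ?_
        rw [intervalIntegral.integral_const_mul]
        ring
      · intro n _
        exact (continuous_const.mul (MeanBBAux.E_continuous _)).intervalIntegrable _ _
    rw [h4] at h2
    rw [← h3]
    have h5 : C₂ * Mk L k t ≤ C₂ * (C * k + C * (k / L) *
        ‖PS h (κ₀ * L / k) (pl (1 / 2 + k / L) t)‖) := mul_le_mul_of_nonneg_left h1 hC₂.le
    have h6 : C₂ + C₂ * (C * k) ≤ (C₂ + C₂ * C + C₂ * C * H + A * H) * k := by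
      have e1 : C₂ * 1 ≤ C₂ * k := mul_le_mul_of_nonneg_left hk1' hC₂.le
      have e2 : 0 < C₂ * C * H * k := by positivity
      have e3 : 0 < A * H * k := by positivity
      nlinarith
    linarith

end Pool.Agent.MP_67227b_nt.Pp
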