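import Pool.Agent.MP_67227b_nt.Pp.PpMk

set_option autoImplicit false

open Filter Topology Set MeasureTheory Complex
open scoped Real ArithmeticFunction ContDiff

namespace Pool.Agent.MP_67227b_nt.Pp

open Pool.Agent.Lib.ZetaCount_helper33 Pool.Agent.MP_67227b_nt Pool.Agent.MP_67227b_nt.Mo
open Pool.Agent.MP_67227b_nt.Sg
open Pool.Agent.MP_67227b_nt.Mo.MomentBAux (DP)

/-- the test function -/
noncomputable def B3_g (η β : ℝ) (i : ℕ) (v : ℝ) : ℂ :=
  ((ph η i v / v * Real.exp (-β * v) : ℝ) : ℂ)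

theorem B3_left {η : ℝ} (hη : 0 < η) {i : ℕ} {x : ℝ} (hx : x ≤ i * η) : ph η i x = 0 := by
  have h1 : x / η ≤ i := by
    rw [div_le_iff₀ hη]
    exact hx
  unfold ph
  rw [Real.smoothTransition.zero_of_nonpos (by linarith),
    Real.smoothTransition.zero_of_nonpos (by linarith), sub_self]

theorem B3_right {η : ℝ} (hη : 0 < η) {i : ℕ} {x : ℝ} (hx : ((i : ℝ) + 2) * η ≤ x) :
    ph η i x = 0 := by
  have h1 : (i : ℝ) + 2 ≤ x / η := by
    rw [le_div_iff₀ hη]
    exact hx
  unfold ph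
  rw [Real.smoothTransition.one_of_one_le (by linarith),
    Real.smoothTransition.one_of_one_le (by linarith), sub_self]

theorem B3_abs (η : ℝ) (i : ℕ) (x : ℝ) : |ph η i x| ≤ 1 := by
  unfold ph
  have h1 := Real.smoothTransition.nonneg (x / η - i)
  have h2 := Real.smoothTransition.le_one (x / η - i)
  have h3 := Real.smoothTransition.nonneg (x / η - (i + 1))
  have h4 := Real.smoothTransition.le_one (x / η - (i + 1))
  rw [abs_le]
  constructor <;> linarith

theorem B3_bump {η β : ℝ} (hη : 0 < η) {i : ℕ} (hi : 1 ≤ i) :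
    Bump (((i : ℝ) + 2) * η) (B3_g η β i) where
  smooth := by
    rw [contDiff_iff_contDiffAt]
    intro v
    have hi0 : (0 : ℝ) < i := by exact_mod_cast hi
    by_cases hv : v < i * η
    · have h1 : B3_g η β i =ᶠ[𝓝 v] fun _ => 0 := by
        filter_upwards [Iio_mem_nhds hv] with w hw
        have hw' : w < i * η := hw
        unfold B3_g
        rw [B3_left hη hw'.le]
        simp
      exact contDiffAt_const.congr_of_eventuallyEq h1
    · have hv0 : v ≠ 0 := by
        have : 0 < i * η := by positivity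
        intro h
        rw [h] at hv
        exact hv this
      have h1 : ContDiff ℝ ∞ (ph η i) := by
        unfold ph
        exact (Real.smoothTransition.contDiff.comp (by fun_prop)).sub
          (Real.smoothTransition.contDiff.comp (by fun_prop))
      have h2 : ContDiffAt ℝ ∞ (fun v => ph η i v / v * Real.exp (-β * v)) v :=
        (h1.contDiffAt.div contDiffAt_id hv0).mul (by fun_prop)
      exact Complex.ofRealCLM.contDiff.contDiffAt.comp v h2
  supp := by
    intro v hv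
    have hi0 : (0 : ℝ) < i := by exact_mod_cast hi
    have h0 : ph η i v = 0 := by
      by_cases hv0 : v ≤ 0
      · apply B3_left hη
        have : 0 < i * η := by positivity
        linarith
      · rw [abs_of_pos (not_le.1 hv0)] at hv
        exact B3_right hη hv.le
    unfold B3_g
    rw [h0]
    simp

theorem B3_SZ (hRH : RiemannHypothesis) {g : ℝ → ℂ} {δ : ℝ} (hδ : 0 ≤ δ) (hg : Bump δ g) :
    ∃ C : ℝ, 0 < C ∧ ∀ L t : ℝ, 0 < L → ‖SZ L g t‖ ≤ C * Mk L 1 t := by
  obtain ⟨C, hC, h⟩ := gs_real_bound hδ hg 1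
  have hπ := Real.pi_pos
  refine ⟨C * (4 * π ^ 2), by positivity, fun L t hL => ?_⟩
  unfold SZ
  have hs := (summable_Mk hRH hL one_pos t).mul_left (C * (4 * π ^ 2))
  have hle : ∀ u : Zer, ‖(mu u : ℂ) * gs g (((ord u - t) * L / (2 * π) : ℝ) : ℂ)‖ ≤
      C * (4 * π ^ 2) * (mu u / (1 + (L * (t - ord u) / 1) ^ 2)) := by
    intro u
    rw [norm_mul, Complex.norm_real, Real.norm_of_nonneg (mu_nonneg u)]
    have h1 := h ((ord u - t) * L / (2 * π))
    have h2 : C / (1 + ((ord u - t) * L / (2 * π)) ^ 2) ^ 1 ≤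
        C * (4 * π ^ 2) / (1 + (L * (t - ord u) / 1) ^ 2) := by
      rw [pow_one, div_le_div_iff₀ (by positivity) (by positivity)]
      have h3 : (1 : ℝ) ≤ 4 * π ^ 2 := by nlinarith [Real.pi_gt_three]
      have h4 : 1 + (L * (t - ord u) / 1) ^ 2 ≤
          4 * π ^ 2 * (1 + ((ord u - t) * L / (2 * π)) ^ 2) := by
        have h5 : 4 * π ^ 2 * ((ord u - t) * L / (2 * π)) ^ 2 = (L * (t - ord u) / 1) ^ 2 := by
          field_simp
          ring
        rw [mul_add, h5]
        linarith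
      calc C * (1 + (L * (t - ord u) / 1) ^ 2)
          ≤ C * (4 * π ^ 2 * (1 + ((ord u - t) * L / (2 * π)) ^ 2)) := by gcongr
        _ = _ := by ring
    calc mu u * ‖gs g (((ord u - t) * L / (2 * π) : ℝ) : ℂ)‖
        ≤ mu u * (C * (4 * π ^ 2) / (1 + (L * (t - ord u) / 1) ^ 2)) :=
          mul_le_mul_of_nonneg_left (h1.trans h2) (mu_nonneg u)
      _ = _ := by ring
  have hs' : Summable fun u : Zer => ‖(mu u : ℂ) * gs g (((ord u - t) * L / (2 * π) : ℝ) : ℂ)‖ :=
    Summable.of_nonneg_of_le (fun _ => norm_nonneg _) hle hs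
  refine (norm_tsum_le_tsum_norm hs').trans ((hs'.tsum_le_tsum hle hs).trans ?_)
  rw [tsum_mul_left]
  rfl

/-- the terms of the nonprime part -/
noncomputable def B3_F (η : ℝ) (i : ℕ) (L : ℝ) (n : ℕ) : ℝ :=
  Λ n / Real.log n * (Real.sqrt n)⁻¹ * |ph η i (Real.log n / L)|

theorem B3_F_nonneg (η : ℝ) (i : ℕ) (L : ℝ) (n : ℕ) : 0 ≤ B3_F η i L n := by
  unfold B3_F
  have h1 : 0 ≤ Λ n := ArithmeticFunction.vonMangoldt_nonneg
  have h2 : 0 ≤ Real.log n := Real.log_natCast_nonneg n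
  positivity

theorem B3_pow {p j : ℕ} (hp : p.Prime) (hj : 1 ≤ j) (η : ℝ) (i : ℕ) (L : ℝ) :
    B3_F η i L (p ^ j) = (1 / j) * ((Real.sqrt p)⁻¹) ^ j * |ph η i (j * Real.log p / L)| := by
  unfold B3_F
  have hp0 : (0 : ℝ) < p := by exact_mod_cast hp.pos
  have hlog : 0 < Real.log p := Real.log_pos (by exact_mod_cast hp.one_lt)
  have hj0 : (0 : ℝ) < j := by exact_mod_cast hj
  rw [ArithmeticFunction.vonMangoldt_apply_pow (by omega),
    ArithmeticFunction.vonMangoldt_apply_prime hp]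
  push_cast
  rw [Real.log_pow]
  have h1 : Real.sqrt ((p : ℝ) ^ j) = Real.sqrt p ^ j := by
    rw [Real.sqrt_eq_iff_mul_self_eq (by positivity) (by positivity), ← mul_pow,
      Real.mul_self_sqrt hp0.le]
  rw [h1, inv_pow]
  congr 2
  field_simp

theorem B3_sum3 : Summable fun n : ℕ => ((Real.sqrt n)⁻¹) ^ 3 := by
  have h := (Real.summable_nat_rpow_inv (p := 3 / 2)).2 (by norm_num)
  refine h.congr fun n => ?_
  rw [inv_pow]
  congr 1
  rw [Real.sqrt_eq_rpow, ← Real.rpow_natCast, ← Real.rpow_mul (Nat.cast_nonneg n)]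
  norm_num

theorem B3_one {p : ℕ} (hp : p.Prime) {η : ℝ} (hη : 0 < η) {i : ℕ} (hi : 1 ≤ i) {L : ℝ}
    (hL : 1 ≤ L) (N : ℕ) : ∑ j ∈ Finset.Ico 2 (N + 1), B3_F η i L (p ^ j) ≤
      Λ p / p / (i * η * L) + 4 * ((Real.sqrt p)⁻¹) ^ 3 := by
  have hp0 : (0 : ℝ) < p := by exact_mod_cast hp.pos
  have hp2 : (2 : ℝ) ≤ p := by exact_mod_cast hp.two_le
  have hi0 : (0 : ℝ) < i := by exact_mod_cast hi
  have hlog : 0 < Real.log p := Real.log_pos (by linarith)
  have hΛ : Λ p = Real.log p := ArithmeticFunction.vonMangoldt_apply_prime hp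
  have hsq : 0 < Real.sqrt p := Real.sqrt_pos.2 hp0
  set r : ℝ := (Real.sqrt p)⁻¹ with hr
  have hr0 : 0 < r := inv_pos.2 hsq
  have hr2 : r ^ 2 = 1 / p := by
    rw [hr, inv_pow, Real.sq_sqrt hp0.le, one_div]
  have hr34 : r ≤ 3 / 4 := by
    have h1 : r ^ 2 ≤ 1 / 2 := by
      rw [hr2]
      exact one_div_le_one_div_of_le two_pos hp2
    nlinarith
  have hA : 0 ≤ Λ p / p / (i * η * L) := by
    rw [hΛ]
    positivity
  by_cases hN : 2 < N + 1
  · rw [Finset.sum_eq_sum_Ico_succ_bot hN]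
    apply add_le_add
    · rw [B3_pow hp (by norm_num)]
      push_cast
      by_cases h1 : 2 * Real.log p / L ≤ i * η
      · rw [B3_left hη h1]
        simpa using hA
      · have h2 : i * η < 2 * Real.log p / L := not_le.1 h1
        have h3 : i * η * L < 2 * Real.log p := by
          rw [lt_div_iff₀ (by linarith)] at h2
          exact h2
        have h4 := B3_abs η i (2 * Real.log p / L)
        rw [← hr, hr2, hΛ]
        calc 1 / 2 * (1 / (p : ℝ)) * |ph η i (2 * Real.log p / L)| ≤ 1 / 2 * (1 / (p : ℝ)) * 1 := by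
              gcongr
          _ ≤ Real.log p / p / (i * η * L) := by
              rw [le_div_iff₀ (by positivity)]
              rw [le_div_iff₀ hp0]
              field_simp
              linarith
    · have h5 : ∀ j ∈ Finset.Ico (2 + 1) (N + 1), B3_F η i L (p ^ j) ≤ r ^ 3 * (3 / 4) ^ (j - 3) := by
        intro j hj
        rw [Finset.mem_Ico] at hj
        rw [B3_pow hp (by omega), ← hr]
        have hj1 : (1 : ℝ) ≤ j := by exact_mod_cast (by omega : 1 ≤ j)
        have h6 := B3_abs η i (j * Real.log p / L)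
        have h7 : (1 : ℝ) / j ≤ 1 := by
          rw [div_le_one (by linarith)]
          exact hj1
        have h8 : r ^ j = r ^ 3 * r ^ (j - 3) := by
          rw [← pow_add]
          congr 1
          omega
        calc 1 / (j : ℝ) * r ^ j * |ph η i (j * Real.log p / L)| ≤ 1 * r ^ j * 1 := by gcongr
          _ = r ^ 3 * r ^ (j - 3) := by rw [one_mul, mul_one, h8]
          _ ≤ r ^ 3 * (3 / 4) ^ (j - 3) := by gcongr
      refine (Finset.sum_le_sum h5).trans ?_
      rw [← Finset.mul_sum, Finset.sum_Ico_eq_sum_range]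
      have h9 : ∑ k ∈ Finset.range (N + 1 - (2 + 1)), ((3 : ℝ) / 4) ^ (2 + 1 + k - 3) ≤ 4 := by
        have h10 : ∀ k ∈ Finset.range (N + 1 - (2 + 1)), ((3 : ℝ) / 4) ^ (2 + 1 + k - 3) =
            (3 / 4) ^ k := by
          intro k _
          congr 1
          omega
        rw [Finset.sum_congr rfl h10, geom_sum_eq (by norm_num)]
        have h11 : (0 : ℝ) ≤ (3 / 4) ^ (N + 1 - (2 + 1)) := by positivity
        rw [div_le_iff_of_neg (by norm_num)]
        linarith
      have h12 : 0 ≤ r ^ 3 := by positivity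
      nlinarith
  · rw [Finset.Ico_eq_empty (by omega), Finset.sum_empty]
    positivity

theorem B3_np {η : ℝ} (hη : 0 < η) {i : ℕ} (hi : 1 ≤ i) : ∃ C : ℝ, 0 < C ∧ ∀ T : ℝ,
    Real.exp 1 ≤ T → ∑ n ∈ (Finset.range (⌊T⌋₊ + 1)).filter (fun n => ¬ n.Prime),
      B3_F η i (Real.log T) n ≤ C := by
  have hi0 : (0 : ℝ) < i := by exact_mod_cast hi
  refine ⟨7 / (i * η) + 4 * ∑' n : ℕ, ((Real.sqrt n)⁻¹) ^ 3, ?_, fun T hT => ?_⟩
  · have h1 : 0 ≤ ∑' n : ℕ, ((Real.sqrt n)⁻¹) ^ 3 := tsum_nonneg fun n => by positivity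
    positivity
  have hT0 : 0 < T := lt_of_lt_of_le (Real.exp_pos 1) hT
  set L := Real.log T with hLdef
  have hL : 1 ≤ L := by
    rw [hLdef, Real.le_log_iff_exp_le hT0]
    exact hT
  set N := ⌊T⌋₊ with hN
  have hT1 : 1 ≤ T := by
    have := Real.add_one_le_exp (1 : ℝ)
    linarith
  have hN1 : 1 ≤ N := Nat.le_floor (by exact_mod_cast hT1)
  set A := (Finset.range (N + 1)).filter (fun n => ¬ n.Prime) with hA
  set P := (Finset.range (N + 1)).filter Nat.Prime with hP
  have h1 : ∑ n ∈ A, B3_F η i L n = ∑ n ∈ A.filter IsPrimePow, B3_F η i L n := by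
    symm
    apply Finset.sum_filter_of_ne
    intro n _ hne
    by_contra h
    apply hne
    unfold B3_F
    rw [ArithmeticFunction.vonMangoldt_apply, if_neg h]
    simp
  rw [h1]
  let e : ℕ × ℕ → ℕ := fun x => x.1 ^ x.2
  have hinj : Set.InjOn e (P ×ˢ Finset.Ico 2 (N + 1) : Finset (ℕ × ℕ)) := by
    rintro ⟨p, j⟩ hpj ⟨q, k⟩ hqk h
    simp only [Finset.coe_product, Set.mem_prod, Finset.mem_coe] at hpj hqk
    have hp : p.Prime := (Finset.mem_filter.1 hpj.1).2
    have hq : q.Prime := (Finset.mem_filter.1 hqk.1).2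
    have hj := (Finset.mem_Ico.1 hpj.2).1
    have hk := (Finset.mem_Ico.1 hqk.2).1
    have h' : p ^ j = q ^ k := h
    have h2 : p ∣ q ^ k := by
      rw [← h']
      exact dvd_pow_self p (by omega)
    have h3 : p = q := (Nat.prime_dvd_prime_iff_eq hp hq).1 (hp.dvd_of_dvd_pow h2)
    subst h3
    have h4 : j = k := Nat.pow_right_injective hp.two_le h'
    rw [h4]
  have hsub : A.filter IsPrimePow ⊆ (P ×ˢ Finset.Ico 2 (N + 1)).image e := by
    intro n hn
    rw [Finset.mem_filter] at hn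
    obtain ⟨hnA, hpp⟩ := hn
    rw [hA, Finset.mem_filter, Finset.mem_range] at hnA
    obtain ⟨p, k, hp, hk, rfl⟩ := hpp
    have hp' : p.Prime := hp.nat_prime
    rw [Finset.mem_image]
    have hk2 : 2 ≤ k := by
      by_contra hc
      have : k = 1 := by omega
      rw [this, pow_one] at hnA
      exact hnA.2 hp'
    refine ⟨(p, k), ?_, rfl⟩
    rw [Finset.mem_product, hP, Finset.mem_filter, Finset.mem_range, Finset.mem_Ico]
    have h5 : k < p ^ k := Nat.lt_pow_self hp'.one_lt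
    have h6 : p ≤ p ^ k := Nat.le_self_pow (by omega) p
    exact ⟨⟨by simp only; omega, hp'⟩, ⟨hk2, by simp only; omega⟩⟩
  have h7 : ∑ n ∈ A.filter IsPrimePow, B3_F η i L n ≤
      ∑ p ∈ P, ∑ j ∈ Finset.Ico 2 (N + 1), B3_F η i L (p ^ j) := by
    refine (Finset.sum_le_sum_of_subset_of_nonneg hsub
      (fun n _ _ => B3_F_nonneg η i L n)).trans ?_
    rw [Finset.sum_image hinj, Finset.sum_product]
  refine h7.trans ?_
  have h8 : ∑ p ∈ P, ∑ j ∈ Finset.Ico 2 (N + 1), B3_F η i L (p ^ j) ≤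
      ∑ p ∈ P, (Λ p / p / (i * η * L) + 4 * ((Real.sqrt p)⁻¹) ^ 3) :=
    Finset.sum_le_sum fun p hp => B3_one (Finset.mem_filter.1 hp).2 hη hi hL N
  refine h8.trans ?_
  rw [Finset.sum_add_distrib, ← Finset.sum_div, ← Finset.mul_sum]
  apply add_le_add
  · have h9 : ∑ p ∈ P, Λ p / (p : ℝ) ≤ 7 * L := by
      have h10 : ∑ p ∈ P, Λ p / (p : ℝ) ≤ ∑ n ∈ Finset.Ioc 0 N, Λ n / (n : ℝ) := by
        apply Finset.sum_le_sum_of_subset_of_nonneg
        · intro p hp
          rw [hP, Finset.mem_filter, Finset.mem_range] at hp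
          rw [Finset.mem_Ioc]
          exact ⟨hp.2.pos, by omega⟩
        · intro n _ _
          exact div_nonneg ArithmeticFunction.vonMangoldt_nonneg (Nat.cast_nonneg n)
      have h11 := Pool.Agent.BrunHooley.MertensAux.M_le N (by omega)
      have h12 : Pool.Agent.BrunHooley.MertensAux.M N = ∑ n ∈ Finset.Ioc 0 N, Λ n / (n : ℝ) := rfl
      have h13 : Real.log N ≤ L := by
        rw [hLdef]
        exact Real.log_le_log (by exact_mod_cast hN1) (Nat.floor_le hT0.le)
      have h14 : Real.log 4 ≤ 2 := by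
        have : Real.log 4 = 2 * Real.log 2 := by
          rw [show (4 : ℝ) = 2 ^ 2 by norm_num, Real.log_pow]; norm_num
        rw [this]
        have := Real.log_two_lt_d9
        linarith
      rw [← h12] at h10
      linarith
    rw [div_le_div_iff₀ (by positivity) (by positivity)]
    have h15 : 0 < i * η := by positivity
    calc (∑ p ∈ P, Λ p / (p : ℝ)) * (i * η) ≤ 7 * L * (i * η) := by gcongr
      _ = 7 * (i * η * L) := by ring
  · have h16 := B3_sum3.sum_le_tsum P (fun n _ => by positivity)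
    linarith

/-- MODULE B3. The bump prime sums are controlled by the zeros at scale `1 / L`. The function
`g(v) = (ph η i v / v) e^{-βv}` (zero for `v ≤ 0`) is a `Bump ((i+2)η)`; apply `explicit_L`
(Mo/ExplicitL): `g 0 = 0`, the error is `≤ C e^{(i+2)ηL}/(1+T/4) ≤ 1`, and
`BT L g t = -∑_n (Λ(n)/log n) ph(log n/L) n^{-1/2-b-it}`, `‖SZ L g t‖ ≤ C Mk L 1 t` (`gs_real_bound`).
The terms with `n = p^j`, `j ≥ 2` of the prime power sum are bounded: `j ≥ 3` by
`∑_p p^{-3/2}/(1 - p^{-1/2})`, and `j = 2` by the sum of `1/p` over `T^{iη/2} ≤ p ≤ T^{(i+2)η/2}`,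
at most `(2/(iηL)) ∑_{p ≤ T^{(i+2)η/2}} log p/p ≤ C`. -/
theorem Qi_le (hRH : RiemannHypothesis) {η β : ℝ} (hη : 0 < η) (hβ : 0 < β) {i : ℕ} (hi : 1 ≤ i)
    (hi1 : ((i : ℝ) + 2) * η < 1) : ∃ C : ℝ, 0 < C ∧ ∀ᶠ T : ℝ in atTop,
      ∀ t ∈ Icc (T / 4) (4 * T), ‖Qi T η i (pl (1 / 2 + β / Real.log T) t)‖ ≤
        C + C * Mk (Real.log T) 1 t := by
  have hi0 : (0 : ℝ) < i := by exact_mod_cast hi
  have hδ0 : 0 ≤ ((i : ℝ) + 2) * η := by positivity
  have hbump := B3_bump (β := β) hη hi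
  obtain ⟨C₁, hC₁, hex⟩ := explicit_L hRH hδ0 hi1 hbump
  obtain ⟨C₂, hC₂, hSZ⟩ := B3_SZ hRH hδ0 hbump
  obtain ⟨C₃, hC₃, hnp⟩ := B3_np hη hi
  refine ⟨4 * C₁ + C₂ + C₃, by positivity, ?_⟩
  filter_upwards [eventually_ge_atTop (Real.exp 1)] with T hT t ht
  have hT0 : 0 < T := lt_of_lt_of_le (Real.exp_pos 1) hT
  have hT1 : 1 ≤ T := by
    have := Real.add_one_le_exp (1 : ℝ)
    linarith
  set L := Real.log T with hLdef
  have hL : 1 ≤ L := by
    rw [hLdef, Real.le_log_iff_exp_le hT0]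
    exact hT
  have hL0 : 0 < L := by linarith
  have hexpL : Real.exp L = T := Real.exp_log hT0
  have h1 := hex L hL t
  have h2 := hSZ L t hL0
  have h3 := hnp T hT
  have hg0 : B3_g η β i 0 = 0 := by
    unfold B3_g
    rw [B3_left hη (by positivity)]
    simp
  rw [hg0, zero_mul, zero_add] at h1
  have h4 : C₁ * Real.exp (((i : ℝ) + 2) * η * L) / (1 + |t|) ≤ 4 * C₁ := by
    have h5 : Real.exp (((i : ℝ) + 2) * η * L) ≤ T := by
      rw [← hexpL]
      apply Real.exp_le_exp.2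
      nlinarith
    have h6 : T / 4 ≤ 1 + |t| := by
      have := le_abs_self t
      linarith [ht.1]
    rw [div_le_iff₀ (by positivity)]
    calc C₁ * Real.exp (((i : ℝ) + 2) * η * L) ≤ C₁ * T := by gcongr
      _ = 4 * C₁ * (T / 4) := by ring
      _ ≤ 4 * C₁ * (1 + |t|) := by gcongr
  -- the terms
  let c : ℕ → ℂ := fun n => ((Λ n / Real.log n * ph η i (Real.log n / L) : ℝ) : ℂ) *
    (n : ℂ) ^ (-(pl (1 / 2 + β / L) t))
  have hcpow : ∀ n : ℕ, 1 ≤ n → (n : ℂ) ^ (-(pl (1 / 2 + β / L) t)) =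
      (((Real.sqrt n)⁻¹ * Real.exp (-β * (Real.log n / L)) : ℝ) : ℂ) *
        Complex.exp (-(I * t * Real.log n)) := by
    intro n hn
    have hn0 : (0 : ℝ) < n := by exact_mod_cast hn
    have hn' : (n : ℂ) ≠ 0 := by
      have : n ≠ 0 := by omega
      exact_mod_cast this
    rw [Complex.cpow_def_of_ne_zero hn', ← Complex.natCast_log]
    have h7 : (Real.sqrt n)⁻¹ = Real.exp (-(1 / 2) * Real.log n) := by
      rw [Real.sqrt_eq_rpow, ← Real.rpow_neg hn0.le, Real.rpow_def_of_pos hn0]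
      congr 1
      ring
    rw [h7, ← Real.exp_add, Complex.ofReal_exp, ← Complex.exp_add]
    congr 1
    unfold pl
    push_cast
    ring
  have hBT : BT L (B3_g η β i) t = -∑ n ∈ Finset.range (⌊T⌋₊ + 1), c n := by
    unfold BT
    rw [hexpL, neg_mul, Finset.mul_sum]
    congr 1
    refine Finset.sum_congr rfl fun n _ => ?_
    rcases Nat.eq_zero_or_pos n with rfl | hn
    · simp [c]
    · have hn0 : (0 : ℝ) < n := by exact_mod_cast hn
      have hlog0 : 0 ≤ Real.log n := Real.log_natCast_nonneg n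
      have h8 : B3_g η β i (-(Real.log n / L)) = 0 := by
        unfold B3_g
        rw [B3_left hη]
        · simp
        · have : 0 ≤ Real.log n / L := by positivity
          have : 0 < i * η := by positivity
          linarith
      have h8' : B3_g η β i (-((Real.log n : ℂ).re / L)) = 0 := by
        rw [Complex.ofReal_re]
        exact h8
      simp only [c]
      rw [hcpow n hn]
      rw [h8, zero_mul, add_zero]
      unfold B3_g
      rcases eq_or_lt_of_le hlog0 with h9 | h9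
      · rw [← h9]
        simp [B3_left hη (show (0 : ℝ) ≤ i * η by positivity)]
      · push_cast
        have h10 : (Real.log n : ℂ) ≠ 0 := by exact_mod_cast h9.ne'
        have h11 : (L : ℂ) ≠ 0 := by exact_mod_cast hL0.ne'
        field_simp
  have hsplit : ∑ n ∈ Finset.range (⌊T⌋₊ + 1), c n =
      Qi T η i (pl (1 / 2 + β / L) t) +
      ∑ n ∈ (Finset.range (⌊T⌋₊ + 1)).filter (fun n => ¬ n.Prime), c n := by
    rw [← Finset.sum_filter_add_sum_filter_not (Finset.range (⌊T⌋₊ + 1)) Nat.Prime c]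
    congr 1
    unfold Qi
    have h12 : (Finset.range (⌊T⌋₊ + 1)).filter Nat.Prime =
        (Finset.Icc 1 ⌊T⌋₊).filter Nat.Prime := by
      ext p
      rw [Finset.mem_filter, Finset.mem_filter, Finset.mem_range, Finset.mem_Icc]
      constructor
      · rintro ⟨h13, h14⟩
        exact ⟨⟨h14.one_lt.le, by omega⟩, h14⟩
      · rintro ⟨h13, h14⟩
        exact ⟨by omega, h14⟩
    rw [h12]
    refine Finset.sum_congr rfl fun p hp => ?_
    have hp' : p.Prime := (Finset.mem_filter.1 hp).2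
    have hlog : 0 < Real.log p := Real.log_pos (by exact_mod_cast hp'.one_lt)
    simp only [c]
    rw [ArithmeticFunction.vonMangoldt_apply_prime hp', div_self hlog.ne', one_mul]
  have hcn : ∀ n ∈ (Finset.range (⌊T⌋₊ + 1)).filter (fun n => ¬ n.Prime),
      ‖c n‖ ≤ B3_F η i L n := by
    intro n _
    rcases Nat.eq_zero_or_pos n with rfl | hn
    · simp [c, B3_F]
    · have hn0 : (0 : ℝ) < n := by exact_mod_cast hn
      have hlog0 : 0 ≤ Real.log n := Real.log_natCast_nonneg n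
      have hΛ0 : 0 ≤ Λ n := ArithmeticFunction.vonMangoldt_nonneg
      simp only [c]
      rw [hcpow n hn, norm_mul, norm_mul, Complex.norm_real, Complex.norm_real,
        Real.norm_eq_abs, Real.norm_eq_abs, abs_mul, abs_of_nonneg (div_nonneg hΛ0 hlog0)]
      have h15 : ‖Complex.exp (-(I * t * Real.log n))‖ = 1 := by
        have h15' : -(I * (t : ℂ) * ((Real.log n : ℝ) : ℂ)) =
            ((-(t * Real.log n) : ℝ) : ℂ) * I := by
          rw [Complex.ofReal_neg, Complex.ofReal_mul]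
          ring
        rw [h15', Complex.norm_exp_ofReal_mul_I]
      have h16 : |(Real.sqrt n)⁻¹ * Real.exp (-β * (Real.log n / L))| ≤ (Real.sqrt n)⁻¹ := by
        rw [abs_of_nonneg (by positivity)]
        have h17 : Real.exp (-β * (Real.log n / L)) ≤ 1 := by
          rw [← Real.exp_zero]
          apply Real.exp_le_exp.2
          have : 0 ≤ β * (Real.log n / L) := by positivity
          linarith
        exact mul_le_of_le_one_right (by positivity) h17
      rw [h15, mul_one]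
      unfold B3_F
      calc Λ n / Real.log n * |ph η i (Real.log n / L)| *
            |(Real.sqrt n)⁻¹ * Real.exp (-β * (Real.log n / L))|
          ≤ Λ n / Real.log n * |ph η i (Real.log n / L)| * (Real.sqrt n)⁻¹ := by
            apply mul_le_mul_of_nonneg_left h16
            positivity
        _ = _ := by ring
  have hnpc : ‖∑ n ∈ (Finset.range (⌊T⌋₊ + 1)).filter (fun n => ¬ n.Prime), c n‖ ≤ C₃ :=
    (norm_sum_le _ _).trans ((Finset.sum_le_sum hcn).trans h3)
  have hQ : Qi T η i (pl (1 / 2 + β / L) t) = (SZ L (B3_g η β i) t - BT L (B3_g η β i) t) -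
      SZ L (B3_g η β i) t -
      ∑ n ∈ (Finset.range (⌊T⌋₊ + 1)).filter (fun n => ¬ n.Prime), c n := by
    rw [hBT, hsplit]
    ring
  have hMk := Mk_nonneg L 1 t
  rw [hQ]
  calc ‖(SZ L (B3_g η β i) t - BT L (B3_g η β i) t) - SZ L (B3_g η β i) t -
        ∑ n ∈ (Finset.range (⌊T⌋₊ + 1)).filter (fun n => ¬ n.Prime), c n‖
      ≤ ‖SZ L (B3_g η β i) t - BT L (B3_g η β i) t‖ + ‖SZ L (B3_g η β i) t‖ +
        ‖∑ n ∈ (Finset.range (⌊T⌋₊ + 1)).filter (fun n => ¬ n.Prime), c n‖ :=
        (norm_sub_le _ _).trans (add_le_add (norm_sub_le _ _) le_rfl)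
    _ ≤ 4 * C₁ + C₂ * Mk L 1 t + C₃ := add_le_add (add_le_add (h1.trans h4) h2) hnpc
    _ ≤ (4 * C₁ + C₂ + C₃) + (4 * C₁ + C₂ + C₃) * Mk L 1 t := by nlinarith [mul_nonneg hC₁.le hMk, mul_nonneg hC₃.le hMk]

end Pool.Agent.MP_67227b_nt.Pp
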