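import Pool.Agent.MP_67227b_nt.Pp.PpDefs

set_option autoImplicit false

open Filter Topology Set MeasureTheory Complex
open scoped Real ArithmeticFunction ContDiff

namespace Pool.Agent.MP_67227b_nt.Pp

open Pool.Agent.Lib.ZetaCount_helper33 Pool.Agent.MP_67227b_nt Pool.Agent.MP_67227b_nt.Mo
open Pool.Agent.MP_67227b_nt.Sg
open Pool.Agent.MP_67227b_nt.Mo.MomentBAux (DP)

/-- The substitution in the frequency integral. -/
private lemma X1_subst {L' : ℝ} (hL : 0 < L') (η : ℝ → ℂ) (t γ : ℝ) :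
    ∫ v in Ioi (0 : ℝ), hsc L' η t v * Complex.exp (2 * π * I * v * γ) =
      ∫ v in Ioi (0 : ℝ), η v * Complex.exp (I * ((L' * (γ - t) : ℝ) : ℂ) * v) := by
  have hc : 0 < 2 * π / L' := by positivity
  have hpi : (π : ℂ) ≠ 0 := by exact_mod_cast Real.pi_ne_zero
  have hLC : (L' : ℂ) ≠ 0 := by exact_mod_cast hL.ne'
  have h1 := integral_comp_mul_left_Ioi
    (fun w : ℝ => η w * Complex.exp (I * ((L' * (γ - t) : ℝ) : ℂ) * w)) 0 hc
  rw [mul_zero] at h1
  have h2 : ∀ v : ℝ, hsc L' η t v * Complex.exp (2 * π * I * v * γ) =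
      ((2 * π / L' : ℝ) : ℂ) * (η (2 * π / L' * v) *
        Complex.exp (I * ((L' * (γ - t) : ℝ) : ℂ) * ((2 * π / L' * v : ℝ) : ℂ))) := by
    intro v
    have h3 : Complex.exp (-(2 * π * I * v * t)) * Complex.exp (2 * π * I * v * γ) =
        Complex.exp (I * ((L' * (γ - t) : ℝ) : ℂ) * ((2 * π / L' * v : ℝ) : ℂ)) := by
      rw [← Complex.exp_add]
      congr 1
      push_cast
      field_simp
      ring
    rw [hsc, ← h3]
    ring
  simp only [h2]
  rw [integral_const_mul, h1, Complex.real_smul, ← mul_assoc, ← ofReal_mul,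
    mul_inv_cancel₀ hc.ne', ofReal_one, one_mul]

/-- MODULE X1. The one-sided explicit formula. Apply `single_pos` (Mo/Single), `tendsto_int_ST`
(Mo/ExSum, with `y = -1`, `e = id`), `ST_pt32` and `Fl_eq`, `prime_part` (`σ = 1`),
`integrable_arch`, `integrable_LSeries` (as in `explicit_split` of Mo/ExplicitL) to the bump
`hsc L' η t`, for which
`∫_{v>0} hsc(v) e^{2πivγ} dv = ∫_{v>0} η(v) e^{i L' v (γ - t)} dv` (substitution). -/
theorem half_formula (hRH : RiemannHypothesis) {η : ℝ → ℂ} {δ : ℝ} (hδ : 0 ≤ δ) (hη : Bump δ η)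
    {L' : ℝ} (hL : 0 < L') (t : ℝ) :
    Tendsto (fun T' : ℝ => ∑ z ∈ ZZ T', (mu z : ℂ) * ((L' : ℂ) * ∫ v in Ioi (0 : ℝ),
      η v * Complex.exp (I * ((L' * (ord z - t) : ℝ) : ℂ) * v))) atTop
      (𝓝 (((L' / (2 * π) : ℝ) : ℂ) * (∫ τ : ℝ, archF (pt32 (1 * τ)) *
        gs (hsc L' η t) ((τ : ℂ) + ((-1 : ℝ) : ℂ) * I)) -
        ∑' n : ℕ, ((Λ n / Real.sqrt n : ℝ) : ℂ) * (η (Real.log n / L') *
          Complex.exp (-(I * t * Real.log n))))) := by
  have hδL : 0 ≤ δ * L' / (2 * π) := by positivity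
  have hb := bump_hsc hL hη t
  have hpi : (π : ℂ) ≠ 0 := by exact_mod_cast Real.pi_ne_zero
  have hLC : (L' : ℂ) ≠ 0 := by exact_mod_cast hL.ne'
  -- the limit of the integrals
  have h1 := (tendsto_int_ST hRH hδL hb (-1) (fun t => t) continuous_id (fun t => rfl)).const_mul
    ((L' / (2 * π) : ℝ) : ℂ)
  -- the value of the limit
  have e1 : ((L' / (2 * π) : ℝ) : ℂ) *
      (∫ τ : ℝ, Fl τ * gs (hsc L' η t) ((τ : ℂ) + ((-1 : ℝ) : ℂ) * I)) =
      ((L' / (2 * π) : ℝ) : ℂ) * (∫ τ : ℝ, archF (pt32 (1 * τ)) *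
        gs (hsc L' η t) ((τ : ℂ) + ((-1 : ℝ) : ℂ) * I)) -
        ∑' n : ℕ, ((Λ n / Real.sqrt n : ℝ) : ℂ) * (η (Real.log n / L') *
          Complex.exp (-(I * t * Real.log n))) := by
    have h2 : ∀ τ : ℝ, Fl τ = archF (pt32 (1 * τ)) - LSeries lamC (pt32 (1 * τ)) := by
      intro τ
      rw [one_mul]
      exact Fl_eq τ
    have e2 : ∫ τ : ℝ, Fl τ * gs (hsc L' η t) ((τ : ℂ) + ((-1 : ℝ) : ℂ) * I) =
        (∫ τ : ℝ, archF (pt32 (1 * τ)) * gs (hsc L' η t) ((τ : ℂ) + ((-1 : ℝ) : ℂ) * I)) -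
          ∫ τ : ℝ, LSeries lamC (pt32 (1 * τ)) *
            gs (hsc L' η t) ((τ : ℂ) + ((-1 : ℝ) : ℂ) * I) := by
      rw [← integral_sub (integrable_arch hδL hb 1 (-1) (by simp))
        (integrable_LSeries hδL hb 1 (-1))]
      congr 1
      ext τ
      rw [h2 τ, sub_mul]
    rw [e2, prime_part hδL hb 1 (Or.inl rfl), mul_sub, ← tsum_mul_left]
    congr 1
    apply tsum_congr
    intro n
    have h3 : 2 * π / L' * (Real.log n / (2 * π)) = Real.log n / L' := by
      field_simp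
    have h4 : -(2 * π * I * ((Real.log n / (2 * π) : ℝ) : ℂ) * t) =
        -(I * t * (Real.log n : ℝ)) := by
      push_cast
      field_simp
    rw [one_mul, hsc, h3, h4]
    push_cast
    field_simp
  rw [e1] at h1
  refine h1.congr' ?_
  filter_upwards [eventually_ge_atTop 0] with T' hT'
  have hint : ∀ γ : ℝ, Integrable fun τ : ℝ => 1 / (1 + ((τ - γ : ℝ) : ℂ) * I) *
      gs (hsc L' η t) ((τ : ℂ) + ((-1 : ℝ) : ℂ) * I) := by
    intro γ
    apply (integrable_gs hδL hb (-1)).bdd_mul (c := 1)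
    · apply Continuous.aestronglyMeasurable
      exact continuous_inv_one_add.comp (continuous_id.sub continuous_const)
    · exact Eventually.of_forall fun τ => norm_inv_one_add_le _
  have e3 : ∫ τ : ℝ, ST T' (pt32 τ) * gs (hsc L' η t) ((τ : ℂ) + ((-1 : ℝ) : ℂ) * I) =
      ∑ u ∈ ZZ T', (mu u : ℂ) * ∫ τ : ℝ, 1 / (1 + ((τ - ord u : ℝ) : ℂ) * I) *
        gs (hsc L' η t) ((τ : ℂ) + ((-1 : ℝ) : ℂ) * I) := by
    simp only [← integral_const_mul]
    rw [← integral_finsetSum]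
    · apply integral_congr_ae
      apply Eventually.of_forall
      intro τ
      simp only
      rw [ST_pt32 hRH hT', Finset.sum_mul]
      apply Finset.sum_congr rfl
      intro u _
      ring
    · intro u _
      exact (hint (ord u)).const_mul _
  rw [e3, Finset.mul_sum]
  apply Finset.sum_congr rfl
  intro u _
  rw [single_pos hδL hb, X1_subst hL]
  push_cast
  field_simp

end Pool.Agent.MP_67227b_nt.Pp
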