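import Pool.Agent.MP_67227b_nt.Pp.PpDefs
import Pool.Agent.MP_67227b_nt.Mo.Four

set_option autoImplicit false

open Filter Topology Set MeasureTheory Complex
open scoped Real ArithmeticFunction ContDiff

namespace Pool.Agent.MP_67227b_nt.Pp

open Pool.Agent.Lib.ZetaCount_helper33 Pool.Agent.MP_67227b_nt Pool.Agent.MP_67227b_nt.Mo
open Pool.Agent.MP_67227b_nt.Sg
open Pool.Agent.MP_67227b_nt.Mo.MomentBAux (DP)

/-- MODULE K1a. There is a cutoff (`exists_cutoff` of `Mo/Four.lean`, with `1/2 < 1`). -/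
theorem exists_cut : ∃ h : ℝ → ℂ, Cut h := by
  obtain ⟨η, h1, h2⟩ := exists_cutoff (δ := 1 / 2) (δ' := 1) (by norm_num) (by norm_num)
  exact ⟨η, h1, h2⟩

private theorem ker_hasDerivAt (w : ℂ) (v : ℝ) :
    HasDerivAt (fun v : ℝ => Complex.exp (-(w * v))) (Complex.exp (-(w * v)) * (-w)) v := by
  have h1 : HasDerivAt (fun v : ℝ => -(w * (v : ℂ))) (-w) v := by
    have h0 : HasDerivAt (fun v : ℝ => (v : ℂ)) 1 v := Complex.ofRealCLM.hasDerivAt
    have := h0.const_mul (-w)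
    simpa using this
  exact h1.cexp

private theorem ker_cont (w : ℂ) : Continuous fun v : ℝ => Complex.exp (-(w * v)) := by
  fun_prop

private theorem parts_int {g : ℝ → ℂ} (hg : Bump 1 g) (w : ℂ) :
    w * (∫ v in (0 : ℝ)..2, g v * Complex.exp (-(w * v))) =
      g 0 + ∫ v in (0 : ℝ)..2, deriv g v * Complex.exp (-(w * v)) := by
  have hd : ∀ v : ℝ, HasDerivAt g (deriv g v) v := fun v =>
    ((hg.smooth.differentiable (by simp)) v).hasDerivAt
  have c1 : Continuous fun v : ℝ => g v * Complex.exp (-(w * v)) :=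
    (DecayAux.bump_continuous hg).mul (ker_cont w)
  have c2 : Continuous fun v : ℝ => deriv g v * Complex.exp (-(w * v)) :=
    (DecayAux.bump_continuous (DecayAux.bump_deriv hg)).mul (ker_cont w)
  have c3 : Continuous fun v : ℝ => w * (g v * Complex.exp (-(w * v))) := continuous_const.mul c1
  have h := intervalIntegral.integral_eq_sub_of_hasDerivAt (a := (0 : ℝ)) (b := 2)
    (f := fun v : ℝ => g v * Complex.exp (-(w * v)))
    (f' := fun v : ℝ => deriv g v * Complex.exp (-(w * v)) - w * (g v * Complex.exp (-(w * v))))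
    (fun v _ => by
      have := (hd v).mul (ker_hasDerivAt w v)
      refine this.congr_deriv ?_
      ring)
    ((c2.sub c3).intervalIntegrable _ _)
  rw [intervalIntegral.integral_sub (c2.intervalIntegrable _ _)
    (c3.intervalIntegrable _ _), intervalIntegral.integral_const_mul] at h
  have h2 : g 2 = 0 := hg.supp 2 (by norm_num)
  have h3 : g 0 * Complex.exp (-(w * ((0 : ℝ) : ℂ))) = g 0 := by simp
  simp only [h2, zero_mul, zero_sub, h3] at h
  linear_combination -h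

private theorem bound_int {g : ℝ → ℂ} (hg : Bump 1 g) (h0 : ∀ v, |v| < 1 / 2 → g v = 0) {w : ℂ}
    (hw : 0 < w.re) : ‖∫ v in (0 : ℝ)..2, g v * Complex.exp (-(w * v))‖ ≤
      (∫ v in (0 : ℝ)..2, ‖g v‖) * Real.exp (-(w.re / 2)) := by
  rw [← intervalIntegral.integral_mul_const]
  refine intervalIntegral.norm_integral_le_of_norm_le (by norm_num) ?_
    (((DecayAux.bump_continuous hg).norm.mul continuous_const).intervalIntegrable _ _)
  refine Eventually.of_forall fun v hv => ?_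
  rw [norm_mul, Complex.norm_exp]
  have hre : (-(w * (v : ℂ))).re = -(w.re * v) := by simp
  rw [hre]
  by_cases h : v < 1 / 2
  · rw [h0 v (by rw [abs_lt]; constructor <;> linarith [hv.1])]
    simp
  · refine mul_le_mul_of_nonneg_left (Real.exp_le_exp.2 ?_) (norm_nonneg _)
    push Not at h
    nlinarith

private theorem deriv_zero_of {g : ℝ → ℂ} {c : ℂ} (h0 : ∀ v, |v| < 1 / 2 → g v = c) (v : ℝ)
    (hv : |v| < 1 / 2) : deriv g v = 0 := by
  have h : g =ᶠ[𝓝 v] fun _ => c := by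
    have ho : IsOpen {w : ℝ | |w| < 1 / 2} := isOpen_lt continuous_abs continuous_const
    filter_upwards [ho.mem_nhds hv] with w hw
    exact h0 w hw
  rw [h.deriv_eq]
  simp

/-- MODULE K1b. The size of the kernel. Integrate by parts in `∫_{v>0} h(v) e^{-wv} dv`
(`h(0) = 1`, compact support): it is `1/w + (1/w) ∫_{v>0} h'(v) e^{-wv} dv`, so
`K(w) = -(1/w) ∫_{v>0} h'(v) e^{-wv} dv = -(1/w^2) ∫_{v>0} h''(v) e^{-wv} dv` (`h'(0) = 0`), and
`h'`, `h''` vanish on `(0, 1/2)` and outside `[0, 1]`, so `|e^{-wv}| ≤ e^{-Re w/2}` there. -/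
theorem Kh_bound {h : ℝ → ℂ} (hh : Cut h) : ∃ C : ℝ, 0 < C ∧ ∀ w : ℂ, 0 < w.re →
    ‖Kh h w‖ ≤ C * Real.exp (-(w.re / 2)) / ‖w‖ ∧
      ‖Kh h w‖ ≤ C * Real.exp (-(w.re / 2)) / ‖w‖ ^ 2 := by
  have hb := hh.bump
  have hb1 := DecayAux.bump_deriv hb
  have hb2 := DecayAux.bump_deriv hb1
  have z1 : ∀ v, |v| < 1 / 2 → deriv h v = 0 := fun v hv =>
    deriv_zero_of (c := 1) (fun u hu => hh.one u hu.le) v hv
  have z2 : ∀ v, |v| < 1 / 2 → deriv (deriv h) v = 0 := fun v hv => deriv_zero_of z1 v hv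
  set C1 : ℝ := ∫ v in (0 : ℝ)..2, ‖deriv h v‖ with hC1
  set C2 : ℝ := ∫ v in (0 : ℝ)..2, ‖deriv (deriv h) v‖ with hC2
  have p1 : 0 ≤ C1 := intervalIntegral.integral_nonneg (by norm_num) fun _ _ => norm_nonneg _
  have p2 : 0 ≤ C2 := intervalIntegral.integral_nonneg (by norm_num) fun _ _ => norm_nonneg _
  refine ⟨C1 + C2 + 1, by linarith, fun w hw => ?_⟩
  have hw0 : w ≠ 0 := by
    intro h0; rw [h0] at hw; simp at hw
  have hn : 0 < ‖w‖ := norm_pos_iff.2 hw0
  have hE := Real.exp_pos (-(w.re / 2))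
  have hI : ∫ v in Ioi (0 : ℝ), h v * Complex.exp (-(w * v)) =
      ∫ v in (0 : ℝ)..2, h v * Complex.exp (-(w * v)) := by
    rw [intervalIntegral.integral_of_le (by norm_num)]
    refine setIntegral_eq_of_subset_of_forall_sdiff_eq_zero measurableSet_Ioi
      (fun v hv => hv.1) fun v hv => ?_
    have hv1 : 0 < v := hv.1
    have hv2 : 2 < v := by
      by_contra hc
      exact hv.2 ⟨hv1, not_lt.1 hc⟩
    rw [hb.supp v (by rw [abs_of_pos hv1]; linarith), zero_mul]
  have e1 := parts_int hb w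
  have e2 := parts_int hb1 w
  rw [hh.one 0 (by simp)] at e1
  rw [z1 0 (by simp), zero_add] at e2
  have k1 : w * Kh h w = -∫ v in (0 : ℝ)..2, deriv h v * Complex.exp (-(w * v)) := by
    unfold Kh
    rw [hI, mul_sub, e1, mul_one_div, div_self hw0]
    ring
  have k2 : w ^ 2 * Kh h w = -∫ v in (0 : ℝ)..2, deriv (deriv h) v * Complex.exp (-(w * v)) := by
    rw [pow_two, mul_assoc, k1, mul_neg, e2]
  have b1 := bound_int hb1 z1 hw
  have b2 := bound_int hb2 z2 hw
  have n1 : ‖w‖ * ‖Kh h w‖ ≤ C1 * Real.exp (-(w.re / 2)) := by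
    rw [← norm_mul, k1, norm_neg]; exact b1
  have n2 : ‖w‖ ^ 2 * ‖Kh h w‖ ≤ C2 * Real.exp (-(w.re / 2)) := by
    rw [← norm_pow, ← norm_mul, k2, norm_neg]; exact b2
  constructor
  · rw [le_div_iff₀ hn]
    nlinarith
  · rw [le_div_iff₀ (by positivity)]
    nlinarith

end Pool.Agent.MP_67227b_nt.Pp
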