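import Pool.Agent.MP_67227b_nt.Pp.PpDefs
import Pool.Agent.MP_67227b_nt.Sg.SgF
import Pool.Agent.MP_67227b_nt.Sg.SgN
import Pool.Agent.MP_67227b_nt.Sg.SgA

set_option autoImplicit false

open Filter Topology Set MeasureTheory Complex
open scoped Real ArithmeticFunction ContDiff

namespace Pool.Agent.MP_67227b_nt.Pp

open Pool.Agent.Lib.ZetaCount_helper33 Pool.Agent.MP_67227b_nt Pool.Agent.MP_67227b_nt.Mo
open Pool.Agent.MP_67227b_nt.Sg
open Pool.Agent.MP_67227b_nt.Mo.MomentBAux (DP)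

/-! MODULE M1. Elementary properties of `Mk`.

Proofs. `Sg.hasSum_reF` with `b = k / L` gives the sum of `mu z * (b / (b^2 + (t - ord z)^2))`;
multiply by `b`: `b^2 / (b^2 + y^2) = 1 / (1 + (L y / k)^2)`. This is `summable_Mk` and `Mk_eq`.
Monotonicity is termwise. For `Mk_shift`: with `x = L (t - ord z)`, `y = L η`, `|y| ≤ A`, `k ≥ 1`:
`1 + (x/k)^2 ≤ 1 + 2 ((x+y)/k)^2 + 2 (y/k)^2 ≤ (2 + 2 A^2) (1 + ((x+y)/k)^2)`.
`Mk_log`: `Mk_eq` and `Sg.norm_F_le` at `σ = 1/2 + 1/log T`.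
`continuous_Mk`: `Mk_eq` and `Sg.continuousOn_F`. -/

private theorem hasSum_Mk (hRH : RiemannHypothesis) {L k : ℝ} (hL : 0 < L) (hk : 0 < k) (t : ℝ) :
    HasSum (fun z : Zer => mu z / (1 + (L * (t - ord z) / k) ^ 2))
      (k / L * (logDeriv xi (pl (1 / 2 + k / L) t)).re) := by
  have hb : 0 < k / L := div_pos hk hL
  have h := (hasSum_reF hRH hb t).mul_left (k / L)
  refine h.congr_fun ?_
  intro z
  have h1 : 0 < (k / L) ^ 2 + (t - ord z) ^ 2 := by positivity
  have h2 : 0 < 1 + (L * (t - ord z) / k) ^ 2 := by positivity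
  have e : 1 + (L * (t - ord z) / k) ^ 2 = ((k / L) ^ 2 + (t - ord z) ^ 2) / (k / L) ^ 2 := by
    field_simp
  rw [e]
  field_simp

theorem summable_Mk (hRH : RiemannHypothesis) {L k : ℝ} (hL : 0 < L) (hk : 0 < k) (t : ℝ) :
    Summable fun z : Zer => mu z / (1 + (L * (t - ord z) / k) ^ 2) :=
  (hasSum_Mk hRH hL hk t).summable

theorem Mk_nonneg (L k t : ℝ) : 0 ≤ Mk L k t :=
  tsum_nonneg fun z => div_nonneg (mu_nonneg z) (by positivity)

theorem Mk_eq (hRH : RiemannHypothesis) {L k : ℝ} (hL : 0 < L) (hk : 0 < k) (t : ℝ) :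
    Mk L k t = k / L * (logDeriv xi (pl (1 / 2 + k / L) t)).re :=
  (hasSum_Mk hRH hL hk t).tsum_eq

theorem Mk_mono (hRH : RiemannHypothesis) {L k k' : ℝ} (hL : 0 < L) (hk : 0 < k) (hkk : k ≤ k')
    (t : ℝ) : Mk L k t ≤ Mk L k' t := by
  have hk' : 0 < k' := lt_of_lt_of_le hk hkk
  refine (summable_Mk hRH hL hk t).tsum_le_tsum (fun z => ?_) (summable_Mk hRH hL hk' t)
  refine div_le_div_of_nonneg_left (mu_nonneg z) (by positivity) ?_
  have h1 : (L * (t - ord z) / k') ^ 2 ≤ (L * (t - ord z) / k) ^ 2 := by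
    rw [div_pow, div_pow]
    exact div_le_div_of_nonneg_left (by positivity) (by positivity)
      (pow_le_pow_left₀ hk.le hkk 2)
  linarith

theorem Mk_shift (hRH : RiemannHypothesis) {L k A y t : ℝ} (hL : 0 < L) (hk : 1 ≤ k)
    (hA : 0 ≤ A) (hy : |y| ≤ A / L) : Mk L k (t + y) ≤ (2 + 2 * A ^ 2) * Mk L k t := by
  have hk0 : 0 < k := by linarith
  unfold Mk
  rw [← tsum_mul_left]
  refine (summable_Mk hRH hL hk0 (t + y)).tsum_le_tsum (fun z => ?_)
    ((summable_Mk hRH hL hk0 t).mul_left _)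
  have hmu := mu_nonneg z
  rw [mul_div_assoc', div_le_div_iff₀ (by positivity) (by positivity)]
  set a : ℝ := L * (t + y - ord z) / k with ha
  set c : ℝ := L * (t - ord z) / k with hc
  set e : ℝ := L * y / k with he
  have hce : c = a - e := by
    rw [ha, hc, he]; ring
  have hLy : |L * y| ≤ A := by
    rw [abs_mul, abs_of_pos hL]
    rw [le_div_iff₀ hL] at hy
    linarith
  have he2 : e ^ 2 ≤ A ^ 2 := by
    have h1 : |e| ≤ A := by
      rw [he, abs_div, abs_of_pos hk0, div_le_iff₀ hk0]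
      nlinarith
    rw [← sq_abs e]
    exact pow_le_pow_left₀ (abs_nonneg _) h1 2
  have hmain : 1 + c ^ 2 ≤ (2 + 2 * A ^ 2) * (1 + a ^ 2) := by
    rw [hce]
    nlinarith [sq_nonneg (a + e), sq_nonneg a, sq_nonneg A, mul_nonneg (sq_nonneg A) (sq_nonneg a)]
  calc mu z * (1 + c ^ 2) ≤ mu z * ((2 + 2 * A ^ 2) * (1 + a ^ 2)) :=
        mul_le_mul_of_nonneg_left hmain hmu
    _ = (2 + 2 * A ^ 2) * mu z * (1 + a ^ 2) := by ring

theorem Mk_log (hRH : RiemannHypothesis) : ∃ C : ℝ, 0 < C ∧ ∀ᶠ T : ℝ in atTop, ∀ t : ℝ,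
    T / 4 ≤ t → t ≤ 4 * T → Mk (Real.log T) 1 t ≤ C * Real.log T := by
  obtain ⟨C, hC, hb⟩ := norm_F_le hRH
  refine ⟨2 * C, by positivity, ?_⟩
  filter_upwards [eventually_ge_atTop (Real.exp 2)] with T hT t ht1 ht2
  have he : (5 : ℝ) ≤ Real.exp 2 := by
    have h1 := Real.add_one_le_exp (1 : ℝ)
    have h2 : Real.exp 2 = Real.exp 1 * Real.exp 1 := by rw [← Real.exp_add]; norm_num
    have h3 := Real.exp_one_gt_d9
    rw [h2]
    nlinarith
  have hT0 : 0 < T := by linarith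
  have hL2 : 2 ≤ Real.log T := by
    rw [Real.le_log_iff_exp_le hT0]; exact hT
  have hL0 : 0 < Real.log T := by linarith
  rw [Mk_eq hRH hL0 one_pos]
  have hσ : 1 / 2 + 1 / Real.log T ≤ 2 := by
    have : 1 / Real.log T ≤ 1 := by
      rw [div_le_one hL0]; linarith
    linarith
  have h1 := hb (1 / 2 + 1 / Real.log T) t (by linarith [one_div_pos.2 hL0]) hσ
  have h2 : 1 / 2 + 1 / Real.log T - 1 / 2 = 1 / Real.log T := by ring
  rw [h2] at h1
  have h3 : (logDeriv xi (pl (1 / 2 + 1 / Real.log T) t)).re ≤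
      C * Real.log (|t| + 3) / (1 / Real.log T) := (Complex.re_le_norm _).trans h1
  have h4 : Real.log (|t| + 3) ≤ 2 * Real.log T := by
    have ht0 : 0 ≤ t := by linarith
    rw [abs_of_nonneg ht0]
    have h5 : t + 3 ≤ T ^ 2 := by nlinarith
    calc Real.log (t + 3) ≤ Real.log (T ^ 2) := Real.log_le_log (by linarith) h5
      _ = 2 * Real.log T := by rw [Real.log_pow]; norm_num
  calc 1 / Real.log T * (logDeriv xi (pl (1 / 2 + 1 / Real.log T) t)).re
      ≤ 1 / Real.log T * (C * Real.log (|t| + 3) / (1 / Real.log T)) :=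
        mul_le_mul_of_nonneg_left h3 (by positivity)
    _ = C * Real.log (|t| + 3) := by field_simp
    _ ≤ C * (2 * Real.log T) := mul_le_mul_of_nonneg_left h4 hC.le
    _ = 2 * C * Real.log T := by ring

theorem continuous_Mk (hRH : RiemannHypothesis) {L k : ℝ} (hL : 0 < L) (hk : 0 < k) :
    Continuous (Mk L k) := by
  have h : Mk L k = fun t => k / L * (logDeriv xi (pl (1 / 2 + k / L) t)).re :=
    funext fun t => Mk_eq hRH hL hk t
  rw [h]
  exact continuous_const.mul (Complex.continuous_re.comp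
    (continuousOn_F hRH (by linarith [div_pos hk hL])))

end Pool.Agent.MP_67227b_nt.Pp
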