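import Pool.Agent.MP_67227b_nt.Pp.PpDefs

set_option autoImplicit false

open Filter Topology Set MeasureTheory Complex
open scoped Real ArithmeticFunction ContDiff

namespace Pool.Agent.MP_67227b_nt.Pp

open Pool.Agent.Lib.ZetaCount_helper33 Pool.Agent.MP_67227b_nt Pool.Agent.MP_67227b_nt.Mo
open Pool.Agent.MP_67227b_nt.Sg
open Pool.Agent.MP_67227b_nt.Mo.MomentBAux (DP)

private lemma sep_poisson {b : ℝ} (hb : 0 < b) :
    Integrable (fun v : ℝ => b / (b ^ 2 + v ^ 2)) ∧ ∫ v : ℝ, b / (b ^ 2 + v ^ 2) = π := by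
  have e : ∀ v : ℝ, b / (b ^ 2 + v ^ 2) = b⁻¹ * (1 + (b⁻¹ * v) ^ 2)⁻¹ := by
    intro v
    have : b ^ 2 + v ^ 2 ≠ 0 := by positivity
    field_simp
  simp_rw [e]
  constructor
  · exact ((integrable_inv_one_add_sq.comp_mul_left' (inv_ne_zero hb.ne'))).const_mul _
  · rw [integral_const_mul, Measure.integral_comp_mul_left (fun v : ℝ => (1 + v ^ 2)⁻¹) b⁻¹,
      integral_univ_inv_one_add_sq, inv_inv, abs_of_pos hb, smul_eq_mul, ← mul_assoc,
      inv_mul_cancel₀ hb.ne', one_mul]

private lemma sep_len {s : Finset ℝ} {a α t : ℝ} (hα : 0 < α) (ha : α < a)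
    (hs : ∀ x ∈ s, ∀ y ∈ s, x ≠ y → a < |x - y|) :
    ∑ x ∈ s, max (min a (t - x + α) - max 0 (t - x)) 0 ≤ α := by
  classical
  set φ : ℝ → ℝ := fun x => max (min a (t - x + α) - max 0 (t - x)) 0 with hφ
  set P := s.filter (fun x => 0 < φ x) with hP
  have hsum : ∑ x ∈ s, φ x = ∑ x ∈ P, φ x := by
    rw [hP, Finset.sum_filter]
    apply Finset.sum_congr rfl
    intro x _
    split_ifs with h
    · rfl
    · exact le_antisymm (not_lt.1 h) (le_max_right _ _)
  have hmem : ∀ x ∈ P, x ∈ s ∧ φ x = min a (t - x + α) - max 0 (t - x) ∧ -α < t - x ∧ t - x < a ∧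
      φ x ≤ α ∧ φ x ≤ t - x + α ∧ φ x ≤ a - (t - x) := by
    intro x hx
    obtain ⟨hx1, hx2⟩ := Finset.mem_filter.1 hx
    have h1 : 0 < min a (t - x + α) - max 0 (t - x) := by
      by_contra hcon
      have : φ x = 0 := max_eq_right (not_lt.1 hcon)
      rw [this] at hx2
      exact lt_irrefl _ hx2
    have h2 : φ x = min a (t - x + α) - max 0 (t - x) := max_eq_left h1.le
    have m1 : min a (t - x + α) ≤ a := min_le_left _ _
    have m2 : min a (t - x + α) ≤ t - x + α := min_le_right _ _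
    have m3 : 0 ≤ max 0 (t - x) := le_max_left _ _
    have m4 : t - x ≤ max 0 (t - x) := le_max_right _ _
    exact ⟨hx1, h2, by linarith, by linarith, by linarith, by linarith, by linarith⟩
  have hcard : P.card ≤ 2 := by
    by_contra hcon
    push Not at hcon
    obtain ⟨x, y, z, hx, hy, hz, hxy, hxz, hyz⟩ := Finset.two_lt_card_iff.1 hcon
    obtain ⟨hx1, _, hx3, hx4, _⟩ := hmem x hx
    obtain ⟨hy1, _, hy3, hy4, _⟩ := hmem y hy
    obtain ⟨hz1, _, hz3, hz4, _⟩ := hmem z hz
    have a1 := hs x hx1 y hy1 hxy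
    have a2 := hs x hx1 z hz1 hxz
    have a3 := hs y hy1 z hz1 hyz
    rcases lt_abs.1 a1 with b1 | b1 <;> rcases lt_abs.1 a2 with b2 | b2 <;>
      rcases lt_abs.1 a3 with b3 | b3 <;> linarith
  rw [hsum]
  rcases Nat.lt_or_ge P.card 1 with h0 | h0
  · have : P = ∅ := Finset.card_eq_zero.1 (by omega)
    rw [this]; simpa using hα.le
  · rcases Nat.lt_or_ge P.card 2 with h1 | h1
    · obtain ⟨x, hx⟩ := Finset.card_eq_one.1 (show P.card = 1 by omega)
      rw [hx, Finset.sum_singleton]
      exact (hmem x (by rw [hx]; simp)).2.2.2.2.1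
    · obtain ⟨x, y, hxy, hPxy⟩ := Finset.card_eq_two.1 (show P.card = 2 by omega)
      rw [hPxy, Finset.sum_pair hxy]
      obtain ⟨hx1, _, hx3, hx4, hx5, hx6, hx7⟩ := hmem x (by rw [hPxy]; simp)
      obtain ⟨hy1, _, hy3, hy4, hy5, hy6, hy7⟩ := hmem y (by rw [hPxy]; simp)
      rcases lt_abs.1 (hs x hx1 y hy1 hxy) with b1 | b1 <;> linarith

/-- MODULE C2a. Separated points: if the points of the finite set `s` have mutual distances more
than `a > α`, the intervals `[t - γ, t - γ + α]` are disjoint, with gaps of length at least `a - α`, so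
any window of length `a`, in particular `[0, a]`, has measure at least `a - α` outside of them
(the window meets at most one of them, or contains a whole gap). Hence
`∑ ∫_0^α b/(b² + (t+y-γ)²) dy ≤ π - (a - α) b/(b² + a²)`. -/
theorem sum_sep {s : Finset ℝ} {a α b t : ℝ} (hb : 0 < b) (hα : 0 < α) (ha : α < a)
    (hs : ∀ x ∈ s, ∀ y ∈ s, x ≠ y → a < |x - y|) :
    ∑ x ∈ s, ∫ y in (0 : ℝ)..α, b / (b ^ 2 + (t + y - x) ^ 2) ≤
      π - (a - α) * (b / (b ^ 2 + a ^ 2)) := by
  classical
  obtain ⟨hfi, hfv⟩ := sep_poisson hb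
  set f : ℝ → ℝ := fun v => b / (b ^ 2 + v ^ 2) with hf
  set c0 : ℝ := b / (b ^ 2 + a ^ 2) with hc0
  have hc0p : 0 < c0 := by positivity
  have hf0 : ∀ v, 0 < f v := fun v => by simp only [hf]; positivity
  set J : ℝ → Set ℝ := fun x => Ioc (t - x) (t - x + α) with hJ
  set W : Set ℝ := Ioc 0 a with hW
  have hI : ∀ x, ∫ y in (0 : ℝ)..α, b / (b ^ 2 + (t + y - x) ^ 2) = ∫ v, (J x).indicator f v := by
    intro x
    have e1 : ∀ y : ℝ, b / (b ^ 2 + (t + y - x) ^ 2) = f (y + (t - x)) := by
      intro y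
      simp only [hf]
      congr 3; ring
    simp_rw [e1]
    rw [intervalIntegral.integral_comp_add_right (fun v => f v) (t - x),
      intervalIntegral.integral_of_le (by linarith), integral_indicator measurableSet_Ioc]
    simp only [hJ, zero_add, add_comm α]
  simp_rw [hI]
  have hJi : ∀ x, Integrable ((J x).indicator f) := fun x => hfi.indicator measurableSet_Ioc
  have hWi : Integrable (W.indicator (fun _ => (1 : ℝ))) := by
    rw [integrable_indicator_iff measurableSet_Ioc]
    have h1 : volume W ≠ ⊤ := by simp [hW]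
    have h2 : ‖(1 : ℝ)‖ₑ ≠ ⊤ := by simp
    exact integrableOn_const h1 h2
  have hWJi : ∀ x, Integrable ((W ∩ J x).indicator (fun _ => (1 : ℝ))) := by
    intro x
    rw [integrable_indicator_iff (measurableSet_Ioc.inter measurableSet_Ioc)]
    have h0 : volume W < ⊤ := by simp [hW]
    have h1 : volume (W ∩ J x) ≠ ⊤ := ((measure_mono inter_subset_left).trans_lt h0).ne
    have h2 : ‖(1 : ℝ)‖ₑ ≠ ⊤ := by simp
    exact integrableOn_const h1 h2
  have hpt : ∀ v, (∑ x ∈ s, (J x).indicator f v) +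
      c0 * (W.indicator (fun _ => (1 : ℝ)) v - ∑ x ∈ s, (W ∩ J x).indicator (fun _ => (1 : ℝ)) v) ≤
      f v := by
    intro v
    by_cases hv : ∃ x ∈ s, v ∈ J x
    · obtain ⟨x, hx, hvx⟩ := hv
      have huniq : ∀ y ∈ s, y ≠ x → v ∉ J y := by
        intro y hy hyx hvy
        have := hs y hy x hx hyx
        simp only [hJ, mem_Ioc] at hvx hvy
        rcases lt_abs.1 this with b1 | b1 <;> linarith
      have s1 : ∑ x ∈ s, (J x).indicator f v = f v := by
        rw [Finset.sum_eq_single x]
        · exact indicator_of_mem hvx f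
        · intro y hy hyx
          exact indicator_of_notMem (huniq y hy hyx) f
        · intro h; exact absurd hx h
      have s2 : ∑ x ∈ s, (W ∩ J x).indicator (fun _ => (1 : ℝ)) v =
          W.indicator (fun _ => (1 : ℝ)) v := by
        rw [Finset.sum_eq_single x]
        · by_cases hvW : v ∈ W
          · rw [indicator_of_mem (show v ∈ W ∩ J x from ⟨hvW, hvx⟩), indicator_of_mem hvW]
          · rw [indicator_of_notMem (fun h => hvW h.1), indicator_of_notMem hvW]
        · intro y hy hyx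
          exact indicator_of_notMem (fun h => huniq y hy hyx h.2) _
        · intro h; exact absurd hx h
      rw [s1, s2, sub_self, mul_zero, add_zero]
    · push Not at hv
      have s1 : ∑ x ∈ s, (J x).indicator f v = 0 :=
        Finset.sum_eq_zero fun x hx => indicator_of_notMem (hv x hx) f
      have s2 : ∑ x ∈ s, (W ∩ J x).indicator (fun _ => (1 : ℝ)) v = 0 :=
        Finset.sum_eq_zero fun x hx => indicator_of_notMem (fun h => hv x hx h.2) _
      rw [s1, s2, sub_zero, zero_add]
      by_cases hvW : v ∈ W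
      · rw [indicator_of_mem hvW, mul_one]
        simp only [hc0, hf]
        simp only [hW, mem_Ioc] at hvW
        apply div_le_div_of_nonneg_left hb.le (by positivity)
        nlinarith [hvW.1, hvW.2]
      · rw [indicator_of_notMem hvW, mul_zero]
        exact (hf0 v).le
  have hA : Integrable (fun v => ∑ x ∈ s, (J x).indicator f v) :=
    integrable_finsetSum _ fun x _ => hJi x
  have hS : Integrable (fun v => ∑ x ∈ s, (W ∩ J x).indicator (fun _ => (1 : ℝ)) v) :=
    integrable_finsetSum _ fun x _ => hWJi x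
  have hD : Integrable (fun v => W.indicator (fun _ => (1 : ℝ)) v -
      ∑ x ∈ s, (W ∩ J x).indicator (fun _ => (1 : ℝ)) v) := hWi.sub hS
  have hB : Integrable (fun v => c0 * (W.indicator (fun _ => (1 : ℝ)) v -
      ∑ x ∈ s, (W ∩ J x).indicator (fun _ => (1 : ℝ)) v)) := hD.const_mul c0
  have hint : ∫ v, ((∑ x ∈ s, (J x).indicator f v) +
      c0 * (W.indicator (fun _ => (1 : ℝ)) v -
        ∑ x ∈ s, (W ∩ J x).indicator (fun _ => (1 : ℝ)) v)) ≤ ∫ v, f v :=
    integral_mono (hA.add hB) hfi hpt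
  rw [integral_add hA hB, integral_const_mul, integral_sub hWi hS,
    integral_finsetSum _ (fun x _ => hJi x), integral_finsetSum _ (fun x _ => hWJi x), hfv] at hint
  have hWv : ∫ v, W.indicator (fun _ => (1 : ℝ)) v = a := by
    rw [integral_indicator measurableSet_Ioc, setIntegral_const, smul_eq_mul, mul_one,
      Real.volume_real_Ioc, sub_zero, max_eq_left (by linarith)]
  have hWJv : ∀ x, ∫ v, (W ∩ J x).indicator (fun _ => (1 : ℝ)) v =
      max (min a (t - x + α) - max 0 (t - x)) 0 := by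
    intro x
    rw [integral_indicator (measurableSet_Ioc.inter measurableSet_Ioc), setIntegral_const,
      smul_eq_mul, mul_one, Ioc_inter_Ioc, Real.volume_real_Ioc]
  rw [hWv] at hint
  simp_rw [hWJv] at hint
  have hlen := sep_len (t := t) hα ha hs
  have : (a - α) * c0 ≤ c0 * (a - ∑ x ∈ s, max (min a (t - x + α) - max 0 (t - x)) 0) := by
    rw [mul_comm]
    apply mul_le_mul_of_nonneg_left _ hc0p.le
    linarith
  linarith

end Pool.Agent.MP_67227b_nt.Pp
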