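import Pool.Agent.MP_67227b_nt.Sg.SgP
import Pool.Agent.MP_67227b_nt.Pp.PpMk
import Pool.Agent.MP_67227b_nt.Pp.PpSumSep

set_option autoImplicit false

open Filter Topology Set MeasureTheory Complex
open scoped Real ArithmeticFunction ContDiff

namespace Pool.Agent.MP_67227b_nt.Pp

open Pool.Agent.Lib.ZetaCount_helper33 Pool.Agent.MP_67227b_nt Pool.Agent.MP_67227b_nt.Mo
open Pool.Agent.MP_67227b_nt.Sg
open Pool.Agent.MP_67227b_nt.Mo.MomentBAux (DP)

/-- The contribution of the zeros at distance more than `R / L`. -/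
noncomputable def Far (L R t : ℝ) : ℝ := by
  classical
  exact ∑' z : Zer, if R / L < |t - ord z| then mu z / (L * (t - ord z)) ^ 2 else 0

/-- A zero far away, with a scaled condition. -/
lemma C2b_far {b α t o : ℝ} (hb : 0 < b) (hα : 0 ≤ α) (hto : 2 * α < |t - o|) :
    ∫ x in (o - α)..o, SG5_P b t x ≤ 4 * α * b * (1 / (t - o) ^ 2) := by
  have hpos : 0 < |t - o| := by linarith
  have hne : t - o ≠ 0 := abs_pos.1 hpos
  have h3 := intervalIntegral.integral_mono_on (μ := volume) (a := o - α) (b := o)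
    (f := SG5_P b t) (g := fun _ => 4 * b * (1 / (t - o) ^ 2)) (by linarith)
    ((SG5_P_cont hb t).intervalIntegrable _ _) (intervalIntegrable_const) ?_
  · rw [intervalIntegral.integral_const, smul_eq_mul] at h3
    refine h3.trans (le_of_eq ?_)
    ring
  · intro x hx
    unfold SG5_P
    have h1 : |o - x| ≤ α := by
      rw [abs_of_nonneg (by linarith [hx.2])]
      linarith [hx.1]
    have h2 : |t - o| ≤ |t - x| + |o - x| := by
      have := abs_sub_le t x o
      rw [abs_sub_comm x o] at this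
      exact this
    have h4 : |t - o| / 2 ≤ |t - x| := by linarith
    have h5 : (t - o) ^ 2 / 4 ≤ (t - x) ^ 2 := by
      rw [← sq_abs (t - o), ← sq_abs (t - x)]
      nlinarith [abs_nonneg (t - o), abs_nonneg (t - x)]
    have h6 : 0 < (t - o) ^ 2 := by positivity
    have h7 : 4 * b * (1 / (t - o) ^ 2) = b / ((t - o) ^ 2 / 4) := by
      field_simp
    rw [h7]
    exact div_le_div_of_nonneg_left hb.le (by positivity) (by nlinarith [sq_nonneg b])

lemma C2b_sum (hRH : RiemannHypothesis) {L R : ℝ} (hL : 0 < L) (hR : 0 < R) (t : ℝ) :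
    Summable fun z : Zer => if R / L < |t - ord z| then mu z / (L * (t - ord z)) ^ 2 else 0 := by
  have hg : Summable fun z : Zer => (1 / R ^ 2 + 1 / L ^ 2) * (mu z / (1 + (t - ord z) ^ 2)) :=
    (summable_zer hRH t).mul_left _
  refine Summable.of_nonneg_of_le (fun z => ?_) (fun z => ?_) hg
  · split_ifs
    · exact div_nonneg (mu_nonneg z) (sq_nonneg _)
    · exact le_rfl
  · split_ifs with h
    · have h0 : 0 < R / L := by positivity
      have h1 : (R / L) ^ 2 < (t - ord z) ^ 2 := by
        rw [← sq_abs (t - ord z)]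
        exact pow_lt_pow_left₀ h h0.le (by norm_num)
      have h2 : 0 < (t - ord z) ^ 2 := lt_of_le_of_lt (sq_nonneg _) h1
      have h3 : 1 / (L * (t - ord z)) ^ 2 ≤
          (1 / R ^ 2 + 1 / L ^ 2) * (1 / (1 + (t - ord z) ^ 2)) := by
        rw [mul_pow, mul_one_div, div_le_div_iff₀ (by positivity) (by positivity), one_mul]
        have h4 : 1 ≤ L ^ 2 / R ^ 2 * (t - ord z) ^ 2 := by
          rw [div_pow, div_lt_iff₀ (by positivity)] at h1
          rw [div_mul_eq_mul_div, le_div_iff₀ (by positivity)]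
          linarith
        have h5 : (1 / R ^ 2 + 1 / L ^ 2) * (L ^ 2 * (t - ord z) ^ 2) =
            L ^ 2 / R ^ 2 * (t - ord z) ^ 2 + (t - ord z) ^ 2 := by
          field_simp
        rw [h5]
        linarith
      calc mu z / (L * (t - ord z)) ^ 2 = mu z * (1 / (L * (t - ord z)) ^ 2) := by ring
        _ ≤ mu z * ((1 / R ^ 2 + 1 / L ^ 2) * (1 / (1 + (t - ord z) ^ 2))) :=
            mul_le_mul_of_nonneg_left h3 (mu_nonneg z)
        _ = _ := by ring
    · exact mul_nonneg (by positivity) (div_nonneg (mu_nonneg z) (by positivity))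

/-- MODULE C2b. `Th = ∑_z mu z ∫_0^α b/(b² + (t+y-γ)²) dy` (`Sg.hasSum_reF`, nonnegative terms). The
zeros with `|t - γ| ≤ R/L` are simple and separated: `sum_sep` with `a = 2π lam/L`, and
`(a - α) b/(b²+a²) = 2π(lam-u)β/(β² + 4π²lam²)`. For the others, if `R ≥ 4πu`,
`|t + y - γ| ≥ |t - γ|/2`, so the term is at most `8πuβ mu z/(L(t-γ))²`. -/
theorem Th_sep (hRH : RiemannHypothesis) {lam u β : ℝ} (hu : 0 < u) (hul : u < lam)
    (hβ : 0 < β) : ∃ c C R₀ : ℝ, 0 < c ∧ 0 < C ∧ 0 < R₀ ∧ ∀ R : ℝ, R₀ ≤ R →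
      ∀ᶠ T : ℝ in atTop, ∀ t ∈ Icc (T / 2) (3 * T),
        Sg.Sep (Icc (t - R / Real.log T) (t + R / Real.log T)) (2 * π * lam / Real.log T) →
        Th (2 * π * u / Real.log T) (β / Real.log T) t ≤ π - c + C * Far (Real.log T) R t := by
  classical
  have hlu : 0 < lam - u := by linarith
  have hlam : 0 < lam := by linarith
  have hpi : 0 < π := Real.pi_pos
  obtain ⟨c, hc⟩ : ∃ c : ℝ, c = π * (lam - u) * β / (β ^ 2 + (2 * π * lam) ^ 2) := ⟨_, rfl⟩
  have hc0 : 0 < c := by rw [hc]; positivity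
  refine ⟨c, 8 * π * u * β, 4 * π * u, hc0, by positivity, by positivity, fun R hR => ?_⟩
  have hR0 : 0 < R := lt_of_lt_of_le (by positivity) hR
  have hlog : Tendsto Real.log atTop atTop := Real.tendsto_log_atTop
  filter_upwards [hlog.eventually_ge_atTop β, hlog.eventually_ge_atTop (2 * π * u)]
    with T hT1 hT2 t _ hsep
  set L := Real.log T with hL
  have hL0 : 0 < L := lt_of_lt_of_le hβ hT1
  set b := β / L with hb
  set α := 2 * π * u / L with hα
  set a := 2 * π * lam / L with ha
  have hb0 : 0 < b := by positivity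
  have hb1 : b ≤ 1 := (div_le_one hL0).2 hT1
  have hα0 : 0 < α := by positivity
  have hα1 : α ≤ 1 := (div_le_one hL0).2 hT2
  have hαa : α < a := by
    rw [hα, ha]
    apply div_lt_div_of_pos_right _ hL0
    nlinarith [Real.pi_pos]
  have ha0 : 0 < a := hα0.trans hαa
  -- the finite set
  set g : Zer → ℝ := fun z => mu z / (1 + (t - ord z) ^ 2) with hg
  have hgs : Summable g := summable_zer hRH t
  obtain ⟨δ, hδ0, hδ2⟩ : ∃ δ : ℝ, 0 < δ ∧ α * (3 / b * δ) ≤ c := by
    refine ⟨c / (α * (3 / b)), by positivity, le_of_eq ?_⟩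
    have h1 : 0 < α * (3 / b) := by positivity
    calc α * (3 / b * (c / (α * (3 / b)))) = α * (3 / b) * (c / (α * (3 / b))) := by ring
      _ = c := by rw [mul_div_assoc', mul_div_cancel_left₀ _ h1.ne']
  obtain ⟨S, hS⟩ : ∃ S : Finset Zer, ∑' z, g z - ∑ z ∈ S, g z < δ := by
    have h0 : Tendsto (fun S : Finset Zer => ∑ z ∈ S, g z) atTop (𝓝 (∑' z, g z)) := by
      have := hgs.hasSum
      rw [HasSum, SummationFilter.unconditional_filter] at this
      exact this
    have h1 : ∀ᶠ S in (atTop : Filter (Finset Zer)), ∑' z, g z - δ < ∑ z ∈ S, g z :=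
      h0.eventually_const_lt (by linarith)
    obtain ⟨S, hS⟩ := h1.exists
    exact ⟨S, by linarith⟩
  have hfin := SG5_fin hRH hb0 hb1 hα0.le hα1 (t := t) S
  -- split
  rw [← Finset.sum_filter_add_sum_filter_not S (fun z => R / L < |t - ord z|)] at hfin
  set S2 := S.filter (fun z => R / L < |t - ord z|) with hS2
  set S1 := S.filter (fun z => ¬ R / L < |t - ord z|) with hS1
  have hfar : ∀ z ∈ S2, R / L < |t - ord z| := fun z hz => (Finset.mem_filter.1 hz).2
  have hnear : ∀ z ∈ S1, ord z ∈ Icc (t - R / L) (t + R / L) := by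
    intro z hz
    have h1 := not_lt.1 (Finset.mem_filter.1 hz).2
    rw [abs_le] at h1
    exact ⟨by linarith [h1.2], by linarith [h1.1]⟩
  have hsum2 : ∑ z ∈ S2, mu z * (∫ x in (ord z - α)..(ord z), SG5_P b t x) ≤
      8 * π * u * β * Far L R t := by
    have hf : ∀ z ∈ S2, mu z * (∫ x in (ord z - α)..(ord z), SG5_P b t x) ≤
        8 * π * u * β *
          (if R / L < |t - ord z| then mu z / (L * (t - ord z)) ^ 2 else 0) := by
      intro z hz
      rw [if_pos (hfar z hz)]
      have h1 := hfar z hz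
      have h2 : 2 * α < |t - ord z| := by
        refine lt_of_le_of_lt ?_ h1
        rw [hα, mul_div_assoc']
        apply div_le_div_of_nonneg_right _ hL0.le
        linarith
      refine (mul_le_mul_of_nonneg_left (C2b_far hb0 hα0.le h2) (mu_nonneg z)).trans
        (le_of_eq ?_)
      have h3 : t - ord z ≠ 0 := abs_pos.1 (by linarith)
      rw [hα, hb]
      field_simp
      ring
    refine (Finset.sum_le_sum hf).trans ?_
    rw [← Finset.mul_sum]
    refine mul_le_mul_of_nonneg_left ?_ (by positivity)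
    unfold Far
    refine (C2b_sum hRH hL0 hR0 t).sum_le_tsum S2 fun z _ => ?_
    split_ifs
    · exact div_nonneg (mu_nonneg z) (sq_nonneg _)
    · exact le_rfl
  have hinj : Set.InjOn ord (S1 : Set Zer) := by
    intro z hz z' hz' h
    by_contra hne
    have h1 := hsep.2 z z' (hnear z hz) (hnear z' hz') hne
    rw [h, sub_self, abs_zero] at h1
    linarith
  have hsum1 : ∑ z ∈ S1, mu z * (∫ x in (ord z - α)..(ord z), SG5_P b t x) ≤
      π - (a - α) * (b / (b ^ 2 + a ^ 2)) := by
    have h1 := sum_sep (s := S1.image ord) (t := t) hb0 hα0 hαa (by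
      intro x hx y hy hxy
      obtain ⟨z, hz, rfl⟩ := Finset.mem_image.1 hx
      obtain ⟨z', hz', rfl⟩ := Finset.mem_image.1 hy
      exact hsep.2 z z' (hnear z hz) (hnear z' hz') fun h => hxy (by rw [h]))
    rw [Finset.sum_image hinj] at h1
    refine le_trans (le_of_eq (Finset.sum_congr rfl fun z hz => ?_)) h1
    rw [hsep.1 z (hnear z hz), one_mul, SG5_subst hb0]
  have hmain : (a - α) * (b / (b ^ 2 + a ^ 2)) = 2 * c := by
    rw [ha, hα, hb, hc]
    field_simp
  have hlast : α * (3 / b * (∑' z, g z - ∑ z ∈ S, g z)) ≤ c := by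
    refine le_trans ?_ hδ2
    apply mul_le_mul_of_nonneg_left _ hα0.le
    exact mul_le_mul_of_nonneg_left hS.le (by positivity)
  linarith

end Pool.Agent.MP_67227b_nt.Pp
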