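import Pool.Agent.MP_67227b_nt.Pp.PpSep
import Pool.Agent.MP_67227b_nt.Sg.SgT

set_option autoImplicit false

open Filter Topology Set MeasureTheory Complex
open scoped Real ArithmeticFunction ContDiff

namespace Pool.Agent.MP_67227b_nt.Pp

open Pool.Agent.Lib.ZetaCount_helper33 Pool.Agent.MP_67227b_nt Pool.Agent.MP_67227b_nt.Mo
open Pool.Agent.MP_67227b_nt.Sg
open Pool.Agent.MP_67227b_nt.Mo.MomentBAux (DP)

private lemma far_countable (hRH : RiemannHypothesis) : Countable Zer := by
  have h : (Set.univ : Set Zer) = ⋃ n : ℕ, ((ZZ (n : ℝ) : Finset Zer) : Set Zer) := by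
    symm
    rw [Set.eq_univ_iff_forall]
    intro u
    obtain ⟨n, hn⟩ := exists_nat_ge |ord u|
    refine Set.mem_iUnion.mpr ⟨n, ?_⟩
    rw [Finset.mem_coe, mem_ZZ hRH (Nat.cast_nonneg n)]
    exact hn
  rw [← Set.countable_univ_iff, h]
  exact Set.countable_iUnion fun n => (Finset.countable_toSet _)

/-- the term of `Far` -/
private noncomputable def far_f (L R : ℝ) (z : Zer) (t : ℝ) : ℝ := by
  classical
  exact if R / L < |t - ord z| then mu z / (L * (t - ord z)) ^ 2 else 0

private lemma far_eq (L R t : ℝ) : Far L R t = ∑' z : Zer, far_f L R z t := rfl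

private lemma far_f_nonneg (L R : ℝ) (z : Zer) (t : ℝ) : 0 ≤ far_f L R z t := by
  unfold far_f
  split_ifs
  · exact div_nonneg (mu_nonneg z) (sq_nonneg _)
  · exact le_rfl

private lemma far_f_meas (L R : ℝ) (z : Zer) : Measurable (far_f L R z) := by
  unfold far_f
  refine Measurable.ite ?_ ?_ measurable_const
  · exact measurableSet_lt measurable_const (measurable_id.sub_const _).abs
  · exact measurable_const.div (((measurable_id.sub_const _).const_mul L).pow_const 2)

/-- the Cauchy bound -/
private lemma far_f_le {L R : ℝ} (hL : 0 < L) (hR : 0 < R) (z : Zer) (t : ℝ) :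
    far_f L R z t ≤ 2 * mu z / R ^ 2 * (1 + ((t - ord z) / (R / L)) ^ 2)⁻¹ := by
  unfold far_f
  have hr : 0 < R / L := div_pos hR hL
  have hmu := mu_nonneg z
  split_ifs with h
  · set y := t - ord z with hy
    have hy0 : y ≠ 0 := by
      intro h0
      rw [h0, abs_zero] at h
      linarith
    have h1 : (R / L) ^ 2 ≤ y ^ 2 := by
      rw [← sq_abs y]
      exact pow_le_pow_left₀ hr.le h.le 2
    have hy2 : 0 < y ^ 2 := by positivity
    have h3 : (1 + (y / (R / L)) ^ 2)⁻¹ = (R / L) ^ 2 / ((R / L) ^ 2 + y ^ 2) := by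
      rw [div_pow]
      field_simp
    rw [h3]
    have h4 : mu z / (L * y) ^ 2 ≤ mu z * (2 / (L ^ 2 * ((R / L) ^ 2 + y ^ 2))) := by
      rw [div_eq_mul_one_div]
      refine mul_le_mul_of_nonneg_left ?_ hmu
      rw [div_le_div_iff₀ (by positivity) (by positivity), mul_pow]
      nlinarith [mul_le_mul_of_nonneg_left h1 (sq_nonneg L)]
    refine h4.trans (le_of_eq ?_)
    field_simp
  · positivity

private lemma far_f_le' {L R : ℝ} (z : Zer) (t : ℝ) :
    far_f L R z t ≤ mu z / (L * (t - ord z)) ^ 2 := by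
  unfold far_f
  split_ifs
  · exact le_rfl
  · exact div_nonneg (mu_nonneg z) (sq_nonneg _)

private lemma far_cauchy_int {r : ℝ} (hr : 0 < r) (a : ℝ) :
    Integrable (fun t : ℝ => (1 + ((t - a) / r) ^ 2)⁻¹) ∧
      ∫ t : ℝ, (1 + ((t - a) / r) ^ 2)⁻¹ = π * r := by
  have h1 : Integrable (fun t : ℝ => (1 + (t / r) ^ 2)⁻¹) :=
    integrable_inv_one_add_sq.comp_div hr.ne'
  refine ⟨h1.comp_sub_right a, ?_⟩
  rw [integral_sub_right_eq_self (fun t : ℝ => (1 + (t / r) ^ 2)⁻¹) a,
    Measure.integral_comp_div (fun t : ℝ => (1 + t ^ 2)⁻¹) r, integral_univ_inv_one_add_sq,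
    abs_of_pos hr, smul_eq_mul, mul_comm]

private lemma far_f_int {L R : ℝ} (hL : 0 < L) (hR : 0 < R) (z : Zer) (s : Set ℝ) :
    IntegrableOn (far_f L R z) s := by
  have h1 := ((far_cauchy_int (div_pos hR hL) (ord z)).1.const_mul (2 * mu z / R ^ 2))
  refine (h1.integrableOn (s := s)).mono' (far_f_meas L R z).aestronglyMeasurable ?_
  refine Eventually.of_forall fun t => ?_
  rw [Real.norm_of_nonneg (far_f_nonneg L R z t)]
  exact far_f_le hL hR z t

private lemma far_f_integral {L R : ℝ} (hL : 0 < L) (hR : 0 < R) (z : Zer) (s : Set ℝ) :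
    ∫ t in s, far_f L R z t ≤ 2 * π * mu z / (L * R) := by
  have h1 := ((far_cauchy_int (div_pos hR hL) (ord z)).1.const_mul (2 * mu z / R ^ 2))
  have h2 : ∫ t in s, far_f L R z t ≤ ∫ t : ℝ, far_f L R z t := by
    refine setIntegral_le_integral ?_ (Eventually.of_forall (far_f_nonneg L R z))
    rw [← integrableOn_univ]
    exact far_f_int hL hR z _
  refine h2.trans ?_
  have h3 : ∫ t : ℝ, far_f L R z t ≤
      ∫ t : ℝ, 2 * mu z / R ^ 2 * (1 + ((t - ord z) / (R / L)) ^ 2)⁻¹ := by
    refine integral_mono ?_ h1 (far_f_le hL hR z)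
    rw [← integrableOn_univ]
    exact far_f_int hL hR z _
  refine h3.trans (le_of_eq ?_)
  rw [integral_const_mul, (far_cauchy_int (div_pos hR hL) (ord z)).2]
  field_simp

/-- the number of zeros with `|γ| ≤ 4T` -/
private lemma far_near (hRH : RiemannHypothesis) : ∃ C : ℝ, 0 < C ∧ ∀ T : ℝ, 8 ≤ T →
    ∀ s : Finset Zer, (∀ z ∈ s, |ord z| ≤ 4 * T) → ∑ z ∈ s, mu z ≤ C * (T * Real.log T) := by
  obtain ⟨C, hC, hd⟩ := exists_density hRH
  refine ⟨40 * C, by positivity, fun T hT s hs => ?_⟩
  have hint : ∀ z : Zer, IntervalIntegrable (fun t : ℝ => mu z / (1 + (t - ord z) ^ 2)) volume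
      (-(5 * T)) (5 * T) := by
    intro z
    apply Continuous.intervalIntegrable
    refine continuous_const.div (by fun_prop) fun t => ?_
    positivity
  have h1 : ∀ z ∈ s, mu z ≤ 2 * ∫ t in (-(5 * T))..(5 * T), mu z / (1 + (t - ord z) ^ 2) := by
    intro z hz
    have hz1 := abs_le.mp (hs z hz)
    have hsub : ∫ t in (ord z)..(ord z + 1), mu z / (1 + (t - ord z) ^ 2) ≤
        ∫ t in (-(5 * T))..(5 * T), mu z / (1 + (t - ord z) ^ 2) := by
      refine intervalIntegral.integral_mono_interval (by linarith) (by linarith) (by linarith)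
        ?_ (hint z)
      exact Eventually.of_forall fun t => term_nonneg t z
    have hlow : mu z / 2 ≤ ∫ t in (ord z)..(ord z + 1), mu z / (1 + (t - ord z) ^ 2) := by
      have hc : ∫ t in (ord z)..(ord z + 1), mu z / 2 = mu z / 2 := by
        rw [intervalIntegral.integral_const]
        simp
      rw [← hc]
      refine intervalIntegral.integral_mono_on (by linarith) intervalIntegrable_const ?_ ?_
      · apply Continuous.intervalIntegrable
        refine continuous_const.div (by fun_prop) fun t => ?_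
        positivity
      · intro t ht
        have ht0 : 0 ≤ t - ord z := by linarith [ht.1]
        have ht1 : t - ord z ≤ 1 := by linarith [ht.2]
        refine div_le_div_of_nonneg_left (mu_nonneg z) (by positivity) ?_
        nlinarith
    linarith
  have h2 : ∑ z ∈ s, mu z ≤
      2 * ∫ t in (-(5 * T))..(5 * T), ∑ z ∈ s, mu z / (1 + (t - ord z) ^ 2) := by
    rw [intervalIntegral.integral_finsetSum (fun z _ => hint z), Finset.mul_sum]
    exact Finset.sum_le_sum h1
  have hlogT : 0 < Real.log T := Real.log_pos (by linarith)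
  have h3 : ∫ t in (-(5 * T))..(5 * T), ∑ z ∈ s, mu z / (1 + (t - ord z) ^ 2) ≤
      ∫ t in (-(5 * T))..(5 * T), C * (2 * Real.log T) := by
    refine intervalIntegral.integral_mono_on (by linarith) ?_ intervalIntegrable_const ?_
    · apply Continuous.intervalIntegrable
      refine continuous_finsetSum _ fun z _ => continuous_const.div (by fun_prop) fun t => ?_
      positivity
    · intro t ht
      have h4 : ∑ z ∈ s, mu z / (1 + (t - ord z) ^ 2) ≤ C * Real.log (|t| + 3) :=
        ((summable_zer hRH t).sum_le_tsum s (fun z _ => term_nonneg t z)).trans (hd t)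
      refine h4.trans (mul_le_mul_of_nonneg_left ?_ hC.le)
      have h5 : |t| ≤ 5 * T := abs_le.mpr ⟨ht.1, ht.2⟩
      have h6 : Real.log (|t| + 3) ≤ Real.log (T ^ 2) := by
        apply Real.log_le_log
        · have := abs_nonneg t
          linarith
        · nlinarith
      rw [Real.log_pow] at h6
      push_cast at h6
      exact h6
  have h7 : ∫ t in (-(5 * T))..(5 * T), C * (2 * Real.log T) = 20 * C * (T * Real.log T) := by
    rw [intervalIntegral.integral_const, smul_eq_mul]
    ring
  rw [h7] at h3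
  calc ∑ z ∈ s, mu z ≤ 2 * (20 * C * (T * Real.log T)) := h2.trans (by linarith)
    _ = 40 * C * (T * Real.log T) := by ring

/-- the integral of one far term -/
private lemma far_f_integral_far {L R T : ℝ} (hL : 0 < L) (hR : 0 < R) (hT : 0 < T) (z : Zer)
    (hz : 4 * T < |ord z|) :
    ∫ t in Ioc (T / 2) (3 * T), far_f L R z t ≤
      75 * T / L ^ 2 * (mu z / (T - ord z) ^ 2) := by
  have hmu := mu_nonneg z
  have hpt : ∀ t ∈ Ioc (T / 2) (3 * T), far_f L R z t ≤ 25 / L ^ 2 * (mu z / (T - ord z) ^ 2) := by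
    intro t ht
    refine (far_f_le' z t).trans ?_
    have h1 : |T - ord z| ≤ 5 * |t - ord z| := by
      rcases abs_cases (ord z) with ⟨h, h'⟩ | ⟨h, h'⟩
      · rw [abs_of_nonpos (by linarith), abs_of_nonpos (by linarith [ht.2])]
        linarith [ht.1, ht.2]
      · rw [abs_of_nonneg (by linarith), abs_of_nonneg (by linarith [ht.1])]
        linarith [ht.1, ht.2]
    have h0 : 0 < |T - ord z| := by
      rcases abs_cases (ord z) with ⟨h, h'⟩ | ⟨h, h'⟩
      · rw [abs_of_nonpos (by linarith)]
        linarith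
      · rw [abs_of_nonneg (by linarith)]
        linarith
    have h2 : (T - ord z) ^ 2 ≤ 25 * (t - ord z) ^ 2 := by
      have := pow_le_pow_left₀ (abs_nonneg _) h1 2
      rw [mul_pow, sq_abs, sq_abs] at this
      linarith
    have h3 : 0 < (T - ord z) ^ 2 := by
      rw [← sq_abs]
      positivity
    have h4 : 0 < (t - ord z) ^ 2 := by linarith
    have h5 : 25 / L ^ 2 * (mu z / (T - ord z) ^ 2) = mu z * (25 / (L ^ 2 * (T - ord z) ^ 2)) := by
      field_simp
    rw [h5, div_eq_mul_one_div]
    refine mul_le_mul_of_nonneg_left ?_ hmu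
    rw [mul_pow, div_le_div_iff₀ (by positivity) (by positivity)]
    nlinarith [mul_le_mul_of_nonneg_left h2 (sq_nonneg L)]
  have h6 : ∫ t in Ioc (T / 2) (3 * T), far_f L R z t ≤
      ∫ t in Ioc (T / 2) (3 * T), 25 / L ^ 2 * (mu z / (T - ord z) ^ 2) := by
    refine setIntegral_mono_on (far_f_int hL hR z _) ?_ measurableSet_Ioc hpt
    exact integrableOn_const (by simp)
  refine h6.trans ?_
  rw [setIntegral_const, Real.volume_real_Ioc_of_le (by linarith), smul_eq_mul]
  have h7 : 0 ≤ mu z / (T - ord z) ^ 2 := div_nonneg hmu (sq_nonneg _)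
  have h8 : 0 ≤ T / L ^ 2 * (mu z / (T - ord z) ^ 2) := by positivity
  have h9 : (3 * T - T / 2) * (25 / L ^ 2 * (mu z / (T - ord z) ^ 2)) =
      62.5 * (T / L ^ 2 * (mu z / (T - ord z) ^ 2)) := by ring
  have h10 : 75 * T / L ^ 2 * (mu z / (T - ord z) ^ 2) =
      75 * (T / L ^ 2 * (mu z / (T - ord z) ^ 2)) := by ring
  rw [h9, h10]
  linarith

/-- MODULE C3. The mean of `Far`. By Tonelli the integral is
`L^{-2} ∑_z mu z ∫ 1[|t-γ| > R/L] (t-γ)^{-2} dt`; for `|γ| ≤ 4T` the inner integral is at most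
`2L/R`, and there are at most `C T L` such zeros (`exists_density`); for `|γ| > 4T` it is at most
`3T · 16/γ²`, total `O(1/L)` by `Sg.tail_le` (`t = T`, `X = T`). -/
theorem Far_mean (hRH : RiemannHypothesis) : ∃ C : ℝ, 0 < C ∧ ∀ R : ℝ, 1 ≤ R →
    ∀ᶠ T : ℝ in atTop, IntegrableOn (Far (Real.log T) R) (Icc (T / 2) (3 * T)) ∧
      ∫ t in (T / 2)..(3 * T), Far (Real.log T) R t ≤ C * T / R := by
  classical
  have hcount := far_countable hRH
  obtain ⟨C1, hC1, hnear⟩ := far_near hRH
  obtain ⟨C2, hC2, htail⟩ := Sg.tail_le hRH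
  refine ⟨2 * π * C1 + 75 * C2, by positivity, fun R hR => ?_⟩
  filter_upwards [eventually_ge_atTop (8 : ℝ), eventually_ge_atTop (Real.exp 1),
    eventually_ge_atTop R] with T hT hTe hTR
  set L := Real.log T with hLdef
  have hR0 : 0 < R := by linarith
  have hT0 : 0 < T := by linarith
  have hL1 : 1 ≤ L := by
    rw [hLdef, Real.le_log_iff_exp_le hT0]
    exact hTe
  have hL : 0 < L := by linarith
  set S : Set ℝ := Ioc (T / 2) (3 * T) with hS
  -- the finite sums
  have hfin : ∀ s : Finset Zer, ∑ z ∈ s, ∫ t in S, far_f L R z t ≤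
      (2 * π * C1 + 75 * C2) * T / R := by
    intro s
    rw [← Finset.sum_filter_add_sum_filter_not s (fun z => |ord z| ≤ 4 * T)]
    have hA : ∑ z ∈ s.filter (fun z => |ord z| ≤ 4 * T), ∫ t in S, far_f L R z t ≤
        2 * π * C1 * T / R := by
      have h1 : ∑ z ∈ s.filter (fun z => |ord z| ≤ 4 * T), ∫ t in S, far_f L R z t ≤
          ∑ z ∈ s.filter (fun z => |ord z| ≤ 4 * T), 2 * π / (L * R) * mu z := by
        refine Finset.sum_le_sum fun z _ => ?_
        refine (far_f_integral hL hR0 z S).trans (le_of_eq ?_)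
        ring
      refine h1.trans ?_
      rw [← Finset.mul_sum]
      have h2 := hnear T hT (s.filter (fun z => |ord z| ≤ 4 * T))
        (fun z hz => (Finset.mem_filter.mp hz).2)
      calc 2 * π / (L * R) * ∑ z ∈ s.filter (fun z => |ord z| ≤ 4 * T), mu z
          ≤ 2 * π / (L * R) * (C1 * (T * L)) :=
            mul_le_mul_of_nonneg_left h2 (by positivity)
        _ = 2 * π * C1 * T / R := by field_simp
    have hB : ∑ z ∈ s.filter (fun z => ¬ |ord z| ≤ 4 * T), ∫ t in S, far_f L R z t ≤
        75 * C2 * T / R := by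
      have h1 : ∑ z ∈ s.filter (fun z => ¬ |ord z| ≤ 4 * T), ∫ t in S, far_f L R z t ≤
          ∑ z ∈ s.filter (fun z => ¬ |ord z| ≤ 4 * T),
            75 * T / L ^ 2 * (mu z / (T - ord z) ^ 2) := by
        refine Finset.sum_le_sum fun z hz => ?_
        exact far_f_integral_far hL hR0 hT0 z (not_le.mp (Finset.mem_filter.mp hz).2)
      refine h1.trans ?_
      rw [← Finset.mul_sum]
      have h2 := htail T T T (by linarith) (by linarith) (by linarith) (by linarith) le_rfl
        (s.filter (fun z => ¬ |ord z| ≤ 4 * T)) (by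
          intro z hz
          have h3 := not_le.mp (Finset.mem_filter.mp hz).2
          have h4 := abs_sub_abs_le_abs_sub (ord z) T
          rw [abs_of_pos hT0, abs_sub_comm] at h4
          linarith)
      calc 75 * T / L ^ 2 * ∑ z ∈ s.filter (fun z => ¬ |ord z| ≤ 4 * T), mu z / (T - ord z) ^ 2
          ≤ 75 * T / L ^ 2 * (C2 * L / T) :=
            mul_le_mul_of_nonneg_left h2 (by positivity)
        _ = 75 * C2 / L := by field_simp
        _ ≤ 75 * C2 := by
            rw [div_le_iff₀ hL]
            nlinarith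
        _ ≤ 75 * C2 * T / R := by
            rw [le_div_iff₀ hR0]
            exact mul_le_mul_of_nonneg_left hTR (by positivity)
    calc _ ≤ 2 * π * C1 * T / R + 75 * C2 * T / R := add_le_add hA hB
      _ = (2 * π * C1 + 75 * C2) * T / R := by ring
  have hnn : ∀ z : Zer, 0 ≤ ∫ t in S, far_f L R z t := fun z =>
    integral_nonneg (far_f_nonneg L R z)
  have hsum : Summable fun z : Zer => ∫ t in S, far_f L R z t :=
    summable_of_sum_le hnn hfin
  have hle : ∑' z : Zer, ∫ t in S, far_f L R z t ≤ (2 * π * C1 + 75 * C2) * T / R :=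
    hsum.tsum_le_of_sum_le hfin
  have hint : ∀ z : Zer, Integrable (far_f L R z) (volume.restrict S) := fun z =>
    far_f_int hL hR0 z S
  have hnorm : ∀ z : Zer, ∫ t in S, ‖far_f L R z t‖ = ∫ t in S, far_f L R z t := by
    intro z
    congr 1
    ext t
    exact Real.norm_of_nonneg (far_f_nonneg L R z t)
  have hsumn : Summable fun z : Zer => ∫ t in S, ‖far_f L R z t‖ := by
    simpa only [hnorm] using hsum
  have heq : ∫ t in S, Far L R t = ∑' z : Zer, ∫ t in S, far_f L R z t := by
    rw [integral_tsum_of_summable_integral_norm hint hsumn]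
    rfl
  -- integrability of the sum
  have hsumt : ∀ t : ℝ, Summable fun z : Zer => far_f L R z t := by
    intro t
    set K : ℝ := 2 / R ^ 2 * max 1 ((R / L) ^ 2) with hK
    have hr : 0 < R / L := div_pos hR0 hL
    refine Summable.of_nonneg_of_le (fun z => far_f_nonneg L R z t) (fun z => ?_)
      ((summable_zer hRH t).mul_left K)
    refine (far_f_le hL hR0 z t).trans ?_
    have hmu := mu_nonneg z
    have h1 : (1 + ((t - ord z) / (R / L)) ^ 2)⁻¹ ≤
        max 1 ((R / L) ^ 2) * (1 / (1 + (t - ord z) ^ 2)) := by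
      have h5 : ((t - ord z) / (R / L)) ^ 2 = (t - ord z) ^ 2 / (R / L) ^ 2 := div_pow _ _ _
      rw [inv_eq_one_div, mul_one_div, div_le_div_iff₀ (by positivity) (by positivity), one_mul,
        h5]
      have h2 : (1 : ℝ) ≤ max 1 ((R / L) ^ 2) := le_max_left _ _
      have h3 : (R / L) ^ 2 ≤ max 1 ((R / L) ^ 2) := le_max_right _ _
      have h4 : (t - ord z) ^ 2 ≤ max 1 ((R / L) ^ 2) * ((t - ord z) ^ 2 / (R / L) ^ 2) := by
        rw [← mul_div_assoc, le_div_iff₀ (by positivity), mul_comm]
        exact mul_le_mul_of_nonneg_right h3 (sq_nonneg _)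
      linarith
    calc 2 * mu z / R ^ 2 * (1 + ((t - ord z) / (R / L)) ^ 2)⁻¹
        ≤ 2 * mu z / R ^ 2 * (max 1 ((R / L) ^ 2) * (1 / (1 + (t - ord z) ^ 2))) :=
          mul_le_mul_of_nonneg_left h1 (by positivity)
      _ = K * (mu z / (1 + (t - ord z) ^ 2)) := by
          rw [hK]
          ring
  have hIntS : IntegrableOn (Far L R) S := by
    refine ⟨?_, ?_⟩
    · have hm : Measurable (Far L R) := by
        have h1 : Far L R = fun t => (∑' z : Zer, ENNReal.ofReal (far_f L R z t)).toReal := by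
          ext t
          rw [far_eq, ← ENNReal.ofReal_tsum_of_nonneg (fun z => far_f_nonneg L R z t) (hsumt t),
            ENNReal.toReal_ofReal (tsum_nonneg fun z => far_f_nonneg L R z t)]
        rw [h1]
        exact (Measurable.tsum fun z => (far_f_meas L R z).ennreal_ofReal).ennreal_toReal
      exact hm.aestronglyMeasurable
    · rw [hasFiniteIntegral_iff_ofReal (Eventually.of_forall fun t => by
        rw [far_eq]
        exact tsum_nonneg fun z => far_f_nonneg L R z t)]
      have h1 : ∀ t, ENNReal.ofReal (Far L R t) = ∑' z : Zer, ENNReal.ofReal (far_f L R z t) := by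
        intro t
        rw [far_eq, ENNReal.ofReal_tsum_of_nonneg (fun z => far_f_nonneg L R z t) (hsumt t)]
      simp_rw [h1]
      rw [lintegral_tsum fun z => (far_f_meas L R z).ennreal_ofReal.aemeasurable]
      have h2 : ∀ z : Zer, ∫⁻ t in S, ENNReal.ofReal (far_f L R z t) =
          ENNReal.ofReal (∫ t in S, far_f L R z t) := by
        intro z
        rw [ofReal_integral_eq_lintegral_ofReal (hint z)
          (Eventually.of_forall (far_f_nonneg L R z))]
      simp_rw [h2]
      rw [← ENNReal.ofReal_tsum_of_nonneg hnn hsum]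
      exact ENNReal.ofReal_lt_top
  refine ⟨?_, ?_⟩
  · rw [integrableOn_Icc_iff_integrableOn_Ioc]
    exact hIntS
  · rw [intervalIntegral.integral_of_le (by linarith), heq]
    exact hle

end Pool.Agent.MP_67227b_nt.Pp
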