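import Pool.Agent.MP_67227b_nt.Pp.PpDefs

set_option autoImplicit false

open Filter Topology Set MeasureTheory Complex
open scoped Real ArithmeticFunction ContDiff

namespace Pool.Agent.MP_67227b_nt.Pp

open Pool.Agent.Lib.ZetaCount_helper33 Pool.Agent.MP_67227b_nt Pool.Agent.MP_67227b_nt.Mo
open Pool.Agent.MP_67227b_nt.Sg
open Pool.Agent.MP_67227b_nt.Mo.MomentBAux (DP)

private theorem derivI {F : ℝ → ℝ} (hF : Monotone F) (hr : ∀ y, ContinuousWithinAt F (Ici y) y) (y : ℝ) :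
    HasDerivWithinAt (fun u => ∫ x in (0 : ℝ)..u, F x) (F y) (Ici y) y := by
  apply intervalIntegral.integral_hasDerivWithinAt_right (t := Ioi y) hF.intervalIntegrable
  · exact hF.measurable.stronglyMeasurable.stronglyMeasurableAtFilter
  · exact (hr y).mono Ioi_subset_Ici_self

private theorem contI {F : ℝ → ℝ} (hF : Monotone F) : Continuous (fun u => ∫ x in (0 : ℝ)..u, F x) :=
  intervalIntegral.continuous_primitive (fun _ _ => hF.intervalIntegrable) 0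

/-- upper comparison -/
private theorem upI {κ δ : ℝ} (hδ : 0 < δ) {F : ℝ → ℝ} (hF : Monotone F)
    (hr : ∀ y, ContinuousWithinAt F (Ici y) y)
    (h : ∀ y, 0 ≤ y → y ≤ κ → 2 * (∫ x in (0 : ℝ)..y, F x) ≤ (y + 2 * δ) * F y) (x : ℝ) (hx : 0 ≤ x) (hxκ : x ≤ κ) :
    (∫ u in (0 : ℝ)..x, F u) / (x + 2 * δ) ^ 2 ≤ (∫ u in (0 : ℝ)..κ, F u) / (κ + 2 * δ) ^ 2 := by
  have hpos : ∀ y, x ≤ y → 0 < y + 2 * δ := fun y hy => by linarith
  have key := image_le_of_deriv_right_le_deriv_boundary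
    (f := fun _ => (∫ u in (0 : ℝ)..x, F u) / (x + 2 * δ) ^ 2) (f' := fun _ => 0) (a := x) (b := κ)
    continuousOn_const (fun y _ => hasDerivWithinAt_const _ _ _)
    (B := fun y => (∫ u in (0 : ℝ)..y, F u) / (y + 2 * δ) ^ 2)
    (B' := fun y => (F y * (y + 2 * δ) ^ 2 - (∫ u in (0 : ℝ)..y, F u) * (2 * (y + 2 * δ))) /
      ((y + 2 * δ) ^ 2) ^ 2) le_rfl ?_ ?_ ?_
  · exact key ⟨hxκ, le_rfl⟩
  · apply ContinuousOn.div (contI hF).continuousOn (by fun_prop)
    intro y hy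
    have := hpos y hy.1
    positivity
  · intro y hy
    have h1 := derivI hF hr y
    have h2 : HasDerivWithinAt (fun y : ℝ => (y + 2 * δ) ^ 2) (2 * (y + 2 * δ)) (Ici y) y := by
      have := ((hasDerivAt_id y).add_const (2 * δ)).fun_pow 2
      simpa using this.hasDerivWithinAt
    have := hpos y hy.1
    exact h1.div h2 (by positivity)
  · intro y hy
    have h0 := hpos y hy.1
    have h1 := h y (hx.trans hy.1) hy.2.le
    apply div_nonneg _ (by positivity)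
    nlinarith

/-- lower comparison -/
private theorem lowI {κ δ : ℝ} {F : ℝ → ℝ} (hF : Monotone F)
    (hr : ∀ y, ContinuousWithinAt F (Ici y) y) (hδ : 0 < δ)
    (h : ∀ y, 0 ≤ y → y ≤ κ → (y - 2 * δ) * F y ≤ 2 * (∫ x in (0 : ℝ)..y, F x)) (x : ℝ) (hx : 2 * δ < x) (hxκ : x ≤ κ) :
    (∫ u in (0 : ℝ)..κ, F u) / (κ - 2 * δ) ^ 2 ≤ (∫ u in (0 : ℝ)..x, F u) / (x - 2 * δ) ^ 2 := by
  have hpos : ∀ y, x ≤ y → 0 < y - 2 * δ := fun y hy => by linarith
  have key := image_le_of_deriv_right_le_deriv_boundary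
    (f := fun y => (∫ u in (0 : ℝ)..y, F u) / (y - 2 * δ) ^ 2)
    (f' := fun y => (F y * (y - 2 * δ) ^ 2 - (∫ u in (0 : ℝ)..y, F u) * (2 * (y - 2 * δ))) /
      ((y - 2 * δ) ^ 2) ^ 2) (a := x) (b := κ) ?_ ?_
    (B := fun _ => (∫ u in (0 : ℝ)..x, F u) / (x - 2 * δ) ^ 2) (B' := fun _ => 0) le_rfl
    continuousOn_const (fun y _ => hasDerivWithinAt_const _ _ _) ?_
  · exact key ⟨hxκ, le_rfl⟩
  · apply ContinuousOn.div (contI hF).continuousOn (by fun_prop)
    intro y hy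
    have := hpos y hy.1
    positivity
  · intro y hy
    have h1 := derivI hF hr y
    have h2 : HasDerivWithinAt (fun y : ℝ => (y - 2 * δ) ^ 2) (2 * (y - 2 * δ)) (Ici y) y := by
      have := ((hasDerivAt_id y).sub_const (2 * δ)).fun_pow 2
      simpa using this.hasDerivWithinAt
    have := hpos y hy.1
    exact h1.div h2 (by positivity)
  · intro y hy
    have h0 := hpos y hy.1
    have h1 := h y (by linarith [hy.1]) hy.2.le
    apply div_nonpos_of_nonpos_of_nonneg _ (by positivity)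
    nlinarith

private theorem exp_int (z : ℂ) (κ : ℝ) :
    (∫ x in (0 : ℝ)..κ, Complex.exp (z * x) * (z ^ 2 * (x : ℂ) ^ 2 - 2)) =
      Complex.exp (z * κ) * (z * (κ : ℂ) ^ 2 - 2 * κ) := by
  have hd : ∀ x : ℝ, HasDerivAt (fun x : ℝ => Complex.exp (z * x) * (z * (x : ℂ) ^ 2 - 2 * x))
      (Complex.exp (z * x) * (z ^ 2 * (x : ℂ) ^ 2 - 2)) x := by
    intro x
    have hx : HasDerivAt (fun x : ℝ => (x : ℂ)) 1 x := Complex.ofRealCLM.hasDerivAt
    have h1 : HasDerivAt (fun x : ℝ => Complex.exp (z * x)) (Complex.exp (z * x) * (z * 1)) x :=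
      (hx.const_mul z).cexp
    have h2 : HasDerivAt (fun x : ℝ => z * (x : ℂ) ^ 2 - 2 * x) (z * (2 * (x : ℂ)) - 2 * 1) x := by
      have := (hx.fun_pow 2).const_mul z
      have h3 := hx.const_mul (2 : ℂ)
      have h4 := this.fun_sub h3
      simpa using h4
    have h5 := h1.fun_mul h2
    have e : Complex.exp (z * x) * (z ^ 2 * (x : ℂ) ^ 2 - 2) =
        Complex.exp (z * x) * (z * 1) * (z * (x : ℂ) ^ 2 - 2 * x) +
          Complex.exp (z * x) * (z * (2 * (x : ℂ)) - 2 * 1) := by ring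
    rw [e]
    exact h5
  rw [intervalIntegral.integral_eq_sub_of_hasDerivAt (fun x _ => hd x)]
  · simp
  · apply Continuous.intervalIntegrable
    fun_prop

private theorem parts {F : ℝ → ℝ} (hF : Monotone F)
    (hr : ∀ y, ContinuousWithinAt F (Ici y) y) (z : ℂ) (κ : ℝ) (hκ : 0 < κ) :
    (∫ x in (0 : ℝ)..κ, Complex.exp (z * x) * (F x : ℂ)) =
      Complex.exp (z * κ) * ((∫ x in (0 : ℝ)..κ, F x : ℝ) : ℂ) -
        ∫ x in (0 : ℝ)..κ, (z * Complex.exp (z * x)) * ((∫ u in (0 : ℝ)..x, F u : ℝ) : ℂ) := by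
  have key := intervalIntegral.integral_mul_deriv_eq_deriv_mul_of_hasDeriv_right
    (a := 0) (b := κ) (u := fun x : ℝ => Complex.exp (z * x)) (u' := fun x : ℝ => z * Complex.exp (z * x))
    (v := fun x : ℝ => ((∫ u in (0 : ℝ)..x, F u : ℝ) : ℂ)) (v' := fun x : ℝ => (F x : ℂ))
    (by fun_prop) (Complex.continuous_ofReal.comp (contI hF)).continuousOn
    (fun x _ => ?_) (fun x _ => ?_) ?_ ?_
  · rw [key]
    simp
  · have hx : HasDerivAt (fun x : ℝ => (x : ℂ)) 1 x := Complex.ofRealCLM.hasDerivAt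
    have h1 : HasDerivAt (fun x : ℝ => Complex.exp (z * x)) (Complex.exp (z * x) * (z * 1)) x :=
      (hx.const_mul z).cexp
    have h2 := h1.hasDerivWithinAt (s := Ioi x)
    have e : z * Complex.exp (z * x) = Complex.exp (z * x) * (z * 1) := by ring
    rw [e]
    exact h2
  · exact ((derivI hF hr x).mono Ioi_subset_Ici_self).ofReal_comp
  · apply Continuous.intervalIntegrable
    fun_prop
  · have h : IntervalIntegrable F volume 0 κ := hF.intervalIntegrable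
    exact ⟨h.1.ofReal, h.2.ofReal⟩

/-- MODULE N4. Let `I(y) = ∫_0^y F`. From the hypothesis `(y - 2δ) F(y) ≤ 2 I(y) ≤ (y + 2δ) F(y)`.
`I` is continuous with right derivative `F(y)` at every `y`, so `I(y)/(y+2δ)²` is nondecreasing on
`[0, κ]` and `I(y)/(y-2δ)²` is nonincreasing on `(2δ, κ]`
(`intervalIntegral.integral_eq_sub_of_hasDeriv_right` or the monotonicity criterion with right
derivatives); hence `|I(x) - I(κ) x²/κ²| ≤ C (δ/κ²) I(κ)` on `[0, κ]`. Also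
`|F(κ) - (2/κ) I(κ)| ≤ (2δ/κ) F(κ) ≤ (8δ/κ²) I(κ)`. Finally
`e^{zκ}F(κ) - z∫e^{zx}F = e^{zκ}F(κ) - z e^{zκ}I(κ) + z²∫e^{zx}I(x)dx`, and for `I(x) = I(κ)x²/κ²`,
`F(κ) = 2I(κ)/κ` this is `(2/κ²) I(κ) ∫_0^κ e^{zx} dx`. -/
theorem analysis {κ : ℝ} (hκ : 0 < κ) (hκ1 : κ ≤ 1) (z : ℂ) : ∃ C : ℝ, 0 < C ∧
    ∀ δ : ℝ, 0 < δ → δ ≤ κ / 8 → ∀ F : ℝ → ℝ, Monotone F → (∀ y, 0 ≤ y → 1 ≤ F y) →
      (∀ y, ContinuousWithinAt F (Ici y) y) →
      (∀ y, 0 ≤ y → y ≤ κ → |y * F y - 2 * ∫ x in (0 : ℝ)..y, F x| ≤ 2 * δ * F y) →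
      κ ≤ (∫ x in (0 : ℝ)..κ, F x) ∧ F κ ≤ 4 / κ * (∫ x in (0 : ℝ)..κ, F x) ∧
      ‖Complex.exp (z * κ) * (F κ : ℂ) - z * (∫ x in (0 : ℝ)..κ, Complex.exp (z * x) * (F x : ℂ)) -
        ((2 / κ ^ 2 * (∫ x in (0 : ℝ)..κ, F x) : ℝ) : ℂ) * ∫ x in (0 : ℝ)..κ, Complex.exp (z * x)‖ ≤
        C * δ * ∫ x in (0 : ℝ)..κ, F x := by
  refine ⟨8 * Real.exp ‖z‖ * (1 / κ ^ 2 + ‖z‖ ^ 2), by positivity, ?_⟩
  intro δ hδ hδκ F hF hF1 hr hab
  set J : ℝ := ∫ x in (0 : ℝ)..κ, F x with hJ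
  have h1 : κ ≤ J := by
    have h0 : ∫ x in (0 : ℝ)..κ, (1 : ℝ) ≤ J := by
      apply intervalIntegral.integral_mono_on hκ.le (by simp) hF.intervalIntegrable
      intro x hx
      exact hF1 x hx.1
    simpa using h0
  have hJ0 : 0 < J := lt_of_lt_of_le hκ h1
  have hFκ : 0 < F κ := lt_of_lt_of_le one_pos (hF1 κ hκ.le)
  have hκκ := abs_le.mp (hab κ hκ.le le_rfl)
  have h2 : F κ ≤ 4 / κ * J := by
    have e1 : κ * F κ ≤ 4 * J := by
      have := hκκ.2
      nlinarith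
    rw [div_mul_eq_mul_div, le_div_iff₀ hκ]
    linarith
  refine ⟨h1, h2, ?_⟩
  -- bounds for I
  have hup : ∀ y, 0 ≤ y → y ≤ κ → 2 * (∫ x in (0 : ℝ)..y, F x) ≤ (y + 2 * δ) * F y := by
    intro y hy hy2
    have := (abs_le.mp (hab y hy hy2)).1
    linarith
  have hlow : ∀ y, 0 ≤ y → y ≤ κ → (y - 2 * δ) * F y ≤ 2 * (∫ x in (0 : ℝ)..y, F x) := by
    intro y hy hy2
    have := (abs_le.mp (hab y hy hy2)).2
    linarith
  have hI0 : ∀ x, 0 ≤ x → 0 ≤ ∫ u in (0 : ℝ)..x, F u := by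
    intro x hx
    apply intervalIntegral.integral_nonneg hx
    intro u hu
    linarith [hF1 u hu.1]
  have hcmp : ∀ x, 0 ≤ x → x ≤ κ → |(∫ u in (0 : ℝ)..x, F u) - J * x ^ 2 / κ ^ 2| ≤ 8 * δ / κ * J := by
    intro x hx hxκ
    have hxk : x / κ ≤ 1 := by rw [div_le_one hκ]; exact hxκ
    have hxk0 : 0 ≤ x / κ := by positivity
    have exx : J * x ^ 2 / κ ^ 2 = J * (x / κ) ^ 2 := by rw [div_pow]; ring
    rw [exx, abs_le]
    constructor
    · by_cases hx2 : 2 * δ < x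
      · have := lowI hF hr hδ hlow x hx2 hxκ
        have hp1 : 0 < κ - 2 * δ := by linarith
        have hp2 : 0 < x - 2 * δ := by linarith
        rw [div_le_div_iff₀ (by positivity) (by positivity)] at this
        have h3 : J * ((x - 2 * δ) / (κ - 2 * δ)) ^ 2 ≤ ∫ u in (0 : ℝ)..x, F u := by
          rw [div_pow, mul_div_assoc', div_le_iff₀ (by positivity)]
          exact this
        have hdiff : x / κ - (x - 2 * δ) / (κ - 2 * δ) ≤ 4 * δ / κ := by
          rw [div_sub_div _ _ hκ.ne' hp1.ne', div_le_div_iff₀ (by positivity) hκ]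
          have e1 : x * (κ - 2 * δ) - κ * (x - 2 * δ) = 2 * δ * (κ - x) := by ring
          rw [e1]
          have e2 : 2 * δ * (κ - x) * κ ≤ 2 * δ * κ * κ := by
            have : 0 ≤ 2 * δ * κ := by positivity
            nlinarith
          have e3 : 2 * δ * κ * κ ≤ 4 * δ * (κ * (κ - 2 * δ)) := by
            have : 0 < δ * κ := by positivity
            nlinarith
          linarith
        have hle1 : (x - 2 * δ) / (κ - 2 * δ) ≤ 1 := by rw [div_le_one hp1]; linarith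
        have hge0 : 0 ≤ (x - 2 * δ) / (κ - 2 * δ) := by positivity
        have h4 : (x / κ) ^ 2 - ((x - 2 * δ) / (κ - 2 * δ)) ^ 2 ≤ 8 * δ / κ := by
          have h5 : (x / κ) ^ 2 - ((x - 2 * δ) / (κ - 2 * δ)) ^ 2 =
              (x / κ - (x - 2 * δ) / (κ - 2 * δ)) * (x / κ + (x - 2 * δ) / (κ - 2 * δ)) := by ring
          rw [h5]
          calc _ ≤ (4 * δ / κ) * (x / κ + (x - 2 * δ) / (κ - 2 * δ)) :=
                mul_le_mul_of_nonneg_right hdiff (by positivity)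
            _ ≤ (4 * δ / κ) * 2 := mul_le_mul_of_nonneg_left (by linarith) (by positivity)
            _ = 8 * δ / κ := by ring
        have h6 := mul_le_mul_of_nonneg_right h4 hJ0.le
        linarith
      · have hx2' : x ≤ 2 * δ := not_lt.mp hx2
        have h3 : (x / κ) ^ 2 ≤ 8 * δ / κ := by
          calc (x / κ) ^ 2 ≤ x / κ := by nlinarith
            _ ≤ 2 * δ / κ := by gcongr
            _ ≤ 8 * δ / κ := by gcongr; norm_num
        have h4 := mul_le_mul_of_nonneg_right h3 hJ0.le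
        have := hI0 x hx
        linarith
    · have := upI hδ hF hr hup x hx hxκ
      have hp1 : 0 < κ + 2 * δ := by linarith
      have hp2 : 0 < x + 2 * δ := by linarith
      rw [div_le_div_iff₀ (by positivity) (by positivity)] at this
      have h3 : (∫ u in (0 : ℝ)..x, F u) ≤ J * ((x + 2 * δ) / (κ + 2 * δ)) ^ 2 := by
        rw [div_pow, mul_div_assoc', le_div_iff₀ (by positivity)]
        exact this
      have hdiff : (x + 2 * δ) / (κ + 2 * δ) - x / κ ≤ 4 * δ / κ := by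
        rw [div_sub_div _ _ hp1.ne' hκ.ne', div_le_div_iff₀ (by positivity) hκ]
        have e1 : (x + 2 * δ) * κ - (κ + 2 * δ) * x = 2 * δ * (κ - x) := by ring
        rw [e1]
        have e2 : 2 * δ * (κ - x) * κ ≤ 2 * δ * κ * κ := by
          have : 0 ≤ 2 * δ * κ := by positivity
          nlinarith
        have e3 : 2 * δ * κ * κ ≤ 4 * δ * ((κ + 2 * δ) * κ) := by
          have h7 : 0 < δ * κ := by positivity
          have h8 : 0 < δ * κ * δ := by positivity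
          nlinarith
        linarith
      have hle1 : (x + 2 * δ) / (κ + 2 * δ) ≤ 1 := by rw [div_le_one hp1]; linarith
      have hge0 : 0 ≤ (x + 2 * δ) / (κ + 2 * δ) := by positivity
      have h4 : ((x + 2 * δ) / (κ + 2 * δ)) ^ 2 - (x / κ) ^ 2 ≤ 8 * δ / κ := by
        have h5 : ((x + 2 * δ) / (κ + 2 * δ)) ^ 2 - (x / κ) ^ 2 =
            ((x + 2 * δ) / (κ + 2 * δ) - x / κ) * ((x + 2 * δ) / (κ + 2 * δ) + x / κ) := by ring
        rw [h5]
        calc _ ≤ (4 * δ / κ) * ((x + 2 * δ) / (κ + 2 * δ) + x / κ) :=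
              mul_le_mul_of_nonneg_right hdiff (by positivity)
          _ ≤ (4 * δ / κ) * 2 := mul_le_mul_of_nonneg_left (by linarith) (by positivity)
          _ = 8 * δ / κ := by ring
      have h6 := mul_le_mul_of_nonneg_right h4 hJ0.le
      linarith
  -- bound at κ
  have hFκ2 : |F κ - 2 / κ * J| ≤ 8 * δ / κ ^ 2 * J := by
    have e1 : F κ - 2 / κ * J = (κ * F κ - 2 * J) / κ := by field_simp
    rw [e1, abs_div, abs_of_pos hκ, div_le_iff₀ hκ]
    have e2 := hab κ hκ.le le_rfl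
    refine e2.trans ?_
    calc 2 * δ * F κ ≤ 2 * δ * (4 / κ * J) := by gcongr
      _ = 8 * δ / κ ^ 2 * J * κ := by field_simp; ring
  -- identity
  have hid : Complex.exp (z * κ) * (F κ : ℂ) - z * (∫ x in (0 : ℝ)..κ, Complex.exp (z * x) * (F x : ℂ)) -
        ((2 / κ ^ 2 * J : ℝ) : ℂ) * ∫ x in (0 : ℝ)..κ, Complex.exp (z * x) =
      Complex.exp (z * κ) * ((F κ - 2 / κ * J : ℝ) : ℂ) +
        z ^ 2 * ∫ x in (0 : ℝ)..κ, Complex.exp (z * x) *
          (((∫ u in (0 : ℝ)..x, F u) - J * x ^ 2 / κ ^ 2 : ℝ) : ℂ) := by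
    have c1 : Continuous (fun x : ℝ => ((∫ u in (0 : ℝ)..x, F u : ℝ) : ℂ)) :=
      Complex.continuous_ofReal.comp (contI hF)
    have i1 : IntervalIntegrable (fun x : ℝ => Complex.exp (z * x) * ((∫ u in (0 : ℝ)..x, F u : ℝ) : ℂ))
        volume 0 κ := by
      apply Continuous.intervalIntegrable
      have : Continuous (fun x : ℝ => Complex.exp (z * x)) := by fun_prop
      exact this.mul c1
    have i2 : IntervalIntegrable (fun x : ℝ => Complex.exp (z * x) * (x : ℂ) ^ 2) volume 0 κ := by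
      apply Continuous.intervalIntegrable
      fun_prop
    have i3 : IntervalIntegrable (fun x : ℝ => Complex.exp (z * x)) volume 0 κ := by
      apply Continuous.intervalIntegrable
      fun_prop
    have e1 := parts hF hr z κ hκ
    have e2 := exp_int z κ
    have e3 : (∫ x in (0 : ℝ)..κ, (z * Complex.exp (z * x)) * ((∫ u in (0 : ℝ)..x, F u : ℝ) : ℂ)) =
        z * ∫ x in (0 : ℝ)..κ, Complex.exp (z * x) * ((∫ u in (0 : ℝ)..x, F u : ℝ) : ℂ) := by
      rw [← intervalIntegral.integral_const_mul]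
      apply intervalIntegral.integral_congr
      intro x _
      simp only
      ring
    have e4 : (∫ x in (0 : ℝ)..κ, Complex.exp (z * x) * (z ^ 2 * (x : ℂ) ^ 2 - 2)) =
        z ^ 2 * (∫ x in (0 : ℝ)..κ, Complex.exp (z * x) * (x : ℂ) ^ 2) -
          2 * ∫ x in (0 : ℝ)..κ, Complex.exp (z * x) := by
      rw [← intervalIntegral.integral_const_mul, ← intervalIntegral.integral_const_mul,
        ← intervalIntegral.integral_sub (i2.const_mul _) (i3.const_mul _)]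
      apply intervalIntegral.integral_congr
      intro x _
      simp only
      ring
    have e5 : (∫ x in (0 : ℝ)..κ, Complex.exp (z * x) *
          (((∫ u in (0 : ℝ)..x, F u) - J * x ^ 2 / κ ^ 2 : ℝ) : ℂ)) =
        (∫ x in (0 : ℝ)..κ, Complex.exp (z * x) * ((∫ u in (0 : ℝ)..x, F u : ℝ) : ℂ)) -
          ((J : ℂ) / (κ : ℂ) ^ 2) * ∫ x in (0 : ℝ)..κ, Complex.exp (z * x) * (x : ℂ) ^ 2 := by
      rw [← intervalIntegral.integral_const_mul,
        ← intervalIntegral.integral_sub i1 (i2.const_mul _)]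
      apply intervalIntegral.integral_congr
      intro x _
      simp only
      push_cast
      ring
    rw [e5, e1, e3]
    rw [e4] at e2
    have hκc : (κ : ℂ) ≠ 0 := by exact_mod_cast hκ.ne'
    push_cast
    have e6 : z ^ 2 * (∫ x in (0 : ℝ)..κ, Complex.exp (z * x) * (x : ℂ) ^ 2) =
        Complex.exp (z * κ) * (z * (κ : ℂ) ^ 2 - 2 * κ) + 2 * ∫ x in (0 : ℝ)..κ, Complex.exp (z * x) := by
      rw [← e2]; ring
    have e7 : z ^ 2 * ((∫ x in (0 : ℝ)..κ, Complex.exp (z * x) * ((∫ u in (0 : ℝ)..x, F u : ℝ) : ℂ)) -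
          ((J : ℂ) / (κ : ℂ) ^ 2) * ∫ x in (0 : ℝ)..κ, Complex.exp (z * x) * (x : ℂ) ^ 2) =
        z ^ 2 * (∫ x in (0 : ℝ)..κ, Complex.exp (z * x) * ((∫ u in (0 : ℝ)..x, F u : ℝ) : ℂ)) -
          ((J : ℂ) / (κ : ℂ) ^ 2) * (Complex.exp (z * κ) * (z * (κ : ℂ) ^ 2 - 2 * κ) +
            2 * ∫ x in (0 : ℝ)..κ, Complex.exp (z * x)) := by
      rw [← e6]; ring
    rw [e7]
    field_simp
    ring
  rw [hid]
  have hexp : ∀ x : ℝ, 0 ≤ x → x ≤ κ → ‖Complex.exp (z * x)‖ ≤ Real.exp ‖z‖ := by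
    intro x hx hx2
    rw [Complex.norm_exp]
    apply Real.exp_le_exp.mpr
    calc (z * x).re ≤ ‖z * x‖ := Complex.re_le_norm _
      _ = ‖z‖ * x := by rw [norm_mul, Complex.norm_real, Real.norm_of_nonneg hx]
      _ ≤ ‖z‖ * 1 := mul_le_mul_of_nonneg_left (hx2.trans hκ1) (norm_nonneg _)
      _ = ‖z‖ := mul_one _
  have b1 : ‖Complex.exp (z * κ) * ((F κ - 2 / κ * J : ℝ) : ℂ)‖ ≤ Real.exp ‖z‖ * (8 * δ / κ ^ 2 * J) := by
    rw [norm_mul, Complex.norm_real]
    exact mul_le_mul (hexp κ hκ.le le_rfl) hFκ2 (norm_nonneg _) (Real.exp_pos _).le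
  have b2 : ‖∫ x in (0 : ℝ)..κ, Complex.exp (z * x) *
          (((∫ u in (0 : ℝ)..x, F u) - J * x ^ 2 / κ ^ 2 : ℝ) : ℂ)‖ ≤ (Real.exp ‖z‖ * (8 * δ / κ * J)) * κ := by
    have := intervalIntegral.norm_integral_le_of_norm_le_const (a := 0) (b := κ)
      (f := fun x : ℝ => Complex.exp (z * x) *
          (((∫ u in (0 : ℝ)..x, F u) - J * x ^ 2 / κ ^ 2 : ℝ) : ℂ)) (C := Real.exp ‖z‖ * (8 * δ / κ * J)) ?_
    · simpa [abs_of_pos hκ] using this
    · intro x hx
      rw [uIoc_of_le hκ.le] at hx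
      rw [norm_mul, Complex.norm_real]
      exact mul_le_mul (hexp x hx.1.le hx.2) (hcmp x hx.1.le hx.2) (norm_nonneg _) (Real.exp_pos _).le
  calc _ ≤ ‖Complex.exp (z * κ) * ((F κ - 2 / κ * J : ℝ) : ℂ)‖ +
        ‖z ^ 2 * ∫ x in (0 : ℝ)..κ, Complex.exp (z * x) *
          (((∫ u in (0 : ℝ)..x, F u) - J * x ^ 2 / κ ^ 2 : ℝ) : ℂ)‖ := norm_add_le _ _
    _ ≤ Real.exp ‖z‖ * (8 * δ / κ ^ 2 * J) + ‖z‖ ^ 2 * ((Real.exp ‖z‖ * (8 * δ / κ * J)) * κ) := by
        rw [norm_mul (z ^ 2), norm_pow]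
        gcongr
    _ = 8 * Real.exp ‖z‖ * (1 / κ ^ 2 + ‖z‖ ^ 2) * δ * J := by
        field_simp

end Pool.Agent.MP_67227b_nt.Pp
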