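import Pool.Agent.MP_67227b_nt.Pp.PpDefs

set_option autoImplicit false

open Filter Topology Set MeasureTheory Complex
open scoped Real ArithmeticFunction ContDiff

namespace Pool.Agent.MP_67227b_nt.Pp

open Pool.Agent.Lib.ZetaCount_helper33 Pool.Agent.MP_67227b_nt Pool.Agent.MP_67227b_nt.Mo
open Pool.Agent.MP_67227b_nt.Sg
open Pool.Agent.MP_67227b_nt.Mo.MomentBAux (DP)

/-- the damped function -/
private noncomputable def dmp (h : ℝ → ℂ) (w : ℝ) : ℝ → ℂ :=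
  fun v => h v * Complex.exp (-((w : ℂ) * v))

private theorem bump_dmp {h : ℝ → ℂ} (hh : Bump 1 h) (w : ℝ) : Bump 1 (dmp h w) where
  smooth := by
    unfold dmp
    apply ContDiff.mul hh.smooth
    apply ContDiff.cexp
    apply ContDiff.neg
    apply ContDiff.mul contDiff_const
    exact Complex.ofRealCLM.contDiff
  supp := by
    intro v hv
    unfold dmp
    rw [hh.supp v hv, zero_mul]

private theorem gs_dmp (h : ℝ → ℂ) (w : ℝ) (z : ℂ) :
    gs (dmp h w) z = gs h (z + ((w / (2 * π) : ℝ) : ℂ) * I) := by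
  unfold gs dmp
  refine integral_congr_ae (Eventually.of_forall fun v => ?_)
  simp only
  rw [mul_assoc, ← Complex.exp_add]
  congr 2
  have hpi : (π : ℂ) ≠ 0 := by exact_mod_cast Real.pi_ne_zero
  push_cast
  have : (2 * π * I * v * (z + (w : ℂ) / (2 * π) * I) : ℂ) =
      2 * π * I * v * z + (2 * π / (2 * π)) * (w * v * (I * I)) := by ring
  rw [this, div_self (mul_ne_zero two_ne_zero hpi), Complex.I_mul_I]
  ring

private theorem decay_dmp {h : ℝ → ℂ} (hh : Bump 1 h) {W : ℝ} (hW : 0 ≤ W) : ∃ C : ℝ, 0 < C ∧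
    ∀ w : ℝ, 0 ≤ w → w ≤ W → ∀ z : ℂ,
      ‖gs (dmp h w) z‖ ≤ C * Real.exp (2 * π * |z.im|) / (1 + ‖z‖) ^ 5 := by
  obtain ⟨C, hC, hb⟩ := gs_decay (zero_le_one) hh 5
  have hpi0 : 0 < π := Real.pi_pos
  refine ⟨C * Real.exp W * (1 + W / (2 * π)) ^ 5, by positivity, fun w hw hwW z => ?_⟩
  rw [gs_dmp]
  set y : ℝ := w / (2 * π) with hy
  have hy0 : 0 ≤ y := by positivity
  have hyW : y ≤ W / (2 * π) := by rw [hy]; gcongr
  refine (hb _).trans ?_
  have him : |(z + (y : ℂ) * I).im| ≤ |z.im| + y := by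
    have : (z + (y : ℂ) * I).im = z.im + y := by simp
    rw [this]
    exact (abs_add_le _ _).trans (by rw [abs_of_nonneg hy0])
  have hyw : 2 * π * y = w := by
    rw [hy]; field_simp
  have hexp : Real.exp (2 * π * 1 * |(z + (y : ℂ) * I).im|) ≤
      Real.exp W * Real.exp (2 * π * |z.im|) := by
    rw [← Real.exp_add]
    refine Real.exp_le_exp.2 ?_
    calc 2 * π * 1 * |(z + (y : ℂ) * I).im| ≤ 2 * π * 1 * (|z.im| + y) :=
          mul_le_mul_of_nonneg_left him (by positivity)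
      _ = 2 * π * |z.im| + 2 * π * y := by ring
      _ ≤ W + 2 * π * |z.im| := by rw [hyw]; linarith
  have hnorm : ‖z‖ ≤ ‖z + (y : ℂ) * I‖ + y := by
    have h1 : z = (z + (y : ℂ) * I) - (y : ℂ) * I := by ring
    calc ‖z‖ = ‖(z + (y : ℂ) * I) - (y : ℂ) * I‖ := by rw [← h1]
      _ ≤ ‖z + (y : ℂ) * I‖ + ‖(y : ℂ) * I‖ := norm_sub_le _ _
      _ = ‖z + (y : ℂ) * I‖ + y := by
          rw [norm_mul, Complex.norm_I, mul_one, Complex.norm_real, Real.norm_of_nonneg hy0]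
  have hn0 := norm_nonneg (z + (y : ℂ) * I)
  have hz0 := norm_nonneg z
  have hratio : 1 + ‖z‖ ≤ (1 + W / (2 * π)) * (1 + ‖z + (y : ℂ) * I‖) := by
    have : 0 ≤ W / (2 * π) := by positivity
    nlinarith
  have hpow : (1 + ‖z‖) ^ 5 ≤ (1 + W / (2 * π)) ^ 5 * (1 + ‖z + (y : ℂ) * I‖) ^ 5 := by
    rw [← mul_pow]
    exact pow_le_pow_left₀ (by positivity) hratio 5
  rw [div_le_div_iff₀ (by positivity) (by positivity)]
  calc C * Real.exp (2 * π * 1 * |(z + (y : ℂ) * I).im|) * (1 + ‖z‖) ^ 5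
      ≤ C * (Real.exp W * Real.exp (2 * π * |z.im|)) *
        ((1 + W / (2 * π)) ^ 5 * (1 + ‖z + (y : ℂ) * I‖) ^ 5) := by
        gcongr
    _ = _ := by ring

private theorem gs_hsc_bound5 {η : ℝ → ℂ} {C : ℝ} (hC : 0 < C)
    (hb : ∀ z : ℂ, ‖gs η z‖ ≤ C * Real.exp (2 * π * |z.im|) / (1 + ‖z‖) ^ 5)
    {L : ℝ} (hL : 1 ≤ L) (t₀ t : ℝ) :
      ‖gs (hsc L η t₀) ((t : ℂ) + ((-1 : ℝ) : ℂ) * I)‖ ≤
        C * (2 * π) ^ 4 * (2 * π / L) * Real.exp L / (1 + |t - t₀|) ^ 4 := by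
  have hL0 : 0 < L := by linarith
  rw [gs_hsc hL0]
  have hpi := Real.pi_gt_three
  have hpi0 : 0 < π := Real.pi_pos
  set z : ℂ := ((t : ℂ) + ((-1 : ℝ) : ℂ) * I - t₀) * L / (2 * π) with hz
  have hz2 : z = (((t - t₀) * L / (2 * π) : ℝ) : ℂ) + ((-1 * L / (2 * π) : ℝ) : ℂ) * I := by
    rw [hz]
    push_cast
    ring
  have him : |z.im| = L / (2 * π) := by
    rw [hz2]
    simp only [add_im, ofReal_im, mul_im, ofReal_re, I_im, mul_one, I_re, mul_zero, add_zero,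
      zero_add]
    rw [show -1 * L / (2 * π) = -(L / (2 * π)) by ring, abs_neg, abs_of_pos (by positivity)]
  have hre : |t - t₀| * L / (2 * π) ≤ ‖z‖ := by
    have h1 := abs_re_le_norm z
    have h2 : z.re = (t - t₀) * L / (2 * π) := by
      rw [hz2]
      simp only [add_re, ofReal_re, mul_re, I_re, mul_zero, ofReal_im, I_im, zero_mul, sub_zero,
        add_zero]
    rw [h2, abs_div, abs_mul, abs_of_pos hL0, abs_of_pos (by positivity : 0 < 2 * π)] at h1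
    exact h1
  have him2 : L / (2 * π) ≤ ‖z‖ := by
    rw [← him]; exact abs_im_le_norm z
  refine (hb z).trans ?_
  rw [him]
  have h3 : 2 * π * (L / (2 * π)) = L := by
    field_simp
  rw [h3]
  have h4 : (1 + |t - t₀|) / (2 * π) ≤ 1 + ‖z‖ := by
    have h5 : |t - t₀| / (2 * π) ≤ |t - t₀| * L / (2 * π) := by
      gcongr
      exact le_mul_of_one_le_right (abs_nonneg _) hL
    have h6 : 1 / (2 * π) ≤ 1 := by
      rw [div_le_one (by positivity)]
      linarith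
    rw [add_div]
    linarith
  have h0 := abs_nonneg (t - t₀)
  have h7 : ((1 + |t - t₀|) / (2 * π)) ^ 4 * (L / (2 * π)) ≤ (1 + ‖z‖) ^ 5 := by
    rw [pow_succ (1 + ‖z‖) 4]
    refine mul_le_mul (pow_le_pow_left₀ (by positivity) h4 4) (by linarith) (by positivity)
      (by positivity)
  calc C * Real.exp L / (1 + ‖z‖) ^ 5
      ≤ C * Real.exp L / (((1 + |t - t₀|) / (2 * π)) ^ 4 * (L / (2 * π))) := by
        apply div_le_div_of_nonneg_left (by positivity) (by positivity) h7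
    _ = C * (2 * π) ^ 4 * (2 * π / L) * Real.exp L / (1 + |t - t₀|) ^ 4 := by
        field_simp

/-- MODULE X2. The archimedean term, uniformly in the damping `w ∈ [0, W]`. Copy of `arch_part`
(Mo/ExplicitL, case `σ = 1`) with `δ = 1`: the transform of `v ↦ h(v) e^{-wv}` at `z` is
`gs h (z + i w / (2π))`, so `gs_decay` for `h` gives the decay with a constant that depends on `W`
only (as in `gs_hsc_bound`, Mo/ExScale). -/
theorem arch_uniform {h : ℝ → ℂ} (hh : Bump 1 h) {W : ℝ} (hW : 0 ≤ W) : ∃ C : ℝ, 0 < C ∧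
    ∀ L' : ℝ, 1 ≤ L' → ∀ w : ℝ, 0 ≤ w → w ≤ W → ∀ t : ℝ,
      ‖((L' / (2 * π) : ℝ) : ℂ) * (∫ τ : ℝ, archF (pt32 (1 * τ)) *
        gs (hsc L' (fun v => h v * Complex.exp (-((w : ℂ) * v))) t)
          ((τ : ℂ) + ((-1 : ℝ) : ℂ) * I)) - archF (pt32 t) * h 0‖ ≤
        C * Real.exp L' / (1 + |t|) := by
  obtain ⟨Cg, hCg, hg⟩ := decay_dmp hh hW
  obtain ⟨Ca, hCa, ha⟩ := exists_arch_variation
  have hpi0 : 0 < π := Real.pi_pos
  refine ⟨Ca * (Cg * (2 * π) ^ 4) * π, by positivity, fun L hL w hw hwW t₀ => ?_⟩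
  have hL0 : 0 < L := by linarith
  change ‖((L / (2 * π) : ℝ) : ℂ) * (∫ τ : ℝ, archF (pt32 (1 * τ)) *
        gs (hsc L (dmp h w) t₀) ((τ : ℂ) + ((-1 : ℝ) : ℂ) * I)) - archF (pt32 t₀) * h 0‖ ≤ _
  have hη := bump_dmp hh w
  have hδL : 0 ≤ 1 * L / (2 * π) := by positivity
  have hb := bump_hsc hL0 hη t₀
  have hη0 : dmp h w 0 = h 0 := by simp [dmp]
  have h1 : ∫ t : ℝ, gs (hsc L (dmp h w) t₀) ((t : ℂ) + ((-1 : ℝ) : ℂ) * I) =
      ((2 * π / L : ℝ) : ℂ) * h 0 := by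
    have h2 := integral_gs_exp hδL hb (-1) 0
    simp only [ofReal_zero, mul_zero, zero_mul, neg_zero, Complex.exp_zero, mul_one,
      Real.exp_zero, ofReal_one] at h2
    rw [h2, hsc_zero, hη0]
  have h3 : Integrable fun t : ℝ => gs (hsc L (dmp h w) t₀) ((t : ℂ) + ((-1 : ℝ) : ℂ) * I) :=
    integrable_gs hδL hb (-1)
  have hpos : 0 < 1 + |t₀| := by positivity
  have e0 : ((L / (2 * π) : ℝ) : ℂ) * (∫ τ : ℝ, archF (pt32 (1 * τ)) *
        gs (hsc L (dmp h w) t₀) ((τ : ℂ) + ((-1 : ℝ) : ℂ) * I)) - archF (pt32 t₀) * h 0 =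
      ((L / (2 * π) : ℝ) : ℂ) * ((∫ τ : ℝ, archF (pt32 (1 * τ)) *
        gs (hsc L (dmp h w) t₀) ((τ : ℂ) + ((-1 : ℝ) : ℂ) * I)) -
        archF (pt32 t₀) * (((2 * π / L : ℝ) : ℂ) * h 0)) := by
    have hLC : (L : ℂ) ≠ 0 := by exact_mod_cast hL0.ne'
    have hpiC : (π : ℂ) ≠ 0 := by exact_mod_cast Real.pi_ne_zero
    rw [mul_sub]
    congr 1
    push_cast
    field_simp
  rw [e0, norm_mul, Complex.norm_real, Real.norm_of_nonneg (by positivity)]
  rw [← h1, ← integral_const_mul, ← integral_sub (integrable_arch hδL hb 1 (-1) (by simp))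
    (h3.const_mul _)]
  have hbound : ∀ t : ℝ, ‖archF (pt32 (1 * t)) *
      gs (hsc L (dmp h w) t₀) ((t : ℂ) + ((-1 : ℝ) : ℂ) * I) -
      archF (pt32 t₀) * gs (hsc L (dmp h w) t₀) ((t : ℂ) + ((-1 : ℝ) : ℂ) * I)‖ ≤
      Ca * (Cg * (2 * π) ^ 4 * (2 * π / L)) * Real.exp L / (1 + |t₀|) *
        (1 / (1 + |t - t₀|) ^ 2) := by
    intro t
    rw [← sub_mul, norm_mul, one_mul]
    have h4 := ha t t₀
    have h5 := gs_hsc_bound5 hCg (hg w hw hwW) hL t₀ t
    have h6 := abs_nonneg (t - t₀)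
    calc ‖archF (pt32 t) - archF (pt32 t₀)‖ *
          ‖gs (hsc L (dmp h w) t₀) ((t : ℂ) + ((-1 : ℝ) : ℂ) * I)‖
        ≤ (Ca * (1 + |t - t₀|) ^ 2 / (1 + |t₀|)) *
          (Cg * (2 * π) ^ 4 * (2 * π / L) * Real.exp L / (1 + |t - t₀|) ^ 4) :=
          mul_le_mul h4 h5 (norm_nonneg _) (by positivity)
      _ = Ca * (Cg * (2 * π) ^ 4 * (2 * π / L)) * Real.exp L / (1 + |t₀|) *
        (1 / (1 + |t - t₀|) ^ 2) := by
          field_simp
  have hint : Integrable fun t : ℝ =>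
      Ca * (Cg * (2 * π) ^ 4 * (2 * π / L)) * Real.exp L / (1 + |t₀|) *
        (1 / (1 + |t - t₀|) ^ 2) :=
    (integrable_inv_sq_abs t₀).const_mul _
  have hfin : ‖∫ t : ℝ, (archF (pt32 (1 * t)) *
      gs (hsc L (dmp h w) t₀) ((t : ℂ) + ((-1 : ℝ) : ℂ) * I) -
      archF (pt32 t₀) * gs (hsc L (dmp h w) t₀) ((t : ℂ) + ((-1 : ℝ) : ℂ) * I))‖ ≤
      Ca * (Cg * (2 * π) ^ 4 * (2 * π / L)) * Real.exp L / (1 + |t₀|) * π := by
    refine (norm_integral_le_integral_norm _).trans ?_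
    refine (integral_mono_of_nonneg (Eventually.of_forall fun t => norm_nonneg _) hint
      (Eventually.of_forall hbound)).trans ?_
    rw [integral_const_mul]
    exact mul_le_mul_of_nonneg_left (integral_inv_sq_abs_le t₀) (by positivity)
  calc L / (2 * π) * _ ≤ L / (2 * π) *
        (Ca * (Cg * (2 * π) ^ 4 * (2 * π / L)) * Real.exp L / (1 + |t₀|) * π) :=
        mul_le_mul_of_nonneg_left hfin (by positivity)
    _ = Ca * (Cg * (2 * π) ^ 4) * π * Real.exp L / (1 + |t₀|) := by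
        field_simp

end Pool.Agent.MP_67227b_nt.Pp
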