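import Pool.Agent.MP_67227b_nt.Sg.SgDefs
import Pool.Agent.MP_67227b_nt.Mo.ExplicitL
import Pool.Agent.MP_67227b_nt.Mo.MomentB

set_option autoImplicit false

open Filter Topology Set MeasureTheory Complex
open scoped Real ArithmeticFunction ContDiff

namespace Pool.Agent.MP_67227b_nt.Pp

open Pool.Agent.Lib.ZetaCount_helper33 Pool.Agent.MP_67227b_nt Pool.Agent.MP_67227b_nt.Mo
open Pool.Agent.MP_67227b_nt.Sg
open Pool.Agent.MP_67227b_nt.Mo.MomentBAux (DP)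

/-- The number of zeros near `t` at the scale `k / L`, counted with the Poisson weight. -/
noncomputable def Mk (L k t : ℝ) : ℝ := ∑' z : Zer, mu z / (1 + (L * (t - ord z) / k) ^ 2)

/-- A smooth cutoff: `h = 1` on `[-1/2, 1/2]`, `h = 0` outside `[-1, 1]`. -/
structure Cut (h : ℝ → ℂ) : Prop where
  bump : Bump 1 h
  one : ∀ v : ℝ, |v| ≤ 1 / 2 → h v = 1

/-- The kernel `K(w) = 1/w - ∫_{v > 0} h(v) e^{-wv} dv`. -/
noncomputable def Kh (h : ℝ → ℂ) (w : ℂ) : ℂ :=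
  1 / w - ∫ v in Ioi (0 : ℝ), h v * Complex.exp (-(w * v))

/-- The short prime sum `∑_{n ≤ e^{L'}} Λ(n) h(log n / L') n^{-s}`. -/
noncomputable def PS (h : ℝ → ℂ) (L' : ℝ) (s : ℂ) : ℂ :=
  ∑ n ∈ Finset.Ioc 0 ⌊Real.exp L'⌋₊, ((Λ n : ℝ) : ℂ) * h (Real.log n / L') * (n : ℂ) ^ (-s)

/-- A family `f T t` of nonnegative statistics which, at every level `k`, is bounded by `C k` and
two Dirichlet polynomials over the prime powers up to `T^{κ₀/k}`, with coefficients at most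
`C (k / log T) Λ(n) / √n`. -/
def LD (f : ℝ → ℝ → ℝ) : Prop :=
  ∃ C κ₀ : ℝ, 0 < C ∧ 1 ≤ κ₀ ∧ ∀ᶠ T : ℝ in atTop, ∀ k : ℝ, 2 * κ₀ ≤ k → k ≤ Real.log T →
    ∃ a b : ℕ → ℂ, (∀ n, ‖a n‖ ≤ C * k / Real.log T * (Λ n / Real.sqrt n)) ∧
      (∀ n, ‖b n‖ ≤ C * k / Real.log T * (Λ n / Real.sqrt n)) ∧
      ∀ t ∈ Icc (T / 2) (3 * T), f T t ≤ C * k +
        ‖DP (Finset.Ioc 0 ⌊T ^ (κ₀ / k)⌋₊) a t‖ + ‖DP (Finset.Ioc 0 ⌊T ^ (κ₀ / k)⌋₊) b t‖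

/-- A general Dirichlet polynomial with real coefficients. -/
noncomputable def Aa (a : ℕ → ℝ) (N : ℕ) (s : ℂ) : ℂ :=
  ∑ n ∈ Finset.Icc 1 N, (a n : ℂ) * (n : ℂ) ^ (-s)

/-- The integrand. -/
noncomputable def Pa (a : ℕ → ℝ) (α b t₀ Δ : ℝ) (N : ℕ) (s : ℂ) : ℂ :=
  Hq α s * Aa a N (s + (α : ℂ) * I) * Aa a N (1 + 2 * (b : ℂ) - s - (α : ℂ) * I) * Wg Δ b t₀ s

/-- The coefficients of `ζ(s + iα) A(s + iα) / ζ(s)`. -/
noncomputable def ca (a : ℕ → ℝ) (α : ℝ) (N : ℕ) (j : ℕ) : ℂ :=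
  ∑ p ∈ j.divisorsAntidiagonal, ((ArithmeticFunction.moebius p.1 : ℤ) : ℂ) *
    ((p.2 : ℂ) ^ (-((α : ℂ) * I)) * ∑ d ∈ p.2.divisors, if d ≤ N then (a d : ℂ) else 0)

/-- The diagonal sum. -/
noncomputable def Sa (a : ℕ → ℝ) (α b : ℝ) (N : ℕ) : ℂ :=
  ∑ m ∈ Finset.Icc 1 N, ca a α N m * (a m : ℂ) * (m : ℂ) ^ (-(1 + 2 * (b : ℂ)) + (α : ℂ) * I)

/-- The `i`-th bump of the partition of unity with mesh `η`; it lives on `[iη, (i+2)η]`. -/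
noncomputable def ph (η : ℝ) (i : ℕ) (x : ℝ) : ℝ :=
  Real.smoothTransition (x / η - i) - Real.smoothTransition (x / η - (i + 1))

/-- The prime sum attached to the `i`-th bump. -/
noncomputable def Qi (T η : ℝ) (i : ℕ) (s : ℂ) : ℂ :=
  ∑ p ∈ (Finset.Icc 1 ⌊T⌋₊).filter Nat.Prime,
    ((ph η i (Real.log p / Real.log T) : ℝ) : ℂ) * (p : ℂ) ^ (-s)

/-- The admissible tuples of indices. -/
noncomputable def Tup (η κ : ℝ) (i0 i1 k : ℕ) : Finset (Fin k → ℕ) := by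
  classical
  exact (Fintype.piFinset fun _ : Fin k => Finset.Ico i0 i1).filter
    (fun I => ∑ j, ((I j : ℝ) + 2) * η ≤ κ)

/-- The mollifier. -/
noncomputable def Ap (T η κ : ℝ) (i0 i1 K : ℕ) (s : ℂ) : ℂ :=
  ∑ k ∈ Finset.range (K + 1), ((-1) ^ k / (k.factorial : ℂ)) *
    ∑ J ∈ Tup η κ i0 i1 k, ∏ j, Qi T η (J j) s

/-- The tuples of primes with product `n`. -/
noncomputable def PT' (T : ℝ) (k n : ℕ) : Finset (Fin k → ℕ) := by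
  classical
  exact (Fintype.piFinset fun _ : Fin k => (Finset.Icc 1 ⌊T⌋₊).filter Nat.Prime).filter
    (fun p => ∏ j, p j = n)

/-- The coefficients of the mollifier. -/
noncomputable def ap (T η κ : ℝ) (i0 i1 K n : ℕ) : ℝ :=
  ∑ k ∈ Finset.range (K + 1), ((-1) ^ k / (k.factorial : ℝ)) *
    ∑ J ∈ Tup η κ i0 i1 k, ∑ p ∈ PT' T k n, ∏ j, ph η (J j) (Real.log (p j) / Real.log T)

end Pool.Agent.MP_67227b_nt.Pp
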