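import Pool.Agent.MP_67227b_nt.Sg.SgP
import Pool.Agent.MP_67227b_nt.Sg.SgA
import Pool.Agent.MP_67227b_nt.Pp.PpDefs

set_option autoImplicit false

open Filter Topology Set MeasureTheory Complex
open scoped Real ArithmeticFunction ContDiff

namespace Pool.Agent.MP_67227b_nt.Pp

open Pool.Agent.Lib.ZetaCount_helper33 Pool.Agent.MP_67227b_nt Pool.Agent.MP_67227b_nt.Mo
open Pool.Agent.MP_67227b_nt.Sg
open Pool.Agent.MP_67227b_nt.Mo.MomentBAux (DP)

/-- The angle is nonnegative. -/
private theorem C1_Th_nonneg (hRH : RiemannHypothesis) {α b : ℝ} (hα : 0 ≤ α) (hb : 0 < b)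
    (t : ℝ) : 0 ≤ Th α b t := by
  unfold Th
  apply intervalIntegral.integral_nonneg hα
  intro η _
  refine (hasSum_reF hRH hb (t + η)).nonneg ?_
  intro z
  have h1 : 0 ≤ mu z := by unfold mu; positivity
  positivity

/-- The point of the exponential. -/
private theorem C1_sin {w : ℂ} (h : (Complex.exp (I * w)).im < 0) : Real.sin w.re < 0 := by
  have h1 : (Complex.exp (I * w)).im = Real.exp (-w.im) * Real.sin w.re := by
    rw [Complex.exp_im]
    simp
  rw [h1] at h
  by_contra h2
  push Not at h2
  have := mul_nonneg (Real.exp_pos (-w.im)).le h2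
  linarith

/-- MODULE C1. If the rotated quotient has negative imaginary part, the angle is large.
`Hq = exp (I ∫_0^α (F - archF))` (`Sg.Hq_eq_exp`), so the argument of `e^{i(πu+c)} Hq` is
`Th + c + e` with `e = πu - ∫_0^α Re archF`, `|e| ≤ C/log T ≤ c/2` (`Sg.archF_near`:
`archF = log t/2 + O(1)`, `α log t/2 = πu + O(1/log T)`). `Th ≥ 0` (`Sg.hasSum_reF`). If
`Th < π - 2c` the argument is in `[0, π]`. -/
theorem Th_large (hRH : RiemannHypothesis) {u β c : ℝ} (hu : 0 < u) (hβ : 0 < β) (hc : 0 < c)
    (hc1 : c < 1) : ∀ᶠ T : ℝ in atTop, ∀ t ∈ Icc (T / 2) (3 * T),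
      (Complex.exp (I * ((π * u + c : ℝ) : ℂ)) *
        Hq (2 * π * u / Real.log T) (pl (1 / 2 + β / Real.log T) t)).im < 0 →
      π - 2 * c ≤ Th (2 * π * u / Real.log T) (β / Real.log T) t := by
  obtain ⟨C, hC, hnear⟩ := archF_near
  have hlog : Tendsto Real.log atTop atTop := Real.tendsto_log_atTop
  filter_upwards [eventually_ge_atTop 8, hlog.eventually_ge_atTop 1,
    hlog.eventually_ge_atTop β, hlog.eventually_ge_atTop (2 * π * u),
    hlog.eventually_ge_atTop ((C + 1) * (2 * π * u) * (2 / c))] with T hT8 hL1 hLβ hLu hLc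
  intro t ht him
  have hpi := Real.pi_pos
  set L := Real.log T with hLdef
  have hL : 0 < L := by linarith
  set α := 2 * π * u / L with hαdef
  have hα : 0 < α := by positivity
  have hα1 : α ≤ 1 := by
    rw [hαdef, div_le_one hL]
    exact hLu
  have hb : 0 < β / L := by positivity
  have hb1 : β / L ≤ 1 := by
    rw [div_le_one hL]
    exact hLβ
  have hσ : 1 / 2 < 1 / 2 + β / L := by linarith
  have hσ2 : 1 / 2 + β / L ≤ 2 := by linarith
  have ht2 : T / 2 ≤ t := ht.1
  have ht3 : t ≤ 3 * T := ht.2
  have ht0 : 0 < t := by linarith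
  rw [Hq_eq_exp hRH hα.le hσ ht0, ← Complex.exp_add, ← mul_add] at him
  have hsin := C1_sin him
  have hcontF : Continuous fun η : ℝ => logDeriv xi (pl (1 / 2 + β / L) (t + η)) :=
    (continuousOn_F hRH hσ).comp (continuous_const.add continuous_id)
  have hcontA : ContinuousOn (fun η : ℝ => archF (pl (1 / 2 + β / L) (t + η))) (Icc 0 α) := by
    refine (continuousOn_archF hσ).comp (continuous_const.add continuous_id).continuousOn ?_
    intro η hη
    rw [mem_Ioi]
    have h0 := hη.1
    show 0 < t + η
    linarith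
  have hIF : IntervalIntegrable (fun η : ℝ => logDeriv xi (pl (1 / 2 + β / L) (t + η)))
      volume 0 α := hcontF.intervalIntegrable _ _
  have hIA : IntervalIntegrable (fun η : ℝ => archF (pl (1 / 2 + β / L) (t + η)))
      volume 0 α := by
    apply ContinuousOn.intervalIntegrable
    rw [uIcc_of_le hα.le]
    exact hcontA
  have hreF : (∫ η in (0 : ℝ)..α, logDeriv xi (pl (1 / 2 + β / L) (t + η))).re =
      Th α (β / L) t := by
    unfold Th
    exact (Complex.reCLM.intervalIntegral_comp_comm hIF).symm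
  have hAbd : ‖(∫ η in (0 : ℝ)..α, archF (pl (1 / 2 + β / L) (t + η))) - ((π * u : ℝ) : ℂ)‖ ≤
      (C + 1) * α := by
    have h1 : ((π * u : ℝ) : ℂ) = ∫ η in (0 : ℝ)..α, ((L / 2 : ℝ) : ℂ) := by
      rw [intervalIntegral.integral_const, hαdef]
      rw [Complex.real_smul, ← Complex.ofReal_mul]
      congr 1
      field_simp
      ring
    rw [h1, ← intervalIntegral.integral_sub hIA (by simp)]
    have h2 : ∀ η ∈ Set.uIoc (0 : ℝ) α, ‖archF (pl (1 / 2 + β / L) (t + η)) - ((L / 2 : ℝ) : ℂ)‖ ≤
        C + 1 := by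
      intro η hη
      rw [uIoc_of_le hα.le] at hη
      have hη0 := hη.1
      have hη1 := hη.2
      have h3 := hnear (1 / 2 + β / L) (t + η) hσ hσ2 (by linarith)
      have h4 : |Real.log (t + η) / 2 - L / 2| ≤ 1 := by
        have h5 : Real.log (t + η) - L = Real.log ((t + η) / T) := by
          rw [hLdef, Real.log_div (by linarith) (by linarith)]
        have h6 : (1 / 2 : ℝ) ≤ (t + η) / T := by
          rw [le_div_iff₀ (by linarith)]
          linarith
        have h7 : (t + η) / T ≤ 4 := by
          rw [div_le_iff₀ (by linarith)]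
          linarith
        have h8 : Real.log ((t + η) / T) ≤ Real.log 4 := Real.log_le_log (by linarith) h7
        have h9 : Real.log (1 / 2) ≤ Real.log ((t + η) / T) := Real.log_le_log (by norm_num) h6
        have h10 : Real.log 4 ≤ 2 := by
          have : Real.log 4 = 2 * Real.log 2 := by
            rw [show (4 : ℝ) = 2 ^ 2 by norm_num, Real.log_pow]
            norm_num
          have h2 := Real.log_two_lt_d9
          linarith
        have h11 : -2 ≤ Real.log (1 / 2) := by
          rw [one_div, Real.log_inv]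
          have h2 := Real.log_two_lt_d9
          linarith
        rw [abs_le]
        constructor <;> linarith
      calc ‖archF (pl (1 / 2 + β / L) (t + η)) - ((L / 2 : ℝ) : ℂ)‖
          = ‖(archF (pl (1 / 2 + β / L) (t + η)) - ((Real.log (t + η) / 2 : ℝ) : ℂ)) +
            ((Real.log (t + η) / 2 - L / 2 : ℝ) : ℂ)‖ := by
              congr 1
              push_cast
              ring
        _ ≤ ‖archF (pl (1 / 2 + β / L) (t + η)) - ((Real.log (t + η) / 2 : ℝ) : ℂ)‖ +
            ‖((Real.log (t + η) / 2 - L / 2 : ℝ) : ℂ)‖ := norm_add_le _ _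
        _ ≤ C + 1 := by
              have h5 : ‖((Real.log (t + η) / 2 - L / 2 : ℝ) : ℂ)‖ ≤ 1 := by
                rw [Complex.norm_real]
                exact h4
              linarith
    have h3 := intervalIntegral.norm_integral_le_of_norm_le_const h2
    rw [sub_zero, abs_of_pos hα] at h3
    exact h3
  have hsmall : (C + 1) * α ≤ c / 2 := by
    rw [hαdef]
    rw [← mul_div_assoc, div_le_iff₀ hL]
    have h1 : (C + 1) * (2 * π * u) * (2 / c) * (c / 2) ≤ L * (c / 2) :=
      mul_le_mul_of_nonneg_right hLc (by positivity)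
    have h2 : (C + 1) * (2 * π * u) * (2 / c) * (c / 2) = (C + 1) * (2 * π * u) := by
      field_simp
    linarith
  have hre : (((π * u + c : ℝ) : ℂ) + ∫ η in (0 : ℝ)..α,
      (logDeriv xi (pl (1 / 2 + β / L) (t + η)) - archF (pl (1 / 2 + β / L) (t + η)))).re =
      Th α (β / L) t + c + (π * u -
        (∫ η in (0 : ℝ)..α, archF (pl (1 / 2 + β / L) (t + η))).re) := by
    rw [intervalIntegral.integral_sub hIF hIA, Complex.add_re, Complex.sub_re, hreF,
      Complex.ofReal_re]
    ring
  rw [hre] at hsin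
  have hdiff : |π * u - (∫ η in (0 : ℝ)..α, archF (pl (1 / 2 + β / L) (t + η))).re| ≤ c / 2 := by
    have h1 := (Complex.abs_re_le_norm
      ((∫ η in (0 : ℝ)..α, archF (pl (1 / 2 + β / L) (t + η))) - ((π * u : ℝ) : ℂ))).trans
      (hAbd.trans hsmall)
    rw [Complex.sub_re, Complex.ofReal_re, abs_sub_comm] at h1
    exact h1
  rw [abs_le] at hdiff
  have hTh := C1_Th_nonneg hRH hα.le hb t
  by_contra hcon
  push Not at hcon
  have hpos := Real.sin_pos_of_pos_of_lt_pi
    (x := Th α (β / L) t + c + (π * u -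
        (∫ η in (0 : ℝ)..α, archF (pl (1 / 2 + β / L) (t + η))).re))
    (by linarith [hdiff.1]) (by linarith [hdiff.2])
  linarith

/-- MODULE C1b. The angle is continuous (`Sg.continuousOn_F`). -/
theorem continuous_Th (hRH : RiemannHypothesis) {α b : ℝ} (hb : 0 < b) :
    Continuous (Th α b) := by
  unfold Th
  apply intervalIntegral.continuous_parametric_intervalIntegral_of_continuous'
  have h := continuousOn_F hRH (σ := 1 / 2 + b) (by linarith)
  exact Complex.continuous_re.comp (h.comp (continuous_fst.add continuous_snd))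

end Pool.Agent.MP_67227b_nt.Pp
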