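import Pool.Agent.MP_67227b_nt.Pp.PpFA
import Pool.Agent.MP_67227b_nt.Pp.PpRghW
import Pool.Agent.MP_67227b_nt.Pp.PpRghT
import Pool.Agent.MP_67227b_nt.Pp.PpCaG
import Pool.Agent.MP_67227b_nt.Pp.PpApB
import Pool.Agent.MP_67227b_nt.Pp.PpApG

set_option autoImplicit false

open Filter Topology Set MeasureTheory Complex
open scoped Real ArithmeticFunction ContDiff

namespace Pool.Agent.MP_67227b_nt.Pp

open Pool.Agent.Lib.ZetaCount_helper33 Pool.Agent.MP_67227b_nt Pool.Agent.MP_67227b_nt.Mo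
open Pool.Agent.MP_67227b_nt.Sg
open Pool.Agent.MP_67227b_nt.Mo.MomentBAux (DP)

/-- a rough number below `T` has few prime factors -/
private lemma cl_omega {δ T : ℝ} (hδ : 0 < δ) (hT : 1 < T) {m : ℕ} (hm : (m : ℝ) ≤ T)
    (hr : Rgh (δ / 2 * Real.log T) m) : m.primeFactorsList.length ≤ ⌈2 / δ⌉₊ := by
  have hL : 0 < Real.log T := Real.log_pos hT
  obtain ⟨hm0, hp⟩ := hr
  have hmR : (0 : ℝ) < m := by exact_mod_cast Nat.pos_of_ne_zero hm0
  have h1 : ∀ l : List ℕ, (∀ p ∈ l, δ / 2 * Real.log T ≤ Real.log p ∧ p ≠ 0) →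
      (l.length : ℝ) * (δ / 2 * Real.log T) ≤ Real.log (l.prod : ℕ) := by
    intro l
    induction l with
    | nil => intro _; simp
    | cons a l ih =>
      intro h
      have ha := h a (by simp)
      have ih' := ih (fun p hp => h p (by simp [hp]))
      have hl0 : l.prod ≠ 0 := by
        apply List.prod_ne_zero
        intro h0
        exact (h 0 (by simp [h0])).2 rfl
      rw [List.prod_cons, Nat.cast_mul, Real.log_mul (by exact_mod_cast ha.2) (by exact_mod_cast hl0),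
        List.length_cons, Nat.cast_succ]
      have e2 : ((l.length : ℝ) + 1) * (δ / 2 * Real.log T) =
        (l.length : ℝ) * (δ / 2 * Real.log T) + δ / 2 * Real.log T := by ring
      rw [e2]
      linarith [ha.1]
  have h2 := h1 m.primeFactorsList (fun p hpm => ⟨hp p (Nat.prime_of_mem_primeFactorsList hpm)
    (Nat.dvd_of_mem_primeFactorsList hpm), (Nat.prime_of_mem_primeFactorsList hpm).ne_zero⟩)
  rw [Nat.prod_primeFactorsList hm0] at h2
  have h3 : Real.log m ≤ Real.log T := Real.log_le_log hmR hm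
  have h4 : (m.primeFactorsList.length : ℝ) ≤ 2 / δ := by
    rw [le_div_iff₀ hδ]
    have : ((m.primeFactorsList.length : ℝ) * δ) * Real.log T ≤ 2 * Real.log T := by
      linarith
    exact le_of_mul_le_mul_right this hL
  have h5 : (m.primeFactorsList.length : ℝ) ≤ (⌈2 / δ⌉₊ : ℝ) := h4.trans (Nat.le_ceil _)
  exact_mod_cast h5

private lemma cl_pow {T β u : ℝ} {m : ℕ} (hm : m ≠ 0) :
    (m : ℂ) ^ (-(1 + 2 * ((β / Real.log T : ℝ) : ℂ)) + ((2 * π * u / Real.log T : ℝ) : ℂ) * I) =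
      (1 / (m : ℂ)) * Complex.exp ((((-2 * β : ℝ) : ℂ) + ((2 * π * u : ℝ) : ℂ) * I) *
        ((Real.log m / Real.log T : ℝ) : ℂ)) := by
  have hm' : (m : ℂ) ≠ 0 := by exact_mod_cast hm
  have hmR : (0 : ℝ) < m := by exact_mod_cast Nat.pos_of_ne_zero hm
  rw [Complex.cpow_def_of_ne_zero hm', ← Complex.natCast_log]
  have e1 : (1 : ℂ) / (m : ℂ) = Complex.exp (-((Real.log m : ℝ) : ℂ)) := by
    rw [Complex.exp_neg, Complex.natCast_log, Complex.exp_log hm', one_div]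
  rw [e1, ← Complex.exp_add]
  congr 1
  push_cast
  ring

private lemma cl_norm {T β u : ℝ} (hT : 1 < T) (hβ : 0 < β) {m : ℕ} (hm : m ≠ 0) :
    ‖Complex.exp ((((-2 * β : ℝ) : ℂ) + ((2 * π * u : ℝ) : ℂ) * I) *
        ((Real.log m / Real.log T : ℝ) : ℂ))‖ ≤ 1 := by
  have hL : 0 < Real.log T := Real.log_pos hT
  have hm1 : (1 : ℝ) ≤ m := by exact_mod_cast Nat.one_le_iff_ne_zero.2 hm
  have hx : 0 ≤ Real.log m / Real.log T := div_nonneg (Real.log_nonneg hm1) hL.le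
  rw [Complex.norm_exp]
  have : ((((-2 * β : ℝ) : ℂ) + ((2 * π * u : ℝ) : ℂ) * I) *
        ((Real.log m / Real.log T : ℝ) : ℂ)).re = -2 * β * (Real.log m / Real.log T) := by
    rw [Complex.re_mul_ofReal]
    simp
  rw [this, Real.exp_le_one_iff]
  nlinarith

/-- MODULE N6b. The diagonal sum against the sum over squarefree rough numbers. Put `L = log T`,
`z = -2β + 2πiu`, `K` with `κ < (K+1) δ`; for `i0` large take `η = δ/(i0+1)`, `i1 = ⌈κ/η⌉`. Compare
`Sa = ∑_{m ≤ T^κ} ca(m) a(m) (1/m) e^{z x_m}` with `S₀ = ∑_{m ∈ R(δ), m ≤ T^κ} (1/m) e^{z x_m}`: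
for `m ∈ R(δ)` with `log m ≤ (κ - 2Kη) L` all divisors are of the same kind, so `a(d) = μ(d)`
(`ap_good`), `ca(m) = μ(m)` (`ca_good`): equal terms. All other `m` with `a(m) ≠ 0` are rough with
`δ/2` (`ap_rough`, `i0 η ≥ δ/2`), have at most `2/δ` prime factors, `|ca a| ≤ e^{2K} 4^{2/δ+1}`
(`ca_crude`, `ap_bound`), and are not squarefree, or have a prime factor `p` with
`(δ-η) L ≤ log p ≤ δ L`, or `log m ≥ (κ - 2Kη) L`; `rough_sq`, `rough_window`, `rough_tail` with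
roughness `δ/2`, whose constants do not depend on `η`. Choose `i0` large, then `T`. -/
theorem Sa_close {u β κ δ ε : ℝ} (hβ : 0 < β) (hκ : 0 < κ) (hκ1 : κ < 1) (hδ : 0 < δ)
    (hδ1 : δ ≤ κ / 8) (hε : 0 < ε) : ∃ (η : ℝ) (i0 i1 K : ℕ), 0 < η ∧ 1 ≤ i0 ∧ κ ≤ i1 * η ∧
      κ < ((K : ℝ) + 1) * (((i0 : ℝ) + 1) * η) ∧ ∀ᶠ T : ℝ in atTop,
      ‖Sa (ap T η κ i0 i1 K) (2 * π * u / Real.log T) (β / Real.log T) ⌊T ^ κ⌋₊ -
        (Complex.exp ((((-2 * β : ℝ) : ℂ) + ((2 * π * u : ℝ) : ℂ) * I) * κ) * (FF T δ κ : ℂ) -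
        (((-2 * β : ℝ) : ℂ) + ((2 * π * u : ℝ) : ℂ) * I) * ∫ x in (0 : ℝ)..κ,
          Complex.exp ((((-2 * β : ℝ) : ℂ) + ((2 * π * u : ℝ) : ℂ) * I) * x) *
            (FF T δ x : ℂ))‖ ≤ ε := by
  classical
  obtain ⟨Cw, hCw, hw⟩ := rough_window (half_pos hδ)
  obtain ⟨Ct, hCt, ht⟩ := rough_tail (half_pos hδ) hκ hκ1.le
  set K : ℕ := ⌊κ / δ⌋₊ with hKdef
  have hKlt : κ < ((K : ℝ) + 1) * δ := by
    have := Nat.lt_floor_add_one (κ / δ)
    rwa [div_lt_iff₀ hδ] at this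
  have hK1 : 1 ≤ K := by
    rw [hKdef, Nat.one_le_floor_iff, le_div_iff₀ hδ]; linarith
  have hK1R : (1 : ℝ) ≤ K := by exact_mod_cast hK1
  set K' : ℕ := ⌈2 / δ⌉₊ with hK'
  set C1 : ℝ := Real.exp K * 4 ^ K' * Real.exp K + 1 with hC1
  have hC1p : 0 < C1 := by positivity
  set η0 : ℝ := min (κ / (4 * K)) (ε / (2 * C1 * (Cw + 2 * Ct * K))) with hη0
  have hη0p : 0 < η0 := by
    apply lt_min
    · positivity
    · positivity
  obtain ⟨j0, hj0⟩ := exists_nat_gt (δ / η0)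
  set i0 : ℕ := j0 + 1 with hi0
  have hi0R : (0 : ℝ) < (i0 : ℝ) + 1 := by positivity
  set η : ℝ := δ / ((i0 : ℝ) + 1) with hη
  have hηp : 0 < η := by positivity
  have hηle : η ≤ η0 := by
    rw [hη, div_le_iff₀ hi0R]
    rw [div_lt_iff₀ hη0p] at hj0
    have : (j0 : ℝ) ≤ (i0 : ℝ) + 1 := by rw [hi0]; push_cast; linarith
    nlinarith
  have hiη : ((i0 : ℝ) + 1) * η = δ := by rw [hη]; field_simp
  have hi1 : (1 : ℝ) ≤ i0 := by rw [hi0]; push_cast; linarith [Nat.cast_nonneg (α := ℝ) j0]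
  have hη2 : η ≤ δ / 2 := by nlinarith
  have hη3 : (i0 : ℝ) * η = δ - η := by linarith
  have hKη : 2 * (K : ℝ) * η ≤ κ / 2 := by
    have : η ≤ κ / (4 * K) := hηle.trans (min_le_left _ _)
    rw [le_div_iff₀ (by positivity)] at this
    linarith
  have hKη0 : 0 < 2 * (K : ℝ) * η := by positivity
  have hCη : C1 * (Cw * η + Ct * (2 * K * η)) ≤ ε / 2 := by
    have : η ≤ ε / (2 * C1 * (Cw + 2 * Ct * K)) := hηle.trans (min_le_right _ _)
    rw [le_div_iff₀ (by positivity)] at this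
    nlinarith
  set i1 : ℕ := ⌈κ / η⌉₊ with hi1def
  have hi1η : κ ≤ i1 * η := by
    have := Nat.le_ceil (κ / η)
    rwa [div_le_iff₀ hηp] at this
  have hKcond : κ < ((K : ℝ) + 1) * (((i0 : ℝ) + 1) * η) := by rw [hiη]; exact hKlt
  refine ⟨η, i0, i1, K, hηp, by omega, hi1η, hKcond, ?_⟩
  filter_upwards [hw (δ - η) η (by linarith) hηp, ht (2 * K * η) hKη0 hKη,
    rough_sq (half_pos hδ) (show 0 < ε / (2 * C1) by positivity), eventually_gt_atTop 1]
    with T hwT htT hsT hT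
  have hL : 0 < Real.log T := Real.log_pos hT
  have hTκ : T ^ κ ≤ T := by
    calc T ^ κ ≤ T ^ (1 : ℝ) := Real.rpow_le_rpow_of_exponent_le hT.le hκ1.le
      _ = T := Real.rpow_one T
  rw [← FF_abel hT hκ.le]
  set N : ℕ := ⌊T ^ κ⌋₊ with hN
  have hNle : ∀ m ∈ Finset.Icc 1 N, (m : ℝ) ≤ T ^ κ := by
    intro m hm
    have h1 : (m : ℝ) ≤ N := by exact_mod_cast (Finset.mem_Icc.1 hm).2
    exact h1.trans (Nat.floor_le (Real.rpow_nonneg (by linarith) _))
  set A := ap T η κ i0 i1 K with hA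
  set α : ℝ := 2 * π * u / Real.log T with hα
  -- the error set
  set P : ℕ → Prop := fun m => Squarefree m ∧ Rgh (δ * Real.log T) m with hP
  set Gd : ℕ → Prop := fun m => P m ∧ Real.log m ≤ (κ - 2 * K * η) * Real.log T with hGd
  set D : ℕ → ℂ := fun m => ca A α N m * (A m : ℂ) - (if P m then 1 else 0) with hD
  have hgood : ∀ m ∈ Finset.Icc 1 N, Gd m → D m = 0 := by
    intro m hm hg
    obtain ⟨⟨hsq, hr0, hr⟩, hlog⟩ := hg
    have hm1 := (Finset.mem_Icc.1 hm).1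
    have hdiv : ∀ d : ℕ, d ∣ m → A d = (ArithmeticFunction.moebius d : ℤ) := by
      intro d hd
      have hd0 : d ≠ 0 := fun h => hr0 (by rw [h] at hd; exact zero_dvd_iff.1 hd)
      have hdm : (d : ℝ) ≤ m := by exact_mod_cast Nat.le_of_dvd (by omega) hd
      have hdp : (0 : ℝ) < d := by exact_mod_cast Nat.pos_of_ne_zero hd0
      apply ap_good hT hηp hκ1.le hi1η hKcond (hsq.squarefree_of_dvd hd)
      · exact (Real.log_le_log hdp hdm).trans hlog
      · intro p hp hpd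
        rw [hiη]
        exact hr p hp (hpd.trans hd)
    have e1 := ca_good α hm1 (Finset.mem_Icc.1 hm).2 hdiv
    have e2 := hdiv m dvd_rfl
    have hPm : P m := ⟨hsq, hr0, hr⟩
    simp only [hD]
    rw [e1, e2, if_pos hPm]
    have h3 : ((ArithmeticFunction.moebius m : ℤ)) ^ 2 = 1 := by
      rw [ArithmeticFunction.moebius_sq_eq_one_of_squarefree hsq]
    have h4 : (((ArithmeticFunction.moebius m : ℤ)) : ℂ) ^ 2 = 1 := by exact_mod_cast h3
    push_cast
    rw [← sq, h4, sub_self]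
  -- support and size of D
  set B : Finset ℕ := (Finset.Icc 1 N).filter (fun m => ¬ Gd m ∧ (A m ≠ 0 ∨ P m)) with hB
  have hBr : ∀ m ∈ B, Rgh (δ / 2 * Real.log T) m := by
    intro m hm
    obtain ⟨hm1, _, hm3⟩ := Finset.mem_filter.1 hm
    rcases hm3 with h | h
    · obtain ⟨h1, h2⟩ := ap_rough hT hηp h
      refine ⟨h1, fun p hp hpm => le_trans ?_ (h2 p hp hpm)⟩
      apply mul_le_mul_of_nonneg_right _ hL.le
      rw [hη3]; linarith
    · refine ⟨h.2.1, fun p hp hpm => le_trans ?_ (h.2.2 p hp hpm)⟩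
      apply mul_le_mul_of_nonneg_right _ hL.le
      linarith
  have hDB : ∀ m ∈ B, ‖D m‖ ≤ C1 := by
    intro m hm
    have hr := hBr m hm
    obtain ⟨hm1, _, _⟩ := Finset.mem_filter.1 hm
    have hΩ := cl_omega hδ hT ((hNle m hm1).trans hTκ) hr
    have h1 : ‖ca A α N m‖ ≤ Real.exp K * 4 ^ K' :=
      ca_crude (fun n => ap_bound hηp i0 i1 K n) α N hr.1 hΩ
    have h2 : ‖(A m : ℂ)‖ ≤ Real.exp K := by
      rw [Complex.norm_real, Real.norm_eq_abs]
      exact ap_bound hηp i0 i1 K m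
    have h3 : ‖(if P m then 1 else 0 : ℂ)‖ ≤ 1 := by split_ifs <;> simp
    calc ‖D m‖ ≤ ‖ca A α N m * (A m : ℂ)‖ + ‖(if P m then 1 else 0 : ℂ)‖ := norm_sub_le _ _
      _ ≤ Real.exp K * 4 ^ K' * Real.exp K + 1 := by
          rw [norm_mul]
          gcongr
  have hDz : ∀ m ∈ Finset.Icc 1 N, m ∉ B → D m = 0 := by
    intro m hm hmB
    by_cases hg : Gd m
    · exact hgood m hm hg
    · have : ¬ (A m ≠ 0 ∨ P m) := fun h => hmB (Finset.mem_filter.2 ⟨hm, hg, h⟩)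
      push Not at this
      simp only [hD]
      rw [this.1, if_neg this.2]
      simp
  have hdiff : Sa A α (β / Real.log T) N - (∑ n ∈ Finset.Icc 1 N,
      if Squarefree n ∧ Rgh (δ * Real.log T) n then
        (1 / (n : ℂ)) * Complex.exp ((((-2 * β : ℝ) : ℂ) + ((2 * π * u : ℝ) : ℂ) * I) *
          ((Real.log n / Real.log T : ℝ) : ℂ)) else 0) =
      ∑ m ∈ Finset.Icc 1 N, D m * ((1 / (m : ℂ)) *
        Complex.exp ((((-2 * β : ℝ) : ℂ) + ((2 * π * u : ℝ) : ℂ) * I) *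
          ((Real.log m / Real.log T : ℝ) : ℂ))) := by
    unfold Sa
    rw [← Finset.sum_sub_distrib]
    apply Finset.sum_congr rfl
    intro m hm
    have hm0 : m ≠ 0 := by have := (Finset.mem_Icc.1 hm).1; omega
    rw [hα, cl_pow hm0]
    simp only [hD, hP]
    split_ifs with h
    · ring
    · ring
  rw [hdiff]
  have hBsub : B ⊆ Finset.Icc 1 N := Finset.filter_subset _ _
  rw [← Finset.sum_subset hBsub (fun m hm hmB => by rw [hDz m hm hmB, zero_mul])]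
  have hterm : ∀ m ∈ B, ‖D m * ((1 / (m : ℂ)) *
        Complex.exp ((((-2 * β : ℝ) : ℂ) + ((2 * π * u : ℝ) : ℂ) * I) *
          ((Real.log m / Real.log T : ℝ) : ℂ)))‖ ≤ C1 * (1 / (m : ℝ)) := by
    intro m hm
    have hm0 := (hBr m hm).1
    rw [norm_mul, norm_mul]
    have h1 := cl_norm (u := u) hT hβ hm0
    have h2 : ‖(1 / (m : ℂ))‖ = 1 / (m : ℝ) := by
      rw [norm_div, norm_one, Complex.norm_natCast]
    rw [h2]
    calc ‖D m‖ * (1 / (m : ℝ) * _) ≤ C1 * (1 / (m : ℝ) * 1) := by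
          gcongr
          exact hDB m hm
      _ = C1 * (1 / (m : ℝ)) := by rw [mul_one]
  refine (norm_sum_le _ _).trans ((Finset.sum_le_sum hterm).trans ?_)
  rw [← Finset.mul_sum]
  -- split B
  set B1 := B.filter (fun m => ¬ Squarefree m) with hB1
  set B2 := (B.filter (fun m => Squarefree m)).filter (fun m => ¬ Rgh (δ * Real.log T) m) with hB2
  set B3 := (B.filter (fun m => Squarefree m)).filter (fun m => Rgh (δ * Real.log T) m) with hB3
  have hsplit : ∑ m ∈ B, (1 : ℝ) / m = ∑ m ∈ B1, (1 : ℝ) / m + (∑ m ∈ B2, (1 : ℝ) / m +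
      ∑ m ∈ B3, (1 : ℝ) / m) := by
    rw [← Finset.sum_filter_add_sum_filter_not B (fun m => Squarefree m),
      ← Finset.sum_filter_add_sum_filter_not (B.filter (fun m => Squarefree m))
        (fun m => Rgh (δ * Real.log T) m)]
    ring
  have h1 : ∑ m ∈ B1, (1 : ℝ) / m ≤ ε / (2 * C1) := by
    apply hsT
    intro n hn
    obtain ⟨hn1, hn2⟩ := Finset.mem_filter.1 hn
    exact ⟨(hNle n (hBsub hn1)).trans hTκ, hBr n hn1, hn2⟩
  have h2 : ∑ m ∈ B2, (1 : ℝ) / m ≤ Cw * η := by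
    apply hwT
    intro n hn
    obtain ⟨hn1, hn2⟩ := Finset.mem_filter.1 hn
    obtain ⟨hn3, hn4⟩ := Finset.mem_filter.1 hn1
    refine ⟨(hNle n (hBsub hn3)).trans hTκ, hBr n hn3, ?_⟩
    have hn0 := (hBr n hn3).1
    have hex : ∃ p : ℕ, p.Prime ∧ p ∣ n ∧ Real.log p < δ * Real.log T := by
      by_contra hcon
      push Not at hcon
      exact hn2 ⟨hn0, hcon⟩
    obtain ⟨p, hp, hpn, hlt⟩ := hex
    obtain ⟨_, _, hor⟩ := Finset.mem_filter.1 hn3
    have hAn : A n ≠ 0 := by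
      rcases hor with h | h
      · exact h
      · exact absurd h.2 hn2
    have h3 := (ap_rough hT hηp hAn).2 p hp hpn
    rw [hη3] at h3
    refine ⟨p, hp, hpn, h3, ?_⟩
    rw [sub_add_cancel]
    exact hlt.le
  have h3 : ∑ m ∈ B3, (1 : ℝ) / m ≤ Ct * (2 * K * η) := by
    apply htT
    intro n hn
    obtain ⟨hn1, hn2⟩ := Finset.mem_filter.1 hn
    obtain ⟨hn3, hn4⟩ := Finset.mem_filter.1 hn1
    obtain ⟨_, hng, _⟩ := Finset.mem_filter.1 hn3
    refine ⟨hNle n (hBsub hn3), ?_, hBr n hn3⟩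
    by_contra hcon
    push Not at hcon
    exact hng ⟨⟨hn4, hn2⟩, hcon.le⟩
  rw [hsplit]
  have h4 : C1 * (ε / (2 * C1)) = ε / 2 := by field_simp
  nlinarith

end Pool.Agent.MP_67227b_nt.Pp
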