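import Pool.Agent.MP_67227b_nt.Pp.PpDefs
import Pool.Agent.MP_67227b_nt.Sg.SgZ
import Pool.Agent.MP_67227b_nt.Zeta

set_option autoImplicit false

open Filter Topology Set MeasureTheory Complex
open scoped Real ArithmeticFunction ContDiff

namespace Pool.Agent.MP_67227b_nt.Pp

open Pool.Agent.Lib.ZetaCount_helper33 Pool.Agent.MP_67227b_nt Pool.Agent.MP_67227b_nt.Mo
open Pool.Agent.MP_67227b_nt.Sg
open Pool.Agent.MP_67227b_nt.Mo.MomentBAux (DP)

lemma C4_fin (m : ℕ) (T : ℝ) (a b : Fin m → ℝ) :
    {j : Fin (m + 1) → ZetaZeroIdx | Function.Injective j ∧ (∀ i, zetaOrdinate (j i) ≤ T) ∧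
      ∀ i : Fin m, (zetaOrdinate (j i.castSucc) - zetaOrdinate (j (Fin.last m))) *
        (Real.log T / (2 * π)) ∈ Set.Icc (a i) (b i)}.Finite := by
  have h1 : (Set.pi univ (fun _ : Fin (m + 1) => {j | zetaOrdinate j ≤ T})).Finite :=
    Set.Finite.pi' (fun _ => goodFamily_zeta.fin T) |>.subset (fun j hj i => hj i (mem_univ i))
  refine h1.subset ?_
  intro j hj i _
  exact hj.2.1 i

/-- MODULE C4. Counting. For `t` in the set, `exists_pair_of_not_sep` (SG16, `Sg/SgZ.lean`) gives
`j ≠ j'` with ordinates in `[t - R/L, t + R/L]`, `0 ≤ γ_{j'} - γ_j ≤ 2π lam/L`. So the set is covered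
by the intervals `[γ_j - R/L, γ_j + R/L]` over the (finitely many) pairs with ordinates `≤ 4T`:
`c T ≤ (2R/L) #pairs`; and the pairs inject into the set of `tupleCount` at `4T`
(`lam log (4T)/log T ≤ lam'` for large `T`). -/
theorem pairs_of_meas {lam lam' R c : ℝ} (hl : 0 < lam) (hll : lam < lam') (hR : 0 < R)
    (hc : 0 < c) : ∃ c' : ℝ, 0 < c' ∧ ∀ᶠ T : ℝ in atTop,
      c * T ≤ volume.real {t ∈ Icc (T / 2) (3 * T) |
        ¬ Sg.Sep (Icc (t - R / Real.log T) (t + R / Real.log T)) (2 * π * lam / Real.log T)} →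
      c' * T * Real.log T ≤
        (tupleCount zetaOrdinate 1 (4 * T) (fun _ => 0) (fun _ => lam') : ℝ) := by
  classical
  refine ⟨c / (2 * R), by positivity, ?_⟩
  have e1 : ∀ᶠ T : ℝ in atTop, lam * Real.log 4 / (lam' - lam) + R + 1 ≤ Real.log T :=
    Real.tendsto_log_atTop.eventually_ge_atTop _
  filter_upwards [e1, eventually_gt_atTop 2] with T hT1 hT2 hmeas
  have hπ := Real.pi_pos
  have hT0 : 0 < T := by linarith
  have hd : 0 < lam' - lam := by linarith
  have hlog4 : 0 < Real.log 4 := Real.log_pos (by norm_num)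
  have hq : 0 ≤ lam * Real.log 4 / (lam' - lam) := by positivity
  have hL : 0 < Real.log T := by linarith
  have hRL : R / Real.log T ≤ 1 := by
    rw [div_le_one hL]
    linarith
  have hRL0 : 0 < R / Real.log T := by positivity
  set L := Real.log T with hLdef
  set P := {j : Fin (1 + 1) → ZetaZeroIdx | Function.Injective j ∧
      (∀ i, zetaOrdinate (j i) ≤ 4 * T) ∧
      ∀ i : Fin 1, (zetaOrdinate (j i.castSucc) - zetaOrdinate (j (Fin.last 1))) *
        (Real.log (4 * T) / (2 * π)) ∈ Set.Icc ((fun _ => (0 : ℝ)) i) ((fun _ => lam') i)} with hP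
  have hPfin : P.Finite := C4_fin 1 (4 * T) (fun _ => 0) (fun _ => lam')
  have hcount : tupleCount zetaOrdinate 1 (4 * T) (fun _ => 0) (fun _ => lam') = P.ncard := rfl
  have hsub : {t ∈ Icc (T / 2) (3 * T) | ¬ Sg.Sep (Icc (t - R / L) (t + R / L))
      (2 * π * lam / L)} ⊆ ⋃ j ∈ hPfin.toFinset,
        Icc (zetaOrdinate (j 0) - R / L) (zetaOrdinate (j 0) + R / L) := by
    rintro t ⟨⟨ht1, ht2⟩, hns⟩
    obtain ⟨j, j', hne, hj, hj', h0, h1⟩ := exists_pair_of_not_sep (by linarith)
      (by positivity) hns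
    have hmem : (![j', j] : Fin (1 + 1) → ZetaZeroIdx) ∈ P := by
      refine ⟨?_, ?_, ?_⟩
      · intro a b hab
        fin_cases a <;> fin_cases b
        · rfl
        · exact absurd (by simpa using hab.symm) hne
        · exact absurd (by simpa using hab) hne
        · rfl
      · intro i
        fin_cases i
        · show zetaOrdinate j' ≤ 4 * T
          linarith [hj'.2]
        · show zetaOrdinate j ≤ 4 * T
          linarith [hj.2]
      · intro i
        have hi : i = 0 := Subsingleton.elim _ _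
        subst hi
        show (zetaOrdinate j' - zetaOrdinate j) * (Real.log (4 * T) / (2 * π)) ∈ Icc 0 lam'
        have hlog : Real.log (4 * T) = Real.log 4 + L := by
          rw [Real.log_mul (by norm_num) hT0.ne']
        have hpos : 0 < Real.log (4 * T) := by rw [hlog]; linarith
        refine ⟨mul_nonneg h0 (by positivity), ?_⟩
        have h2 : (zetaOrdinate j' - zetaOrdinate j) * (Real.log (4 * T) / (2 * π)) ≤
            (2 * π * lam / L) * (Real.log (4 * T) / (2 * π)) := by gcongr
        refine h2.trans ?_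
        have h3 : (2 * π * lam / L) * (Real.log (4 * T) / (2 * π)) =
            lam * Real.log (4 * T) / L := by
          field_simp
        rw [h3, div_le_iff₀ hL, hlog]
        have h4 : lam * Real.log 4 / (lam' - lam) ≤ L := by linarith
        rw [div_le_iff₀ hd] at h4
        nlinarith
    refine mem_iUnion₂.2 ⟨![j', j], (Set.Finite.mem_toFinset hPfin).2 hmem, ?_⟩
    show t ∈ Icc (zetaOrdinate j' - R / L) (zetaOrdinate j' + R / L)
    exact ⟨by linarith [hj'.2], by linarith [hj'.1]⟩
  have hvol : volume.real {t ∈ Icc (T / 2) (3 * T) | ¬ Sg.Sep (Icc (t - R / L) (t + R / L))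
      (2 * π * lam / L)} ≤ P.ncard * (2 * (R / L)) := by
    refine (measureReal_mono hsub ?_).trans ?_
    · exact ((measure_biUnion_finset_le _ _).trans_lt (ENNReal.sum_lt_top.2 fun j _ => by
        rw [Real.volume_Icc]; exact ENNReal.ofReal_lt_top)).ne
    · refine (measureReal_biUnion_finset_le _ _).trans ?_
      have : ∀ j ∈ hPfin.toFinset, volume.real
          (Icc (zetaOrdinate (j 0) - R / L) (zetaOrdinate (j 0) + R / L)) = 2 * (R / L) := by
        intro j _
        rw [Real.volume_real_Icc_of_le (by linarith)]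
        ring
      rw [Finset.sum_congr rfl this, Finset.sum_const, nsmul_eq_mul,
        ← Set.ncard_eq_toFinset_card P hPfin]
  rw [hcount]
  have h5 : c * T ≤ P.ncard * (2 * (R / L)) := hmeas.trans hvol
  have h6 : c / (2 * R) * T * L = (c * T) * (L / (2 * R)) := by ring
  rw [h6]
  calc (c * T) * (L / (2 * R)) ≤ (P.ncard * (2 * (R / L))) * (L / (2 * R)) := by gcongr
    _ = P.ncard := by field_simp

end Pool.Agent.MP_67227b_nt.Pp
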