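import Pool.Agent.MP_67227b_nt.Pp.PpRgh

set_option autoImplicit false

open Filter Topology Set MeasureTheory Complex
open scoped Real ArithmeticFunction ContDiff

namespace Pool.Agent.MP_67227b_nt.Pp

open Pool.Agent.Lib.ZetaCount_helper33 Pool.Agent.MP_67227b_nt Pool.Agent.MP_67227b_nt.Mo
open Pool.Agent.MP_67227b_nt.Sg
open Pool.Agent.MP_67227b_nt.Mo.MomentBAux (DP)

/-- The mass of the squarefree rough numbers up to `T^y`. -/
noncomputable def FF (T δ y : ℝ) : ℝ := by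
  classical
  exact ∑ n ∈ (Finset.Icc 1 ⌊T ^ y⌋₊).filter
    (fun n => Squarefree n ∧ Rgh (δ * Real.log T) n), (1 : ℝ) / n

/-- MODULE N3b. Elementary properties. -/
theorem FF_mono {T δ : ℝ} (hT : 1 < T) : Monotone (FF T δ) := by
  classical
  intro y y' hy
  unfold FF
  apply Finset.sum_le_sum_of_subset_of_nonneg
  · intro n hn
    rw [Finset.mem_filter, Finset.mem_Icc] at hn ⊢
    refine ⟨⟨hn.1.1, hn.1.2.trans (Nat.floor_le_floor ?_)⟩, hn.2⟩
    exact Real.rpow_le_rpow_of_exponent_le hT.le hy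
  · intro n _ _
    positivity

theorem one_le_FF {T δ y : ℝ} (hT : 1 < T) (hy : 0 ≤ y) : 1 ≤ FF T δ y := by
  classical
  unfold FF
  have h1 : 1 ∈ (Finset.Icc 1 ⌊T ^ y⌋₊).filter
      (fun n => Squarefree n ∧ Rgh (δ * Real.log T) n) := by
    rw [Finset.mem_filter, Finset.mem_Icc]
    refine ⟨⟨le_rfl, Nat.le_floor ?_⟩, squarefree_one, one_ne_zero, fun p hp hp1 => ?_⟩
    · rw [Nat.cast_one]
      exact Real.one_le_rpow hT.le hy
    · exact absurd (Nat.dvd_one.1 hp1) hp.ne_one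
  have h2 := Finset.single_le_sum (f := fun n : ℕ => (1 : ℝ) / n)
    (fun n _ => by positivity) h1
  simpa using h2

/-- Right continuity (`FF T δ` is a step function, `⌊T^y⌋` is right continuous). -/
theorem FF_right {T δ : ℝ} (hT : 1 < T) (y : ℝ) : ContinuousWithinAt (FF T δ) (Ici y) y := by
  classical
  have hT0 : 0 < T := by linarith
  have hlt : T ^ y < (⌊T ^ y⌋₊ : ℝ) + 1 := Nat.lt_floor_add_one _
  have hc : ContinuousAt (fun x : ℝ => T ^ x) y := Real.continuousAt_const_rpow hT0.ne'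
  have hev : ∀ᶠ x in 𝓝[Ici y] y, FF T δ x = FF T δ y := by
    filter_upwards [(hc.eventually (gt_mem_nhds hlt)).filter_mono nhdsWithin_le_nhds,
      self_mem_nhdsWithin] with x hx hxy
    have h1 : ⌊T ^ x⌋₊ ≤ ⌊T ^ y⌋₊ := by
      have h0 : 0 ≤ T ^ x := (Real.rpow_pos_of_pos hT0 x).le
      have h2 : ⌊T ^ x⌋₊ < ⌊T ^ y⌋₊ + 1 := by
        rw [Nat.floor_lt h0]
        push_cast
        exact hx
      omega
    have h3 : ⌊T ^ y⌋₊ ≤ ⌊T ^ x⌋₊ :=
      Nat.floor_le_floor (Real.rpow_le_rpow_of_exponent_le hT.le hxy)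
    unfold FF
    rw [le_antisymm h1 h3]
  exact (continuousWithinAt_const (b := FF T δ y)).congr_of_eventuallyEq hev rfl

end Pool.Agent.MP_67227b_nt.Pp
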