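import Pool.Agent.MP_67227b_nt.Pp.PpMeas
import Pool.Agent.MP_67227b_nt.Pp.PpFar
import Pool.Agent.MP_67227b_nt.Pp.PpCov

set_option autoImplicit false

open Filter Topology Set MeasureTheory Complex
open scoped Real ArithmeticFunction ContDiff

namespace Pool.Agent.MP_67227b_nt.Pp

open Pool.Agent.Lib.ZetaCount_helper33 Pool.Agent.MP_67227b_nt Pool.Agent.MP_67227b_nt.Mo
open Pool.Agent.MP_67227b_nt.Sg
open Pool.Agent.MP_67227b_nt.Mo.MomentBAux (DP)

lemma Far_nonneg (L R t : ℝ) : 0 ≤ Far L R t := by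
  classical
  unfold Far
  apply tsum_nonneg
  intro z
  split_ifs
  · exact div_nonneg (mu_nonneg z) (sq_nonneg _)
  · exact le_rfl

/-- The measure of the set where `Far` is large. -/
lemma Far_markov {L R T C ε : ℝ} (hT : 0 < T) (hε : 0 < ε)
    (hi : IntegrableOn (Far L R) (Icc (T / 2) (3 * T)))
    (hb : ∫ t in (T / 2)..(3 * T), Far L R t ≤ C * T / R) :
    volume.real {t ∈ Icc (T / 2) (3 * T) | ε ≤ Far L R t} ≤ C * T / R / ε := by
  have h1 := mul_meas_ge_le_integral_of_nonneg (μ := volume.restrict (Icc (T / 2) (3 * T)))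
    (f := Far L R) (Eventually.of_forall fun t => Far_nonneg L R t) hi ε
  have h2 : ∫ t in Icc (T / 2) (3 * T), Far L R t = ∫ t in (T / 2)..(3 * T), Far L R t := by
    rw [intervalIntegral.integral_of_le (by linarith), integral_Icc_eq_integral_Ioc]
  have h3 : volume.real {t ∈ Icc (T / 2) (3 * T) | ε ≤ Far L R t} ≤
      (volume.restrict (Icc (T / 2) (3 * T))).real {t | ε ≤ Far L R t} := by
    rw [measureReal_def, measureReal_def]
    apply ENNReal.toReal_mono
    · exact (measure_lt_top _ _).ne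
    · have h4 : {t ∈ Icc (T / 2) (3 * T) | ε ≤ Far L R t} =
          {t | ε ≤ Far L R t} ∩ Icc (T / 2) (3 * T) := by
        ext t
        simp only [mem_setOf_eq, mem_inter_iff]
        tauto
      rw [h4]
      exact Measure.le_restrict_apply _ _
  rw [h2] at h1
  rw [le_div_iff₀ hε]
  nlinarith

/-- MODULE Z4. Assembly. -/
theorem pos_prop (hRH : RiemannHypothesis) {lam : ℝ} (hlam : 1 / 2 < lam) :
    ∃ c : ℝ, 0 < c ∧ ∀ᶠ T : ℝ in atTop, c * (T * Real.log T) ≤
      (tupleCount zetaOrdinate 1 T (fun _ => 0) (fun _ => lam) : ℝ) := by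
  have hm : 1 / 2 < min lam 1 := lt_min hlam (by norm_num)
  obtain ⟨u, hu, hum⟩ := exists_between hm
  have hu1 : u < 1 := hum.trans_le (min_le_right _ _)
  have hul : u < lam := hum.trans_le (min_le_left _ _)
  obtain ⟨lam₁, hul₁, hl₁⟩ := exists_between hul
  have hu0 : 0 < u := by linarith
  obtain ⟨β, c₁, hβ, hc₁, hM⟩ := meas_large hRH hu hu1
  obtain ⟨cs, C, R₀, hcs, hC, hR₀, hS⟩ := Th_sep hRH hu0 hul₁ hβ
  set c := min c₁ (min (cs / 8) (1 / 2)) with hcdef
  have hc0 : 0 < c := lt_min hc₁ (lt_min (by linarith) (by norm_num))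
  have hcc : c ≤ c₁ := min_le_left _ _
  have hc8 : c ≤ cs / 8 := (min_le_right _ _).trans (min_le_left _ _)
  have hc12 : c ≤ 1 / 2 := (min_le_right _ _).trans (min_le_right _ _)
  obtain ⟨c₃, hc₃, hE⟩ := hM c hc0 hcc (by linarith)
  obtain ⟨C₂, hC₂, hF⟩ := Far_mean hRH
  set R := max (max R₀ 1) (4 * C * C₂ / (cs * c₃)) with hRdef
  have hRR₀ : R₀ ≤ R := (le_max_left _ _).trans (le_max_left _ _)
  have hR1 : 1 ≤ R := (le_max_right _ _).trans (le_max_left _ _)
  have hR2 : 4 * C * C₂ / (cs * c₃) ≤ R := le_max_right _ _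
  have hR0 : 0 < R := by linarith
  obtain ⟨c', hc', hP⟩ := pairs_of_meas (lam := lam₁) (lam' := lam) (R := R) (c := c₃ / 2)
    (by linarith) hl₁ hR0 (by linarith)
  refine ⟨c' / 8, by positivity, ?_⟩
  have key : ∀ᶠ T : ℝ in atTop, c' * T * Real.log T ≤
      (tupleCount zetaOrdinate 1 (4 * T) (fun _ => 0) (fun _ => lam) : ℝ) := by
    filter_upwards [hE, hF R hR1, hS R hRR₀, hP, eventually_gt_atTop 0] with T h1 h2 h3 h4 hT
    apply h4
    have hMk := Far_markov hT (ε := cs / (2 * C)) (by positivity) h2.1 h2.2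
    have hsub : {t ∈ Icc (T / 2) (3 * T) | π - 2 * c ≤
        Th (2 * π * u / Real.log T) (β / Real.log T) t} ⊆
        {t ∈ Icc (T / 2) (3 * T) | ¬ Sg.Sep (Icc (t - R / Real.log T) (t + R / Real.log T))
          (2 * π * lam₁ / Real.log T)} ∪
        {t ∈ Icc (T / 2) (3 * T) | cs / (2 * C) ≤ Far (Real.log T) R t} := by
      rintro t ⟨ht, hth⟩
      by_cases hsep : Sg.Sep (Icc (t - R / Real.log T) (t + R / Real.log T))
          (2 * π * lam₁ / Real.log T)
      · right
        refine ⟨ht, ?_⟩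
        have h5 := h3 t ht hsep
        rw [div_le_iff₀ (by positivity)]
        nlinarith
      · left
        exact ⟨ht, hsep⟩
    have hfin : volume (Icc (T / 2) (3 * T)) ≠ ⊤ := by
      rw [Real.volume_Icc]
      exact ENNReal.ofReal_ne_top
    have h6 := (measureReal_mono hsub (measure_union_ne_top
      (measure_ne_top_of_subset (fun x hx => hx.1) hfin)
      (measure_ne_top_of_subset (fun x hx => hx.1) hfin))).trans (measureReal_union_le _ _)
    have h7 : C₂ * T / R / (cs / (2 * C)) ≤ c₃ / 2 * T := by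
      rw [div_div, div_le_iff₀ (by positivity)]
      have h8 : 4 * C * C₂ ≤ R * (cs * c₃) := by
        rwa [div_le_iff₀ (by positivity)] at hR2
      have h9 : c₃ / 2 * T * (R * (cs / (2 * C))) = R * (cs * c₃) * T / (4 * C) := by
        field_simp
        ring
      rw [h9, le_div_iff₀ (by positivity)]
      nlinarith
    linarith
  have h4 : Tendsto (fun T : ℝ => T / 4) atTop atTop := tendsto_id.atTop_div_const (by norm_num)
  filter_upwards [h4.eventually key, eventually_ge_atTop 16] with T hk hT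
  have e1 : 4 * (T / 4) = T := by ring
  rw [e1] at hk
  refine le_trans ?_ hk
  have e2 : Real.log (T / 4) = Real.log T - Real.log 4 := Real.log_div (by linarith) (by norm_num)
  have e3 : 2 * Real.log 4 ≤ Real.log T := by
    have : Real.log 16 = 2 * Real.log 4 := by
      rw [show (16 : ℝ) = 4 ^ 2 by norm_num, Real.log_pow]
      norm_num
    rw [← this]
    exact Real.log_le_log (by norm_num) hT
  rw [e2]
  have e4 : 0 < T := by linarith
  have e5 : Real.log T / 2 ≤ Real.log T - Real.log 4 := by linarith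
  calc c' / 8 * (T * Real.log T) = c' * (T / 4) * (Real.log T / 2) := by ring
    _ ≤ c' * (T / 4) * (Real.log T - Real.log 4) := by gcongr

end Pool.Agent.MP_67227b_nt.Pp
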