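import Pool.Agent.MP_67227b_nt.Pp.PpDefs

set_option autoImplicit false

open Filter Topology Set MeasureTheory Complex
open scoped Real ArithmeticFunction ContDiff

namespace Pool.Agent.MP_67227b_nt.Pp

open Pool.Agent.Lib.ZetaCount_helper33 Pool.Agent.MP_67227b_nt Pool.Agent.MP_67227b_nt.Mo
open Pool.Agent.MP_67227b_nt.Sg
open Pool.Agent.MP_67227b_nt.Mo.MomentBAux (DP)

private lemma fub_gauss {Δ : ℝ} (hΔ : 0 < Δ) (t : ℝ) :
    Integrable (fun t₀ : ℝ => Real.exp (-(((t - t₀) / Δ) ^ 2))) ∧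
      ∫ t₀ : ℝ, Real.exp (-(((t - t₀) / Δ) ^ 2)) = Δ * Real.sqrt π := by
  have hb : 0 < 1 / Δ ^ 2 := by positivity
  have e : ∀ x : ℝ, Real.exp (-((x / Δ) ^ 2)) = Real.exp (-(1 / Δ ^ 2) * x ^ 2) := by
    intro x; congr 1; field_simp
  have h1 : Integrable (fun x : ℝ => Real.exp (-((x / Δ) ^ 2))) := by
    simp_rw [e]; exact integrable_exp_neg_mul_sq hb
  have h2 : ∫ x : ℝ, Real.exp (-((x / Δ) ^ 2)) = Δ * Real.sqrt π := by
    simp_rw [e]
    rw [integral_gaussian]
    rw [show π / (1 / Δ ^ 2) = Δ ^ 2 * π by field_simp, Real.sqrt_mul (by positivity),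
      Real.sqrt_sq hΔ.le]
  refine ⟨h1.comp_sub_left t, ?_⟩
  rw [← h2]
  exact integral_sub_left_eq_self (fun x : ℝ => Real.exp (-((x / Δ) ^ 2))) volume t

/-- MODULE Z2. Averaging over the centre. With `g = max (-f) 0 ≥ 0`, for every `t₀ ∈ [T, 2T]`:
`∫_{t₀-T/4}^{t₀+T/4} g(t) e^{-((t-t₀)/Δ)²} dt ≥ c Δ`; integrate over `t₀`, exchange, and use
`∫ e^{-((t-t₀)/Δ)²} dt₀ = Δ √π`, `[t₀ - T/4, t₀ + T/4] ⊆ [T/2, 3T]`. -/
theorem fub {f : ℝ → ℝ} {T Δ c : ℝ} (hT : 0 < T) (hΔ : 0 < Δ) (hc : 0 < c)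
    (hf : ContinuousOn f (Icc (T / 2) (3 * T)))
    (h : ∀ t₀ ∈ Icc T (2 * T), ∫ t in (t₀ - T / 4)..(t₀ + T / 4),
      f t * Real.exp (-(((t - t₀) / Δ) ^ 2)) ≤ -c * Δ) :
    c / Real.sqrt π * T ≤ ∫ t in (T / 2)..(3 * T), max (-(f t)) 0 := by
  have hab : T / 2 ≤ 3 * T := by linarith
  -- continuous extension
  set F : ℝ → ℝ := IccExtend hab (fun x => f x) with hF
  have hFc : Continuous F := by
    apply Continuous.Icc_extend'
    exact continuousOn_iff_continuous_restrict.1 hf
  have hFf : ∀ x ∈ Icc (T / 2) (3 * T), F x = f x := fun x hx => IccExtend_of_mem hab _ hx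
  set g : ℝ → ℝ := fun t => max (-(F t)) 0 with hg
  have hgc : Continuous g := by fun_prop
  have hg0 : ∀ t, 0 ≤ g t := fun t => le_max_right _ _
  set K : ℝ → ℝ → ℝ := fun t₀ t => Real.exp (-(((t - t₀) / Δ) ^ 2)) with hK
  have hK0 : ∀ t₀ t, 0 < K t₀ t := fun _ _ => Real.exp_pos _
  have hKc : Continuous (fun p : ℝ × ℝ => K p.1 p.2) := by
    simp only [hK]; fun_prop
  have hKc1 : ∀ t₀, Continuous (fun t => K t₀ t) := fun t₀ => by simp only [hK]; fun_prop
  -- lower bound for each centre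
  have hlow : ∀ t₀ ∈ Icc T (2 * T), c * Δ ≤ ∫ t in (T / 2)..(3 * T), g t * K t₀ t := by
    intro t₀ ht₀
    have h1 := h t₀ ht₀
    have hs1 : T / 2 ≤ t₀ - T / 4 := by linarith [ht₀.1]
    have hs2 : t₀ + T / 4 ≤ 3 * T := by linarith [ht₀.2]
    have hs3 : t₀ - T / 4 ≤ t₀ + T / 4 := by linarith
    have h2 : ∫ t in (t₀ - T / 4)..(t₀ + T / 4), f t * K t₀ t =
        ∫ t in (t₀ - T / 4)..(t₀ + T / 4), F t * K t₀ t := by
      apply intervalIntegral.integral_congr
      intro t ht
      rw [uIcc_of_le hs3] at ht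
      simp only
      rw [hFf t ⟨by linarith [ht.1], by linarith [ht.2]⟩]
    have h3 : ∫ t in (t₀ - T / 4)..(t₀ + T / 4), -(F t * K t₀ t) ≤
        ∫ t in (t₀ - T / 4)..(t₀ + T / 4), g t * K t₀ t := by
      apply intervalIntegral.integral_mono_on hs3
      · exact ((hFc.mul (hKc1 t₀)).neg).intervalIntegrable _ _
      · exact (hgc.mul (hKc1 t₀)).intervalIntegrable _ _
      · intro t _
        rw [← neg_mul]
        exact mul_le_mul_of_nonneg_right (le_max_left _ _) (hK0 _ _).le
    rw [intervalIntegral.integral_neg, ← h2] at h3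
    have h4 : ∫ t in (t₀ - T / 4)..(t₀ + T / 4), g t * K t₀ t ≤
        ∫ t in (T / 2)..(3 * T), g t * K t₀ t := by
      apply intervalIntegral.integral_mono_interval hs1 hs3 hs2
      · exact Filter.Eventually.of_forall fun t => mul_nonneg (hg0 t) (hK0 _ _).le
      · exact (hgc.mul (hKc1 t₀)).intervalIntegrable _ _
    have h5 : c * Δ ≤ -∫ t in (t₀ - T / 4)..(t₀ + T / 4), f t * K t₀ t := by
      have : ∫ t in (t₀ - T / 4)..(t₀ + T / 4), f t * K t₀ t ≤ -c * Δ := h1
      linarith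
    linarith
  -- integrate over the centre
  have hT2 : T ≤ 2 * T := by linarith
  have hcont : Continuous (fun t₀ => ∫ t in (T / 2)..(3 * T), g t * K t₀ t) := by
    apply intervalIntegral.continuous_parametric_intervalIntegral_of_continuous'
    simp only [Function.uncurry, hK]
    fun_prop
  have h6 : T * (c * Δ) ≤ ∫ t₀ in T..(2 * T), ∫ t in (T / 2)..(3 * T), g t * K t₀ t := by
    have e1 : T * (c * Δ) = ∫ _t₀ in T..(2 * T), c * Δ := by
      rw [intervalIntegral.integral_const, smul_eq_mul]; ring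
    rw [e1]
    apply intervalIntegral.integral_mono_on hT2
    · exact continuous_const.intervalIntegrable _ _
    · exact hcont.intervalIntegrable _ _
    · exact hlow
  have h7 : ∫ t₀ in T..(2 * T), ∫ t in (T / 2)..(3 * T), g t * K t₀ t =
      ∫ t in (T / 2)..(3 * T), ∫ t₀ in T..(2 * T), g t * K t₀ t := by
    simp only [intervalIntegral.integral_of_le hT2, intervalIntegral.integral_of_le hab]
    apply integral_integral_swap
    have hcc : Continuous (Function.uncurry fun t₀ t => g t * K t₀ t) := by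
      simp only [hK]
      unfold Function.uncurry
      fun_prop
    have : IntegrableOn (Function.uncurry fun t₀ t => g t * K t₀ t)
        (Icc T (2 * T) ×ˢ Icc (T / 2) (3 * T)) (volume.prod volume) :=
      hcc.continuousOn.integrableOn_compact (isCompact_Icc.prod isCompact_Icc)
    have h8 := this.mono_set (prod_mono Ioc_subset_Icc_self Ioc_subset_Icc_self)
    rw [IntegrableOn, ← Measure.prod_restrict] at h8
    exact h8
  have h9 : ∫ t in (T / 2)..(3 * T), ∫ t₀ in T..(2 * T), g t * K t₀ t ≤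
      ∫ t in (T / 2)..(3 * T), g t * (Δ * Real.sqrt π) := by
    apply intervalIntegral.integral_mono_on hab
    · apply Continuous.intervalIntegrable
      apply intervalIntegral.continuous_parametric_intervalIntegral_of_continuous'
      simp only [hK]
      unfold Function.uncurry
      fun_prop
    · exact (hgc.mul continuous_const).intervalIntegrable _ _
    · intro t _
      rw [intervalIntegral.integral_const_mul]
      apply mul_le_mul_of_nonneg_left _ (hg0 t)
      rw [intervalIntegral.integral_of_le hT2]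
      obtain ⟨hi, hv⟩ := fub_gauss hΔ t
      rw [← hv]
      exact setIntegral_le_integral hi (Filter.Eventually.of_forall fun _ => (Real.exp_pos _).le)
  rw [intervalIntegral.integral_mul_const] at h9
  have h10 : ∫ t in (T / 2)..(3 * T), g t = ∫ t in (T / 2)..(3 * T), max (-(f t)) 0 := by
    apply intervalIntegral.integral_congr
    intro t ht
    rw [uIcc_of_le hab] at ht
    simp only [hg, hFf t ht]
  rw [h10] at h9
  have h11 : T * (c * Δ) ≤ (∫ t in (T / 2)..(3 * T), max (-(f t)) 0) * (Δ * Real.sqrt π) :=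
    h6.trans (h7.le.trans h9)
  have hsp : 0 < Real.sqrt π := Real.sqrt_pos.2 Real.pi_pos
  rw [div_mul_eq_mul_div, div_le_iff₀ hsp]
  have h12 : (c * T) * Δ ≤ ((∫ t in (T / 2)..(3 * T), max (-(f t)) 0) * Real.sqrt π) * Δ := by
    linarith
  exact le_of_mul_le_mul_right h12 hΔ

end Pool.Agent.MP_67227b_nt.Pp
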