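import Pool.Agent.MP_67227b_nt.Pp.PpDefs

set_option autoImplicit false

open Filter Topology Set MeasureTheory Complex
open scoped Real ArithmeticFunction ContDiff

namespace Pool.Agent.MP_67227b_nt.Pp

open Pool.Agent.Lib.ZetaCount_helper33 Pool.Agent.MP_67227b_nt Pool.Agent.MP_67227b_nt.Mo
open Pool.Agent.MP_67227b_nt.Sg
open Pool.Agent.MP_67227b_nt.Mo.MomentBAux (DP)

theorem E1_cheb {q : ℕ} {F : ℝ → ℂ} (hF : Continuous F) {B c J : ℝ} (hc : 0 < c) (hB : 0 ≤ B)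
    (hJ : ∫ t in (0 : ℝ)..B, ‖F t‖ ^ (2 * q) ≤ J) :
    volume.real {t ∈ Icc 0 B | c < ‖F t‖} ≤ J / c ^ (2 * q) := by
  have hc2 : 0 < c ^ (2 * q) := pow_pos hc _
  have hint : Integrable (fun t => ‖F t‖ ^ (2 * q)) (volume.restrict (Icc 0 B)) :=
    ((hF.norm.pow _).continuousOn).integrableOn_compact isCompact_Icc
  have h1 := mul_meas_ge_le_integral_of_nonneg (μ := volume.restrict (Icc 0 B))
    (f := fun t => ‖F t‖ ^ (2 * q)) (Eventually.of_forall fun t => by positivity) hint (c ^ (2 * q))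
  have h2 : ∫ t in Icc 0 B, ‖F t‖ ^ (2 * q) = ∫ t in (0 : ℝ)..B, ‖F t‖ ^ (2 * q) := by
    rw [intervalIntegral.integral_of_le hB, integral_Icc_eq_integral_Ioc]
  rw [h2] at h1
  have h3 : volume.real {t ∈ Icc 0 B | c < ‖F t‖} ≤
      (volume.restrict (Icc 0 B)).real {t | c ^ (2 * q) ≤ ‖F t‖ ^ (2 * q)} := by
    have hms : MeasurableSet {t : ℝ | c ^ (2 * q) ≤ ‖F t‖ ^ (2 * q)} :=
      (isClosed_le continuous_const (hF.norm.pow _)).measurableSet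
    rw [measureReal_restrict_apply hms]
    refine measureReal_mono ?_ ?_
    · rintro t ⟨ht1, ht2⟩
      refine ⟨?_, ht1⟩
      show c ^ (2 * q) ≤ ‖F t‖ ^ (2 * q)
      exact pow_le_pow_left₀ hc.le ht2.le _
    · refine ne_of_lt (lt_of_le_of_lt (measure_mono inter_subset_right) ?_)
      exact isCompact_Icc.measure_lt_top
  rw [le_div_iff₀ hc2, mul_comm]
  exact ((mul_le_mul_of_nonneg_left h3 hc2.le).trans h1).trans hJ

theorem E1_mom {C κ₀ T k : ℝ} {q : ℕ} (hC : 0 < C) (hκ : 1 ≤ κ₀) (hT : 1 < T) (hk : 0 < k)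
    (hLm : 6 ≤ κ₀ * Real.log T / k) (hq : (q : ℝ) ≤ k / (4 * κ₀)) (hq1 : 1 ≤ q)
    (h2q : 2 * 2 ^ q ≤ Real.exp (Real.log T / 2)) (a : ℕ → ℂ)
    (ha : ∀ n, ‖a n‖ ≤ C * k / Real.log T * (Λ n / Real.sqrt n)) :
    ∫ t in (0 : ℝ)..(3 * T), ‖DP (Finset.Ioc 0 ⌊T ^ (κ₀ / k)⌋₊) a t‖ ^ (2 * q) ≤
      4 * T * (2 * (C * κ₀) ^ 2 * q) ^ q := by
  have hT0 : 0 < T := by linarith
  have hκ0 : 0 < κ₀ := by linarith
  have hlogT : 0 < Real.log T := Real.log_pos hT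
  set Lm : ℝ := κ₀ * Real.log T / k with hLmdef
  have hLm0 : 0 < Lm := by linarith
  set Y : ℝ := T ^ (κ₀ / k) with hY
  have hY0 : 0 < Y := Real.rpow_pos_of_pos hT0 _
  have hY1 : 1 ≤ Y := Real.one_le_rpow hT.le (by positivity)
  have hlogY : Real.log Y = Lm := by
    rw [hY, Real.log_rpow hT0, hLmdef]
    ring
  set K : ℝ := C * κ₀ with hKdef
  have hK0 : 0 < K := by positivity
  have hKL : K / Lm = C * k / Real.log T := by
    rw [hKdef, hLmdef]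
    field_simp
  have hN1 : 1 ≤ ⌊Y⌋₊ := Nat.le_floor (by exact_mod_cast hY1)
  set S := Finset.Ioc 0 ⌊Y⌋₊ with hS
  have hSY : ∀ n ∈ S, (n : ℝ) ≤ Y := by
    intro n hn
    exact (Nat.le_floor_iff hY0.le).1 (Finset.mem_Ioc.1 hn).2
  have ha' : ∀ n ∈ S, ‖a n‖ ≤ K / Lm * (Λ n / Real.sqrt n) := by
    intro n _
    rw [hKL]
    exact ha n
  have h1 := MomentBAux.moment_le q ⌊Y⌋₊ S
    (fun n hn => Finset.mem_range.2 (Nat.lt_succ_of_le (Finset.mem_Ioc.1 hn).2))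
    (fun n hn => (Finset.mem_Ioc.1 hn).1) a (B := 3 * T) hY1 hSY hLm0 hlogY.le hK0.le
    (by linarith) ha'
  have hM : ∑ n ∈ S, Λ n / n ≤ 2 * Lm := by
    have h2 := Pool.Agent.BrunHooley.MertensAux.M_le ⌊Y⌋₊ (by omega)
    have h3 : Real.log ⌊Y⌋₊ ≤ Lm := by
      rw [← hlogY]
      exact Real.log_le_log (by exact_mod_cast hN1) (Nat.floor_le hY0.le)
    have h4 : Real.log 4 ≤ 2 := by
      have : Real.log 4 = 2 * Real.log 2 := by
        rw [show (4 : ℝ) = 2 ^ 2 by norm_num, Real.log_pow]; norm_num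
      rw [this]
      have := Real.log_two_lt_d9
      linarith
    have h5 : Pool.Agent.BrunHooley.MertensAux.M ⌊Y⌋₊ = ∑ n ∈ S, Λ n / n := rfl
    rw [← h5]
    linarith
  have hM0 : 0 ≤ ∑ n ∈ S, Λ n / n := Finset.sum_nonneg fun n _ =>
    div_nonneg ArithmeticFunction.vonMangoldt_nonneg (Nat.cast_nonneg n)
  have hq0 : (0 : ℝ) < q := by exact_mod_cast hq1
  have hq1' : (1 : ℝ) ≤ q := by exact_mod_cast hq1
  refine h1.trans ?_
  have hA : 3 * T * ((K / Lm) ^ 2 * (∑ n ∈ S, Λ n / n) * (q * Lm)) ^ q ≤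
      3 * T * (2 * K ^ 2 * q) ^ q := by
    have h6 : (K / Lm) ^ 2 * (∑ n ∈ S, Λ n / n) * (q * Lm) ≤ 2 * K ^ 2 * q := by
      calc (K / Lm) ^ 2 * (∑ n ∈ S, Λ n / n) * (q * Lm)
          ≤ (K / Lm) ^ 2 * (2 * Lm) * (q * Lm) := by gcongr
        _ = 2 * K ^ 2 * q := by field_simp
    gcongr
  have hs : ∑ n ∈ S, ‖a n‖ ≤ 2 * K * Real.sqrt Y := by
    calc ∑ n ∈ S, ‖a n‖ ≤ ∑ n ∈ S, K / Lm * Real.sqrt Y * (Λ n / n) := by
          refine Finset.sum_le_sum fun n hn => (ha' n hn).trans ?_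
          have hn1 : 1 ≤ n := (Finset.mem_Ioc.1 hn).1
          have hn0 : (0 : ℝ) < n := by exact_mod_cast hn1
          have hsn : 0 < Real.sqrt n := Real.sqrt_pos.2 hn0
          have h7 : Λ n / Real.sqrt n = Real.sqrt n * (Λ n / n) := by
            have : (n : ℝ) = Real.sqrt n * Real.sqrt n := (Real.mul_self_sqrt hn0.le).symm
            field_simp
            rw [Real.sq_sqrt hn0.le]
          rw [h7, mul_assoc]
          have h8 : Real.sqrt n ≤ Real.sqrt Y := Real.sqrt_le_sqrt (hSY n hn)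
          have h9 : 0 ≤ Λ n / (n : ℝ) :=
            div_nonneg ArithmeticFunction.vonMangoldt_nonneg (Nat.cast_nonneg n)
          gcongr
      _ = K / Lm * Real.sqrt Y * ∑ n ∈ S, Λ n / n := by rw [Finset.mul_sum]
      _ ≤ K / Lm * Real.sqrt Y * (2 * Lm) := by gcongr
      _ = 2 * K * Real.sqrt Y := by field_simp
  have hB : 2 * Y ^ q * (∑ n ∈ S, ‖a n‖) ^ (2 * q) ≤ T * (2 * K ^ 2 * q) ^ q := by
    have h10 : (∑ n ∈ S, ‖a n‖) ^ (2 * q) ≤ (2 * K * Real.sqrt Y) ^ (2 * q) := by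
      gcongr
    have h11 : (2 * K * Real.sqrt Y) ^ (2 * q) = (4 * K ^ 2 * Y) ^ q := by
      rw [pow_mul]
      congr 1
      rw [mul_pow, Real.sq_sqrt hY0.le]
      ring
    have h12 : Y ^ q * Y ^ q ≤ Real.exp (Real.log T / 2) := by
      have h13 : Y = Real.exp Lm := by rw [← hlogY, Real.exp_log hY0]
      rw [h13, ← Real.exp_nat_mul, ← Real.exp_add]
      apply Real.exp_le_exp.2
      have h14 : (q : ℝ) * Lm ≤ k / (4 * κ₀) * Lm := by gcongr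
      have h15 : k / (4 * κ₀) * Lm = Real.log T / 4 := by
        rw [hLmdef]
        field_simp
      linarith
    have h16 : Real.exp (Real.log T / 2) * Real.exp (Real.log T / 2) = T := by
      rw [← Real.exp_add, add_halves, Real.exp_log hT0]
    have hP : 0 ≤ (2 * K ^ 2) ^ q := by positivity
    calc 2 * Y ^ q * (∑ n ∈ S, ‖a n‖) ^ (2 * q) ≤ 2 * Y ^ q * (4 * K ^ 2 * Y) ^ q := by
          rw [← h11]
          gcongr
      _ = (2 * 2 ^ q) * (Y ^ q * Y ^ q) * (2 * K ^ 2) ^ q := by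
          rw [show 4 * K ^ 2 * Y = 2 * (2 * K ^ 2) * Y by ring, mul_pow, mul_pow]
          ring
      _ ≤ Real.exp (Real.log T / 2) * Real.exp (Real.log T / 2) * (2 * K ^ 2) ^ q := by
          gcongr
      _ = T * (2 * K ^ 2) ^ q := by rw [h16]
      _ ≤ T * (2 * K ^ 2 * q) ^ q := by
          have : 2 * K ^ 2 ≤ 2 * K ^ 2 * q := le_mul_of_one_le_right (by positivity) hq1'
          gcongr
  calc _ ≤ 3 * T * (2 * K ^ 2 * q) ^ q + T * (2 * K ^ 2 * q) ^ q := add_le_add hA hB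
    _ = 4 * T * (2 * K ^ 2 * q) ^ q := by ring

/-- MODULE E1. Large deviations at level `k`. Let `q = ⌊k/(4κ₀)⌋`, `Y = T^{κ₀/k}`,
`Lm = log Y = κ₀ L/k`. On the set, one of the two polynomials is `> C k`. `moment_le`
(Mo/MomentB, `B = 3T`, `K = C κ₀`, its `L` is `Lm`) with `∑_{n ≤ Y} Λ(n)/n ≤ 2 Lm` and
`∑ ‖a n‖ ≤ (K/Lm) √Y ∑ Λ(n)/n ≤ 2 K √Y` gives
`∫_0^{3T} ‖DP‖^{2q} ≤ 3T (2K²q)^q + 2 (4K²)^q Y^{2q} ≤ 4T (2K²q)^q`, as `Y^{2q} ≤ T^{1/2}` and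
`2 · 2^q ≤ T^{1/2}`. Chebyshev: measure `≤ 2 · 4T (2K²q)^q/(Ck)^{2q} = 8T (2κ₀²q/k²)^q
≤ 8T (κ₀/(2k))^q`. -/
theorem level_meas {f : ℝ → ℝ → ℝ} (hf : LD f) : ∃ C κ₀ : ℝ, 0 < C ∧ 1 ≤ κ₀ ∧ ∀ A : ℝ, 0 < A →
    ∀ᶠ T : ℝ in atTop, ∀ k : ℝ, 8 * κ₀ ≤ k → k ≤ A * Real.log T / Real.log (Real.log T) →
      volume.real {t ∈ Icc (T / 2) (3 * T) | 3 * C * k < f T t} ≤
        8 * T * (κ₀ / (2 * k)) ^ ⌊k / (4 * κ₀)⌋₊ := by
  obtain ⟨C, κ₀, hC, hκ, hev⟩ := hf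
  refine ⟨C, κ₀, hC, hκ, fun A hA => ?_⟩
  have hll := (Real.tendsto_log_atTop.comp Real.tendsto_log_atTop).eventually_ge_atTop (6 * A + 1)
  filter_upwards [hev, hll, eventually_gt_atTop (Real.exp 4)] with T h1 h2 h3 k hk8 hkA
  have h2' : 6 * A + 1 ≤ Real.log (Real.log T) := h2
  have hκ0 : 0 < κ₀ := by linarith
  have hk0 : 0 < k := by linarith
  have hT0 : 0 < T := lt_trans (Real.exp_pos 4) h3
  have hlog4 : 4 < Real.log T := by
    rw [Real.lt_log_iff_exp_lt hT0]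
    exact h3
  have hT1 : 1 < T := by
    by_contra hc
    have := Real.log_nonpos hT0.le (not_lt.1 hc)
    linarith
  have hll0 : 0 < Real.log (Real.log T) := by linarith
  have hkA' : k * Real.log (Real.log T) ≤ A * Real.log T := by
    rw [le_div_iff₀ hll0] at hkA
    exact hkA
  have hk6 : k * (6 * A + 1) ≤ A * Real.log T :=
    (mul_le_mul_of_nonneg_left h2' hk0.le).trans hkA'
  have hk6' : 6 * k ≤ Real.log T := by
    by_contra hc
    have hc' := not_le.1 hc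
    have : A * Real.log T < A * (6 * k) := mul_lt_mul_of_pos_left hc' hA
    nlinarith
  have hklog : k ≤ Real.log T := by linarith
  have hLm : 6 ≤ κ₀ * Real.log T / k := by
    rw [le_div_iff₀ hk0]
    nlinarith
  obtain ⟨a, b, ha, hb, hfb⟩ := h1 k (by linarith) hklog
  set q := ⌊k / (4 * κ₀)⌋₊ with hqdef
  have hqle : (q : ℝ) ≤ k / (4 * κ₀) := Nat.floor_le (by positivity)
  have hq1 : 1 ≤ q := by
    apply Nat.le_floor
    rw [Nat.cast_one, le_div_iff₀ (by positivity)]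
    linarith
  have hq1' : (1 : ℝ) ≤ q := by exact_mod_cast hq1
  have h2q : 2 * 2 ^ q ≤ Real.exp (Real.log T / 2) := by
    have h4 : (2 : ℝ) ≤ Real.exp 1 := by
      have := Real.exp_one_gt_d9
      linarith
    have h5 : (2 : ℝ) * 2 ^ q ≤ Real.exp 1 * Real.exp 1 ^ q := by gcongr
    refine h5.trans ?_
    rw [← Real.exp_nat_mul, ← Real.exp_add]
    apply Real.exp_le_exp.2
    have h6 : (q : ℝ) ≤ k / 4 := by
      refine hqle.trans ?_
      gcongr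
      linarith
    linarith
  have hCk : 0 < C * k := by positivity
  have key : ∀ a : ℕ → ℂ, (∀ n, ‖a n‖ ≤ C * k / Real.log T * (Λ n / Real.sqrt n)) →
      volume.real {t ∈ Icc 0 (3 * T) | C * k < ‖DP (Finset.Ioc 0 ⌊T ^ (κ₀ / k)⌋₊) a t‖} ≤
        4 * T * (κ₀ / (2 * k)) ^ q := by
    intro a ha
    refine (E1_cheb (MomentBAux.DP_continuous _ _) hCk (by linarith)
      (E1_mom hC hκ hT1 hk0 hLm hqle hq1 h2q a ha)).trans ?_
    rw [mul_div_assoc, pow_mul, ← div_pow]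
    have h7 : 2 * (C * κ₀) ^ 2 * q / (C * k) ^ 2 ≤ κ₀ / (2 * k) := by
      rw [div_le_div_iff₀ (by positivity) (by positivity)]
      have h8 : (q : ℝ) * (4 * κ₀) ≤ k := by
        rw [le_div_iff₀ (by positivity)] at hqle
        exact hqle
      have h9 : 0 < C ^ 2 * κ₀ * k := by positivity
      calc 2 * (C * κ₀) ^ 2 * q * (2 * k) = C ^ 2 * κ₀ * k * (q * (4 * κ₀)) := by ring
        _ ≤ C ^ 2 * κ₀ * k * k := by gcongr
        _ = κ₀ * (C * k) ^ 2 := by ring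
    gcongr
  have hsub : {t ∈ Icc (T / 2) (3 * T) | 3 * C * k < f T t} ⊆
      {t ∈ Icc 0 (3 * T) | C * k < ‖DP (Finset.Ioc 0 ⌊T ^ (κ₀ / k)⌋₊) a t‖} ∪
      {t ∈ Icc 0 (3 * T) | C * k < ‖DP (Finset.Ioc 0 ⌊T ^ (κ₀ / k)⌋₊) b t‖} := by
    rintro t ⟨ht1, ht2⟩
    have ht0 : t ∈ Icc 0 (3 * T) := ⟨le_trans (by linarith) ht1.1, ht1.2⟩
    have h10 := hfb t ht1
    by_cases hh : C * k < ‖DP (Finset.Ioc 0 ⌊T ^ (κ₀ / k)⌋₊) a t‖
    · exact Or.inl ⟨ht0, hh⟩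
    · refine Or.inr ⟨ht0, ?_⟩
      have := not_lt.1 hh
      nlinarith
  have hfin : volume ({t ∈ Icc 0 (3 * T) | C * k < ‖DP (Finset.Ioc 0 ⌊T ^ (κ₀ / k)⌋₊) a t‖} ∪
      {t ∈ Icc 0 (3 * T) | C * k < ‖DP (Finset.Ioc 0 ⌊T ^ (κ₀ / k)⌋₊) b t‖}) ≠ ⊤ := by
    refine ne_of_lt (lt_of_le_of_lt (measure_mono (t := Icc 0 (3 * T)) ?_) ?_)
    · rintro t (ht | ht)
      · exact ht.1
      · exact ht.1
    · exact isCompact_Icc.measure_lt_top
  refine (measureReal_mono hsub hfin).trans ((measureReal_union_le _ _).trans ?_)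
  have h11 := key a ha
  have h12 := key b hb
  linarith

end Pool.Agent.MP_67227b_nt.Pp
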