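import Pool.Agent.MP_67227b_nt.Pp.PpT0
import Pool.Agent.MP_67227b_nt.Pp.PpFub
import Pool.Agent.MP_67227b_nt.Pp.PpMean
import Pool.Agent.MP_67227b_nt.Pp.PpArg

set_option autoImplicit false

open Filter Topology Set MeasureTheory Complex
open scoped Real ArithmeticFunction ContDiff

namespace Pool.Agent.MP_67227b_nt.Pp

open Pool.Agent.Lib.ZetaCount_helper33 Pool.Agent.MP_67227b_nt Pool.Agent.MP_67227b_nt.Mo
open Pool.Agent.MP_67227b_nt.Sg
open Pool.Agent.MP_67227b_nt.Mo.MomentBAux (DP)

lemma continuous_pl (σ : ℝ) : Continuous (pl σ) := by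
  unfold pl
  fun_prop

lemma continuous_Qi (T η : ℝ) (i : ℕ) : Continuous (Qi T η i) := by
  unfold Qi
  apply continuous_finsetSum
  intro p hp
  apply Continuous.mul continuous_const
  apply Continuous.const_cpow continuous_neg
  left
  have : p.Prime := (Finset.mem_filter.mp hp).2
  exact_mod_cast this.ne_zero

lemma continuous_Ap (T η κ : ℝ) (i0 i1 K : ℕ) : Continuous (Ap T η κ i0 i1 K) := by
  unfold Ap
  apply continuous_finsetSum
  intro k _
  apply Continuous.mul continuous_const
  apply continuous_finsetSum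
  intro J _
  apply continuous_finsetProd
  intro j _
  exact continuous_Qi _ _ _

lemma continuousOn_Hq_line (hRH : RiemannHypothesis) {α b A B : ℝ} (hα : 0 ≤ α) (hb : 0 < b)
    (hA : 0 < A) : ContinuousOn (fun t : ℝ => Hq α (pl (1 / 2 + b) t)) (Icc A B) := by
  intro t ht
  have h1 : DifferentiableAt ℂ (Hq α) (pl (1 / 2 + b) t) := by
    apply differentiableAt_Hq hRH hα
    · rw [pl_re]
      linarith
    · rw [pl_im]
      exact hA.trans_le ht.1
  exact (h1.continuousAt.comp (continuous_pl (1 / 2 + b)).continuousAt).continuousWithinAt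

/-- MODULE Z3b. The angle is large on a positive proportion. -/
theorem meas_large (hRH : RiemannHypothesis) {u : ℝ} (hu : 1 / 2 < u) (hu1 : u < 1) :
    ∃ β c₁ : ℝ, 0 < β ∧ 0 < c₁ ∧ ∀ c : ℝ, 0 < c → c ≤ c₁ → c < 1 → ∃ c₃ : ℝ, 0 < c₃ ∧
      ∀ᶠ T : ℝ in atTop, c₃ * T ≤ volume.real {t ∈ Icc (T / 2) (3 * T) |
        π - 2 * c ≤ Th (2 * π * u / Real.log T) (β / Real.log T) t} := by
  obtain ⟨β, κ, c₁, η, c₂, θ, i0, i1, K, hβ, hκ, hκ1, hc₁, hη, hc₂, hθ, hθ1, hi0, hN⟩ :=
    neg_at hRH hu hu1
  refine ⟨β, c₁, hβ, hc₁, fun c hc hcc hc1 => ?_⟩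
  have hu0 : 0 < u := by linarith
  obtain ⟨C, hC, hM⟩ := mean_sq hRH hu0 hβ hκ1 hη (i1 := i1) (K := K) hi0
  have hpi : 0 < Real.sqrt π := Real.sqrt_pos.mpr Real.pi_pos
  set a : ℝ := c₂ / Real.sqrt π with ha
  have ha0 : 0 < a := div_pos hc₂ hpi
  refine ⟨a ^ 2 / C, by positivity, ?_⟩
  filter_upwards [hN, hM, Th_large hRH hu0 hβ hc hc1, eventually_gt_atTop 1] with T hN hM hA hT
  have hT0 : 0 < T := by linarith
  have hL : 0 < Real.log T := Real.log_pos hT
  set α : ℝ := 2 * π * u / Real.log T with hαdef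
  set b : ℝ := β / Real.log T with hbdef
  have hα : 0 < α := by positivity
  have hb : 0 < b := by positivity
  set ψ : ℝ := π * u + c with hψ
  set H : ℝ → ℂ := fun t => Hq α (pl (1 / 2 + b) t) with hH
  set B : ℝ → ℝ := fun t => ‖Ap T η κ i0 i1 K (pl (1 / 2 + b) (t + α))‖ ^ 2 with hB
  set f : ℝ → ℝ := fun t => (Complex.exp (I * ψ) * H t).im * B t with hf
  set g : ℝ → ℝ := fun t => ‖H t‖ * B t with hg
  set E : Set ℝ := {t ∈ Icc (T / 2) (3 * T) | π - 2 * c ≤ Th α b t} with hEdef
  have hHc : ContinuousOn H (Icc (T / 2) (3 * T)) :=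
    continuousOn_Hq_line hRH hα.le hb (by linarith)
  have hBc : Continuous B := by
    apply Continuous.pow
    apply Continuous.norm
    exact (continuous_Ap T η κ i0 i1 K).comp ((continuous_pl (1 / 2 + b)).comp (by fun_prop))
  have hfc : ContinuousOn f (Icc (T / 2) (3 * T)) := by
    apply ContinuousOn.mul _ hBc.continuousOn
    exact Complex.continuous_im.comp_continuousOn (continuousOn_const.mul hHc)
  have hgc : ContinuousOn g (Icc (T / 2) (3 * T)) := hHc.norm.mul hBc.continuousOn
  have hB0 : ∀ t, 0 ≤ B t := fun t => by positivity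
  have h1 : a * T ≤ ∫ t in (T / 2)..(3 * T), max (-(f t)) 0 := by
    apply fub hT0 (Δ := T ^ θ) (Real.rpow_pos_of_pos hT0 _) hc₂ hfc
    intro t₀ ht₀
    have h2 := hN ψ (by rw [hψ, add_sub_cancel_left, abs_of_pos hc]; exact hcc) t₀ ht₀
    exact h2
  have hEm : MeasurableSet E := by
    have h2 : E = Icc (T / 2) (3 * T) ∩ {t | π - 2 * c ≤ Th α b t} := by
      ext t
      simp [hEdef]
    rw [h2]
    apply measurableSet_Icc.inter
    exact (isClosed_le continuous_const (continuous_Th hRH hb)).measurableSet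
  have hle : T / 2 ≤ 3 * T := by linarith
  set M : ℝ := C / a with hMdef
  have hM0 : 0 < M := by positivity
  -- the pointwise bound
  have h3 : ∀ t ∈ Icc (T / 2) (3 * T), max (-(f t)) 0 ≤
      (1 / (2 * M)) * (g t) ^ 2 + E.indicator (fun _ => M / 2) t := by
    intro t ht
    have hg0 : 0 ≤ (1 / (2 * M)) * (g t) ^ 2 := by positivity
    by_cases hE : t ∈ E
    · rw [indicator_of_mem hE]
      have h4 : -(f t) ≤ g t := by
        have h5 : |(Complex.exp (I * ψ) * H t).im| ≤ ‖H t‖ := by
          refine (Complex.abs_im_le_norm _).trans ?_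
          rw [norm_mul, mul_comm I, Complex.norm_exp_ofReal_mul_I, one_mul]
        have h6 := neg_abs_le (Complex.exp (I * ψ) * H t).im
        simp only [hf, hg]
        nlinarith [hB0 t]
      have h7 : g t ≤ (1 / (2 * M)) * (g t) ^ 2 + M / 2 := by
        have h8 : 0 ≤ (g t - M) ^ 2 / (2 * M) := by positivity
        have h9 : (g t - M) ^ 2 / (2 * M) = (1 / (2 * M)) * (g t) ^ 2 + M / 2 - g t := by
          field_simp
          ring
        linarith
      have h8 : 0 ≤ (1 / (2 * M)) * (g t) ^ 2 + M / 2 := by positivity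
      exact max_le (h4.trans h7) h8
    · rw [indicator_of_notMem hE, add_zero]
      have h4 : 0 ≤ (Complex.exp (I * ψ) * H t).im := by
        by_contra hneg
        push Not at hneg
        exact hE ⟨ht, hA t ht hneg⟩
      have h5 : 0 ≤ f t := mul_nonneg h4 (hB0 t)
      exact max_le (by linarith) hg0
  have hi1 : IntervalIntegrable (fun t => (1 / (2 * M)) * (g t) ^ 2) volume (T / 2) (3 * T) := by
    apply ContinuousOn.intervalIntegrable
    rw [uIcc_of_le hle]
    exact continuousOn_const.mul (hgc.pow 2)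
  have hi2 : IntervalIntegrable (E.indicator fun _ => M / 2) volume (T / 2) (3 * T) := by
    rw [intervalIntegrable_iff_integrableOn_Ioc_of_le hle]
    apply Integrable.indicator _ hEm
    exact integrable_const _
  have hi3 : IntervalIntegrable (fun t => max (-(f t)) 0) volume (T / 2) (3 * T) := by
    apply ContinuousOn.intervalIntegrable
    rw [uIcc_of_le hle]
    exact hfc.neg.sup continuousOn_const
  have h4 : ∫ t in (T / 2)..(3 * T), max (-(f t)) 0 ≤
      (∫ t in (T / 2)..(3 * T), (1 / (2 * M)) * (g t) ^ 2) +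
        ∫ t in (T / 2)..(3 * T), E.indicator (fun _ => M / 2) t := by
    rw [← intervalIntegral.integral_add hi1 hi2]
    exact intervalIntegral.integral_mono_on hle hi3 (hi1.add hi2) h3
  have h5 : ∫ t in (T / 2)..(3 * T), (1 / (2 * M)) * (g t) ^ 2 ≤ (1 / (2 * M)) * (C * T) := by
    rw [intervalIntegral.integral_const_mul]
    apply mul_le_mul_of_nonneg_left hM (by positivity)
  have hfin : volume (Icc (T / 2) (3 * T)) ≠ ⊤ := by
    rw [Real.volume_Icc]
    exact ENNReal.ofReal_ne_top
  have h6 : ∫ t in (T / 2)..(3 * T), E.indicator (fun _ => M / 2) t ≤ M / 2 * volume.real E := by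
    rw [intervalIntegral.integral_of_le hle, integral_indicator hEm, setIntegral_const,
      smul_eq_mul, mul_comm, measureReal_restrict_apply hEm]
    apply mul_le_mul_of_nonneg_left _ (by positivity)
    exact measureReal_mono inter_subset_left (measure_ne_top_of_subset (fun x hx => hx.1) hfin)
  have h7 : (1 / (2 * M)) * (C * T) = a * T / 2 := by
    rw [hMdef]
    field_simp
  have h8 : a * T / 2 ≤ M / 2 * volume.real E := by linarith
  have h9 : a ^ 2 / C * T = 2 / M * (a * T / 2) := by
    rw [hMdef]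
    field_simp
  rw [h9]
  calc 2 / M * (a * T / 2) ≤ 2 / M * (M / 2 * volume.real E) :=
        mul_le_mul_of_nonneg_left h8 (by positivity)
    _ = volume.real E := by field_simp

end Pool.Agent.MP_67227b_nt.Pp
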