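import Pool.Agent.MP_67227b_nt.Pp.PpPhi

set_option autoImplicit false

open Filter Topology Set MeasureTheory Complex
open scoped Real ArithmeticFunction ContDiff

namespace Pool.Agent.MP_67227b_nt.Pp

open Pool.Agent.Lib.ZetaCount_helper33 Pool.Agent.MP_67227b_nt Pool.Agent.MP_67227b_nt.Mo
open Pool.Agent.MP_67227b_nt.Sg
open Pool.Agent.MP_67227b_nt.Mo.MomentBAux (DP)

/-- the size of the zero sum -/
lemma B1_zero_sum (hRH : RiemannHypothesis) {h : ℝ → ℂ} {C κ L k : ℝ} (hC : 0 < C)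
    (hK : ∀ w : ℂ, 0 < w.re → ‖Kh h w‖ ≤ C * Real.exp (-(w.re / 2)) / ‖w‖ ^ 2)
    (hκ : 0 < κ) (hκ2 : 2 * C ≤ κ) (hL : 0 < L) (hk : 0 < k) (t : ℝ) :
    ‖((κ * L / k : ℝ) : ℂ) * ∑' z : Zer, (mu z : ℂ) *
      Kh h ((κ : ℂ) + (((κ * L / k) * (t - ord z) : ℝ) : ℂ) * I)‖ ≤ 1 / 2 * (L / k * Mk L k t) := by
  have hsum := summable_Mk hRH hL hk t
  set D : ℝ := C * Real.exp (-(κ / 2)) / κ ^ 2 with hD
  have hmu : ∀ z : Zer, 0 ≤ mu z := fun z => Nat.cast_nonneg _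
  have hterm : ∀ z : Zer, ‖(mu z : ℂ) *
      Kh h ((κ : ℂ) + (((κ * L / k) * (t - ord z) : ℝ) : ℂ) * I)‖ ≤
        D * (mu z / (1 + (L * (t - ord z) / k) ^ 2)) := by
    intro z
    set w : ℂ := (κ : ℂ) + (((κ * L / k) * (t - ord z) : ℝ) : ℂ) * I with hw
    have hre : w.re = κ := by simp [hw]
    have him : w.im = (κ * L / k) * (t - ord z) := by simp [hw]
    have hnorm : ‖w‖ ^ 2 = κ ^ 2 * (1 + (L * (t - ord z) / k) ^ 2) := by
      rw [Complex.sq_norm, Complex.normSq_apply, hre, him]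
      field_simp
    have h1 := hK w (by rw [hre]; exact hκ)
    rw [hre, hnorm] at h1
    rw [norm_mul, Complex.norm_real, Real.norm_eq_abs, abs_of_nonneg (hmu z)]
    calc mu z * ‖Kh h w‖ ≤ mu z * (C * Real.exp (-(κ / 2)) /
          (κ ^ 2 * (1 + (L * (t - ord z) / k) ^ 2))) := by
          exact mul_le_mul_of_nonneg_left h1 (hmu z)
      _ = D * (mu z / (1 + (L * (t - ord z) / k) ^ 2)) := by
          rw [hD]
          have hx : (0 : ℝ) < 1 + (L * (t - ord z) / k) ^ 2 := by positivity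
          field_simp
  have hsn : Summable fun z : Zer => ‖(mu z : ℂ) *
      Kh h ((κ : ℂ) + (((κ * L / k) * (t - ord z) : ℝ) : ℂ) * I)‖ :=
    Summable.of_nonneg_of_le (fun z => norm_nonneg _) hterm (hsum.mul_left D)
  have h2 : ‖∑' z : Zer, (mu z : ℂ) *
      Kh h ((κ : ℂ) + (((κ * L / k) * (t - ord z) : ℝ) : ℂ) * I)‖ ≤ D * Mk L k t := by
    refine (norm_tsum_le_tsum_norm hsn).trans ?_
    refine (hsn.tsum_le_tsum hterm (hsum.mul_left D)).trans ?_
    rw [tsum_mul_left]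
    exact le_rfl
  have hM0 : 0 ≤ Mk L k t := Mk_nonneg L k t
  rw [norm_mul, Complex.norm_real, Real.norm_eq_abs, abs_of_nonneg (by positivity)]
  calc κ * L / k * ‖∑' z : Zer, (mu z : ℂ) *
      Kh h ((κ : ℂ) + (((κ * L / k) * (t - ord z) : ℝ) : ℂ) * I)‖
      ≤ κ * L / k * (D * Mk L k t) := by gcongr
    _ = (C * Real.exp (-(κ / 2)) / κ) * (L / k * Mk L k t) := by
        rw [hD]; field_simp
    _ ≤ 1 / 2 * (L / k * Mk L k t) := by
        refine mul_le_mul_of_nonneg_right ?_ (by positivity)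
        rw [div_le_iff₀ hκ]
        have : Real.exp (-(κ / 2)) ≤ 1 := Real.exp_le_one_iff.2 (by linarith)
        nlinarith

/-- MODULE B1. The zeros near `t` at scale `k / L` are controlled by a short prime sum.
Let `C_h` be the constant of `Kh_bound`, choose `κ₀ ≥ 1` with `C_h e^{-κ₀/2} / κ₀ ≤ 1/2`.
`phi_formula` with `L' = κ₀ L / k ≥ 1`, `w = κ₀` (so `w / L' = k / L`, `L = log T`). As
`|ω|^2 = κ₀^2 (1 + (L(t-γ)/k)^2)`, the sum over the zeros is at most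
`L' C_h e^{-κ₀/2} κ₀^{-2} Mk = (C_h e^{-κ₀/2}/κ₀) (L/k) Mk ≤ (1/2) Re F` where
`F = ξ'/ξ(1/2 + k/L + it)`, `Mk = (k/L) Re F` (`Mk_eq`). `‖archF (pt32 t)‖ ≤ log t / 2 + C ≤ L`
(`Sg.archF_near` with `σ = 3/2`), the error is `≤ C e^{L/2} / (1 + T/4) ≤ 1` as `k ≥ 2 κ₀`.
So `Re F ≤ 2 (L + 1 + ‖PS‖)`. -/
theorem Mk_le_PS (hRH : RiemannHypothesis) {h : ℝ → ℂ} (hh : Cut h) :
    ∃ κ₀ C : ℝ, 1 ≤ κ₀ ∧ 0 < C ∧ ∀ᶠ T : ℝ in atTop, ∀ k : ℝ, 2 * κ₀ ≤ k →
      k ≤ κ₀ * Real.log T → ∀ t ∈ Icc (T / 4) (4 * T),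
        Mk (Real.log T) k t ≤ C * k + C * (k / Real.log T) *
          ‖PS h (κ₀ * Real.log T / k) (pl (1 / 2 + k / Real.log T) t)‖ := by
  obtain ⟨Ch, hCh, hK⟩ := Kh_bound hh
  obtain ⟨Ca, hCa, hA⟩ := archF_near
  set κ : ℝ := max 1 (2 * Ch) with hκdef
  have hκ1 : 1 ≤ κ := le_max_left _ _
  have hκ2 : 2 * Ch ≤ κ := le_max_right _ _
  have hκ0 : 0 < κ := by linarith
  obtain ⟨Cp, hCp, hP⟩ := phi_formula hRH hh hκ0
  refine ⟨κ, 4, hκ1, by norm_num, ?_⟩
  have e1 : ∀ᶠ T : ℝ in atTop, 2 * (Real.log 4 + Ca) + 1 ≤ Real.log T :=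
    Real.tendsto_log_atTop.eventually_ge_atTop _
  have e2 : ∀ᶠ T : ℝ in atTop, 4 * Cp ≤ Real.sqrt T :=
    Real.tendsto_sqrt_atTop.eventually_ge_atTop _
  filter_upwards [e1, e2, eventually_ge_atTop 8] with T hT1 hT2 hT8 k hk1 hk2 t ht
  have hT0 : 0 < T := by linarith
  have hlog4 : 0 < Real.log 4 := Real.log_pos (by norm_num)
  have hL1 : 1 ≤ Real.log T := by linarith
  set L := Real.log T with hLdef
  have hL : 0 < L := by linarith
  have hk0 : 0 < k := by linarith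
  have ht0 : 0 < t := by linarith [ht.1]
  have ht2 : 2 ≤ t := by linarith [ht.1]
  have hL' : 1 ≤ κ * L / k := by rw [le_div_iff₀ hk0]; linarith
  have hwL : κ / (κ * L / k) = k / L := by field_simp
  obtain ⟨-, hform⟩ := hP (κ * L / k) hL' κ hκ0 le_rfl t
  rw [hwL] at hform
  -- the error
  have herr : Cp * Real.exp (κ * L / k) / (1 + |t|) ≤ 1 := by
    have h1 : κ * L / k ≤ L / 2 := by
      rw [div_le_div_iff₀ hk0 (by norm_num)]
      nlinarith
    have h2 : Real.exp (κ * L / k) ≤ Real.sqrt T := by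
      calc Real.exp (κ * L / k) ≤ Real.exp (L / 2) := Real.exp_le_exp.2 h1
        _ = Real.sqrt T := by
          rw [Real.sqrt_eq_rpow, Real.rpow_def_of_pos hT0, hLdef]
          congr 1
          ring
    have h3 : T / 4 ≤ 1 + |t| := by
      rw [abs_of_pos ht0]; linarith [ht.1]
    rw [div_le_one (by linarith)]
    calc Cp * Real.exp (κ * L / k) ≤ Cp * Real.sqrt T := by gcongr
      _ ≤ (Real.sqrt T / 4) * Real.sqrt T := by
          refine mul_le_mul_of_nonneg_right ?_ (Real.sqrt_nonneg _)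
          linarith
      _ = T / 4 := by
          rw [div_mul_eq_mul_div, Real.mul_self_sqrt hT0.le]
      _ ≤ _ := h3
  -- the archimedean factor
  have harch : ‖archF (pt32 t)‖ ≤ L := by
    have h1 := hA (3 / 2) t (by norm_num) (by norm_num) ht2
    have h2 : pl (3 / 2) t = pt32 t := by
      simp [pl, pt32]
    rw [h2] at h1
    have h3 : Real.log t ≤ Real.log 4 + L := by
      rw [hLdef, ← Real.log_mul (by norm_num) hT0.ne']
      exact Real.log_le_log ht0 ht.2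
    have h5 : 0 ≤ Real.log t := Real.log_nonneg (by linarith)
    calc ‖archF (pt32 t)‖ = ‖(archF (pt32 t) - ((Real.log t / 2 : ℝ) : ℂ)) +
          ((Real.log t / 2 : ℝ) : ℂ)‖ := by congr 1; ring
      _ ≤ ‖archF (pt32 t) - ((Real.log t / 2 : ℝ) : ℂ)‖ + ‖((Real.log t / 2 : ℝ) : ℂ)‖ :=
          norm_add_le _ _
      _ ≤ Ca + Real.log t / 2 := by
          rw [Complex.norm_real, Real.norm_eq_abs, abs_of_nonneg (by positivity)]
          linarith
      _ ≤ L := by linarith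
  have hz := B1_zero_sum (h := h) hRH hCh (fun w hw => (hK w hw).2) hκ0 hκ2 hL hk0 t
  set F := logDeriv xi (pl (1 / 2 + k / L) t) with hF
  set A := archF (pt32 t) with hAd
  set S := PS h (κ * L / k) (pl (1 / 2 + k / L) t) with hS
  set Z := ((κ * L / k : ℝ) : ℂ) * ∑' z : Zer, (mu z : ℂ) *
      Kh h ((κ : ℂ) + (((κ * L / k) * (t - ord z) : ℝ) : ℂ) * I) with hZ
  have hMk := Mk_eq hRH hL hk0 t
  rw [← hF] at hMk
  have hX : L / k * Mk L k t = F.re := by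
    rw [hMk]; field_simp
  rw [hX] at hz
  have h6 : F.re ≤ 1 + L + ‖S‖ + 1 / 2 * F.re := by
    have h7 : F = (F - A + S - Z) + A - S + Z := by ring
    have h8 : ‖F - A + S - Z‖ ≤ 1 := hform.trans herr
    calc F.re ≤ ‖F‖ := Complex.re_le_norm F
      _ = ‖(F - A + S - Z) + A - S + Z‖ := by rw [← h7]
      _ ≤ ‖F - A + S - Z‖ + ‖A‖ + ‖S‖ + ‖Z‖ := by
          refine (norm_add_le _ _).trans ?_
          refine add_le_add_left ?_ _ |>.trans le_rfl
          refine (norm_sub_le _ _).trans ?_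
          refine add_le_add_left ?_ _ |>.trans le_rfl
          exact norm_add_le _ _
      _ ≤ 1 + L + ‖S‖ + 1 / 2 * F.re := by linarith
  have h9 : F.re ≤ 2 * (1 + L + ‖S‖) := by linarith
  rw [hMk]
  have hkL : 0 ≤ k / L := by positivity
  calc k / L * F.re ≤ k / L * (2 * (1 + L + ‖S‖)) := by gcongr
    _ = 2 * (k / L) + 2 * k + 2 * (k / L) * ‖S‖ := by field_simp
    _ ≤ 4 * k + 4 * (k / L) * ‖S‖ := by
        have h10 : k / L ≤ k := div_le_self hk0.le hL1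
        have h11 : 0 ≤ k / L * ‖S‖ := by positivity
        nlinarith

end Pool.Agent.MP_67227b_nt.Pp
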