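import Pool.Agent.MP_67227b_nt.Pp.PpDefs

set_option autoImplicit false

open Filter Topology Set MeasureTheory Complex
open scoped Real ArithmeticFunction ContDiff

namespace Pool.Agent.MP_67227b_nt.Pp

open Pool.Agent.Lib.ZetaCount_helper33 Pool.Agent.MP_67227b_nt Pool.Agent.MP_67227b_nt.Mo
open Pool.Agent.MP_67227b_nt.Sg
open Pool.Agent.MP_67227b_nt.Mo.MomentBAux (DP)

theorem N6A_at {u : ℝ} (hu : 1 / 2 < u) (hu1 : u < 1) :
    (Complex.exp (I * ((π * u : ℝ) : ℂ)) *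
      ((Complex.exp ((((-2 * (0 : ℝ) : ℝ) : ℂ) + ((2 * π * u : ℝ) : ℂ) * I) *
        (((1 : ℝ) - 0 : ℝ) : ℂ)) - 1) /
        (((-2 * (0 : ℝ) : ℝ) : ℂ) + ((2 * π * u : ℝ) : ℂ) * I))).im < 0 := by
  have hπ := Real.pi_pos
  set θ : ℝ := π * u with hθ
  have hθ0 : 0 < θ := by positivity
  have h1 : (((-2 * (0 : ℝ) : ℝ) : ℂ) + ((2 * π * u : ℝ) : ℂ) * I) = ((2 * θ : ℝ) : ℂ) * I := by
    rw [hθ]
    push_cast
    ring
  have h2 : (((1 : ℝ) - 0 : ℝ) : ℂ) = 1 := by simp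
  rw [h1, h2, mul_one]
  have h3 : Complex.exp (I * (θ : ℂ)) * ((Complex.exp (((2 * θ : ℝ) : ℂ) * I) - 1) /
      (((2 * θ : ℝ) : ℂ) * I)) =
      (Complex.exp (((3 * θ : ℝ) : ℂ) * I) - Complex.exp ((θ : ℂ) * I)) *
        (((-(1 / (2 * θ)) : ℝ) : ℂ) * I) := by
    have h4 : Complex.exp (((3 * θ : ℝ) : ℂ) * I) =
        Complex.exp ((θ : ℂ) * I) * Complex.exp (((2 * θ : ℝ) : ℂ) * I) := by
      rw [← Complex.exp_add]
      congr 1
      push_cast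
      ring
    rw [h4, mul_comm I (θ : ℂ)]
    have h5 : (1 : ℂ) / (((2 * θ : ℝ) : ℂ) * I) = ((-(1 / (2 * θ)) : ℝ) : ℂ) * I := by
      have h6 : ((2 * θ : ℝ) : ℂ) ≠ 0 := by
        exact_mod_cast (by positivity : (2 * θ) ≠ 0)
      have h7 : ((θ : ℝ) : ℂ) ≠ 0 := by exact_mod_cast hθ0.ne'
      rw [div_eq_iff (mul_ne_zero h6 I_ne_zero)]
      push_cast
      field_simp
      rw [I_sq]
      ring
    rw [← h5]
    ring
  rw [h3]
  rw [Complex.mul_im, Complex.sub_re, Complex.sub_im, Complex.exp_ofReal_mul_I_re,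
    Complex.exp_ofReal_mul_I_re, Complex.exp_ofReal_mul_I_im, Complex.exp_ofReal_mul_I_im]
  have h8 : (((-(1 / (2 * θ)) : ℝ) : ℂ) * I).im = -(1 / (2 * θ)) := by simp
  have h9 : (((-(1 / (2 * θ)) : ℝ) : ℂ) * I).re = 0 := by simp
  rw [h8, h9, mul_zero, add_zero]
  have h10 : Real.cos (3 * θ) - Real.cos θ = -2 * Real.sin (2 * θ) * Real.sin θ := by
    have := Real.cos_sub_cos (3 * θ) θ
    rw [this]
    have e1 : (3 * θ + θ) / 2 = 2 * θ := by ring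
    have e2 : (3 * θ - θ) / 2 = θ := by ring
    rw [e1, e2]
  rw [h10]
  have h11 : 0 < Real.sin θ := by
    apply Real.sin_pos_of_pos_of_lt_pi hθ0
    rw [hθ]
    nlinarith
  have h12 : Real.sin (2 * θ) < 0 := by
    have h13 : 0 < Real.sin (2 * θ - π) := by
      apply Real.sin_pos_of_pos_of_lt_pi
      · rw [hθ]; nlinarith
      · rw [hθ]; nlinarith
    have h14 : Real.sin (2 * θ - π) = -Real.sin (2 * θ) := Real.sin_sub_pi _
    linarith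
  have h15 : 0 < 1 / (2 * θ) := by positivity
  have h16 : Real.sin (2 * θ) * Real.sin θ < 0 := mul_neg_of_neg_of_pos h12 h11
  have h17 : -2 * Real.sin (2 * θ) * Real.sin θ * -(1 / (2 * θ)) =
      2 * (Real.sin (2 * θ) * Real.sin θ) * (1 / (2 * θ)) := by ring
  rw [h17]
  exact mul_neg_of_neg_of_pos (by linarith) h15

/-- MODULE N6a. The trigonometric inequality. At `β = 0`, `κ = 1`:
`∫_0^1 sin (πu (1 + 2x)) dx = (cos πu - cos 3πu)/(2πu) = sin 2πu sin πu/(πu) < 0`; continuity in `κ`,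
then in `β`. -/
theorem trig_neg {u : ℝ} (hu : 1 / 2 < u) (hu1 : u < 1) : ∃ β κ : ℝ, 0 < β ∧ 0 < κ ∧ κ < 1 ∧
    (Complex.exp (I * ((π * u : ℝ) : ℂ)) * ∫ x in (0 : ℝ)..κ,
      Complex.exp ((((-2 * β : ℝ) : ℂ) + ((2 * π * u : ℝ) : ℂ) * I) * x)).im < 0 := by
  have hπ := Real.pi_pos
  let F : ℝ → ℝ := fun ε => (Complex.exp (I * ((π * u : ℝ) : ℂ)) *
      ((Complex.exp ((((-2 * ε : ℝ) : ℂ) + ((2 * π * u : ℝ) : ℂ) * I) *
        (((1 : ℝ) - ε : ℝ) : ℂ)) - 1) /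
        (((-2 * ε : ℝ) : ℂ) + ((2 * π * u : ℝ) : ℂ) * I))).im
  have hne : ∀ ε : ℝ, (((-2 * ε : ℝ) : ℂ) + ((2 * π * u : ℝ) : ℂ) * I) ≠ 0 := by
    intro ε h
    have h1 := congrArg Complex.im h
    rw [Complex.add_im, Complex.ofReal_im, Complex.im_ofReal_mul, Complex.I_im, mul_one,
      Complex.zero_im, zero_add] at h1
    have h2 : 0 < 2 * π * u := by positivity
    linarith
  have hF : Continuous F := by
    apply Complex.continuous_im.comp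
    apply Continuous.mul continuous_const
    apply Continuous.div
    · fun_prop
    · fun_prop
    · exact hne
  have hF0 : F 0 < 0 := N6A_at hu hu1
  have h1 : ∀ᶠ ε in 𝓝 (0 : ℝ), F ε < 0 := hF.continuousAt.eventually (Iio_mem_nhds hF0)
  have h2 : ∀ᶠ ε in 𝓝[>] (0 : ℝ), F ε < 0 := h1.filter_mono nhdsWithin_le_nhds
  have h3 : ∀ᶠ ε in 𝓝[>] (0 : ℝ), ε ∈ Ioo (0 : ℝ) 1 := Ioo_mem_nhdsGT one_pos
  obtain ⟨ε, h4, h5⟩ := (h2.and h3).exists
  refine ⟨ε, 1 - ε, h5.1, by linarith [h5.2], by linarith [h5.1], ?_⟩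
  rw [integral_exp_mul_complex (hne ε)]
  simp only [Complex.ofReal_zero, mul_zero, Complex.exp_zero]
  exact h4

end Pool.Agent.MP_67227b_nt.Pp
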