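import Pool.Agent.MP_67227b_nt.Pp.PpAn
import Pool.Agent.MP_67227b_nt.Pp.PpFI
import Pool.Agent.MP_67227b_nt.Pp.PpTrig
import Pool.Agent.MP_67227b_nt.Pp.PpClose

set_option autoImplicit false

open Filter Topology Set MeasureTheory Complex
open scoped Real ArithmeticFunction ContDiff

namespace Pool.Agent.MP_67227b_nt.Pp

open Pool.Agent.Lib.ZetaCount_helper33 Pool.Agent.MP_67227b_nt Pool.Agent.MP_67227b_nt.Mo
open Pool.Agent.MP_67227b_nt.Sg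
open Pool.Agent.MP_67227b_nt.Mo.MomentBAux (DP)

/-- The sum over squarefree rough numbers is at most the mass. -/
lemma norm_S0_le {T δ κ β v : ℝ} (hT : 1 < T) (hκ : 0 ≤ κ) (hβ : 0 ≤ β) :
    ‖Complex.exp ((((-2 * β : ℝ) : ℂ) + (v : ℂ) * I) * κ) * (FF T δ κ : ℂ) -
        (((-2 * β : ℝ) : ℂ) + (v : ℂ) * I) * ∫ x in (0 : ℝ)..κ,
          Complex.exp ((((-2 * β : ℝ) : ℂ) + (v : ℂ) * I) * x) *
            (FF T δ x : ℂ)‖ ≤ FF T δ κ := by
  classical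
  rw [← FF_abel hT hκ, FF, Finset.sum_filter]
  refine (norm_sum_le _ _).trans ?_
  apply Finset.sum_le_sum
  intro n hn
  have hn1 : 1 ≤ n := (Finset.mem_Icc.mp hn).1
  split_ifs with h
  · rw [norm_mul, norm_div, norm_one, Complex.norm_natCast, Complex.norm_exp]
    have hL : 0 < Real.log T := Real.log_pos hT
    have h1 : 0 ≤ Real.log n / Real.log T := div_nonneg (Real.log_natCast_nonneg n) hL.le
    have h2 : ((((-2 * β : ℝ) : ℂ) + (v : ℂ) * I) *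
        ((Real.log n / Real.log T : ℝ) : ℂ)).re = -2 * β * (Real.log n / Real.log T) := by
      rw [Complex.re_mul_ofReal]
      congr 1
      simp
    rw [h2]
    have h3 : Real.exp (-2 * β * (Real.log n / Real.log T)) ≤ 1 := by
      rw [Real.exp_le_one_iff]
      nlinarith
    have h4 : (0 : ℝ) ≤ 1 / n := by positivity
    nlinarith
  · simp

/-- MODULE N6c. The diagonal sum is negative. -/
theorem main_neg {u : ℝ} (hu : 1 / 2 < u) (hu1 : u < 1) :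
    ∃ (β κ c₁ η c₂ : ℝ) (i0 i1 K : ℕ), 0 < β ∧ 0 < κ ∧ κ < 1 ∧ 0 < c₁ ∧ 0 < η ∧ 0 < c₂ ∧
      1 ≤ i0 ∧ κ ≤ i1 * η ∧ ∀ᶠ T : ℝ in atTop, ∀ ψ : ℝ, |ψ - π * u| ≤ c₁ →
        (Complex.exp (I * ψ) * Sa (ap T η κ i0 i1 K) (2 * π * u / Real.log T)
          (β / Real.log T) ⌊T ^ κ⌋₊).im ≤ -c₂ := by
  obtain ⟨β, κ, hβ, hκ, hκ1, hJ⟩ := trig_neg hu hu1
  set z : ℂ := ((-2 * β : ℝ) : ℂ) + ((2 * π * u : ℝ) : ℂ) * I with hz
  set J : ℂ := ∫ x in (0 : ℝ)..κ, Complex.exp (z * x) with hJdef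
  set w : ℝ := (Complex.exp (I * ((π * u : ℝ) : ℂ)) * J).im with hw
  set m : ℝ := -(2 / κ ^ 2 * w) with hm
  have hm0 : 0 < m := by
    have : 0 < 2 / κ ^ 2 := by positivity
    rw [hm]
    nlinarith
  obtain ⟨C, hC, hA⟩ := analysis hκ hκ1.le z
  set δ : ℝ := min (κ / 8) (m / (4 * C)) with hδdef
  have hδ : 0 < δ := lt_min (by positivity) (by positivity)
  have hδκ : δ ≤ κ / 8 := min_le_left _ _
  have hδm : C * δ ≤ m / 4 := by
    have h1 : δ ≤ m / (4 * C) := min_le_right _ _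
    calc C * δ ≤ C * (m / (4 * C)) := by gcongr
      _ = m / 4 := by field_simp
  have hε : 0 < m * κ / 8 := by positivity
  obtain ⟨η, i0, i1, K, hη, hi0, hi1, hK, hclose⟩ :=
    Sa_close (u := u) hβ hκ hκ1 hδ hδκ hε
  refine ⟨β, κ, m * κ / 32, η, m * κ / 2, i0, i1, K, hβ, hκ, hκ1, by positivity, hη,
    by positivity, hi0, hi1, ?_⟩
  filter_upwards [hclose, FF_ineq hδ (by linarith), eventually_gt_atTop 1] with T h1 h2 hT ψ hψ
  obtain ⟨hI, hFκ, hmain⟩ := hA δ hδ hδκ (FF T δ) (FF_mono hT) (fun y hy => one_le_FF hT hy)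
    (FF_right hT) (fun y h0 h3 => h2 y h0 (h3.trans hκ1.le))
  set I₀ : ℝ := ∫ x in (0 : ℝ)..κ, FF T δ x with hI₀
  set S₀ : ℂ := Complex.exp (z * κ) * (FF T δ κ : ℂ) -
    z * ∫ x in (0 : ℝ)..κ, Complex.exp (z * x) * (FF T δ x : ℂ) with hS₀
  set S : ℂ := Sa (ap T η κ i0 i1 K) (2 * π * u / Real.log T) (β / Real.log T) ⌊T ^ κ⌋₊ with hS
  have hI0 : 0 < I₀ := hκ.trans_le hI
  have hS₀n : ‖S₀‖ ≤ 4 / κ * I₀ := (norm_S0_le hT hκ.le hβ.le).trans hFκ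
  have e1 : ‖Complex.exp (I * ψ)‖ = 1 := Complex.norm_exp_I_mul_ofReal ψ
  have e2 : ‖Complex.exp (I * ((π * u : ℝ) : ℂ))‖ = 1 := Complex.norm_exp_I_mul_ofReal _
  have e3 : ‖Complex.exp (I * ψ) - Complex.exp (I * ((π * u : ℝ) : ℂ))‖ ≤ m * κ / 32 := by
    have h3 : Complex.exp (I * ψ) - Complex.exp (I * ((π * u : ℝ) : ℂ)) =
        Complex.exp (I * ((π * u : ℝ) : ℂ)) *
          (Complex.exp (I * ((ψ - π * u : ℝ) : ℂ)) - 1) := by
      rw [mul_sub, ← Complex.exp_add, mul_one]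
      congr 2
      push_cast
      ring
    rw [h3, norm_mul, e2, one_mul]
    exact Real.norm_exp_I_mul_ofReal_sub_one_le.trans hψ
  have d1 : (Complex.exp (I * ψ) * (S - S₀)).im ≤ m * κ / 8 := by
    refine (Complex.im_le_norm _).trans ?_
    rw [norm_mul, e1, one_mul]
    exact h1
  have d2 : ((Complex.exp (I * ψ) - Complex.exp (I * ((π * u : ℝ) : ℂ))) * S₀).im ≤
      m / 8 * I₀ := by
    refine (Complex.im_le_norm _).trans ?_
    rw [norm_mul]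
    calc ‖Complex.exp (I * ψ) - Complex.exp (I * ((π * u : ℝ) : ℂ))‖ * ‖S₀‖
        ≤ m * κ / 32 * (4 / κ * I₀) := mul_le_mul e3 hS₀n (norm_nonneg _) (by positivity)
      _ = m / 8 * I₀ := by
          field_simp
          ring
  have d3 : (Complex.exp (I * ((π * u : ℝ) : ℂ)) *
      (S₀ - ((2 / κ ^ 2 * I₀ : ℝ) : ℂ) * J)).im ≤ m / 4 * I₀ := by
    refine (Complex.im_le_norm _).trans ?_
    rw [norm_mul, e2, one_mul]
    refine hmain.trans ?_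
    exact mul_le_mul_of_nonneg_right hδm hI0.le
  have d4 : (Complex.exp (I * ((π * u : ℝ) : ℂ)) * (((2 / κ ^ 2 * I₀ : ℝ) : ℂ) * J)).im =
      -(m * I₀) := by
    have h3 : Complex.exp (I * ((π * u : ℝ) : ℂ)) * (((2 / κ ^ 2 * I₀ : ℝ) : ℂ) * J) =
        ((2 / κ ^ 2 * I₀ : ℝ) : ℂ) * (Complex.exp (I * ((π * u : ℝ) : ℂ)) * J) := by ring
    rw [h3, Complex.im_ofReal_mul, hm]
    ring
  have d5 : Complex.exp (I * ψ) * S = Complex.exp (I * ψ) * (S - S₀) +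
      (Complex.exp (I * ψ) - Complex.exp (I * ((π * u : ℝ) : ℂ))) * S₀ +
      Complex.exp (I * ((π * u : ℝ) : ℂ)) * (S₀ - ((2 / κ ^ 2 * I₀ : ℝ) : ℂ) * J) +
      Complex.exp (I * ((π * u : ℝ) : ℂ)) * (((2 / κ ^ 2 * I₀ : ℝ) : ℂ) * J) := by ring
  rw [d5, Complex.add_im, Complex.add_im, Complex.add_im, d4]
  have d6 : m * κ ≤ m * I₀ := mul_le_mul_of_nonneg_left hI hm0.le
  linarith

end Pool.Agent.MP_67227b_nt.Pp
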