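import Pool.Agent.MP_67227b_nt.Pp.PpHalf
import Pool.Agent.MP_67227b_nt.Pp.PpArch
import Pool.Agent.MP_67227b_nt.Pp.PpKh
import Pool.Agent.MP_67227b_nt.Pp.PpMk

set_option autoImplicit false

open Filter Topology Set MeasureTheory Complex
open scoped Real ArithmeticFunction ContDiff

namespace Pool.Agent.MP_67227b_nt.Pp

open Pool.Agent.Lib.ZetaCount_helper33 Pool.Agent.MP_67227b_nt Pool.Agent.MP_67227b_nt.Mo
open Pool.Agent.MP_67227b_nt.Sg
open Pool.Agent.MP_67227b_nt.Mo.MomentBAux (DP)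

private lemma phi_bump {h : ℝ → ℂ} (hh : Bump 1 h) (w : ℝ) :
    Bump 1 (fun v : ℝ => h v * Complex.exp (-((w : ℂ) * v))) where
  smooth := by
    apply hh.smooth.mul
    apply ContDiff.cexp
    apply ContDiff.neg
    apply contDiff_const.mul
    exact Complex.ofRealCLM.contDiff
  supp := fun v hv => by simp only [hh.supp v hv, zero_mul]

private lemma phi_PS {h : ℝ → ℂ} (hh : Bump 1 h) {L' : ℝ} (hL : 0 < L') (w t : ℝ) :
    ∑' n : ℕ, ((Λ n / Real.sqrt n : ℝ) : ℂ) * ((fun v : ℝ => h v * Complex.exp (-((w : ℂ) * v)))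
      (Real.log n / L') * Complex.exp (-(I * t * Real.log n))) =
      PS h L' (pl (1 / 2 + w / L') t) := by
  rw [tsum_eq_sum (s := Finset.Ioc 0 ⌊Real.exp L'⌋₊)]
  · unfold PS
    apply Finset.sum_congr rfl
    intro n hn
    have hn0 : n ≠ 0 := by have := (Finset.mem_Ioc.1 hn).1; omega
    have hnC : (n : ℂ) ≠ 0 := by exact_mod_cast hn0
    have hnR : (0 : ℝ) < n := by exact_mod_cast Nat.pos_of_ne_zero hn0
    rw [Complex.cpow_def_of_ne_zero hnC, ← Complex.natCast_log]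
    have e1 : ((Real.sqrt n : ℝ) : ℂ)⁻¹ = Complex.exp (-(((Real.log n : ℝ) : ℂ) / 2)) := by
      have : Real.sqrt n = Real.exp (Real.log n / 2) := by
        rw [Real.sqrt_eq_rpow, Real.rpow_def_of_pos hnR]
        congr 1; ring
      rw [this, Complex.exp_neg]
      push_cast
      rfl
    have e2 : ((Λ n / Real.sqrt n : ℝ) : ℂ) = ((Λ n : ℝ) : ℂ) *
        Complex.exp (-(((Real.log n : ℝ) : ℂ) / 2)) := by
      rw [← e1]; push_cast; ring
    rw [e2]
    simp only
    have e3 : Complex.exp (((Real.log n : ℝ) : ℂ) * -(pl (1 / 2 + w / L') t)) =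
        Complex.exp (-(((Real.log n : ℝ) : ℂ) / 2)) *
          (Complex.exp (-((w : ℂ) * ((Real.log n / L' : ℝ) : ℂ))) *
            Complex.exp (-(I * t * Real.log n))) := by
      rw [← Complex.exp_add, ← Complex.exp_add]
      congr 1
      unfold pl
      push_cast
      ring
    rw [e3]
    ring
  · intro n hn
    by_cases hn0 : n = 0
    · subst hn0; simp
    · have h1 : ⌊Real.exp L'⌋₊ < n := by
        by_contra hcon
        exact hn (Finset.mem_Ioc.2 ⟨Nat.pos_of_ne_zero hn0, not_lt.1 hcon⟩)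
      have h2 : Real.exp L' < n := (Nat.floor_lt (Real.exp_pos _).le).1 h1
      have h3 : L' < Real.log n := (Real.lt_log_iff_exp_lt
        (by exact_mod_cast Nat.pos_of_ne_zero hn0)).2 h2
      have h4 : 1 < |Real.log n / L'| := by
        rw [abs_of_pos (div_pos (by linarith) hL)]
        rw [one_lt_div hL]; exact h3
      simp only [hh.supp _ h4, zero_mul, mul_zero]

/-- MODULE X3. Selberg's formula. Put `s = 1/2 + w/L' + it` and, for a zero `z` of ordinate `γ`,
`ω = w + i L' (t - γ) = L' (s - z)`. `half_formula` for `η(v) = h(v) e^{-wv}` has the terms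
`L' ∫_{v>0} h(v) e^{-ωv} dv = L'/ω - L' K(ω) = 1/(s - z) - L' K(ω)`, and
`∑_{z ∈ ZZ T'} mu z/(s - z) = ST T' s → ξ'/ξ(s)` (`tendsto_ST`, Mo/PartFrac; `sum_ZZ`).
The series over `K(ω)` converges absolutely by `Kh_bound` (`|ω|^2 = w^2 + L'^2 (t-γ)^2`) and
`summable_Mk`. `arch_uniform` gives the archimedean term and
`Λ(n)/√n h(log n/L') e^{-w log n/L'} e^{-it log n} = Λ(n) h(log n/L') n^{-s}`, zero for
`log n > L'`. -/
theorem phi_formula (hRH : RiemannHypothesis) {h : ℝ → ℂ} (hh : Cut h) {W : ℝ} (hW : 0 < W) :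
    ∃ C : ℝ, 0 < C ∧ ∀ L' : ℝ, 1 ≤ L' → ∀ w : ℝ, 0 < w → w ≤ W → ∀ t : ℝ,
      (Summable fun z : Zer => (mu z : ℂ) * Kh h ((w : ℂ) + ((L' * (t - ord z) : ℝ) : ℂ) * I)) ∧
      ‖logDeriv xi (pl (1 / 2 + w / L') t) - archF (pt32 t) + PS h L' (pl (1 / 2 + w / L') t) -
        (L' : ℂ) * ∑' z : Zer, (mu z : ℂ) * Kh h ((w : ℂ) + ((L' * (t - ord z) : ℝ) : ℂ) * I)‖ ≤
        C * Real.exp L' / (1 + |t|) := by
  obtain ⟨CK, hCK, hKb⟩ := Kh_bound hh
  obtain ⟨CA, hCA, hA⟩ := arch_uniform hh.bump hW.le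
  refine ⟨CA, hCA, fun L' hL' w hw hwW t => ?_⟩
  have hL0 : 0 < L' := by linarith
  have hLC : (L' : ℂ) ≠ 0 := by exact_mod_cast hL0.ne'
  set om : Zer → ℂ := fun z => (w : ℂ) + ((L' * (t - ord z) : ℝ) : ℂ) * I with hom
  have homre : ∀ z, (om z).re = w := fun z => by simp [hom]
  have homim : ∀ z, (om z).im = L' * (t - ord z) := fun z => by
    simp [hom]
  have hom0 : ∀ z, om z ≠ 0 := fun z h0 => by
    have := homre z
    rw [h0, Complex.zero_re] at this
    linarith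
  have hsum : Summable fun z : Zer => (mu z : ℂ) * Kh h (om z) := by
    have h1 := (summable_Mk hRH hL0 hw t).mul_left (CK / w ^ 2)
    apply Summable.of_norm_bounded h1
    intro z
    rw [norm_mul, norm_real, Real.norm_of_nonneg (mu_nonneg z)]
    have h2 := (hKb (om z) (by rw [homre]; exact hw)).2
    have h3 : ‖om z‖ ^ 2 = w ^ 2 + (L' * (t - ord z)) ^ 2 := by
      rw [Complex.sq_norm, Complex.normSq_apply, homre, homim]; ring
    have h4 : Real.exp (-((om z).re / 2)) ≤ 1 := by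
      rw [homre, Real.exp_le_one_iff]; linarith
    have h5 : ‖Kh h (om z)‖ ≤ CK / (w ^ 2 + (L' * (t - ord z)) ^ 2) := by
      refine h2.trans ?_
      rw [h3]
      apply div_le_div_of_nonneg_right _ (by positivity)
      nlinarith [Real.exp_pos (-((om z).re / 2))]
    have h6 : CK / (w ^ 2 + (L' * (t - ord z)) ^ 2) =
        CK / w ^ 2 * (1 / (1 + (L' * (t - ord z) / w) ^ 2)) := by
      field_simp
    calc mu z * ‖Kh h (om z)‖ ≤ mu z * (CK / w ^ 2 * (1 / (1 + (L' * (t - ord z) / w) ^ 2))) := by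
          apply mul_le_mul_of_nonneg_left _ (mu_nonneg z)
          rw [← h6]; exact h5
      _ = CK / w ^ 2 * (mu z / (1 + (L' * (t - ord z) / w) ^ 2)) := by ring
  refine ⟨hsum, ?_⟩
  set s : ℂ := pl (1 / 2 + w / L') t with hs
  set η : ℝ → ℂ := fun v => h v * Complex.exp (-((w : ℂ) * v)) with hη
  have hηb : Bump 1 η := phi_bump hh.bump w
  have hhalf := half_formula hRH zero_le_one hηb hL0 t
  rw [phi_PS hh.bump hL0 w t] at hhalf
  set X : ℂ := ((L' / (2 * π) : ℝ) : ℂ) * (∫ τ : ℝ, archF (pt32 (1 * τ)) *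
        gs (hsc L' η t) ((τ : ℂ) + ((-1 : ℝ) : ℂ) * I)) with hX
  have hsz : ∀ z : Zer, s - z.1 = om z / L' := by
    intro z
    rw [zer_eq hRH z, hs, eq_div_iff hLC]
    simp only [pl, hom]
    push_cast
    field_simp
    ring
  have hterm : ∀ z : Zer, (mu z : ℂ) * ((L' : ℂ) * ∫ v in Ioi (0 : ℝ),
      η v * Complex.exp (I * ((L' * (ord z - t) : ℝ) : ℂ) * v)) =
      (mu z : ℂ) / (s - z.1) - (L' : ℂ) * ((mu z : ℂ) * Kh h (om z)) := by
    intro z
    have e1 : ∫ v in Ioi (0 : ℝ), η v * Complex.exp (I * ((L' * (ord z - t) : ℝ) : ℂ) * v) =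
        ∫ v in Ioi (0 : ℝ), h v * Complex.exp (-(om z * v)) := by
      congr 1
      ext v
      simp only [hη, hom]
      rw [mul_assoc, ← Complex.exp_add]
      congr 2
      push_cast
      ring
    have e2 : ∫ v in Ioi (0 : ℝ), h v * Complex.exp (-(om z * v)) = 1 / om z - Kh h (om z) := by
      unfold Kh; ring
    rw [e1, e2, hsz]
    have := hom0 z
    field_simp
  have h1 : Tendsto (fun T' : ℝ => ∑ z ∈ ZZ T', (mu z : ℂ) / (s - z.1)) atTop
      (𝓝 (logDeriv xi s)) := by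
    have hre : 1 / 2 < s.re := by
      rw [hs, pl_re]
      have : 0 < w / L' := by positivity
      linarith
    refine (tendsto_ST hRH hre).congr' ?_
    filter_upwards [eventually_ge_atTop 0] with T' hT'
    unfold Mo.ST
    rw [← sum_ZZ hRH hT' (fun u => (analyticOrderNatAt xi u : ℂ) / (s - u))]
    apply Finset.sum_congr rfl
    intro z _
    simp [mu]
  have h2 : Tendsto (fun T' : ℝ => (L' : ℂ) * ∑ z ∈ ZZ T', (mu z : ℂ) * Kh h (om z)) atTop
      (𝓝 ((L' : ℂ) * ∑' z : Zer, (mu z : ℂ) * Kh h (om z))) :=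
    (hsum.hasSum.comp (tendsto_ZZ hRH)).const_mul _
  have h3 : Tendsto (fun T' : ℝ => ∑ z ∈ ZZ T', (mu z : ℂ) * ((L' : ℂ) * ∫ v in Ioi (0 : ℝ),
      η v * Complex.exp (I * ((L' * (ord z - t) : ℝ) : ℂ) * v))) atTop
      (𝓝 (logDeriv xi s - (L' : ℂ) * ∑' z : Zer, (mu z : ℂ) * Kh h (om z))) := by
    refine (h1.sub h2).congr ?_
    intro T'
    rw [Finset.mul_sum, ← Finset.sum_sub_distrib]
    apply Finset.sum_congr rfl
    intro z _
    rw [hterm]
  have h4 := tendsto_nhds_unique h3 hhalf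
  have h5 := hA L' hL' w hw.le hwW t
  rw [hh.one 0 (by simp), mul_one] at h5
  have h6 : logDeriv xi s - archF (pt32 t) + PS h L' s -
      (L' : ℂ) * ∑' z : Zer, (mu z : ℂ) * Kh h (om z) = X - archF (pt32 t) := by
    linear_combination h4
  rw [h6]
  exact h5

end Pool.Agent.MP_67227b_nt.Pp
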