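import Pool.Agent.MP_67227b_nt.Pp.PpMert

set_option autoImplicit false

open Filter Topology Set MeasureTheory Complex
open scoped Real ArithmeticFunction ContDiff

namespace Pool.Agent.MP_67227b_nt.Pp

open Pool.Agent.Lib.ZetaCount_helper33 Pool.Agent.MP_67227b_nt Pool.Agent.MP_67227b_nt.Mo
open Pool.Agent.MP_67227b_nt.Sg
open Pool.Agent.MP_67227b_nt.Mo.MomentBAux (DP)

/-- All prime factors of `n` are at least `e^z`. -/
def Rgh (z : ℝ) (n : ℕ) : Prop := n ≠ 0 ∧ ∀ p : ℕ, p.Prime → p ∣ n → z ≤ Real.log p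

/-- the completely multiplicative function `1/n` -/
noncomputable def N2A_inv : ℕ →* ℝ where
  toFun n := (n : ℝ)⁻¹
  map_one' := by simp
  map_mul' a b := by push_cast; rw [mul_inv]

theorem N2A_inv_le {x : ℝ} (h0 : 0 ≤ x) (h : x ≤ 1 / 2) : (1 - x)⁻¹ ≤ Real.exp (2 * x) := by
  have h1 : 0 < 1 - x := by linarith
  rw [inv_le_comm₀ h1 (Real.exp_pos _), ← Real.exp_neg]
  have h2 : Real.exp (-(2 * x)) ≤ 1 / (1 + 2 * x) := by
    rw [Real.exp_neg, one_div]
    refine inv_anti₀ (by linarith) ?_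
    linarith [Real.add_one_le_exp (2 * x)]
  refine h2.trans ?_
  rw [div_le_iff₀ (by linarith)]
  nlinarith

/-- MODULE N2a. The mass of the rough numbers up to `T`: a rough `n ≤ T` has at most `1/δ` prime
factors (with multiplicity), so the sum is at most `∑_{k ≤ 1/δ} (∑_{T^δ ≤ p ≤ T} 1/p)^k`, and
`∑ 1/p ≤ (1/(δ log T)) ∑ log p/p ≤ 2/δ` for large `T`. -/
theorem rough_mass {δ : ℝ} (hδ : 0 < δ) : ∃ C : ℝ, 0 < C ∧ ∀ᶠ T : ℝ in atTop,
    ∀ S : Finset ℕ, (∀ n ∈ S, (n : ℝ) ≤ T ∧ Rgh (δ * Real.log T) n) →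
      ∑ n ∈ S, (1 : ℝ) / n ≤ C := by
  obtain ⟨C, hC, hM⟩ := sum_prime_div
  refine ⟨Real.exp (2 * ((1 + C) / δ)), Real.exp_pos _, ?_⟩
  have hlog : ∀ᶠ T : ℝ in atTop, 1 ≤ Real.log T := by
    filter_upwards [eventually_ge_atTop (Real.exp 1)] with T hT
    rw [← Real.log_exp 1]
    exact Real.log_le_log (Real.exp_pos 1) hT
  filter_upwards [hlog, eventually_ge_atTop 1] with T hT1 hT S hS
  have hT0 : 0 < Real.log T := by linarith
  set s : Finset ℕ := ((Finset.Ioc ⌊(1 : ℝ)⌋₊ ⌊T⌋₊).filter Nat.Prime).filter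
    (fun p => δ * Real.log T ≤ Real.log (p : ℝ)) with hs
  have hsp : ∀ p ∈ s, p.Prime := fun p hp => (Finset.mem_filter.1 (Finset.mem_filter.1 hp).1).2
  -- the sum of 1/p
  have hsum : ∑ p ∈ s, (1 : ℝ) / p ≤ (1 + C) / δ := by
    have h1 : ∑ p ∈ s, (1 : ℝ) / p ≤ ∑ p ∈ s, (1 / (δ * Real.log T)) * (Real.log p / p) := by
      refine Finset.sum_le_sum fun p hp => ?_
      have hp2 := (Finset.mem_filter.1 hp).2
      have hp0 : (0 : ℝ) < p := by exact_mod_cast (hsp p hp).pos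
      have : (1 : ℝ) ≤ (1 / (δ * Real.log T)) * Real.log p := by
        rw [one_div, inv_mul_eq_div, one_le_div (by positivity)]
        exact hp2
      calc (1 : ℝ) / p ≤ ((1 / (δ * Real.log T)) * Real.log p) / p := by
            gcongr
        _ = _ := by ring
    rw [← Finset.mul_sum] at h1
    have h2 : ∑ p ∈ s, Real.log p / p ≤
        ∑ p ∈ (Finset.Ioc ⌊(1 : ℝ)⌋₊ ⌊T⌋₊).filter Nat.Prime, Real.log p / p := by
      refine Finset.sum_le_sum_of_subset_of_nonneg (Finset.filter_subset _ _) ?_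
      intro p hp _
      exact div_nonneg (Real.log_natCast_nonneg p) (Nat.cast_nonneg p)
    have h3 := (abs_le.1 (hM 1 T le_rfl hT)).2
    rw [Real.log_one, sub_zero] at h3
    have h4 : ∑ p ∈ s, Real.log p / p ≤ (1 + C) * Real.log T := by
      have : C ≤ C * Real.log T := le_mul_of_one_le_right hC.le hT1
      linarith
    refine h1.trans ?_
    calc 1 / (δ * Real.log T) * ∑ p ∈ s, Real.log p / p
        ≤ 1 / (δ * Real.log T) * ((1 + C) * Real.log T) := by gcongr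
      _ = (1 + C) / δ := by field_simp
  -- Euler product
  have hlt : ∀ {p : ℕ}, p.Prime → ‖N2A_inv p‖ < 1 := by
    intro p hp
    have : (1 : ℝ) < p := by exact_mod_cast hp.one_lt
    show ‖((p : ℝ))⁻¹‖ < 1
    rw [norm_inv, Real.norm_natCast]
    exact inv_lt_one_of_one_lt₀ this
  obtain ⟨hsm, hhs⟩ := EulerProduct.summable_and_hasSum_factoredNumbers_prod_filter_prime_geometric
    (f := N2A_inv) (fun {p} hp => hlt hp) s
  have hmem : ∀ n ∈ S, n ∈ Nat.factoredNumbers s := by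
    intro n hn
    obtain ⟨hnT, hn0, hr⟩ := hS n hn
    rw [Nat.mem_factoredNumbers]
    refine ⟨hn0, ?_⟩
    intro p hp
    have hpp := Nat.prime_of_mem_primeFactorsList hp
    have hpd := Nat.dvd_of_mem_primeFactorsList hp
    have hpn : p ≤ n := Nat.le_of_dvd (Nat.pos_of_ne_zero hn0) hpd
    refine Finset.mem_filter.2 ⟨Finset.mem_filter.2 ⟨Finset.mem_Ioc.2 ⟨?_, ?_⟩, hpp⟩, hr p hpp hpd⟩
    · rw [Nat.floor_one]; exact hpp.one_lt
    · exact hpn.trans (Nat.le_floor hnT)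
  have hle : ∑ n ∈ S, (1 : ℝ) / n ≤ ∏ p ∈ s with p.Prime, (1 - N2A_inv p)⁻¹ := by
    have h1 : ∑ n ∈ S, (1 : ℝ) / n = ∑ n ∈ S.attach,
        N2A_inv ((⟨n.1, hmem n.1 n.2⟩ : Nat.factoredNumbers s) : ℕ) := by
      rw [← Finset.sum_attach]
      refine Finset.sum_congr rfl fun n _ => ?_
      show (1 : ℝ) / (n : ℕ) = ((n : ℕ) : ℝ)⁻¹
      rw [one_div]
    rw [h1]
    have hinj : Function.Injective
        (fun n : {x // x ∈ S} => (⟨n.1, hmem n.1 n.2⟩ : Nat.factoredNumbers s)) := by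
      intro a b hab
      exact Subtype.ext (congrArg (fun z : Nat.factoredNumbers s => (z : ℕ)) hab)
    have h2 := Finset.sum_map S.attach
      ⟨fun n : {x // x ∈ S} => (⟨n.1, hmem n.1 n.2⟩ : Nat.factoredNumbers s), hinj⟩
      (fun m : Nat.factoredNumbers s => N2A_inv (m : ℕ))
    simp only [Function.Embedding.coeFn_mk] at h2
    rw [← h2]
    refine sum_le_hasSum _ ?_ hhs
    intro m _
    show (0 : ℝ) ≤ ((m : ℕ) : ℝ)⁻¹
    positivity
  refine hle.trans ?_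
  have hfil : (s.filter fun p => p.Prime) = s := by
    rw [Finset.filter_eq_self]; exact hsp
  rw [hfil]
  calc ∏ p ∈ s, (1 - N2A_inv p)⁻¹ ≤ ∏ p ∈ s, Real.exp (2 * (1 / (p : ℝ))) := by
        refine Finset.prod_le_prod ?_ ?_
        · intro p hp
          have := hlt (hsp p hp)
          rw [Real.norm_eq_abs, abs_lt] at this
          exact inv_nonneg.2 (by linarith)
        · intro p hp
          have h2 : (2 : ℝ) ≤ p := by exact_mod_cast (hsp p hp).two_le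
          show (1 - ((p : ℝ))⁻¹)⁻¹ ≤ _
          rw [one_div]
          refine N2A_inv_le (by positivity) ?_
          rw [one_div]
          exact inv_anti₀ (by norm_num) h2
    _ = Real.exp (2 * ∑ p ∈ s, (1 : ℝ) / p) := by
        rw [← Real.exp_sum, Finset.mul_sum]
    _ ≤ _ := by
        refine Real.exp_le_exp.2 ?_
        linarith

/-- MODULE N2b. Rough numbers with a square factor: `n = p² m`, `m` rough, so the sum is at most
`(∑_{p ≥ T^δ} p^{-2}) · C → 0`. -/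
theorem rough_sq {δ : ℝ} (hδ : 0 < δ) {ε : ℝ} (hε : 0 < ε) : ∀ᶠ T : ℝ in atTop,
    ∀ S : Finset ℕ, (∀ n ∈ S, (n : ℝ) ≤ T ∧ Rgh (δ * Real.log T) n ∧ ¬ Squarefree n) →
      ∑ n ∈ S, (1 : ℝ) / n ≤ ε := by
  classical
  obtain ⟨C, hC, hM⟩ := rough_mass hδ
  have hz : ∀ᶠ T : ℝ in atTop, 2 * C / ε ≤ T ^ δ :=
    (tendsto_rpow_atTop hδ).eventually_ge_atTop _
  filter_upwards [hM, hz, eventually_ge_atTop 1] with T hM hz hT S hS
  have hT0 : 0 < T := by linarith
  have hzpos : 0 < T ^ δ := Real.rpow_pos_of_pos hT0 _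
  have hex : ∀ n ∈ S, ∃ p : ℕ, p.Prime ∧ p * p ∣ n := by
    intro n hn
    by_contra hcon
    push Not at hcon
    exact (hS n hn).2.2 (Nat.squarefree_iff_prime_squarefree.2 hcon)
  let pf : ℕ → ℕ := fun n => if h : ∃ p : ℕ, p.Prime ∧ p * p ∣ n then h.choose else 0
  have hpf : ∀ n ∈ S, (pf n).Prime ∧ pf n * pf n ∣ n := by
    intro n hn
    have h := hex n hn
    simp only [pf, dif_pos h]
    exact h.choose_spec
  let mf : ℕ → ℕ := fun n => n / (pf n * pf n)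
  have hmf : ∀ n ∈ S, n = pf n * pf n * mf n := by
    intro n hn
    exact (Nat.mul_div_cancel' (hpf n hn).2).symm
  have hinj : Set.InjOn (fun n => (pf n, mf n)) (S : Set ℕ) := by
    intro a ha b hb hab
    simp only [Prod.mk.injEq] at hab
    rw [hmf a ha, hmf b hb, hab.1, hab.2]
  have hpz : ∀ n ∈ S, T ^ δ ≤ pf n := by
    intro n hn
    have h1 := (hS n hn).2.1.2 (pf n) (hpf n hn).1 (dvd_trans (dvd_mul_right _ _) (hpf n hn).2)
    have h2 : (0 : ℝ) < pf n := by exact_mod_cast (hpf n hn).1.pos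
    rw [← Real.exp_log h2, Real.rpow_def_of_pos hT0]
    exact Real.exp_le_exp.2 (by linarith [mul_comm δ (Real.log T)])
  have hstep : ∑ n ∈ S, (1 : ℝ) / n ≤
      (∑ p ∈ S.image pf, (1 : ℝ) / (p : ℝ) ^ 2) * ∑ m ∈ S.image mf, (1 : ℝ) / m := by
    rw [Finset.sum_mul_sum, ← Finset.sum_product']
    have h1 : ∑ n ∈ S, (1 : ℝ) / n = ∑ x ∈ S.image (fun n => (pf n, mf n)),
        (1 : ℝ) / (x.1 : ℝ) ^ 2 * (1 / (x.2 : ℝ)) := by
      rw [Finset.sum_image hinj]
      refine Finset.sum_congr rfl fun n hn => ?_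
      have h := hmf n hn
      have h' : (n : ℝ) = (pf n : ℝ) * pf n * mf n := by exact_mod_cast h
      rw [h', sq, ← one_div_mul_one_div]
    rw [h1]
    refine Finset.sum_le_sum_of_subset_of_nonneg ?_ ?_
    · intro x hx
      obtain ⟨n, hn, rfl⟩ := Finset.mem_image.1 hx
      exact Finset.mem_product.2 ⟨Finset.mem_image_of_mem _ hn, Finset.mem_image_of_mem _ hn⟩
    · intro x _ _
      positivity
  have hm : ∑ m ∈ S.image mf, (1 : ℝ) / m ≤ C := by
    refine hM _ ?_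
    intro m hm'
    obtain ⟨n, hn, rfl⟩ := Finset.mem_image.1 hm'
    have hmn := hmf n hn
    have hdvd : mf n ∣ n := ⟨pf n * pf n, by rw [mul_comm]; exact hmn⟩
    have hn0 : n ≠ 0 := (hS n hn).2.1.1
    refine ⟨?_, ?_, ?_⟩
    · have : mf n ≤ n := Nat.le_of_dvd (Nat.pos_of_ne_zero hn0) hdvd
      exact le_trans (by exact_mod_cast this) (hS n hn).1
    · intro h0
      rw [h0, mul_zero] at hmn
      exact hn0 hmn
    · intro p hp hpd
      exact (hS n hn).2.1.2 p hp (hpd.trans hdvd)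
  have hp : ∑ p ∈ S.image pf, (1 : ℝ) / (p : ℝ) ^ 2 ≤ 2 / T ^ δ := by
    set k := ⌈T ^ δ⌉₊ - 1 with hk
    have hk1 : k + 1 = ⌈T ^ δ⌉₊ := by
      have : 0 < ⌈T ^ δ⌉₊ := Nat.ceil_pos.2 hzpos
      omega
    obtain ⟨N, hN⟩ : ∃ N, ∀ p ∈ S.image pf, p < N := by
      refine ⟨(S.image pf).sup id + 1, fun p hp => ?_⟩
      exact Nat.lt_succ_of_le (Finset.le_sup (f := id) hp)
    have hsub : S.image pf ⊆ Finset.Ioo k N := by
      intro p hp
      refine Finset.mem_Ioo.2 ⟨?_, hN p hp⟩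
      obtain ⟨n, hn, rfl⟩ := Finset.mem_image.1 hp
      have : ⌈T ^ δ⌉₊ ≤ pf n := Nat.ceil_le.2 (hpz n hn)
      omega
    calc ∑ p ∈ S.image pf, (1 : ℝ) / (p : ℝ) ^ 2
        ≤ ∑ p ∈ Finset.Ioo k N, (1 : ℝ) / (p : ℝ) ^ 2 :=
          Finset.sum_le_sum_of_subset_of_nonneg hsub (fun _ _ _ => by positivity)
      _ = ∑ p ∈ Finset.Ioo k N, ((p : ℝ) ^ 2)⁻¹ := by simp only [one_div]
      _ ≤ 2 / ((k : ℝ) + 1) := sum_Ioo_inv_sq_le k N
      _ ≤ 2 / T ^ δ := by
          refine div_le_div_of_nonneg_left (by norm_num) hzpos ?_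
          have : ((k : ℝ) + 1) = (⌈T ^ δ⌉₊ : ℝ) := by exact_mod_cast congrArg Nat.cast hk1
          rw [this]
          exact Nat.le_ceil _
  refine hstep.trans ?_
  calc (∑ p ∈ S.image pf, (1 : ℝ) / (p : ℝ) ^ 2) * ∑ m ∈ S.image mf, (1 : ℝ) / m
      ≤ (2 / T ^ δ) * C := by
        refine mul_le_mul hp hm ?_ (by positivity)
        exact Finset.sum_nonneg fun _ _ => by positivity
    _ ≤ ε := by
        rw [div_mul_eq_mul_div, div_le_iff₀ hzpos]
        rw [div_le_iff₀ hε] at hz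
        linarith

end Pool.Agent.MP_67227b_nt.Pp
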